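import Pool.Agent.V11288.HS.Log
import Pool.Agent.TH270.MS.Sys

/-! The mean square law and the Hardy space. -/

set_option autoImplicit false

open MeasureTheory Filter Topology Set Complex
open scoped ENNReal
open Pool.Agent.TH942.LS (Dat)
open Pool.Agent.TH942.SL
open Pool.Agent.TH942.ES
open Pool.Agent.TH270.RS (cS')
open Pool.Agent.TH270.MS

namespace Pool.Agent.V11288.HS

variable {lam c : ℕ → ℝ} {δ σ : ℝ}

/-- the continuation of the Dirichlet series -/
noncomputable def ell (lam c : ℕ → ℝ) (r q : ℝ) (s : ℂ) : ℂ :=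
  s * (∫ u : ℝ, (Df lam c r q u : ℂ) * exp (-(s * u))) + r * log s + q

theorem ell_eq (D : Dat lam c δ σ) (r q : ℝ) {s : ℂ} (hs : σ < s.re) :
    ell lam c r q s = DD lam c s := by
  have hs0 : 0 < s.re := D.σ0.trans hs
  have h0 : s ≠ 0 := by rintro rfl; simp at hs0
  unfold ell
  rw [df_lap D r q hs]
  field_simp
  ring

lemma df_sq (D : Dat lam c δ σ) (r q : ℝ) : ∫⁻ u : ℝ, ‖(Df lam c r q u : ℂ)‖ₑ ^ 2 =
    ∫⁻ u in Ioi (0 : ℝ), ENNReal.ofReal (Df lam c r q u ^ 2) := by
  rw [← lintegral_indicator measurableSet_Ioi]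
  refine lintegral_congr fun u => ?_
  rcases lt_or_ge 0 u with hu | hu
  · rw [indicator_of_mem (show u ∈ Ioi (0 : ℝ) from hu), ← ofReal_norm, Complex.norm_real,
      ← ENNReal.ofReal_pow (norm_nonneg _), Real.norm_eq_abs, sq_abs]
  · rw [indicator_of_notMem (show u ∉ Ioi (0 : ℝ) from not_lt.2 hu), df_zero r q hu]
    simp

/-- **from the mean square to the logarithm** -/
theorem to_log (D : Dat lam c δ σ) (r q : ℝ) {C : ℝ} (hC : 0 ≤ C)
    (h : ∫⁻ u in Ioi (0 : ℝ), ENNReal.ofReal (Df lam c r q u ^ 2) ≤ ENNReal.ofReal C) :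
    (∀ s : ℂ, 0 < s.re → DifferentiableAt ℂ (ell lam c r q) s) ∧
    (∀ x : ℝ, 0 < x → ∫⁻ t : ℝ, ENNReal.ofReal
      (‖(ell lam c r q (x + t * I) - r * log (x + t * I) - q) / (x + t * I)‖ ^ 2) ≤
        ENNReal.ofReal (2 * Real.pi * C)) ∧
    ∀ s : ℂ, 0 < s.re → ‖ell lam c r q s - r * log s - q‖ ^ 2 ≤ C * ‖s‖ ^ 2 / (2 * s.re) := by
  set k : ℝ → ℂ := fun u => (Df lam c r q u : ℂ) with hk
  have hkm : Measurable k := Complex.measurable_ofReal.comp (df_meas D r q)
  rw [← df_sq D] at h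
  obtain ⟨h1, h2, h3⟩ := to_hardy hkm.aestronglyMeasurable
    (fun u hu => by rw [hk]; simp only; rw [df_zero r q hu.le]; simp) hC h
  have hne : ∀ s : ℂ, 0 < s.re → s ≠ 0 := fun s hs => by rintro rfl; simp at hs
  have key : ∀ s : ℂ, 0 < s.re → (ell lam c r q s - r * log s - q) / s =
      ∫ u : ℝ, k u * exp (-(s * u)) := by
    intro s hs
    have := hne s hs
    unfold ell
    rw [hk]
    field_simp
    ring
  refine ⟨fun s hs => ?_, fun x hx => ?_, fun s hs => ?_⟩
  · -- holomorphy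
    have hL : ∀ w : ℝ, 0 < w → Pool.Agent.W263.BSD.LInt (Df lam c r q) w := by
      intro w hw
      have h4 := (h1 w hw).re.integrableOn (s := Ioi (0 : ℝ))
      unfold Pool.Agent.W263.BSD.LInt
      refine IntegrableOn.congr_fun h4 (fun u _ => ?_) measurableSet_Ioi
      simp only [hk]
      have e : ((Df lam c r q u : ℝ) : ℂ) * exp (-((w : ℂ) * u)) =
          ((Df lam c r q u * Real.exp (-(w * u)) : ℝ) : ℂ) := by
        push_cast
        rfl
      rw [e]
      exact Complex.ofReal_re _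
    have h5 := Pool.Agent.W263.BSD.lapC_differentiableAt (df_meas D r q) (w0 := 0)
      (fun w hw => hL w hw) hs
    have e : (fun s : ℂ => ∫ u : ℝ, (Df lam c r q u : ℂ) * exp (-(s * u))) =
        Pool.Agent.W263.BSD.lapC (Df lam c r q) := by
      funext z
      unfold Pool.Agent.W263.BSD.lapC
      symm
      refine setIntegral_eq_integral_of_forall_compl_eq_zero fun u hu => ?_
      rw [df_zero r q (by simpa using hu)]
      simp
    rw [← e] at h5
    have h6 : DifferentiableAt ℂ log s :=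
      (Complex.hasDerivAt_log (Or.inl hs)).differentiableAt
    unfold ell
    exact ((differentiableAt_id.mul h5).add (h6.const_mul _)).add_const _
  · have h4 := h2 x hx
    refine le_trans (le_of_eq (lintegral_congr fun t => ?_)) h4
    rw [key _ (by simpa using hx), ← ofReal_norm, ENNReal.ofReal_pow (norm_nonneg _)]
  · have h4 := h3 s hs
    rw [← key s hs, norm_div, div_pow] at h4
    have h5 : 0 < ‖s‖ ^ 2 := by have := norm_pos_iff.2 (hne s hs); positivity
    rw [div_le_iff₀ h5] at h4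
    refine h4.trans (le_of_eq ?_)
    ring

/-- **from the logarithm to the mean square** -/
theorem of_log (D : Dat lam c δ σ) (r q : ℝ) {C : ℝ} (hC : 0 ≤ C) {ℓ : ℂ → ℂ}
    (hd : ∀ s : ℂ, 0 < s.re → DifferentiableAt ℂ ℓ s)
    (he : ∀ s : ℂ, σ < s.re → exp (ℓ s) = exp (DD lam c s))
    (h : ∀ x : ℝ, 0 < x → ∫⁻ t : ℝ, ENNReal.ofReal
      (‖(ℓ (x + t * I) - r * log (x + t * I) - q) / (x + t * I)‖ ^ 2) ≤
        ENNReal.ofReal (2 * Real.pi * C)) :
    ∫⁻ u in Ioi (0 : ℝ), ENNReal.ofReal (Df lam c r q u ^ 2) ≤ ENNReal.ofReal C := by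
  have hσ := D.σ0
  have hne : ∀ s : ℂ, 0 < s.re → s ≠ 0 := fun s hs => by rintro rfl; simp at hs
  -- the branch
  have hU : IsOpen {z : ℂ | σ < z.re} := isOpen_lt continuous_const Complex.continuous_re
  have hgd : ∀ s : ℂ, σ < s.re → DifferentiableAt ℂ (fun z => ℓ z - DD lam c z) s := fun s hs =>
    (hd s (hσ.trans hs)).sub (dd_deriv D hs).differentiableAt
  have hg1 : ∀ s : ℂ, σ < s.re → exp (ℓ s - DD lam c s) = 1 := fun s hs => by
    rw [Complex.exp_sub, he s hs, div_self (Complex.exp_ne_zero _)]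
  have hg0 : EqOn (deriv fun z => ℓ z - DD lam c z) 0 {z : ℂ | σ < z.re} := by
    intro s hs
    have h1 := (hgd s hs).hasDerivAt.cexp
    have h2 : (fun z => exp (ℓ z - DD lam c z)) =ᶠ[𝓝 s] fun _ => 1 := by
      filter_upwards [hU.mem_nhds hs] with z hz
      exact hg1 z hz
    have h3 := h1.congr_of_eventuallyEq h2.symm
    have h4 := h3.unique (hasDerivAt_const s (1 : ℂ))
    rw [hg1 s hs, one_mul] at h4
    exact h4
  have hz0 : σ < (((σ + 1 : ℝ) : ℂ)).re := by
    rw [Complex.ofReal_re]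
    linarith
  obtain ⟨m, hm0⟩ := Complex.exp_eq_one_iff.1 (hg1 _ hz0)
  have hm : ∀ s : ℂ, σ < s.re → ℓ s = DD lam c s + m * (2 * Real.pi * I) := by
    intro s hs
    have h1 := hU.is_const_of_deriv_eq_zero (convex_halfSpace_re_gt σ).isPreconnected
      (fun z hz => (hgd z hz).differentiableWithinAt) hg0 hs hz0
    rw [hm0] at h1
    rw [← h1]
    ring
  -- the complex function on the line
  set k : ℝ → ℂ := fun u => (Df lam c r q u : ℂ) +
    (m * (2 * Real.pi) : ℝ) * I * (Ici (0 : ℝ)).indicator (fun _ => (1 : ℂ)) u with hk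
  have i3 : ∀ s : ℂ, 0 < s.re → Integrable fun u : ℝ => ((m * (2 * Real.pi) : ℝ) : ℂ) * I *
      (Ici (0 : ℝ)).indicator (fun T : ℝ => exp (-(s * T))) u := fun s hs =>
    (integrable_step hs 0).const_mul _
  have ek : ∀ (s : ℂ) (u : ℝ), k u * exp (-(s * u)) = (Df lam c r q u : ℂ) * exp (-(s * u)) +
      ((m * (2 * Real.pi) : ℝ) : ℂ) * I * (Ici (0 : ℝ)).indicator (fun T : ℝ => exp (-(s * T))) u := by
    intro s u
    rw [hk]
    by_cases hu : u ∈ Ici (0 : ℝ)
    · rw [indicator_of_mem hu]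
      simp only
      rw [indicator_of_mem hu]
      ring
    · rw [indicator_of_notMem hu]
      simp only
      rw [indicator_of_notMem hu]
      ring
  have hk1 : ∀ s : ℂ, σ < s.re → Integrable fun u : ℝ => k u * exp (-(s * u)) := by
    intro s hs
    refine ((df_int D r q hs).add (i3 s (hσ.trans hs))).congr ?_
    exact Eventually.of_forall fun u => (ek s u).symm
  have hk2 : ∀ s : ℂ, σ < s.re → (ℓ s - r * log s - q) / s = ∫ u : ℝ, k u * exp (-(s * u)) := by
    intro s hs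
    have hs0 := hσ.trans hs
    simp only [ek]
    rw [integral_add (df_int D r q hs) (i3 s hs0), df_lap D r q hs, integral_const_mul,
      integral_step hs0, hm s hs]
    simp only [Complex.ofReal_zero, mul_zero, neg_zero, Complex.exp_zero]
    push_cast
    ring
  have h5 := of_hardy (k := k) (H := fun s => (ℓ s - r * log s - q) / s) (a := σ)
    (M := 2 * Real.pi * C) hσ.le (by positivity) (fun x hx => hk1 x (by simpa using hx)) hk2
    (fun s hs => by
      have h6 : DifferentiableAt ℂ log s :=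
        (Complex.hasDerivAt_log (Or.inl hs)).differentiableAt
      exact (((hd s hs).sub (h6.const_mul _)).sub_const _).div differentiableAt_id (hne s hs))
    (fun x hx => by
      refine le_trans (le_of_eq (lintegral_congr fun t => ?_)) (h x hx)
      rw [← ofReal_norm, ENNReal.ofReal_pow (norm_nonneg _)])
  have h6 : (2 * Real.pi)⁻¹ * (2 * Real.pi * C) = C := by field_simp
  rw [h6] at h5
  rw [← df_sq D]
  refine (lintegral_mono fun u => ?_).trans h5
  have h7 : ‖(Df lam c r q u : ℂ)‖ ≤ ‖k u‖ := by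
    have h8 : (k u).re = Df lam c r q u := by
      rw [hk]
      by_cases hu : u ∈ Ici (0 : ℝ)
      · simp only
        rw [indicator_of_mem hu]
        simp
      · simp only
        rw [indicator_of_notMem hu]
        simp
    rw [Complex.norm_real, ← h8]
    exact Complex.abs_re_le_norm _
  have h8 : ‖(Df lam c r q u : ℂ)‖ₑ ≤ ‖k u‖ₑ := by
    rw [← ofReal_norm, ← ofReal_norm]
    exact ENNReal.ofReal_le_ofReal h7
  exact pow_le_pow_left' h8 2

/-! ### systems of primes -/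

variable {X : Type} {d : ℕ} {N : X → ℕ} {α : X → Fin d → ℂ} {e : X × ℕ → ℕ}

theorem sh_pl (E : Sys N α) (he : Function.Injective e) (T : ℝ) :
    Sh (lamS N e) (cS N α e) T = Pl N α (Real.exp T) := by
  have h1 := sh_eq E he T
  have h2 : Sh (lamS N e) (cS N α e) T = -Sh (lamS N e) (cS' N α e) T := by
    unfold Sh
    rw [← tsum_neg]
    refine tsum_congr fun n => ?_
    unfold cS'
    split_ifs <;> ring
  rw [h2, h1, neg_neg]

/-- the deviation for a real exponent -/
noncomputable def Dr (N : X → ℕ) (α : X → Fin d → ℂ) (r q Y : ℝ) : ℝ :=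
  Pl N α Y + r * (Real.eulerMascheroniConstant + Real.log (Real.log Y)) - q

theorem cov_lin (φ : ℝ → ℝ) :
    ∫⁻ Y in Ioi (1 : ℝ), ENNReal.ofReal (φ (Real.log Y) / Y) =
      ∫⁻ u in Ioi (0 : ℝ), ENNReal.ofReal (φ u) := by
  have himg : Real.exp '' Ioi 0 = Ioi (1 : ℝ) := by
    ext x
    constructor
    · rintro ⟨t, ht, rfl⟩
      exact Real.one_lt_exp_iff.2 ht
    · intro hx
      have hx1 : (1 : ℝ) < x := hx
      have h0 : 0 < x := by linarith
      exact ⟨Real.log x, Real.log_pos hx1, Real.exp_log h0⟩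
  rw [← himg, lintegral_image_eq_lintegral_abs_deriv_mul measurableSet_Ioi
    (fun x _ => (Real.hasDerivAt_exp x).hasDerivWithinAt) Real.exp_injective.injOn]
  refine setLIntegral_congr_fun measurableSet_Ioi fun t _ => ?_
  have h0 := Real.exp_pos t
  simp only [Real.log_exp, abs_of_pos h0]
  rw [← ENNReal.ofReal_mul h0.le]
  congr 1
  field_simp

theorem dr_sq (E : Sys N α) (he : Function.Injective e) (r q : ℝ) :
    ∫⁻ Y in Ioi (1 : ℝ), ENNReal.ofReal (Dr N α r q Y ^ 2 / Y) =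
      ∫⁻ u in Ioi (0 : ℝ), ENNReal.ofReal (Df (lamS N e) (cS N α e) r q u ^ 2) := by
  rw [← cov_lin]
  refine setLIntegral_congr_fun measurableSet_Ioi fun Y hY => ?_
  have hY1 : (1 : ℝ) < Y := hY
  have h0 : 0 < Y := by linarith
  unfold Df Dr gl
  rw [indicator_of_mem (show Real.log Y ∈ Ioi (0 : ℝ) from Real.log_pos hY1), sh_pl E he,
    Real.exp_log h0]

/-- **The mean square law and the Hardy space**, for systems of primes -/
theorem hardy_iff (E : Sys N α) (hreal : ∀ v k, (∑ i, zv N α v i ^ k).im = 0) (r q : ℝ) {C : ℝ}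
    (hC : 0 ≤ C) :
    ((∫⁻ Y in Ioi (1 : ℝ), ENNReal.ofReal (Dr N α r q Y ^ 2 / Y) ≤ ENNReal.ofReal C) ↔
      ∃ ℓ : ℂ → ℂ, (∀ s : ℂ, 0 < s.re → DifferentiableAt ℂ ℓ s) ∧
        (∀ s : ℂ, 1 / 2 < s.re → exp (ℓ s) = LE N α s) ∧
        ∀ x : ℝ, 0 < x → ∫⁻ t : ℝ, ENNReal.ofReal
          (‖(ℓ (x + t * I) - r * log (x + t * I) - q) / (x + t * I)‖ ^ 2) ≤
            ENNReal.ofReal (2 * Real.pi * C)) ∧
    ((∫⁻ Y in Ioi (1 : ℝ), ENNReal.ofReal (Dr N α r q Y ^ 2 / Y) ≤ ENNReal.ofReal C) →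
      ∃ ℓ : ℂ → ℂ, (∀ s : ℂ, 0 < s.re → DifferentiableAt ℂ ℓ s) ∧
        (∀ s : ℂ, 1 / 2 < s.re → exp (ℓ s) = LE N α s) ∧
        ∀ s : ℂ, 0 < s.re → ‖ℓ s - r * log s - q‖ ^ 2 ≤ C * ‖s‖ ^ 2 / (2 * s.re)) := by
  have := E.cnt
  obtain ⟨e, he⟩ := Countable.exists_injective_nat (X × ℕ)
  have D := E.datS he (σ := 1) (by norm_num)
  rw [dr_sq E he]
  have hexp : ∀ s : ℂ, 1 / 2 < s.re → exp (ell (lamS N e) (cS N α e) r q s) = LE N α s := by
    intro s hs
    obtain ⟨σ', h1, h2⟩ := exists_between hs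
    rw [ell_eq (E.datS he h1) r q h2, E.exp_DD hreal he hs]
  refine ⟨⟨fun h => ?_, ?_⟩, fun h => ?_⟩
  · obtain ⟨h1, h2, h3⟩ := to_log D r q hC h
    exact ⟨_, h1, hexp, h2⟩
  · rintro ⟨ℓ, h1, h2, h3⟩
    refine of_log D r q hC h1 (fun s hs => ?_) h3
    rw [h2 s (by linarith), E.exp_DD hreal he (by linarith)]
  · obtain ⟨h1, h2, h3⟩ := to_log D r q hC h
    exact ⟨_, h1, hexp, h3⟩

end Pool.Agent.V11288.HS
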