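import Pool.Agent.V11288.HS.Right
import Pool.Agent.TH942.ES.NF

/-! Elliptic curves over number fields. -/

set_option autoImplicit false

open MeasureTheory Filter Topology Set Complex NumberField IsDedekindDomain
open scoped ENNReal ComplexConjugate
open Pool.Agent.TH942.ES
open Pool.Agent.H921R2.TatePole (nm two_le_nm)

namespace Pool.Agent.V11288.HS

theorem rt_trace {t n : ℝ} (ht : |t| ≤ 1) (hn : 0 ≤ n) {T : ℕ → ℝ} (h0 : T 0 = 2)
    (h1 : T 1 = 2 * t * √n) (hr : ∀ j, T (j + 2) = 2 * t * √n * T (j + 1) - n * T j) (j : ℕ) :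
    ∑ i, (rt t i * ((√n : ℝ) : ℂ)) ^ j = (T j : ℂ) := by
  have hs2 : ((√n : ℝ) : ℂ) ^ 2 = n := by
    rw [← Complex.ofReal_pow, Real.sq_sqrt hn]
  have h3 : 0 ≤ 1 - t ^ 2 := by
    have := sq_le_one_iff_abs_le_one t |>.2 ht
    linarith
  have hr0 : rt t 0 = (t : ℂ) + √(1 - t ^ 2) * Complex.I := rfl
  have hr1 : rt t 1 = (t : ℂ) - √(1 - t ^ 2) * Complex.I := rfl
  set u := rt t 0 * ((√n : ℝ) : ℂ) with hu
  set w := rt t 1 * ((√n : ℝ) : ℂ) with hw
  have hsum : u + w = ((2 * t * √n : ℝ) : ℂ) := by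
    rw [hu, hw, hr0, hr1]
    push_cast
    ring
  have hprod : u * w = (n : ℂ) := by
    have e6 : ((√(1 - t ^ 2) : ℝ) : ℂ) ^ 2 = 1 - (t : ℂ) ^ 2 := by
      rw [← Complex.ofReal_pow, Real.sq_sqrt h3]
      push_cast
      rfl
    have e7 : u * w = ((t : ℂ) ^ 2 - ((√(1 - t ^ 2) : ℝ) : ℂ) ^ 2 * Complex.I ^ 2) *
        ((√n : ℝ) : ℂ) ^ 2 := by
      rw [hu, hw, hr0, hr1]
      ring
    rw [e7, e6, Complex.I_sq, hs2]
    ring
  have key : ∀ k : ℕ, u ^ k + w ^ k = (T k : ℂ) ∧ u ^ (k + 1) + w ^ (k + 1) = (T (k + 1) : ℂ) := by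
    intro k
    induction k with
    | zero =>
      refine ⟨?_, ?_⟩
      · rw [h0]
        norm_num
      · rw [zero_add, pow_one, pow_one, hsum, h1]
    | succ k ih =>
      refine ⟨ih.2, ?_⟩
      have e5 : u ^ (k + 1 + 1) + w ^ (k + 1 + 1) = (u + w) * (u ^ (k + 1) + w ^ (k + 1)) -
          (u * w) * (u ^ k + w ^ k) := by ring
      rw [e5, ih.1, ih.2, hsum, hprod, show k + 1 + 1 = k + 2 by ring, hr]
      push_cast
      ring
  rw [Fin.sum_univ_two]
  exact (key j).1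

variable {K : Type} [Field K] [NumberField K]

/-- the data of an elliptic curve over a number field -/
theorem curve_pc {a b : 𝓞 K} {G : ℂ → ℂ} {κ : ℕ} {η C : ℝ} (hη : 0 < η)
    (hd : ∀ s : ℂ, 1 - η < s.re → DifferentiableAt ℂ G s)
    (hg : ∀ s : ℂ, 1 - η < s.re → ‖G s‖ ≤ C * (1 + ‖s‖) ^ κ)
    (hp : ∀ s : ℂ, 3 / 2 < s.re → HasProd (fun v : {v // GoodV a b v} => efV a b v.1 s) (G s)) :
    Pc (fun v : {v // GoodV a b v} => nm v.1) (alV a b) (fun s => G (1 + s)) κ η (|C| * 2 ^ κ) := by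
  have E := curve_sys a b
  have hre : ∀ s : ℂ, ((1 : ℂ) + s).re = 1 + s.re := fun s => by
    rw [Complex.add_re, Complex.one_re]
  refine ⟨E.cnt, E.two_le, E.sum, E.log_sum, E.le, hη, fun s hs => ?_, fun s hs => ?_, fun s hs => ?_⟩
  · exact DifferentiableAt.comp (f := fun s : ℂ => 1 + s) s (hd _ (by rw [hre]; linarith)) (by fun_prop)
  · refine (hg _ (by rw [hre]; linarith)).trans ?_
    have h1 : 1 + ‖1 + s‖ ≤ 2 * (1 + ‖s‖) := by
      have := norm_add_le (1 : ℂ) s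
      rw [norm_one] at this
      linarith [norm_nonneg s]
    calc C * (1 + ‖1 + s‖) ^ κ ≤ |C| * (2 * (1 + ‖s‖)) ^ κ :=
          mul_le_mul (le_abs_self _) (pow_le_pow_left₀ (by positivity) h1 κ) (by positivity)
            (abs_nonneg _)
      _ = _ := by rw [mul_pow]; ring
  · have h1 := hp (1 + s) (by rw [hre]; linarith)
    have h2 : (fun v : {v // GoodV a b v} => efV a b v.1 (1 + s)) = fun v : {v // GoodV a b v} =>
        ∏ i, (1 - zv (fun v : {v // GoodV a b v} => nm v.1) (alV a b) v i *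
          xv (fun v : {v // GoodV a b v} => nm v.1) v s)⁻¹ := by
      funext v
      rw [curve_factor]
    rw [h2] at h1
    exact h1.tprod_eq.symm

end Pool.Agent.V11288.HS
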