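import Pool.Agent.V11288.HS.Log

/-! The entire function `Ein z = ∑_{n ≥ 1} z^n / (n n!)` and its Laplace transform. -/

set_option autoImplicit false

open MeasureTheory Filter Topology Set Complex
open scoped ENNReal ComplexConjugate
open Pool.Agent.W263.BSD (LInt lap lapC lapC_ofReal lapC_differentiableAt)

namespace Pool.Agent.V11288.HS

/-- `∑_{n ≥ 1} zⁿ / (n n!)` -/
noncomputable def Ein (z : ℂ) : ℂ :=
  ∑' n : ℕ, z ^ (n + 1) / (((n : ℂ) + 1) * ((n + 1).factorial : ℂ))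

lemma ein_bd (z : ℂ) (n : ℕ) : ‖z ^ (n + 1) / (((n : ℂ) + 1) * ((n + 1).factorial : ℂ))‖ ≤
    ‖z‖ ^ (n + 1) / ((n + 1).factorial : ℝ) := by
  have h1 : (((n : ℂ) + 1) * ((n + 1).factorial : ℂ)) =
      ((((n : ℝ) + 1) * ((n + 1).factorial : ℝ) : ℝ) : ℂ) := by push_cast; ring
  rw [norm_div, norm_pow, h1, Complex.norm_real, Real.norm_of_nonneg (by positivity)]
  have h2 : (0 : ℝ) < ((n + 1).factorial : ℝ) := by exact_mod_cast Nat.factorial_pos _
  apply div_le_div_of_nonneg_left (by positivity) h2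
  have : (1 : ℝ) ≤ (n : ℝ) + 1 := by linarith [n.cast_nonneg (α := ℝ)]
  nlinarith

lemma exp_tail_summable (x : ℝ) : Summable fun n : ℕ => x ^ (n + 1) / ((n + 1).factorial : ℝ) :=
  (summable_nat_add_iff 1).2 (Real.summable_pow_div_factorial x)

lemma ein_summable (z : ℂ) :
    Summable fun n : ℕ => z ^ (n + 1) / (((n : ℂ) + 1) * ((n + 1).factorial : ℂ)) :=
  Summable.of_norm_bounded (exp_tail_summable ‖z‖) (ein_bd z)

lemma ein_le (z : ℂ) : ‖Ein z‖ ≤ Real.exp ‖z‖ := by
  refine (tsum_of_norm_bounded (exp_tail_summable ‖z‖).hasSum (ein_bd z)).trans ?_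
  have h1 : Real.exp ‖z‖ = ∑' n : ℕ, ‖z‖ ^ n / (n.factorial : ℝ) := by
    rw [Real.exp_eq_exp_ℝ, NormedSpace.exp_eq_tsum_div]
  rw [h1, (Real.summable_pow_div_factorial ‖z‖).tsum_eq_zero_add]
  simp

lemma ein_cont : Continuous Ein := by
  rw [continuous_iff_continuousAt]
  intro z
  have h1 : ContinuousOn Ein (Metric.ball 0 (‖z‖ + 1)) := by
    refine continuousOn_tsum (u := fun n : ℕ => (‖z‖ + 1) ^ (n + 1) / ((n + 1).factorial : ℝ))
      (fun n => by fun_prop) (exp_tail_summable _) (fun n y hy => ?_)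
    refine (ein_bd y n).trans ?_
    have : ‖y‖ ≤ ‖z‖ + 1 := (mem_ball_zero_iff.1 hy).le
    gcongr
  exact h1.continuousAt (Metric.isOpen_ball.mem_nhds (by
    rw [mem_ball_zero_iff]
    linarith))

/-- `2 Re Ein(w u)` -/
noncomputable def eM (w : ℂ) (u : ℝ) : ℝ := 2 * (Ein (w * u)).re

lemma eM_cont (w : ℂ) : Continuous (eM w) := by
  unfold eM
  have := ein_cont
  fun_prop

lemma eM_le (w : ℂ) (u : ℝ) : |eM w u| ≤ 2 * Real.exp (‖w‖ * |u|) := by
  unfold eM
  rw [abs_mul, abs_two]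
  have h1 := (Complex.abs_re_le_norm (Ein (w * u))).trans (ein_le _)
  rw [norm_mul, Complex.norm_real, Real.norm_eq_abs] at h1
  linarith

lemma eM_LInt {w : ℂ} {x : ℝ} (hx : ‖w‖ < x) : LInt (eM w) x := by
  unfold LInt
  have h1 := (integrableOn_exp_mul_Ioi (a := -(x - ‖w‖)) (by linarith) 0).const_mul 2
  refine h1.mono' ((eM_cont w).measurable.mul (by fun_prop)).aestronglyMeasurable ?_
  filter_upwards [ae_restrict_mem measurableSet_Ioi] with u hu
  have hu0 : (0 : ℝ) < u := hu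
  rw [norm_mul, Real.norm_eq_abs, Real.norm_of_nonneg (Real.exp_pos _).le]
  have h2 := eM_le w u
  rw [abs_of_pos hu0] at h2
  calc |eM w u| * Real.exp (-(x * u)) ≤ (2 * Real.exp (‖w‖ * u)) * Real.exp (-(x * u)) :=
        mul_le_mul_of_nonneg_right h2 (Real.exp_pos _).le
    _ = 2 * Real.exp (-(x - ‖w‖) * u) := by
        rw [mul_assoc, ← Real.exp_add]
        ring_nf

lemma pow_lap {x : ℝ} (hx : 0 < x) (n : ℕ) :
    IntegrableOn (fun u : ℝ => u ^ (n + 1) * Real.exp (-(x * u))) (Ioi 0) ∧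
      ∫ u in Ioi (0 : ℝ), u ^ (n + 1) * Real.exp (-(x * u)) = ((n + 1).factorial : ℝ) / x ^ (n + 2) := by
  have h1 := Real.integral_rpow_mul_exp_neg_mul_Ioi (a := (n : ℝ) + 2) (r := x) (by positivity) hx
  have e1 : ∀ u : ℝ, u ^ ((n : ℝ) + 2 - 1) = u ^ (n + 1) := by
    intro u
    rw [← Real.rpow_natCast]
    congr 1
    push_cast
    ring
  simp only [e1] at h1
  have e2 : (1 / x) ^ ((n : ℝ) + 2) * Real.Gamma ((n : ℝ) + 2) = ((n + 1).factorial : ℝ) / x ^ (n + 2) := by
    have h2 : Real.Gamma ((n : ℝ) + 2) = ((n + 1).factorial : ℝ) := by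
      have := Real.Gamma_nat_eq_factorial (n + 1)
      rw [← this]
      congr 1
      push_cast
      ring
    have h3 : (1 / x) ^ ((n : ℝ) + 2) = 1 / x ^ (n + 2) := by
      rw [show (n : ℝ) + 2 = ((n + 2 : ℕ) : ℝ) by push_cast; ring, Real.rpow_natCast, div_pow, one_pow]
    rw [h2, h3]
    ring
  rw [e2] at h1
  refine ⟨?_, h1⟩
  by_contra h3
  have h4 := integral_undef h3
  rw [h4] at h1
  have : (0 : ℝ) < ((n + 1).factorial : ℝ) / x ^ (n + 2) := by positivity
  linarith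

lemma eM_lap {w : ℂ} {x : ℝ} (hx : ‖w‖ < x) :
    lap (eM w) x = -(2 * (log (1 - w / x)).re) / x := by
  have hx0 : 0 < x := (norm_nonneg w).trans_lt hx
  have hxc : (x : ℂ) ≠ 0 := by exact_mod_cast hx0.ne'
  have hlt : ‖w / x‖ < 1 := by
    rw [norm_div, Complex.norm_real, Real.norm_of_nonneg hx0.le, div_lt_one hx0]
    exact hx
  set F : ℕ → ℝ → ℝ := fun n u => (2 * (w ^ (n + 1)).re / (((n : ℝ) + 1) * ((n + 1).factorial : ℝ))) *
    (u ^ (n + 1) * Real.exp (-(x * u))) with hF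
  have hFi : ∀ n, Integrable (F n) (volume.restrict (Ioi 0)) := fun n =>
    ((pow_lap hx0 n).1).const_mul _
  have hfac : ∀ n : ℕ, (0 : ℝ) < ((n + 1).factorial : ℝ) := fun n => by
    exact_mod_cast Nat.factorial_pos _
  have hFn : ∀ n, ∫ u in Ioi (0 : ℝ), ‖F n u‖ ≤ 2 / x * ‖w / x‖ ^ (n + 1) := by
    intro n
    have e1 : ∫ u in Ioi (0 : ℝ), ‖F n u‖ =
        |2 * (w ^ (n + 1)).re / (((n : ℝ) + 1) * ((n + 1).factorial : ℝ))| *
          (((n + 1).factorial : ℝ) / x ^ (n + 2)) := by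
      rw [← (pow_lap hx0 n).2, ← integral_const_mul]
      refine setIntegral_congr_fun measurableSet_Ioi fun u hu => ?_
      have hu0 : (0 : ℝ) < u := hu
      simp only [hF]
      rw [norm_mul, Real.norm_eq_abs, Real.norm_of_nonneg (by positivity : (0 : ℝ) ≤
        u ^ (n + 1) * Real.exp (-(x * u)))]
    rw [e1, abs_div, abs_mul, abs_two, abs_of_pos (by have := hfac n; positivity :
      (0 : ℝ) < ((n : ℝ) + 1) * ((n + 1).factorial : ℝ))]
    have h2 : |(w ^ (n + 1)).re| ≤ ‖w‖ ^ (n + 1) := by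
      rw [← norm_pow]
      exact Complex.abs_re_le_norm _
    have h3 : ‖w / x‖ ^ (n + 1) = ‖w‖ ^ (n + 1) / x ^ (n + 1) := by
      rw [norm_div, Complex.norm_real, Real.norm_of_nonneg hx0.le, div_pow]
    rw [h3]
    have h4 := hfac n
    calc 2 * |(w ^ (n + 1)).re| / (((n : ℝ) + 1) * ((n + 1).factorial : ℝ)) *
          (((n + 1).factorial : ℝ) / x ^ (n + 2))
        = 2 * |(w ^ (n + 1)).re| / x ^ (n + 2) * (1 / ((n : ℝ) + 1)) := by
          field_simp
      _ ≤ 2 * ‖w‖ ^ (n + 1) / x ^ (n + 2) * 1 := by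
          have h5 : 1 / ((n : ℝ) + 1) ≤ 1 := by
            rw [div_le_one (by positivity)]
            linarith [n.cast_nonneg (α := ℝ)]
          gcongr
      _ = _ := by
          rw [pow_succ x (n + 1)]
          field_simp
  have hsum : Summable fun n => ∫ u in Ioi (0 : ℝ), ‖F n u‖ := by
    refine Summable.of_nonneg_of_le (fun n => integral_nonneg fun u => norm_nonneg _) hFn ?_
    exact ((summable_nat_add_iff 1).2 (summable_geometric_of_lt_one (norm_nonneg _) hlt)).mul_left _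
  have h1 := hasSum_integral_of_summable_integral_norm hFi hsum
  -- the integrand
  have h2 : ∫ u in Ioi (0 : ℝ), ∑' n, F n u = lap (eM w) x := by
    unfold lap
    refine integral_congr_ae (Eventually.of_forall fun u => ?_)
    simp only
    have h3 : HasSum (fun n : ℕ => ((w * u) ^ (n + 1) /
        (((n : ℂ) + 1) * ((n + 1).factorial : ℂ))).re) (Ein (w * u)).re :=
      Complex.hasSum_re (ein_summable (w * u)).hasSum
    have h4 := (h3.mul_left 2).mul_right (Real.exp (-(x * u)))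
    have h5 : (fun n => F n u) = fun n : ℕ => 2 * ((w * u) ^ (n + 1) /
        (((n : ℂ) + 1) * ((n + 1).factorial : ℂ))).re * Real.exp (-(x * u)) := by
      funext n
      simp only [hF]
      have e : (w * u) ^ (n + 1) / (((n : ℂ) + 1) * ((n + 1).factorial : ℂ)) =
          ((u ^ (n + 1) / (((n : ℝ) + 1) * ((n + 1).factorial : ℝ)) : ℝ) : ℂ) * w ^ (n + 1) := by
        push_cast
        rw [mul_pow]
        ring
      rw [e, Complex.re_ofReal_mul]
      ring
    rw [h5, h4.tsum_eq]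
    rfl
  rw [h2] at h1
  -- the series of the logarithm
  have h3 : HasSum (fun n : ℕ => (w / x) ^ (n + 1) / ((n : ℂ) + 1)) (-log (1 - w / x)) := by
    have h4 := Complex.hasSum_taylorSeries_neg_log hlt
    have h5 := (hasSum_nat_add_iff' (f := fun n : ℕ => (w / x) ^ n / (n : ℂ)) 1).2 h4
    simpa using h5
  have h4 := (Complex.hasSum_re h3).mul_left (2 / x)
  have h5 : (fun n => ∫ u in Ioi (0 : ℝ), F n u) =
      fun n : ℕ => 2 / x * ((w / x) ^ (n + 1) / ((n : ℂ) + 1)).re := by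
    funext n
    simp only [hF]
    rw [integral_const_mul, (pow_lap hx0 n).2]
    have e : (w / x) ^ (n + 1) / ((n : ℂ) + 1) =
        ((1 / (x ^ (n + 1) * ((n : ℝ) + 1)) : ℝ) : ℂ) * w ^ (n + 1) := by
      push_cast
      rw [div_pow]
      field_simp
    have h6 := hfac n
    rw [e, Complex.re_ofReal_mul, pow_succ x (n + 1)]
    field_simp
  rw [h5] at h1
  have h6 := h1.unique h4
  rw [h6, Complex.neg_re]
  ring

/-- the Laplace transform -/
theorem eM_lapC {w s : ℂ} (hs : ‖w‖ < s.re) :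
    lapC (eM w) s = (-log (1 - w / s) - log (1 - conj w / s)) / s := by
  have hU : IsOpen {z : ℂ | ‖w‖ < z.re} := isOpen_lt continuous_const Complex.continuous_re
  have hc : IsPreconnected {z : ℂ | ‖w‖ < z.re} := (convex_halfSpace_re_gt _).isPreconnected
  have hsl : ∀ v z : ℂ, ‖v‖ = ‖w‖ → ‖w‖ < z.re → (1 - v / z) ∈ Complex.slitPlane := by
    intro v z hv hz
    have hz0 : 0 < ‖z‖ := ((norm_nonneg w).trans_lt hz).trans_le (Complex.re_le_norm z)
    have h1 : ‖v / z‖ < 1 := by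
      rw [norm_div, div_lt_one hz0, hv]
      exact hz.trans_le (Complex.re_le_norm z)
    left
    have h2 := (Complex.abs_re_le_norm (v / z)).trans_lt h1
    rw [Complex.sub_re, Complex.one_re]
    linarith [(abs_lt.1 h2).2]
  have a1 : AnalyticOnNhd ℂ (lapC (eM w)) {z : ℂ | ‖w‖ < z.re} :=
    DifferentiableOn.analyticOnNhd (fun z hz => (lapC_differentiableAt (eM_cont w).measurable
      (w0 := ‖w‖) (fun x hx => eM_LInt hx) hz).differentiableWithinAt) hU
  have a2 : AnalyticOnNhd ℂ (fun z => (-log (1 - w / z) - log (1 - conj w / z)) / z)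
      {z : ℂ | ‖w‖ < z.re} := by
    intro z hz
    have hz1 : ‖w‖ < z.re := hz
    have hz0 : z ≠ 0 := by
      rintro rfl
      exact absurd hz1 (not_lt.2 (by simp))
    have b1 : AnalyticAt ℂ (fun z => log (1 - w / z)) z :=
      ((analyticAt_const.sub (analyticAt_const.div analyticAt_id hz0))).clog (hsl w z rfl hz1)
    have b2 : AnalyticAt ℂ (fun z => log (1 - conj w / z)) z :=
      ((analyticAt_const.sub (analyticAt_const.div analyticAt_id hz0))).clog
        (hsl _ z (Complex.norm_conj w) hz1)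
    exact (b1.neg.sub b2).div analyticAt_id hz0
  set x₀ : ℝ := ‖w‖ + 1 with hx₀
  have hx₀' : (x₀ : ℂ) ∈ {z : ℂ | ‖w‖ < z.re} := by
    show ‖w‖ < ((x₀ : ℝ) : ℂ).re
    rw [Complex.ofReal_re]
    linarith
  refine a1.eqOn_of_preconnected_of_frequently_eq a2 hc hx₀' ?_ hs
  have h1 : Tendsto (fun n : ℕ => ((x₀ + 1 / ((n : ℝ) + 1) : ℝ) : ℂ)) atTop (𝓝[≠] (x₀ : ℂ)) := by
    refine tendsto_nhdsWithin_of_tendsto_nhds_of_eventually_within _ ?_ ?_
    · have h2 : Tendsto (fun n : ℕ => x₀ + 1 / ((n : ℝ) + 1)) atTop (𝓝 (x₀ + 0)) :=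
        tendsto_const_nhds.add tendsto_one_div_add_atTop_nhds_zero_nat
      rw [add_zero] at h2
      exact (Complex.continuous_ofReal.tendsto x₀).comp h2
    · refine Eventually.of_forall fun n => ?_
      have h3 : (0 : ℝ) < 1 / ((n : ℝ) + 1) := by positivity
      show ((x₀ + 1 / ((n : ℝ) + 1) : ℝ) : ℂ) ≠ (x₀ : ℂ)
      intro h4
      have h5 : x₀ + 1 / ((n : ℝ) + 1) = x₀ := by exact_mod_cast h4
      linarith
  refine h1.frequently (Frequently.of_forall fun n => ?_)
  have hn : (0 : ℝ) < 1 / ((n : ℝ) + 1) := by positivity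
  set y : ℝ := x₀ + 1 / ((n : ℝ) + 1) with hy
  have hwy : ‖w‖ < y := by rw [hy, hx₀]; linarith
  have hy1 : ‖w‖ < ((y : ℝ) : ℂ).re := by rw [Complex.ofReal_re]; exact hwy
  rw [lapC_ofReal, eM_lap hwy]
  have e1 : log (1 - conj w / y) = conj (log (1 - w / y)) := by
    rw [← Complex.log_conj _ (slitPlane_arg_ne_pi (hsl w y rfl hy1)), map_sub, map_one, map_div₀,
      Complex.conj_ofReal]
  rw [e1, show -log (1 - w / y) - conj (log (1 - w / y)) = -(log (1 - w / y) + conj (log (1 - w / y))) by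
    ring, Complex.add_conj]
  push_cast
  rfl

end Pool.Agent.V11288.HS
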