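import Pool.Agent.V11288.HS.Ext

/-! The same for the vertical lines to the right of the central line. -/

set_option autoImplicit false

open MeasureTheory Filter Topology Set Complex
open scoped ENNReal ComplexConjugate
open Pool.Agent.TH942.ES (zv xv)

namespace Pool.Agent.V11288.HS

variable {X : Type} {d : ℕ} {N : X → ℕ} {α : X → Fin d → ℂ}

/-- the roots `α_i N^{-δ}` -/
noncomputable def shr (N : X → ℕ) (α : X → Fin d → ℂ) (δ : ℝ) (v : X) (i : Fin d) : ℂ :=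
  α v i * (((N v : ℝ) ^ (-δ) : ℝ) : ℂ)

theorem rpow_eq_xv {v : X} (hN : 0 < (N v : ℝ)) (δ : ℝ) :
    (((N v : ℝ) ^ (-δ) : ℝ) : ℂ) = xv N v (δ : ℂ) := by
  unfold xv
  rw [Real.rpow_def_of_pos hN, Complex.ofReal_exp]
  congr 1
  push_cast
  ring

theorem zv_shr {v : X} (hN : 0 < (N v : ℝ)) (δ : ℝ) (i : Fin d) :
    zv N (shr N α δ) v i = zv N α v i * xv N v (δ : ℂ) := by
  unfold zv shr
  rw [rpow_eq_xv hN]
  ring

/-- the traces of the shifted system -/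
theorem shr_term {v : X} (hN : 0 < (N v : ℝ)) (δ τ : ℝ) (j : ℕ) :
    (∑ i, zv N (shr N α δ) v i ^ j) * xv N v ((j : ℂ) * (τ * I)) =
      (∑ i, zv N α v i ^ j) * xv N v ((j : ℂ) * (δ + τ * I)) := by
  simp only [zv_shr hN, mul_pow]
  rw [← Finset.sum_mul, xv_pow, mul_assoc, ← xv_add]
  congr 2
  ring

theorem Pc.right {L : ℂ → ℂ} {κ : ℕ} {η C : ℝ} (P : Pc N α L κ η C) {δ : ℝ} (hδ : 0 ≤ δ) :
    Pc N (shr N α δ) (fun s => L (s + δ)) κ η (|C| * (1 + δ) ^ κ) := by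
  have hre : ∀ s : ℂ, (s + (δ : ℂ)).re = s.re + δ := fun s => by simp
  refine ⟨P.cnt, P.two_le, P.sum, P.log_sum, fun v i => ?_, P.hη, fun s hs => ?_, fun s hs => ?_,
    fun s hs => ?_⟩
  · unfold shr
    have hN := P.Ntwo v
    rw [norm_mul, Complex.norm_real, Real.norm_of_nonneg (Real.rpow_nonneg (P.Npos v).le _)]
    have h1 : (N v : ℝ) ^ (-δ) ≤ 1 :=
      Real.rpow_le_one_of_one_le_of_nonpos (by linarith) (by linarith)
    exact mul_le_one₀ (P.le v i) (Real.rpow_nonneg (P.Npos v).le _) h1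
  · exact DifferentiableAt.comp (f := fun s : ℂ => s + δ) s (P.hG _ (by rw [hre]; linarith)) (by fun_prop)
  · refine (P.hgrow _ (by rw [hre]; linarith)).trans ?_
    have h1 : 1 + ‖s + (δ : ℂ)‖ ≤ (1 + δ) * (1 + ‖s‖) := by
      have h2 := norm_add_le s (δ : ℂ)
      rw [Complex.norm_real, Real.norm_of_nonneg hδ] at h2
      have : 0 ≤ δ * ‖s‖ := by positivity
      nlinarith
    calc C * (1 + ‖s + (δ : ℂ)‖) ^ κ ≤ |C| * ((1 + δ) * (1 + ‖s‖)) ^ κ :=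
          mul_le_mul (le_abs_self _) (pow_le_pow_left₀ (by positivity) h1 κ) (by positivity)
            (abs_nonneg _)
      _ = _ := by rw [mul_pow]; ring
  · rw [P.hL _ (by rw [hre]; linarith)]
    unfold Pool.Agent.TH942.ES.LE
    refine tprod_congr fun v => Finset.prod_congr rfl fun i _ => ?_
    rw [zv_shr (P.Npos v), xv_add]
    ring_nf

/-- **The criterion, the formula and the existence of the leading term on the line `Re s = c + δ`** -/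
theorem Pc.crit {L : ℂ → ℂ} {κ : ℕ} {η C : ℝ} (P : Pc N α L κ η C) {T : X → ℕ → ℂ} {c : ℝ}
    (hT : ∀ v (j : ℕ) (s : ℂ), (∑ i, zv N α v i ^ j) * xv N v ((j : ℂ) * s) =
      T v j / ((N v : ℕ) : ℂ) ^ ((j : ℂ) * (c + s))) {δ : ℝ} (hδ : 0 ≤ δ) :
    ∃ (M : ℝ → ℝ → ℝ → ℝ≥0∞),
      (∀ τ ρ q : ℝ, M τ ρ q = ∫⁻ Y in Ioi (1 : ℝ), ENNReal.ofReal
        (((∑ᶠ (v : X × ℕ) (_ : (N v.1 : ℝ) ^ (v.2 + 1) ≤ Y),
          (T v.1 (v.2 + 1) / ((N v.1 : ℕ) : ℂ) ^ (((v.2 + 1 : ℕ) : ℂ) *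
            (c + (δ + τ * I)))).re / ((v.2 : ℝ) + 1)) +
          ρ * (Real.eulerMascheroniConstant + Real.log (Real.log Y)) - q) ^ 2 / Y)) ∧
      (∀ (τ ρ : ℝ) {A : ℝ}, 0 < A →
        (((∀ s : ℂ, 0 < s.re → L (s + δ) ≠ 0) ∧ ∃ m : ℕ, ρ = m ∧
          Tendsto (fun s : ℂ => ‖L (s + τ * I + δ)‖ / ‖s‖ ^ m) (𝓝[≠] 0) (𝓝 A)) ↔
          M τ ρ (Real.log A) < ⊤)) ∧
      (∀ τ ρ q : ℝ, M τ ρ q < ⊤ → M τ ρ q = ENNReal.ofReal (4 * Real.pi)⁻¹ * ∫⁻ t : ℝ, ENNReal.ofReal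
        ((Real.log ‖L (((τ + t : ℝ) : ℂ) * I + δ)‖ + Real.log ‖L (((τ - t : ℝ) : ℂ) * I + δ)‖ -
          2 * ρ * Real.log |t| - 2 * q) ^ 2 / t ^ 2)) ∧
      (∀ τ : ℝ, ∃ (m : ℕ) (A : ℝ), 0 < A ∧
        Tendsto (fun s : ℂ => ‖L (s + τ * I + δ)‖ / ‖s‖ ^ m) (𝓝[≠] 0) (𝓝 A)) := by
  have Q := P.right hδ
  refine ⟨fun τ ρ q => Ms N (shr N α δ) τ ρ q, fun τ ρ q => ?_, fun τ ρ A hA => ?_,
    fun τ ρ q hfin => ?_, fun τ => ?_⟩
  · have hPa : ∀ Y, Pa N (shr N α δ) τ Y = ∑ᶠ (v : X × ℕ) (_ : (N v.1 : ℝ) ^ (v.2 + 1) ≤ Y),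
          (T v.1 (v.2 + 1) / ((N v.1 : ℕ) : ℂ) ^ (((v.2 + 1 : ℕ) : ℂ) *
            (c + (δ + τ * I)))).re / ((v.2 : ℝ) + 1) := by
      intro Y
      unfold Pa
      refine finsum_congr fun p => finsum_congr fun _ => ?_
      rw [shr_term (P.Npos p.1), hT]
    unfold Ms Da
    simp only [hPa]
  · exact Q.abs_iff τ ρ hA
  · exact Q.abs_line τ ρ q hfin
  · obtain ⟨m, g, hg, hg0, hloc⟩ := Q.local_form τ
    refine ⟨m, ‖g 0‖, norm_pos_iff.2 hg0, ?_⟩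
    have hn : Tendsto (fun s : ℂ => g s) (𝓝[≠] 0) (𝓝 (g 0)) :=
      hg.tendsto.mono_left nhdsWithin_le_nhds
    refine hn.norm.congr' ?_
    filter_upwards [hloc.filter_mono nhdsWithin_le_nhds, self_mem_nhdsWithin] with s hs hs0
    have h1 : 0 < ‖s‖ := norm_pos_iff.2 hs0
    rw [hs, norm_mul, norm_pow]
    field_simp

/-- the traces from local roots: `T(v, j) = ∑ (α_i N^(c - 1/2))^j` -/
theorem trace_of {v : X} (hN : 0 < (N v : ℝ)) (c : ℝ) (j : ℕ) (s : ℂ) :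
    (∑ i, zv N α v i ^ j) * xv N v ((j : ℂ) * s) =
      (∑ i, (α v i * (((N v : ℝ) ^ (c - 1 / 2) : ℝ) : ℂ)) ^ j) / ((N v : ℕ) : ℂ) ^ ((j : ℂ) * (c + s)) := by
  have hNc : ((N v : ℕ) : ℂ) ≠ 0 := by exact_mod_cast hN.ne'
  have hlog : Complex.log ((N v : ℕ) : ℂ) = (Real.log (N v : ℝ) : ℂ) := by
    rw [Complex.ofReal_log hN.le]
    push_cast
    rfl
  have h1 : ∀ i, zv N α v i = α v i * (((N v : ℝ) ^ (c - 1 / 2) : ℝ) : ℂ) * xv N v (c : ℂ) := by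
    intro i
    unfold zv xv
    rw [div_eq_mul_inv, mul_assoc]
    congr 1
    rw [Real.sqrt_eq_rpow, Real.rpow_def_of_pos hN, Real.rpow_def_of_pos hN, Complex.ofReal_exp,
      Complex.ofReal_exp, ← Complex.exp_neg, ← Complex.exp_add]
    congr 1
    push_cast
    ring
  simp only [h1]
  simp only [mul_pow (_ * _) (xv N v (c : ℂ)) j]
  rw [← Finset.sum_mul, xv_pow, mul_assoc, ← xv_add, div_eq_mul_inv]
  congr 1
  unfold xv
  rw [Complex.cpow_def_of_ne_zero hNc, ← Complex.exp_neg, hlog]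
  congr 1
  ring

end Pool.Agent.V11288.HS
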