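import Pool.Agent.V11288.HS.Dbl

/-! **The absolute values of the partial Euler products on the critical line** -/

set_option autoImplicit false

open MeasureTheory Filter Topology Set Complex
open scoped ENNReal ComplexConjugate
open Pool.Agent.TH942.LS (Dat)
open Pool.Agent.TH942.SL
open Pool.Agent.TH942.ES
open Pool.Agent.TH270.MS

namespace Pool.Agent.V11288.HS

variable {X : Type} {d : ℕ} {N : X → ℕ} {α : X → Fin d → ℂ}

/-- `log |P_τ(Y)|` -/
noncomputable def Pa (N : X → ℕ) (α : X → Fin d → ℂ) (τ Y : ℝ) : ℝ :=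
  ∑ᶠ (p : X × ℕ) (_ : (N p.1 : ℝ) ^ (p.2 + 1) ≤ Y),
    ((∑ i, zv N α p.1 i ^ (p.2 + 1)) * xv N p.1 (((p.2 + 1 : ℕ) : ℂ) * (τ * I))).re / ((p.2 : ℝ) + 1)

theorem pl_dbl (τ Y : ℝ) : Pl N (dbl N α τ) Y = 2 * Pa N α τ Y := by
  unfold Pl Pa
  rw [← smul_eq_mul, smul_finsum]
  refine finsum_congr fun p => ?_
  rw [smul_finsum]
  refine finsum_congr fun _ => ?_
  unfold cP
  rw [dbl_trace, Complex.ofReal_re, smul_eq_mul]
  ring

/-- `log |P_τ(Y)| + ρ (γ + log log Y) - q` -/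
noncomputable def Da (N : X → ℕ) (α : X → Fin d → ℂ) (τ ρ q Y : ℝ) : ℝ :=
  Pa N α τ Y + ρ * (Real.eulerMascheroniConstant + Real.log (Real.log Y)) - q

theorem dr_dbl (τ ρ q Y : ℝ) : Dr N (dbl N α τ) (2 * ρ) (2 * q) Y = 2 * Da N α τ ρ q Y := by
  unfold Dr Da
  rw [pl_dbl]
  ring

/-- `∫_1^∞ (log |P_τ(Y)| + ρ (γ + log log Y) - q)² dY/Y` -/
noncomputable def Ms (N : X → ℕ) (α : X → Fin d → ℂ) (τ ρ q : ℝ) : ℝ≥0∞ :=
  ∫⁻ Y in Ioi (1 : ℝ), ENNReal.ofReal (Da N α τ ρ q Y ^ 2 / Y)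

theorem ms_dbl (τ ρ q : ℝ) :
    ∫⁻ Y in Ioi (1 : ℝ), ENNReal.ofReal (Dr N (dbl N α τ) (2 * ρ) (2 * q) Y ^ 2 / Y) =
      4 * Ms N α τ ρ q := by
  unfold Ms
  rw [← lintegral_const_mul' _ _ (by norm_num)]
  refine lintegral_congr fun Y => ?_
  rw [dr_dbl, show (4 : ℝ≥0∞) = ENNReal.ofReal 4 by norm_num, ← ENNReal.ofReal_mul (by norm_num)]
  congr 1
  ring

theorem mul_four_lt {x : ℝ≥0∞} : 4 * x < ⊤ ↔ x < ⊤ := by
  rw [lt_top_iff_ne_top, lt_top_iff_ne_top, Ne, ENNReal.mul_eq_top]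
  simp

/-- comparison of two leading terms -/
theorem lead_unique {f : ℂ → ℝ} {p m : ℕ} {A B : ℝ} (hA : 0 < A) (hB : 0 < B)
    (h1 : Tendsto (fun s => f s / ‖s‖ ^ p) (𝓝[≠] 0) (𝓝 B))
    (h2 : Tendsto (fun s => f s / ‖s‖ ^ m) (𝓝[≠] 0) (𝓝 A)) : m = p ∧ A = B := by
  have hn : Tendsto (fun s : ℂ => ‖s‖) (𝓝[≠] 0) (𝓝 0) := by
    have : Tendsto (fun s : ℂ => ‖s‖) (𝓝 0) (𝓝 ‖(0 : ℂ)‖) := continuous_norm.tendsto 0
    rw [norm_zero] at this
    exact this.mono_left nhdsWithin_le_nhds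
  have key : ∀ {a b : ℕ} {A' B' : ℝ}, a < b → Tendsto (fun s => f s / ‖s‖ ^ a) (𝓝[≠] 0) (𝓝 A') →
      Tendsto (fun s => f s / ‖s‖ ^ b) (𝓝[≠] 0) (𝓝 B') → A' = 0 := by
    intro a b A' B' hab ha hb
    obtain ⟨j, hj⟩ := Nat.exists_eq_add_of_lt hab
    have h3 := hb.mul (hn.pow (j + 1))
    rw [zero_pow (by omega), mul_zero] at h3
    have h4 : Tendsto (fun s => f s / ‖s‖ ^ a) (𝓝[≠] 0) (𝓝 0) := by
      refine h3.congr' ?_
      filter_upwards [self_mem_nhdsWithin] with s hs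
      have hs0 : 0 < ‖s‖ := norm_pos_iff.2 hs
      rw [hj, show a + j + 1 = a + (j + 1) by omega, pow_add]
      field_simp
    exact tendsto_nhds_unique ha h4
  rcases lt_trichotomy m p with h | h | h
  · exact absurd (key h h2 h1) hA.ne'
  · subst h
    exact ⟨rfl, tendsto_nhds_unique h2 h1⟩
  · exact absurd (key h h1 h2) hB.ne'

namespace Pc

variable {L : ℂ → ℂ} {κ : ℕ} {η C : ℝ} (P : Pc N α L κ η C)
include P

/-- the local form on the central line -/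
theorem local_form (τ : ℝ) : ∃ (p : ℕ) (g : ℂ → ℂ), ContinuousAt g 0 ∧ g 0 ≠ 0 ∧
    ∀ᶠ s in 𝓝 (0 : ℂ), L (s + τ * I) = s ^ p * g s := by
  have hη := P.hη
  have hU : IsOpen {s : ℂ | -η < s.re} := isOpen_lt continuous_const Complex.continuous_re
  have hUc : Convex ℝ {s : ℂ | -η < s.re} := convex_halfSpace_re_gt _
  have a1 : AnalyticOnNhd ℂ L {s : ℂ | -η < s.re} :=
    DifferentiableOn.analyticOnNhd (fun z hz => (P.hG z hz).differentiableWithinAt) hU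
  have hm : (τ : ℂ) * I ∈ {s : ℂ | -η < s.re} := by
    show -η < ((τ : ℂ) * I).re
    simpa using hη
  have h1m : (1 : ℂ) ∈ {s : ℂ | -η < s.re} := by
    show -η < (1 : ℂ).re
    rw [Complex.one_re]
    linarith
  have h1 : analyticOrderAt L 1 ≠ ⊤ := by
    have h0 : L 1 ≠ 0 := P.ne_zero (by rw [Complex.one_re]; norm_num)
    rw [(a1 _ h1m).analyticOrderAt_eq_zero.2 h0]
    exact ENat.zero_ne_top
  have h2 := a1.analyticOrderAt_ne_top_of_isPreconnected hUc.isPreconnected h1m hm h1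
  obtain ⟨g, hg, hg0, hloc⟩ := (a1 _ hm).analyticOrderAt_ne_top.1 h2
  refine ⟨analyticOrderNatAt L (τ * I), fun s => g (s + τ * I), ?_, ?_, ?_⟩
  · have h3 : ContinuousAt g (0 + τ * I) := by
      rw [zero_add]
      exact hg.continuousAt
    exact ContinuousAt.comp (f := fun s : ℂ => s + τ * I) h3 (by fun_prop)
  · simpa using hg0
  · have h3 : Tendsto (fun s : ℂ => s + τ * I) (𝓝 0) (𝓝 (τ * I)) := by
      have : Continuous fun s : ℂ => s + τ * I := by fun_prop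
      have h4 := this.tendsto 0
      rwa [zero_add] at h4
    filter_upwards [h3.eventually hloc] with s hs
    rw [hs, smul_eq_mul, add_sub_cancel_right]

/-- no zeros, and the leading term at `iτ` -/
def _root_.Pool.Agent.V11288.HS.Lead (L : ℂ → ℂ) (τ ρ A : ℝ) : Prop :=
  (∀ s : ℂ, 0 < s.re → L s ≠ 0) ∧ ∃ m : ℕ, ρ = m ∧
    Tendsto (fun s : ℂ => ‖L (s + τ * I)‖ / ‖s‖ ^ m) (𝓝[≠] 0) (𝓝 A)

omit P in
theorem zero_iff (τ : ℝ) : (∀ s : ℂ, 0 < s.re → HS.L2 L τ s ≠ 0) ↔ ∀ s : ℂ, 0 < s.re → L s ≠ 0 := by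
  constructor
  · intro h s hs h0
    refine h (s - τ * I) (by simpa using hs) ?_
    unfold HS.L2
    rw [sub_add_cancel, h0, zero_mul]
  · intro h s hs
    unfold HS.L2
    refine mul_ne_zero (h _ (by rw [re_lt]; exact hs)) ?_
    rw [Ne, map_eq_zero]
    exact h _ (by rw [re_lt, Complex.conj_re]; exact hs)

/-- **The mean square criterion for the absolute value at a point of the critical line** -/
theorem abs_iff (τ ρ : ℝ) {A : ℝ} (hA : 0 < A) :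
    Lead L τ ρ A ↔ Ms N α τ ρ (Real.log A) < ⊤ := by
  have H := P.mc τ
  have hA2 : 0 < A ^ 2 := by positivity
  have hlog : Real.log (A ^ 2) = 2 * Real.log A := by
    rw [Real.log_pow]
    norm_num
  have t1 := HS.fin_iff H.E (2 * ρ) (A ^ 2)
  rw [hlog, ms_dbl, mul_four_lt] at t1
  have t2 := (H.tfae_lead_real (2 * ρ) hA2).out 0 1
  rw [t1, ← t2, zero_iff]
  unfold Lead
  refine and_congr_right fun _ => ?_
  obtain ⟨p, g, hg, hg0, hloc⟩ := P.local_form τ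
  have hB : 0 < ‖g 0‖ := norm_pos_iff.2 hg0
  have hB2 : 0 < ‖g 0‖ ^ 2 := by positivity
  have hn : Tendsto (fun s : ℂ => g s) (𝓝[≠] 0) (𝓝 (g 0)) := hg.tendsto.mono_left nhdsWithin_le_nhds
  have hcj : Tendsto (fun s : ℂ => conj s) (𝓝[≠] 0) (𝓝[≠] 0) := by
    refine tendsto_nhdsWithin_of_tendsto_nhds_of_eventually_within _ ?_ ?_
    · have := Complex.continuous_conj.tendsto 0
      rw [map_zero] at this
      exact this.mono_left nhdsWithin_le_nhds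
    · filter_upwards [self_mem_nhdsWithin] with s hs
      exact fun h => hs ((map_eq_zero _).1 h)
  have hloc' : ∀ᶠ s in 𝓝[≠] (0 : ℂ), L (s + τ * I) = s ^ p * g s :=
    hloc.filter_mono nhdsWithin_le_nhds
  have l1 : Tendsto (fun s : ℂ => ‖L (s + τ * I)‖ / ‖s‖ ^ p) (𝓝[≠] 0) (𝓝 ‖g 0‖) := by
    refine hn.norm.congr' ?_
    filter_upwards [hloc', self_mem_nhdsWithin] with s hs hs0
    have : 0 < ‖s‖ := norm_pos_iff.2 hs0
    rw [hs, norm_mul, norm_pow]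
    field_simp
  have l2 : Tendsto (fun s : ℂ => HS.L2 L τ s / s ^ (2 * p)) (𝓝[≠] 0)
      (𝓝 (((‖g 0‖ ^ 2 : ℝ)) : ℂ)) := by
    have h1 : Tendsto (fun s : ℂ => g s * conj (g (conj s))) (𝓝[≠] 0) (𝓝 (g 0 * conj (g 0))) :=
      hn.mul ((Complex.continuous_conj.tendsto _).comp (hn.comp hcj))
    rw [Complex.mul_conj, Complex.normSq_eq_norm_sq] at h1
    refine h1.congr' ?_
    filter_upwards [hloc', hcj.eventually hloc', self_mem_nhdsWithin] with s hs hs' hs0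
    have hs00 : s ≠ 0 := hs0
    unfold HS.L2
    rw [hs, hs', map_mul, map_pow, Complex.conj_conj]
    field_simp
    ring
  have l3 : Tendsto (fun s : ℂ => ‖HS.L2 L τ s‖ / ‖s‖ ^ (2 * p)) (𝓝[≠] 0) (𝓝 (‖g 0‖ ^ 2)) := by
    have := l2.norm
    simp only [norm_div, norm_pow, Complex.norm_real, Real.norm_eq_abs, abs_of_pos hB] at this
    exact this
  constructor
  · rintro ⟨m, hm, h⟩
    obtain ⟨e1, e2⟩ := lead_unique hA hB l1 h
    refine ⟨2 * p, ?_, ?_⟩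
    · rw [hm, e1]
      push_cast
      ring
    · rw [e2]
      exact l2
  · rintro ⟨m₂, hm₂, h⟩
    have h3 : Tendsto (fun s : ℂ => ‖HS.L2 L τ s‖ / ‖s‖ ^ m₂) (𝓝[≠] 0) (𝓝 (A ^ 2)) := by
      have := h.norm
      simp only [norm_div, norm_pow, Complex.norm_real, Real.norm_eq_abs, sq_abs] at this
      exact this
    obtain ⟨e1, e2⟩ := lead_unique hA2 hB2 l3 h3
    have e3 : A = ‖g 0‖ := by
      have := (sq_eq_sq₀ hA.le hB.le).1 e2
      exact this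
    refine ⟨p, ?_, ?_⟩
    · rw [e1] at hm₂
      push_cast at hm₂
      linarith
    · rw [e3]
      exact l1

/-- **The critical line formula for the absolute values** -/
theorem abs_line (τ ρ q : ℝ) (h : Ms N α τ ρ q < ⊤) :
    Ms N α τ ρ q = ENNReal.ofReal (4 * Real.pi)⁻¹ * ∫⁻ t : ℝ, ENNReal.ofReal
      ((Real.log ‖L (((τ + t : ℝ) : ℂ) * I)‖ + Real.log ‖L (((τ - t : ℝ) : ℂ) * I)‖ -
        2 * ρ * Real.log |t| - 2 * q) ^ 2 / t ^ 2) := by
  have H := P.mc τ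
  have h1 : ∫⁻ Y in Ioi (1 : ℝ), ENNReal.ofReal (Dr N (dbl N α τ) (2 * ρ) (2 * q) Y ^ 2 / Y) < ⊤ := by
    rw [ms_dbl, mul_four_lt]
    exact h
  have h2 := HS.crit_line H (2 * ρ) (2 * q) h1
  rw [ms_dbl] at h2
  have h3 : Ms N α τ ρ q = ENNReal.ofReal (4⁻¹) * (4 * Ms N α τ ρ q) := by
    rw [← mul_assoc, show (4 : ℝ≥0∞) = ENNReal.ofReal 4 by norm_num,
      ← ENNReal.ofReal_mul (by norm_num)]
    norm_num
  rw [h3, h2, ← mul_assoc, ← ENNReal.ofReal_mul (by norm_num), ← mul_inv]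
  congr 1
  -- the integrands: almost everywhere
  have hne : ∀ᵐ t : ℝ, L (((τ + t : ℝ) : ℂ) * I) ≠ 0 := by
    have h4 := ae_ne P.hη P.hG (z := 1) (by
      rw [Complex.one_re]
      linarith [P.hη]) (P.ne_zero (by rw [Complex.one_re]; norm_num))
    exact (measurePreserving_add_left volume τ).quasiMeasurePreserving.ae h4
  have hne' : ∀ᵐ t : ℝ, L (((τ - t : ℝ) : ℂ) * I) ≠ 0 := by
    have h4 := ae_ne P.hη P.hG (z := 1) (by
      rw [Complex.one_re]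
      linarith [P.hη]) (P.ne_zero (by rw [Complex.one_re]; norm_num))
    exact (Measure.measurePreserving_sub_left volume τ).quasiMeasurePreserving.ae h4
  refine lintegral_congr_ae ?_
  filter_upwards [hne, hne'] with t ht ht'
  have e1 : (t : ℂ) * I + τ * I = ((τ + t : ℝ) : ℂ) * I := by
    push_cast
    ring
  have e2 : conj ((t : ℂ) * I) + τ * I = ((τ - t : ℝ) : ℂ) * I := by
    rw [map_mul, Complex.conj_ofReal, Complex.conj_I]
    push_cast
    ring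
  have e3 : Real.log ‖HS.L2 L τ (t * I)‖ = Real.log ‖L (((τ + t : ℝ) : ℂ) * I)‖ +
      Real.log ‖L (((τ - t : ℝ) : ℂ) * I)‖ := by
    unfold HS.L2
    rw [e1, e2, norm_mul, Complex.norm_conj, Real.log_mul (norm_ne_zero_iff.2 ht)
      (norm_ne_zero_iff.2 ht')]
  rw [e3]

end Pc

end Pool.Agent.V11288.HS
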