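import Pool.Agent.V11288.HS.Nf
import Pool.Agent.H307R2.LU

/-! Products of Euler product systems over the prime numbers; Dirichlet characters. -/

set_option autoImplicit false

open MeasureTheory Filter Topology Set Complex
open scoped ENNReal ComplexConjugate
open Pool.Agent.TH942.ES (zv xv)

namespace Pool.Agent.V11288.HS

/-- the norm of a prime number -/
def np (v : Nat.Primes) : ℕ := (v : ℕ)

variable {X : Type} {d : ℕ} {N : X → ℕ} {α : X → Fin d → ℂ}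

theorem Pc.pb {L : ℂ → ℂ} {κ : ℕ} {η C : ℝ} (P : Pc N α L κ η C) : Pb N α :=
  ⟨P.cnt, P.two_le, P.sum, P.log_sum, P.le⟩

/-- the direct sum -/
def dsum {d' : ℕ} (α : X → Fin d → ℂ) (β : X → Fin d' → ℂ) (v : X) : Fin (d + d') → ℂ :=
  Fin.append (α v) (β v)

theorem zv_l {d' : ℕ} (β : X → Fin d' → ℂ) (v : X) (i : Fin d) :
    zv N (dsum α β) v (Fin.castAdd d' i) = zv N α v i := by
  unfold zv dsum
  rw [Fin.append_left]

theorem zv_r {d' : ℕ} (β : X → Fin d' → ℂ) (v : X) (i : Fin d') :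
    zv N (dsum α β) v (Fin.natAdd d i) = zv N β v i := by
  unfold zv dsum
  rw [Fin.append_right]

theorem Pc.mul {d' : ℕ} {β : X → Fin d' → ℂ} {L M : ℂ → ℂ} {κ κ' : ℕ} {η C C' : ℝ}
    (P : Pc N α L κ η C) (Q : Pc N β M κ' η C') :
    Pc N (dsum α β) (fun s => L s * M s) (κ + κ') η (C * C') where
  cnt := P.cnt
  two_le := P.two_le
  sum := P.sum
  log_sum := P.log_sum
  le := by
    intro v i
    unfold dsum
    refine Fin.addCases (fun i => ?_) (fun i => ?_) i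
    · rw [Fin.append_left]
      exact P.le v i
    · rw [Fin.append_right]
      exact Q.le v i
  hη := P.hη
  hG := fun s hs => (P.hG s hs).mul (Q.hG s hs)
  hgrow := by
    intro s hs
    have h1 := P.hgrow s hs
    have h2 := Q.hgrow s hs
    rw [norm_mul]
    calc ‖L s‖ * ‖M s‖ ≤ (C * (1 + ‖s‖) ^ κ) * (C' * (1 + ‖s‖) ^ κ') :=
          mul_le_mul h1 h2 (norm_nonneg _) ((norm_nonneg _).trans h1)
      _ = _ := by rw [pow_add]; ring
  hL := by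
    intro s hs
    have h1 := P.pb.hasProd hs
    have h2 := Q.pb.hasProd hs
    have h3 := h1.mul h2
    have h4 : (fun v => (∏ i, (1 - zv N α v i * xv N v s)⁻¹) *
        (∏ i, (1 - zv N β v i * xv N v s)⁻¹)) =
        fun v => ∏ i, (1 - zv N (dsum α β) v i * xv N v s)⁻¹ := by
      funext v
      rw [Fin.prod_univ_add]
      simp only [zv_l, zv_r]
    rw [h4] at h3
    rw [P.hL s hs, Q.hL s hs, P.pb.le_eq hs, Q.pb.le_eq hs]
    exact h3.tprod_eq.symm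

/-- `L(1/2 + s)` is an Euler product over the prime numbers with the traces `T(p, j)`, of polynomial growth in
`Re s > -1/4` -/
def Half (L : ℂ → ℂ) (T : Nat.Primes → ℕ → ℂ) : Prop :=
  ∃ (d : ℕ) (α : Nat.Primes → Fin d → ℂ) (κ : ℕ) (C : ℝ),
    Pc np α (fun s => L (1 / 2 + s)) κ (1 / 4) C ∧
    ∀ (v : Nat.Primes) (j : ℕ), ∑ i, α v i ^ j = T v j

theorem Half.mul {L M : ℂ → ℂ} {T U : Nat.Primes → ℕ → ℂ} (h : Half L T) (g : Half M U) :
    Half (fun s => L s * M s) (fun v j => T v j + U v j) := by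
  obtain ⟨d, α, κ, C, P, hP⟩ := h
  obtain ⟨d', β, κ', C', Q, hQ⟩ := g
  refine ⟨d + d', dsum α β, κ + κ', C * C', P.mul Q, fun v j => ?_⟩
  unfold dsum
  rw [Fin.sum_univ_add]
  simp only [Fin.append_left, Fin.append_right, hP, hQ]

theorem half_one : Half (fun _ => 1) (fun _ _ => 0) := by
  refine ⟨0, fun _ => Fin.elim0, 0, 1, ?_, fun v j => ?_⟩
  · refine (pb_primes (α := fun _ => (Fin.elim0 : Fin 0 → ℂ)) fun v i => Fin.elim0 i).pc (σ₀ := 1)
      (by norm_num) (fun s _ => by fun_prop) (fun s _ => by simp) (fun s _ => ?_)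
    unfold Pool.Agent.TH942.ES.LE
    simp
  · simp

/-- a system given by local roots -/
theorem half_of {d : ℕ} {α : Nat.Primes → Fin d → ℂ} (hα : ∀ v i, ‖α v i‖ ≤ 1) {L : ℂ → ℂ} {κ : ℕ} {C : ℝ}
    (hd : ∀ s : ℂ, 1 / 4 < s.re → DifferentiableAt ℂ L s)
    (hg : ∀ s : ℂ, 1 / 4 < s.re → ‖L s‖ ≤ C * (1 + ‖s‖) ^ κ)
    (hL : ∀ s : ℂ, 1 < s.re → HasProd (fun v : Nat.Primes => ∏ i, (1 - α v i * ((v : ℕ) : ℂ) ^ (-s))⁻¹)
      (L s)) :
    Half L (fun v j => ∑ i, α v i ^ j) := by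
  have hre : ∀ s : ℂ, (1 / 2 + s).re = 1 / 2 + s.re := by
    intro s
    rw [Complex.add_re]
    norm_num
  refine ⟨d, α, κ, |C| * 2 ^ κ, ?_, fun v j => rfl⟩
  have B : Pb np α := pb_primes hα
  refine B.pc (σ₀ := 1 / 2) (by norm_num) (fun s hs => ?_) (fun s hs => ?_) (fun s hs => ?_)
  · have h1 := hd (1 / 2 + s) (by rw [hre]; linarith)
    exact DifferentiableAt.comp (f := fun s : ℂ => 1 / 2 + s) s h1 (by fun_prop)
  · refine (hg _ (by rw [hre]; linarith)).trans ?_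
    have h1 : 1 + ‖(1 / 2 : ℂ) + s‖ ≤ 2 * (1 + ‖s‖) := by
      have h2 := norm_add_le (1 / 2 : ℂ) s
      have h3 : ‖(1 / 2 : ℂ)‖ = 1 / 2 := by norm_num
      rw [h3] at h2
      linarith [norm_nonneg s]
    calc C * (1 + ‖(1 / 2 : ℂ) + s‖) ^ κ ≤ |C| * (2 * (1 + ‖s‖)) ^ κ :=
          mul_le_mul (le_abs_self _) (pow_le_pow_left₀ (by positivity) h1 κ) (by positivity)
            (abs_nonneg _)
      _ = _ := by rw [mul_pow]; ring
  · have h1 := hL (1 / 2 + s) (by rw [hre]; linarith)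
    rw [← h1.tprod_eq]
    unfold Pool.Agent.TH942.ES.LE
    refine tprod_congr fun v => Finset.prod_congr rfl fun i _ => ?_
    congr 2
    have hp : (0 : ℝ) < ((v : ℕ) : ℝ) := by exact_mod_cast v.2.pos
    have hpc : ((v : ℕ) : ℂ) ≠ 0 := by exact_mod_cast hp.ne'
    have hlog : Complex.log ((v : ℕ) : ℂ) = (Real.log ((v : ℕ) : ℝ) : ℂ) := by
      rw [Complex.ofReal_log hp.le]
      push_cast
      rfl
    unfold zv
    rw [div_mul_eq_mul_div, mul_div_assoc]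
    congr 1
    unfold xv np
    rw [Complex.cpow_def_of_ne_zero hpc, hlog, Real.sqrt_eq_rpow, Real.rpow_def_of_pos hp,
      Complex.ofReal_exp, ← Complex.exp_sub]
    congr 1
    push_cast
    ring

/-- Dirichlet characters -/
theorem half_char {q : ℕ} [NeZero q] {χ : DirichletCharacter ℂ q} (hχ : χ ≠ 1) :
    Half χ.LFunction (fun v j => χ ((v : ℕ) : ZMod q) ^ j) := by
  have hgrow : ∀ s : ℂ, 1 / 4 < s.re → ‖χ.LFunction s‖ ≤ (1 + 4 * q) * (1 + ‖s‖) ^ 1 := by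
    intro s hs
    have hs0 : 0 < s.re := by linarith
    rw [Pool.Agent.H307R2.LFunction_eq hχ le_rfl hs0]
    have h1 := Pool.Agent.H307R2.TM_norm_le (le_refl 1) (Pool.Agent.H307R2.Ech_norm_le hχ 1) hs0
    have h2 : ‖∑ n ∈ Finset.Icc (1 : ℕ) 1, χ (n : ZMod q) * (n : ℂ) ^ (-s)‖ ≤ 1 := by
      simp
    have h5 : (1 : ℝ) / s.re ≤ 4 := by
      rw [div_le_iff₀ hs0]
      linarith
    have h3 : ‖Pool.Agent.H307R2.TM 1 (Pool.Agent.H307R2.Ech χ 1) s‖ ≤ q * 4 := by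
      refine h1.trans ?_
      rw [Nat.cast_one, Real.one_rpow]
      exact mul_le_mul_of_nonneg_left h5 (Nat.cast_nonneg _)
    refine (norm_add_le _ _).trans ?_
    rw [norm_mul]
    have h6 : ‖s‖ * ‖Pool.Agent.H307R2.TM 1 (Pool.Agent.H307R2.Ech χ 1) s‖ ≤ ‖s‖ * (q * 4) :=
      mul_le_mul_of_nonneg_left h3 (norm_nonneg _)
    have h7 : (0 : ℝ) ≤ q := Nat.cast_nonneg q
    nlinarith [norm_nonneg s]
  have h := half_of (d := 1) (α := fun v _ => χ ((v : ℕ) : ZMod q)) (fun v _ => χ.norm_le_one _)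
    (L := χ.LFunction) (fun s _ => (DirichletCharacter.differentiable_LFunction hχ) s) hgrow
    (fun s hs => by
      have h1 := DirichletCharacter.LSeries_eulerProduct_hasProd χ hs
      rw [← DirichletCharacter.LFunction_eq_LSeries χ hs] at h1
      simpa using h1)
  simpa using h

/-- the criterion and the formula -/
theorem Half.crit {L : ℂ → ℂ} {T : Nat.Primes → ℕ → ℂ} (h : Half L T) :
    ∃ (M : ℝ → ℝ → ℝ → ℝ≥0∞),
      (∀ τ ρ q : ℝ, M τ ρ q = ∫⁻ Y in Ioi (1 : ℝ), ENNReal.ofReal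
        (((∑ᶠ (v : Nat.Primes × ℕ) (_ : ((v.1 : ℕ) : ℝ) ^ (v.2 + 1) ≤ Y),
          (T v.1 (v.2 + 1) / ((v.1 : ℕ) : ℂ) ^ (((v.2 + 1 : ℕ) : ℂ) * (1 / 2 + τ * I))).re /
            ((v.2 : ℝ) + 1)) +
          ρ * (Real.eulerMascheroniConstant + Real.log (Real.log Y)) - q) ^ 2 / Y)) ∧
      (∀ (τ ρ : ℝ) {A : ℝ}, 0 < A →
        (((∀ s : ℂ, 0 < s.re → L (1 / 2 + s) ≠ 0) ∧ ∃ m : ℕ, ρ = m ∧
          Tendsto (fun s : ℂ => ‖L (1 / 2 + (s + τ * I))‖ / ‖s‖ ^ m) (𝓝[≠] 0) (𝓝 A)) ↔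
          M τ ρ (Real.log A) < ⊤)) ∧
      (∀ τ ρ q : ℝ, M τ ρ q < ⊤ → M τ ρ q = ENNReal.ofReal (4 * Real.pi)⁻¹ * ∫⁻ t : ℝ, ENNReal.ofReal
        ((Real.log ‖L (1 / 2 + ((τ + t : ℝ) : ℂ) * I)‖ + Real.log ‖L (1 / 2 + ((τ - t : ℝ) : ℂ) * I)‖ -
          2 * ρ * Real.log |t| - 2 * q) ^ 2 / t ^ 2)) ∧
      (∀ τ : ℝ, ∃ (m : ℕ) (A : ℝ), 0 < A ∧
        Tendsto (fun s : ℂ => ‖L (1 / 2 + (s + τ * I))‖ / ‖s‖ ^ m) (𝓝[≠] 0) (𝓝 A)) := by
  obtain ⟨d, α, κ, C, P, hP⟩ := h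
  refine ⟨fun τ ρ q => Ms np α τ ρ q, fun τ ρ q => ?_, fun τ ρ A hA => ?_, fun τ ρ q hfin => ?_,
    fun τ => ?_⟩
  · have hPa : ∀ Y, Pa np α τ Y = ∑ᶠ (v : Nat.Primes × ℕ) (_ : ((v.1 : ℕ) : ℝ) ^ (v.2 + 1) ≤ Y),
          (T v.1 (v.2 + 1) / ((v.1 : ℕ) : ℂ) ^ (((v.2 + 1 : ℕ) : ℂ) * (1 / 2 + τ * I))).re /
            ((v.2 : ℝ) + 1) := by
      intro Y
      unfold Pa
      refine finsum_congr fun p => finsum_congr fun _ => ?_
      congr 2
      rw [← hP]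
      have hp : (0 : ℝ) < ((p.1 : ℕ) : ℝ) := by exact_mod_cast p.1.2.pos
      have hpc : ((p.1 : ℕ) : ℂ) ≠ 0 := by exact_mod_cast hp.ne'
      unfold zv
      simp only [div_pow]
      rw [← Finset.sum_div, div_mul_eq_mul_div, div_eq_mul_inv, div_eq_mul_inv, mul_assoc]
      congr 1
      have hlog : Complex.log ((p.1 : ℕ) : ℂ) = (Real.log ((p.1 : ℕ) : ℝ) : ℂ) := by
        rw [Complex.ofReal_log hp.le]
        push_cast
        rfl
      unfold xv np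
      rw [Complex.cpow_def_of_ne_zero hpc, ← Complex.exp_neg, hlog, Real.sqrt_eq_rpow,
        Real.rpow_def_of_pos hp, Complex.ofReal_exp, ← Complex.exp_nat_mul, ← Complex.exp_neg,
        ← Complex.exp_add]
      congr 1
      push_cast
      ring
    unfold Ms Da
    simp only [hPa]
  · exact P.abs_iff τ ρ hA
  · exact P.abs_line τ ρ q hfin
  · obtain ⟨m, g, hg, hg0, hloc⟩ := P.local_form τ
    refine ⟨m, ‖g 0‖, norm_pos_iff.2 hg0, ?_⟩
    have hn : Tendsto (fun s : ℂ => g s) (𝓝[≠] 0) (𝓝 (g 0)) :=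
      hg.tendsto.mono_left nhdsWithin_le_nhds
    refine hn.norm.congr' ?_
    filter_upwards [hloc.filter_mono nhdsWithin_le_nhds, self_mem_nhdsWithin] with s hs hs0
    have h1 : 0 < ‖s‖ := norm_pos_iff.2 hs0
    rw [hs, norm_mul, norm_pow]
    field_simp

end Pool.Agent.V11288.HS
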