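import Pool.Agent.V11288.HS.EdgeX

/-! The Euler products of the cohomology of projective varieties over number fields at the centre
`c = (i + 1)/2`. -/

set_option autoImplicit false

open Filter Topology Set NumberField IsDedekindDomain MeasureTheory
open Pool.Agent.TH942.ES
open Pool.Agent.TH270.MS
open Pool.Agent.V11288
open scoped ENNReal

namespace Pool.Agent.V11288.HS.CX

open Pool.Agent.V11288.HS.EX (nrm factor Pure nal nrm_two zv_eq sys hreal factor_eq)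

variable {K : Type} [Field K] [NumberField K] {n N : ℕ} {S : Set (HeightOneSpectrum (𝓞 K))}

/-- The centre `(i + 1)/2`. -/
noncomputable def centre (i : ℕ) : ℝ := ((i : ℝ) + 1) / 2

/-- `log P(Y)` -/
noncomputable def logP (i : ℕ) (α : S → Fin N → ℂ) (Y : ℝ) : ℝ :=
  ∑ᶠ (p : S × ℕ) (_ : (nrm p.1.1 : ℝ) ^ (p.2 + 1) ≤ Y),
    (∑ j, α p.1 j ^ (p.2 + 1)).re / (((p.2 : ℝ) + 1) * ((nrm p.1.1 : ℝ) ^ centre i) ^ (p.2 + 1))

/-- The mean square deviation -/
noncomputable def meanSquare (i : ℕ) (α : S → Fin N → ℂ) (r A : ℝ) : ℝ≥0∞ :=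
  ∫⁻ Y in Ioi (1 : ℝ), ENNReal.ofReal
    ((logP i α Y + r * (Real.eulerMascheroniConstant + Real.log (Real.log Y)) - Real.log A) ^ 2 / Y)

/-- continuations slightly beyond the centre -/
def Continuation (i : ℕ) (α : S → Fin N → ℂ) (L : ℂ → ℂ) : Prop :=
  (∀ s : ℂ, (i : ℝ) / 2 + 1 < s.re → HasProd (fun v : S => factor α v s) (L s)) ∧
  ∃ (η C : ℝ) (k κ : ℕ) (G : ℂ → ℂ), 0 < η ∧ ∀ s : ℂ, centre i - η < s.re →
    DifferentiableAt ℂ G s ∧ ‖G s‖ ≤ C * (1 + ‖s‖) ^ κ ∧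
      (s ≠ centre i → G s = (s - centre i) ^ k * L s)

theorem logP_eq (i : ℕ) (α : S → Fin N → ℂ) (Y : ℝ) : logP i α Y =
    Pl (fun v : S => Pool.Agent.H921R2.TatePole.nm v.1) (nal (i : ℝ) α) Y := by
  unfold logP Pl
  refine finsum_congr fun p => finsum_congr fun _ => ?_
  have h2 := nrm_two p.1.1
  have h0 : (0 : ℝ) < nrm p.1.1 := by linarith
  have h3 : (0 : ℝ) < (nrm p.1.1 : ℝ) ^ centre i := by positivity
  have h4 : ((i : ℝ) + 1) / 2 = centre i := rfl
  unfold cP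
  simp only [zv_eq, mul_pow, h4]
  rw [← Finset.sum_mul, ← Complex.ofReal_pow, Complex.re_mul_ofReal, inv_pow]
  field_simp

theorem meanSquare_eq (i : ℕ) (α : S → Fin N → ℂ) (r A : ℝ) : meanSquare i α r A =
    ∫⁻ Y in Ioi (1 : ℝ), ENNReal.ofReal
      (HS.Dr (fun v : S => Pool.Agent.H921R2.TatePole.nm v.1) (nal (i : ℝ) α) r
        (Real.log A) Y ^ 2 / Y) := by
  unfold meanSquare HS.Dr
  simp only [logP_eq]

/-- the data of the library -/
theorem data {i : ℕ} {α : S → Fin N → ℂ} (h : Pure i α) {L : ℂ → ℂ} (hL : Continuation i α L) :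
    ∃ (G₀ : ℂ → ℂ) (k κ : ℕ) (η C : ℝ),
      Mc (fun v : S => Pool.Agent.H921R2.TatePole.nm v.1) (nal (i : ℝ) α)
        (fun s => L (s + centre i)) G₀ k κ η C := by
  obtain ⟨h1, η, C, k, κ, G, hη, h2⟩ := hL
  set c : ℝ := centre i with hc
  have hc0 : 0 ≤ c := by
    rw [hc]
    unfold centre
    positivity
  have hre : ∀ s : ℂ, (s + (c : ℂ)).re = s.re + c := fun s => by
    rw [Complex.add_re, Complex.ofReal_re]
  refine ⟨fun s => G (s + c), k, κ, η, |C| * (1 + c) ^ κ, ?_⟩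
  refine ⟨sys h le_rfl, hreal h _, hη, ?_, ?_, ?_, ?_⟩
  · intro s hs
    have h3 : c - η < (s + (c : ℂ)).re := by rw [hre]; linarith
    exact DifferentiableAt.comp (g := G) (f := fun s : ℂ => s + c) s (h2 _ h3).1 (by fun_prop)
  · intro s hs
    have h3 : c - η < (s + (c : ℂ)).re := by rw [hre]; linarith
    refine (h2 _ h3).2.1.trans ?_
    have h4 : ‖s + (c : ℂ)‖ ≤ ‖s‖ + c := by
      refine (norm_add_le _ _).trans ?_
      rw [Complex.norm_real, Real.norm_of_nonneg hc0]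
    have h5 : 1 + ‖s + (c : ℂ)‖ ≤ (1 + c) * (1 + ‖s‖) := by
      nlinarith [norm_nonneg s]
    calc C * (1 + ‖s + (c : ℂ)‖) ^ κ ≤ |C| * (1 + ‖s + (c : ℂ)‖) ^ κ := by
          gcongr
          exact le_abs_self C
      _ ≤ |C| * ((1 + c) * (1 + ‖s‖)) ^ κ := by gcongr
      _ = |C| * (1 + c) ^ κ * (1 + ‖s‖) ^ κ := by rw [mul_pow]; ring
  · intro s hs hs0
    have h3 : c - η < (s + (c : ℂ)).re := by rw [hre]; linarith
    have h4 : s + (c : ℂ) ≠ c := by
      intro h5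
      exact hs0 (by simpa using h5)
    have h5 := (h2 _ h3).2.2 h4
    rw [add_sub_cancel_right] at h5
    exact h5
  · intro s hs
    have h3 : (i : ℝ) / 2 + 1 < (s + (c : ℂ)).re := by
      rw [hre, hc]
      unfold centre
      linarith
    have h4 := h1 _ h3
    rw [factor_eq (i : ℝ) α (s + c)] at h4
    have e3 : s + (c : ℂ) - ((((i : ℝ) + 1) / 2 : ℝ) : ℂ) = s := by
      rw [hc]
      unfold centre
      push_cast
      ring
    rw [e3] at h4
    exact h4.tprod_eq.symm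

theorem lim_shift (i : ℕ) (L : ℂ → ℂ) (r : ℤ) (l : Filter ℂ) :
    Tendsto (fun s : ℂ => L s / (s - centre i) ^ r) (𝓝[≠] (centre i : ℂ)) l ↔
      Tendsto (fun s : ℂ => L (s + centre i) / s ^ r) (𝓝[≠] 0) l := by
  have h1 : map (fun s : ℂ => s + (centre i : ℂ)) (𝓝[≠] 0) = 𝓝[≠] (centre i : ℂ) := by
    have : map (fun s : ℂ => s + (centre i : ℂ)) (𝓝[≠] 0) = 𝓝[≠] (0 + (centre i : ℂ)) :=
      map_add_right_nhdsNE
    rwa [zero_add] at this
  rw [← h1, tendsto_map'_iff]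
  refine tendsto_congr fun s => ?_
  simp only [Function.comp_apply, add_sub_cancel_right]

theorem noZeros_iff (i : ℕ) (L : ℂ → ℂ) : (∀ s : ℂ, centre i < s.re → L s ≠ 0) ↔
    ∀ s : ℂ, 0 < s.re → L (s + centre i) ≠ 0 := by
  constructor
  · intro h s hs
    refine h _ ?_
    rw [Complex.add_re, Complex.ofReal_re]
    linarith
  · intro h s hs
    have h1 := h (s - centre i) (by
      rw [Complex.sub_re, Complex.ofReal_re]
      linarith)
    rwa [sub_add_cancel] at h1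

/-- **The criterion and the formula at the centre** -/
theorem main {i : ℕ} {α : S → Fin N → ℂ} (h : Pure i α) {L : ℂ → ℂ} (hL : Continuation i α L)
    (r : ℝ) {A : ℝ} (hA : 0 < A) :
    (((∀ s : ℂ, centre i < s.re → L s ≠ 0) ∧ ∃ k : ℤ, r = k ∧
      Tendsto (fun s : ℂ => L s / (s - centre i) ^ k) (𝓝[≠] (centre i : ℂ)) (𝓝 (A : ℂ))) ↔
      meanSquare i α r A < ⊤) ∧
    (meanSquare i α r A < ⊤ → meanSquare i α r A = ENNReal.ofReal Real.pi⁻¹ *
      ∫⁻ t : ℝ, ENNReal.ofReal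
        ((Real.log ‖L (centre i + t * Complex.I)‖ - r * Real.log |t| - Real.log A) ^ 2 / t ^ 2)) := by
  obtain ⟨G₀, k, κ, η, C, H⟩ := data h hL
  refine ⟨?_, fun hf => ?_⟩
  · rw [meanSquare_eq, fin_iff H.E, ← lead_real_k H r hA, noZeros_iff]
    simp only [lim_shift]
  · rw [meanSquare_eq] at hf ⊢
    rw [crit_line H r (Real.log A) hf]
    congr 1
    refine lintegral_congr fun t => ?_
    have e : (t : ℂ) * Complex.I + centre i = centre i + t * Complex.I := by ring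
    rw [e]

theorem ord_of_lim {L : ℂ → ℂ} {c : ℂ} (hL : MeromorphicAt L c) {k : ℤ} {A : ℂ} (hA : A ≠ 0)
    (h : Tendsto (fun s => L s / (s - c) ^ k) (𝓝[≠] c) (𝓝 A)) : meromorphicOrderAt L c = k := by
  have hid : MeromorphicAt (fun s : ℂ => (s - c) ^ k) c :=
    (((analyticAt_id).sub analyticAt_const).meromorphicAt).zpow k
  have hF : MeromorphicAt (fun s => L s / (s - c) ^ k) c := hL.div hid
  have h0 := (tendsto_ne_zero_iff_meromorphicOrderAt_eq_zero hF).1 ⟨A, hA, h⟩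
  have h0' : meromorphicOrderAt (fun s => L s / (s - c) ^ k) c = ((0 : ℤ) : WithTop ℤ) := h0
  obtain ⟨g, hg, hg0, hge⟩ := (meromorphicOrderAt_eq_int_iff hF).1 h0'
  refine (meromorphicOrderAt_eq_int_iff hL).2 ⟨g, hg, hg0, ?_⟩
  filter_upwards [hge, self_mem_nhdsWithin] with z hz hz0
  have h1 : z - c ≠ 0 := sub_ne_zero.2 hz0
  have h2 : (z - c) ^ k ≠ 0 := zpow_ne_zero k h1
  rw [zpow_zero, one_smul] at hz
  rw [smul_eq_mul, ← hz]
  field_simp

/-- `L` is meromorphic at the point -/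
theorem mero_of_cont {L G : ℂ → ℂ} {c : ℂ} {η : ℝ} (hη : 0 < η) {k : ℕ}
    (h : ∀ s : ℂ, c.re - η < s.re → DifferentiableAt ℂ G s ∧ (s ≠ c → G s = (s - c) ^ k * L s)) :
    MeromorphicAt L c := by
  have hU : IsOpen {s : ℂ | c.re - η < s.re} := isOpen_lt continuous_const Complex.continuous_re
  have hG : AnalyticAt ℂ G c := (DifferentiableOn.analyticOnNhd (fun z hz =>
    (h z hz).1.differentiableWithinAt) hU) c (show c.re - η < c.re by linarith)
  have hid : MeromorphicAt (fun s : ℂ => (s - c) ^ k) c :=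
    (((analyticAt_id).sub analyticAt_const).pow k).meromorphicAt
  refine (hG.meromorphicAt.div hid).congr ?_
  filter_upwards [self_mem_nhdsWithin, (hU.mem_nhds (show c ∈ {s : ℂ | c.re - η < s.re} by
    show c.re - η < c.re
    linarith)) |> mem_nhdsWithin_of_mem_nhds] with z hz hz1
  have h1 : z - c ≠ 0 := sub_ne_zero.2 hz
  have h2 := (h z hz1).2 hz
  simp only [Pi.div_apply]
  rw [h2]
  field_simp

/-- existence of the order and the leading coefficient -/
theorem exists_order {i : ℕ} {α : S → Fin N → ℂ} (h : Pure i α) {L : ℂ → ℂ}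
    (hL : Continuation i α L) (hz : ∀ s : ℂ, centre i < s.re → L s ≠ 0) :
    ∃ (k : ℤ) (A : ℝ), 0 < A ∧ meanSquare i α k A < ⊤ := by
  obtain ⟨G₀, k, κ, η, C, H⟩ := data h hL
  obtain ⟨e, g, p, he, Q⟩ := H.cn
  have hord := (mero_of Q.hg Q.hg0 (local_form H.hη H.hΨ Q.near)).2
  set m : ℤ := (p : ℤ) - (k : ℤ) with hm
  have hord' : meromorphicOrderAt (fun s => L (s + centre i)) 0 = (m : ℤ) := hord
  have t : ((∀ s : ℂ, 0 < s.re → (fun s => L (s + centre i)) s ≠ 0) ∧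
      meromorphicOrderAt (fun s => L (s + centre i)) 0 = m) ↔
      ∃ A : ℝ, 0 < A ∧ IntegrableOn (fun Y : ℝ =>
        Dv (fun v : S => Pool.Agent.H921R2.TatePole.nm v.1) (nal (i : ℝ) α) m A Y ^ 2 / Y)
          (Ioi (Real.exp 1)) := (H.tfae_order m).out 0 1
  obtain ⟨A, hA, h2⟩ := t.1 ⟨(noZeros_iff i L).1 hz, hord'⟩
  refine ⟨m, A, hA, ?_⟩
  rw [meanSquare_eq, fin_iff H.E]
  exact h2

end Pool.Agent.V11288.HS.CX
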