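import Pool.Agent.V11288.HS.Line

/-! **The critical line formula**: the mean square deviation of the partial Euler products at the central
point is the integral of the square of `(log |Ψ(it)| - r log |t| - q)/t`. -/

set_option autoImplicit false

open MeasureTheory Filter Topology Set Complex
open scoped ENNReal
open Pool.Agent.TH942.LS (Dat)
open Pool.Agent.TH942.SL
open Pool.Agent.TH942.ES
open Pool.Agent.TH270.MS

namespace Pool.Agent.V11288.HS

/-- an analytic function has few zeros on a line -/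
theorem ae_ne {G : ℂ → ℂ} {η : ℝ} (hη : 0 < η) (hd : ∀ s : ℂ, -η < s.re → DifferentiableAt ℂ G s)
    {z : ℂ} (hz : -η < z.re) (hGz : G z ≠ 0) : ∀ᵐ t : ℝ, G (t * I) ≠ 0 := by
  have hU : IsOpen {s : ℂ | -η < s.re} := isOpen_lt continuous_const Complex.continuous_re
  have hUc : Convex ℝ {s : ℂ | -η < s.re} := convex_halfSpace_re_gt _
  have a1 : AnalyticOnNhd ℂ G {s : ℂ | -η < s.re} :=
    DifferentiableOn.analyticOnNhd (fun z hz => (hd z hz).differentiableWithinAt) hU
  have hline : ∀ t : ℝ, -η < ((t : ℂ) * I).re := fun t => by simpa using hη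
  have a2 : AnalyticOnNhd ℝ (fun t : ℝ => G (t * I)) univ := by
    intro t _
    have h1 : AnalyticAt ℝ G ((t : ℂ) * I) := (a1 _ (hline t)).restrictScalars
    have h2 : AnalyticAt ℝ (fun t : ℝ => (t : ℂ) * I) t :=
      (Complex.ofRealCLM.analyticAt t).mul analyticAt_const
    exact AnalyticAt.comp (f := fun t : ℝ => (t : ℂ) * I) h1 h2
  obtain ⟨t₀, ht₀⟩ : ∃ t : ℝ, G (t * I) ≠ 0 := by
    by_contra hall
    push Not at hall
    have h1 : ∃ᶠ s in 𝓝[≠] (0 : ℂ), G s = 0 := by
      have h2 : Tendsto (fun n : ℕ => (((1 : ℝ) / ((n : ℝ) + 1) : ℝ) : ℂ) * I) atTop (𝓝[≠] 0) := by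
        refine tendsto_nhdsWithin_of_tendsto_nhds_of_eventually_within _ ?_ ?_
        · have h3 : Tendsto (fun n : ℕ => (((1 : ℝ) / ((n : ℝ) + 1) : ℝ) : ℂ) * I) atTop
              (𝓝 (((0 : ℝ) : ℂ) * I)) :=
            ((Complex.continuous_ofReal.tendsto 0).comp tendsto_one_div_add_atTop_nhds_zero_nat).mul_const I
          simpa using h3
        · refine Eventually.of_forall fun n => ?_
          have h3 : (0 : ℝ) < 1 / ((n : ℝ) + 1) := by positivity
          show (((1 : ℝ) / ((n : ℝ) + 1) : ℝ) : ℂ) * I ≠ 0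
          exact mul_ne_zero (by exact_mod_cast h3.ne') I_ne_zero
      exact h2.frequently (Frequently.of_forall fun n => hall _)
    have h2 := a1.eqOn_zero_of_preconnected_of_frequently_eq_zero hUc.isPreconnected
      (show (0 : ℂ) ∈ {s : ℂ | -η < s.re} by
        show -η < (0 : ℂ).re
        simpa using hη) h1
    exact hGz (h2 hz)
  have h1 := a2.preimage_zero_mem_codiscrete (x := t₀) ht₀
  have h2 := ae_restrict_le_codiscreteWithin (μ := (volume : Measure ℝ)) MeasurableSet.univ h1
  rw [Measure.restrict_univ] at h2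
  filter_upwards [h2] with t ht
  exact ht

variable {X : Type} {d : ℕ} {N : X → ℕ} {α : X → Fin d → ℂ} {Ψ G₀ : ℂ → ℂ}
  {k κ : ℕ} {η C : ℝ}

/-- **The critical line formula** -/
theorem crit_line (H : Mc N α Ψ G₀ k κ η C) (r q : ℝ)
    (hfin : ∫⁻ Y in Ioi (1 : ℝ), ENNReal.ofReal (Dr N α r q Y ^ 2 / Y) < ⊤) :
    ∫⁻ Y in Ioi (1 : ℝ), ENNReal.ofReal (Dr N α r q Y ^ 2 / Y) = ENNReal.ofReal Real.pi⁻¹ *
      ∫⁻ t : ℝ, ENNReal.ofReal ((Real.log ‖Ψ (t * I)‖ - r * Real.log |t| - q) ^ 2 / t ^ 2) := by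
  have E := H.E
  have := E.cnt
  obtain ⟨e, he⟩ := Countable.exists_injective_nat (X × ℕ)
  have D := E.datS he (σ := 1) (by norm_num)
  rw [dr_sq E he] at hfin ⊢
  set lam := lamS N e with hlam
  set c := cS N α e with hc
  set f : ℝ → ℝ := Df lam c r q with hf
  set B : ℝ := (∫⁻ u in Ioi (0 : ℝ), ENNReal.ofReal (f u ^ 2)).toReal with hB
  have hB0 : 0 ≤ B := ENNReal.toReal_nonneg
  have hBe : ∫⁻ u in Ioi (0 : ℝ), ENNReal.ofReal (f u ^ 2) ≤ ENNReal.ofReal B := by
    rw [hB, ENNReal.ofReal_toReal hfin.ne]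
  obtain ⟨hl1, -, hl3⟩ := to_log D r q hB0 hBe
  have hfull : ∫⁻ u : ℝ, ENNReal.ofReal (f u ^ 2) = ∫⁻ u in Ioi (0 : ℝ), ENNReal.ofReal (f u ^ 2) := by
    rw [← lintegral_indicator measurableSet_Ioi]
    refine lintegral_congr fun u => ?_
    rcases lt_or_ge 0 u with hu | hu
    · rw [indicator_of_mem (show u ∈ Ioi (0 : ℝ) from hu)]
    · rw [indicator_of_notMem (show u ∉ Ioi (0 : ℝ) from not_lt.2 hu), hf, df_zero r q hu]
      simp
  have hmem : MemLp f 2 := by
    refine ⟨(df_meas D r q).aestronglyMeasurable, ?_⟩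
    rw [en_real, hfull]
    exact ENNReal.rpow_lt_top_of_nonneg (by norm_num) hfin.ne
  -- the continuation
  have hη := H.hη
  have hne : ∀ s : ℂ, 0 < s.re → s ≠ 0 := fun s hs => by rintro rfl; simp at hs
  have hU : IsOpen {s : ℂ | 0 < s.re} := isOpen_lt continuous_const Complex.continuous_re
  have hUc : Convex ℝ {s : ℂ | 0 < s.re} := convex_halfSpace_re_gt _
  have hexp : ∀ s : ℂ, 0 < s.re → s ^ k * exp (ell lam c r q s) = G₀ s := by
    intro s hs
    have a1 : AnalyticOnNhd ℂ (fun s => s ^ k * exp (ell lam c r q s)) {s : ℂ | 0 < s.re} :=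
      DifferentiableOn.analyticOnNhd (fun z hz => ((differentiableAt_id.pow k).mul
        (hl1 z hz).cexp).differentiableWithinAt) hU
    have a2 : AnalyticOnNhd ℂ G₀ {s : ℂ | 0 < s.re} :=
      DifferentiableOn.analyticOnNhd (fun z hz => (H.hG z (by
        have : 0 < z.re := hz
        linarith)).differentiableWithinAt) hU
    have h2 : ((2 : ℝ) : ℂ) ∈ {s : ℂ | 0 < s.re} := by
      show 0 < ((2 : ℝ) : ℂ).re
      rw [Complex.ofReal_re]
      norm_num
    have ho : IsOpen {z : ℂ | 1 < z.re} := isOpen_lt continuous_const Complex.continuous_re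
    refine a1.eqOn_of_preconnected_of_eventuallyEq a2 hUc.isPreconnected h2 ?_ hs
    have h3 : ((2 : ℝ) : ℂ) ∈ {z : ℂ | 1 < z.re} := by
      show 1 < ((2 : ℝ) : ℂ).re
      rw [Complex.ofReal_re]
      norm_num
    filter_upwards [ho.mem_nhds h3] with z hz
    have hz1 : 1 < z.re := hz
    rw [ell_eq D r q hz1, E.exp_DD H.hreal he (by linarith), ← H.hL z (by linarith),
      ← H.hΨ z (by linarith) (hne z (by linarith))]
  -- a point where `G₀` does not vanish
  have hG1 : G₀ 1 ≠ 0 := by
    rw [← hexp 1 (by simp)]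
    exact mul_ne_zero (by simp) (Complex.exp_ne_zero _)
  have hae := ae_ne hη H.hG (z := 1) (by simp; linarith) hG1
  have hae0 : ∀ᵐ t : ℝ, t ≠ 0 := by
    rw [ae_iff]
    simp
  -- the boundary values
  have hline := im_line (k := f) (fun u hu => df_zero r q hu) hmem
    (h := fun t => -(Real.log ‖Ψ (t * I)‖ - r * Real.log |t| - q) / t) (by
      filter_upwards [hae, hae0] with t ht ht0
      have htI : (t : ℂ) * I ≠ 0 := mul_ne_zero (by exact_mod_cast ht0) I_ne_zero
      have hΨt := H.hΨ (t * I) (by simpa using hη) htI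
      have hΨ0 : Ψ (t * I) ≠ 0 := by
        intro h
        rw [h, mul_zero] at hΨt
        exact ht hΨt
      -- the point
      set s : ℝ → ℂ := fun x => (x : ℂ) + t * I with hs
      have hsre : ∀ x, (s x).re = x := fun x => by simp [hs]
      have hsim : ∀ x, (s x).im = t := fun x => by simp [hs]
      have hst : Tendsto s (𝓝[>] 0) (𝓝 (t * I)) := by
        have h1 : Continuous s := by fun_prop
        have h2 := h1.tendsto 0
        have h3 : s 0 = t * I := by simp [hs]
        rw [h3] at h2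
        exact h2.mono_left nhdsWithin_le_nhds
      set w : ℝ → ℂ := fun x => ell lam c r q (s x) - r * log (s x) - q with hw
      have hLT : ∀ x : ℝ, 0 < x → LT f (s x) = w x / s x := by
        intro x hx
        have h1 : s x ≠ 0 := hne _ (by rw [hsre]; exact hx)
        simp only [hw]
        unfold ell LT
        rw [hf]
        field_simp
        ring
      have hwre : ∀ x : ℝ, 0 < x → (w x).re =
          Real.log ‖G₀ (s x)‖ - k * Real.log ‖s x‖ - r * Real.log ‖s x‖ - q := by
        intro x hx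
        have hs0 : 0 < (s x).re := by rw [hsre]; exact hx
        have h1 := hexp (s x) hs0
        have h2 : 0 < ‖s x‖ := norm_pos_iff.2 (hne _ hs0)
        have h3 : Real.log ‖G₀ (s x)‖ = k * Real.log ‖s x‖ + (ell lam c r q (s x)).re := by
          rw [← h1, norm_mul, norm_pow, Complex.norm_exp, Real.log_mul (by positivity)
            (Real.exp_pos _).ne', Real.log_pow, Real.log_exp]
        simp only [hw]
        rw [Complex.sub_re, Complex.sub_re, Complex.ofReal_re, Complex.re_ofReal_mul, Complex.log_re, h3]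
        ring
      have hG0c : ContinuousAt G₀ (t * I) := (H.hG _ (by simpa using hη)).continuousAt
      have hRe : Tendsto (fun x => (w x).re) (𝓝[>] 0)
          (𝓝 (Real.log ‖Ψ (t * I)‖ - r * Real.log |t| - q)) := by
        have h1 : Tendsto (fun x => Real.log ‖G₀ (s x)‖) (𝓝[>] 0) (𝓝 (Real.log ‖G₀ (t * I)‖)) :=
          ((hG0c.tendsto.comp hst).norm).log (norm_ne_zero_iff.2 ht)
        have h2 : Tendsto (fun x => Real.log ‖s x‖) (𝓝[>] 0) (𝓝 (Real.log ‖(t : ℂ) * I‖)) :=
          hst.norm.log (norm_ne_zero_iff.2 htI)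
        have h3 : Tendsto (fun x => Real.log ‖G₀ (s x)‖ - k * Real.log ‖s x‖ -
            r * Real.log ‖s x‖ - q) (𝓝[>] 0) (𝓝 (Real.log ‖G₀ (t * I)‖ -
              k * Real.log ‖(t : ℂ) * I‖ - r * Real.log ‖(t : ℂ) * I‖ - q)) :=
          ((h1.sub (h2.const_mul _)).sub (h2.const_mul _)).sub_const _
        have e : Real.log ‖G₀ (t * I)‖ - k * Real.log ‖(t : ℂ) * I‖ - r * Real.log ‖(t : ℂ) * I‖ - q =
            Real.log ‖Ψ (t * I)‖ - r * Real.log |t| - q := by
          have h4 : ‖(t : ℂ) * I‖ = |t| := by simp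
          have h5 : 0 < |t| := abs_pos.2 ht0
          rw [hΨt, norm_mul, norm_pow, h4, Real.log_mul (by positivity) (norm_ne_zero_iff.2 hΨ0),
            Real.log_pow]
          ring
        rw [e] at h3
        refine h3.congr' ?_
        filter_upwards [self_mem_nhdsWithin] with x hx
        exact (hwre x hx).symm
      have hIm : Tendsto (fun x => (w x).im * x) (𝓝[>] 0) (𝓝 0) := by
        have h1 : Tendsto (fun x => √(B * ‖s x‖ ^ 2 * x / 2)) (𝓝[>] 0) (𝓝 0) := by
          have h2 : Tendsto (fun x => B * ‖s x‖ ^ 2 * x / 2) (𝓝[>] 0)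
              (𝓝 (B * ‖(t : ℂ) * I‖ ^ 2 * 0 / 2)) :=
            (((hst.norm.pow 2).const_mul B).mul (tendsto_id.mono_left nhdsWithin_le_nhds)).div_const 2
          have h3 := (Real.continuous_sqrt.tendsto _).comp h2
          simpa [Function.comp_def] using h3
        refine squeeze_zero_norm' ?_ h1
        filter_upwards [self_mem_nhdsWithin] with x hx
        have hx0 : 0 < x := hx
        have hs0 : 0 < (s x).re := by rw [hsre]; exact hx0
        have h2 := hl3 (s x) hs0
        rw [hsre] at h2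
        apply Real.le_sqrt_of_sq_le
        rw [norm_mul, mul_pow, Real.norm_eq_abs, Real.norm_eq_abs, sq_abs x]
        have h3 : |(w x).im| ^ 2 ≤ ‖w x‖ ^ 2 :=
          pow_le_pow_left₀ (abs_nonneg _) (Complex.abs_im_le_norm _) 2
        calc |(w x).im| ^ 2 * x ^ 2 ≤ (B * ‖s x‖ ^ 2 / (2 * x)) * x ^ 2 := by
              gcongr
              exact h3.trans h2
          _ = B * ‖s x‖ ^ 2 * x / 2 := by field_simp
      -- the quotient
      have hq : ∀ x : ℝ, 0 < x → (LT f (s x)).im = ((w x).im * x - (w x).re * t) / (x ^ 2 + t ^ 2) := by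
        intro x hx
        rw [hLT x hx, Complex.div_im, Complex.normSq_apply, hsre, hsim]
        have : x * x + t * t = x ^ 2 + t ^ 2 := by ring
        rw [this]
        ring
      have hden : Tendsto (fun x : ℝ => x ^ 2 + t ^ 2) (𝓝[>] 0) (𝓝 (0 ^ 2 + t ^ 2)) :=
        ((tendsto_id.mono_left nhdsWithin_le_nhds).pow 2).add_const _
      have hfinal := (hIm.sub (hRe.mul_const t)).div hden (by positivity)
      have e : (0 - (Real.log ‖Ψ (t * I)‖ - r * Real.log |t| - q) * t) / (0 ^ 2 + t ^ 2) =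
          -(Real.log ‖Ψ (t * I)‖ - r * Real.log |t| - q) / t := by
        field_simp
        ring
      rw [e] at hfinal
      refine hfinal.congr' ?_
      filter_upwards [self_mem_nhdsWithin] with x hx
      exact (hq x hx).symm)
  rw [hfull] at hline
  have h7 : ∫⁻ t : ℝ, ENNReal.ofReal ((-(Real.log ‖Ψ (t * I)‖ - r * Real.log |t| - q) / t) ^ 2) =
      ∫⁻ t : ℝ, ENNReal.ofReal ((Real.log ‖Ψ (t * I)‖ - r * Real.log |t| - q) ^ 2 / t ^ 2) := by
    refine lintegral_congr fun t => ?_
    congr 1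
    rw [div_pow, neg_sq]
  rw [h7] at hline
  rw [hline, ← mul_assoc, ← ENNReal.ofReal_mul (by positivity), inv_mul_cancel₀ Real.pi_ne_zero,
    ENNReal.ofReal_one, one_mul]

end Pool.Agent.V11288.HS
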