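import Pool.Agent.V11288.HS.Fin

/-! **Doubling**: from an Euler product `L` (arbitrary complex traces) to `L(s + iτ) conj L(conj s + iτ)`, whose
traces are real. -/

set_option autoImplicit false

open MeasureTheory Filter Topology Set Complex
open scoped ENNReal ComplexConjugate
open Pool.Agent.TH942.LS (Dat)
open Pool.Agent.TH942.SL
open Pool.Agent.TH942.ES
open Pool.Agent.TH270.MS

namespace Pool.Agent.V11288.HS

variable {X : Type} {d : ℕ} {N : X → ℕ} {α : X → Fin d → ℂ}

/-- `α_i N^{-iτ}` and the complex conjugates -/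
noncomputable def dbl (N : X → ℕ) (α : X → Fin d → ℂ) (τ : ℝ) (v : X) : Fin (d + d) → ℂ :=
  Fin.append (fun i => α v i * xv N v (τ * I)) (fun i => conj (α v i * xv N v (τ * I)))

/-- an Euler product with arbitrary traces, continued across the central line with polynomial growth -/
structure Pc (N : X → ℕ) (α : X → Fin d → ℂ) (L : ℂ → ℂ) (κ : ℕ) (η C : ℝ) : Prop where
  cnt : Countable X
  two_le : ∀ v, 2 ≤ N v
  sum : ∀ r : ℝ, 1 < r → Summable fun v => (N v : ℝ) ^ (-r)
  log_sum : ∃ C σ₀ : ℝ, 0 < σ₀ ∧ ∀ σ : ℝ, 0 < σ → σ < σ₀ →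
    Summable (fun v => Real.log (N v) * (N v : ℝ) ^ (-(1 + σ))) ∧
    σ * ∑' v, Real.log (N v) * (N v : ℝ) ^ (-(1 + σ)) ≤ C
  le : ∀ v i, ‖α v i‖ ≤ 1
  hη : 0 < η
  hG : ∀ s : ℂ, -η < s.re → DifferentiableAt ℂ L s
  hgrow : ∀ s : ℂ, -η < s.re → ‖L s‖ ≤ C * (1 + ‖s‖) ^ κ
  hL : ∀ s : ℂ, 1 / 2 < s.re → L s = LE N α s

theorem xv_add (v : X) (s t : ℂ) : xv N v (s + t) = xv N v s * xv N v t := by
  unfold xv
  rw [← Complex.exp_add]
  congr 1
  ring

theorem xv_conj (v : X) (s : ℂ) : xv N v (conj s) = conj (xv N v s) := by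
  unfold xv
  rw [← Complex.exp_conj, map_neg, map_mul, Complex.conj_ofReal]

theorem xv_pow (v : X) (s : ℂ) (k : ℕ) : xv N v s ^ k = xv N v (k * s) := by
  unfold xv
  rw [← Complex.exp_nat_mul]
  congr 1
  ring

theorem norm_xv_im (v : X) (τ : ℝ) : ‖xv N v (τ * I)‖ = 1 := by
  unfold xv
  rw [show -((τ : ℂ) * I * (Real.log (N v) : ℝ)) = ((-(τ * Real.log (N v)) : ℝ) : ℂ) * I by
    push_cast; ring]
  exact Complex.norm_exp_ofReal_mul_I _

theorem zv_dbl_l (τ : ℝ) (v : X) (i : Fin d) :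
    zv N (dbl N α τ) v (Fin.castAdd d i) = zv N α v i * xv N v (τ * I) := by
  unfold zv dbl
  rw [Fin.append_left]
  ring

theorem zv_dbl_r (τ : ℝ) (v : X) (i : Fin d) :
    zv N (dbl N α τ) v (Fin.natAdd d i) = conj (zv N α v i * xv N v (τ * I)) := by
  unfold zv dbl
  rw [Fin.append_right, map_mul, map_mul, map_div₀, Complex.conj_ofReal]
  ring

/-- the traces of the doubled system -/
theorem dbl_trace (τ : ℝ) (v : X) (k : ℕ) :
    ∑ i, zv N (dbl N α τ) v i ^ k =
      ((2 * ((∑ i, zv N α v i ^ k) * xv N v (k * (τ * I))).re : ℝ) : ℂ) := by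
  rw [Fin.sum_univ_add]
  have e1 : ∑ i : Fin d, zv N (dbl N α τ) v (Fin.castAdd d i) ^ k =
      (∑ i, zv N α v i ^ k) * xv N v (k * (τ * I)) := by
    rw [Finset.sum_mul]
    refine Finset.sum_congr rfl fun i _ => ?_
    rw [zv_dbl_l, mul_pow, xv_pow]
  have e2 : ∑ i : Fin d, zv N (dbl N α τ) v (Fin.natAdd d i) ^ k =
      conj ((∑ i, zv N α v i ^ k) * xv N v (k * (τ * I))) := by
    rw [← e1, map_sum]
    refine Finset.sum_congr rfl fun i _ => ?_
    rw [zv_dbl_r, zv_dbl_l, map_pow]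
  rw [e1, e2, Complex.add_conj]

namespace Pc

variable {L : ℂ → ℂ} {κ : ℕ} {η C : ℝ} (P : Pc N α L κ η C)
include P

theorem Npos (v : X) : (0 : ℝ) < N v := by
  have := P.two_le v
  exact_mod_cast (by omega : 0 < N v)

theorem Ntwo (v : X) : (2 : ℝ) ≤ N v := by exact_mod_cast P.two_le v

theorem norm_zv (v : X) (i : Fin d) : ‖zv N α v i‖ ≤ 1 / √(N v : ℝ) := by
  unfold zv
  have hq : 0 < √(N v : ℝ) := Real.sqrt_pos.2 (P.Npos v)
  rw [norm_div, Complex.norm_real, Real.norm_eq_abs, abs_of_pos hq]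
  exact div_le_div_of_nonneg_right (P.le v i) hq.le

theorem norm_zv_lt (v : X) (i : Fin d) : ‖zv N α v i‖ < 1 := by
  refine (P.norm_zv v i).trans_lt ?_
  rw [div_lt_one (Real.sqrt_pos.2 (P.Npos v))]
  apply Real.lt_sqrt_of_sq_lt
  have := P.Ntwo v
  linarith

theorem norm_xv (v : X) (s : ℂ) : ‖xv N v s‖ = (N v : ℝ) ^ (-s.re) := by
  unfold xv
  rw [Complex.norm_exp, Real.rpow_def_of_pos (P.Npos v)]
  congr 1
  rw [Complex.neg_re, Complex.re_mul_ofReal]
  ring

theorem norm_zx (v : X) (i : Fin d) (s : ℂ) :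
    ‖zv N α v i * xv N v s‖ ≤ (N v : ℝ) ^ (-(1 / 2 + s.re)) := by
  rw [norm_mul, P.norm_xv]
  have h1 := P.norm_zv v i
  have h2 : 1 / √(N v : ℝ) = (N v : ℝ) ^ (-(1 / 2) : ℝ) := by
    rw [Real.sqrt_eq_rpow, Real.rpow_neg (P.Npos v).le, one_div]
  rw [h2] at h1
  calc ‖zv N α v i‖ * (N v : ℝ) ^ (-s.re) ≤ (N v : ℝ) ^ (-(1 / 2) : ℝ) * (N v : ℝ) ^ (-s.re) :=
        mul_le_mul_of_nonneg_right h1 (Real.rpow_nonneg (P.Npos v).le _)
    _ = _ := by
        rw [← Real.rpow_add (P.Npos v)]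
        congr 1
        ring

theorem norm_zx_half (v : X) (i : Fin d) {s : ℂ} (hs : 1 / 2 < s.re) :
    ‖zv N α v i * xv N v s‖ ≤ 1 / 2 := by
  refine (P.norm_zx v i s).trans ?_
  calc (N v : ℝ) ^ (-(1 / 2 + s.re)) ≤ (N v : ℝ) ^ (-1 : ℝ) :=
        Real.rpow_le_rpow_of_exponent_le (by have := P.Ntwo v; linarith) (by linarith)
    _ ≤ 1 / 2 := by
        rw [Real.rpow_neg_one, ← one_div]
        exact one_div_le_one_div_of_le (by norm_num) (P.Ntwo v)

theorem hasProd {s : ℂ} (hs : 1 / 2 < s.re) :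
    HasProd (fun v => ∏ i, (1 - zv N α v i * xv N v s)⁻¹)
      (exp (∑' v, ∑ i, -log (1 - zv N α v i * xv N v s))) := by
  have h1 : Summable (fun v => ∑ i, -log (1 - zv N α v i * xv N v s)) := by
    refine Summable.of_norm_bounded (g := fun v => (d : ℝ) * (3 / 2 * (N v : ℝ) ^ (-(1 / 2 + s.re))))
      (((P.sum _ (by linarith)).mul_left _).mul_left _) fun v => ?_
    refine (norm_sum_le _ _).trans ?_
    calc ∑ i, ‖-log (1 - zv N α v i * xv N v s)‖ ≤
          ∑ _i : Fin d, 3 / 2 * (N v : ℝ) ^ (-(1 / 2 + s.re)) := by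
          refine Finset.sum_le_sum fun i _ => ?_
          rw [norm_neg, sub_eq_add_neg]
          refine (norm_log_one_add_half_le_self (z := -(zv N α v i * xv N v s)) (by
            rw [norm_neg]
            exact P.norm_zx_half v i hs)).trans ?_
          rw [norm_neg]
          have := P.norm_zx v i s
          gcongr
      _ = _ := by
          rw [Finset.sum_const, Finset.card_univ, Fintype.card_fin, nsmul_eq_mul]
  have h2 := h1.hasSum.cexp
  have h3 : (exp ∘ fun v => ∑ i, -log (1 - zv N α v i * xv N v s)) =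
      fun v => ∏ i, (1 - zv N α v i * xv N v s)⁻¹ := by
    funext v
    simp only [Function.comp_apply]
    rw [Complex.exp_sum]
    refine Finset.prod_congr rfl fun i _ => ?_
    rw [Complex.exp_neg, Complex.exp_log]
    intro h
    have h4 := P.norm_zx_half v i hs
    rw [show zv N α v i * xv N v s = 1 by linear_combination -h] at h4
    norm_num at h4
  rw [h3] at h2
  exact h2

theorem multipliable {s : ℂ} (hs : 1 / 2 < s.re) :
    Multipliable (fun v => ∏ i, (1 - zv N α v i * xv N v s)⁻¹) := (P.hasProd hs).multipliable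

theorem ne_zero {s : ℂ} (hs : 1 / 2 < s.re) : L s ≠ 0 := by
  rw [P.hL s hs, show Pool.Agent.TH942.ES.LE N α s = _ from (P.hasProd hs).tprod_eq]
  exact Complex.exp_ne_zero _

omit P in
theorem re_lt (τ : ℝ) (s : ℂ) : (s + τ * I).re = s.re := by simp

/-- the Euler product of the doubled system -/
theorem LE_dbl (τ : ℝ) {s : ℂ} (hs : 1 / 2 < s.re) :
    LE N (dbl N α τ) s = LE N α (s + τ * I) * conj (LE N α (conj s + τ * I)) := by
  have h1 := P.multipliable (s := s + τ * I) (by rw [re_lt]; exact hs)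
  have h2 := P.multipliable (s := conj s + τ * I) (by rw [re_lt, Complex.conj_re]; exact hs)
  have h3 : HasProd (fun v => conj (∏ i, (1 - zv N α v i * xv N v (conj s + τ * I))⁻¹))
      (conj (LE N α (conj s + τ * I))) := by
    have := h2.hasProd.map (starRingEnd ℂ) Complex.continuous_conj
    exact this
  have h4 := h1.hasProd.mul h3
  have h5 : (fun v => (∏ i, (1 - zv N α v i * xv N v (s + τ * I))⁻¹) *
      conj (∏ i, (1 - zv N α v i * xv N v (conj s + τ * I))⁻¹)) =
      fun v => ∏ i, (1 - zv N (dbl N α τ) v i * xv N v s)⁻¹ := by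
    funext v
    rw [Fin.prod_univ_add]
    congr 1
    · refine Finset.prod_congr rfl fun i _ => ?_
      rw [zv_dbl_l, xv_add]
      ring_nf
    · rw [map_prod]
      refine Finset.prod_congr rfl fun i _ => ?_
      rw [zv_dbl_r, map_inv₀, map_sub, map_one, xv_add]
      simp only [map_mul]
      rw [← xv_conj v (conj s), Complex.conj_conj]
      ring_nf
  rw [h5] at h4
  exact h4.tprod_eq

theorem sys_dbl (τ : ℝ) : Sys N (dbl N α τ) where
  cnt := P.cnt
  two_le := P.two_le
  sum := P.sum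
  log_sum := P.log_sum
  le := by
    intro v i
    unfold dbl
    refine Fin.addCases (fun i => ?_) (fun i => ?_) i
    · rw [Fin.append_left, norm_mul, norm_xv_im, mul_one]
      exact P.le v i
    · rw [Fin.append_right, Complex.norm_conj, norm_mul, norm_xv_im, mul_one]
      exact P.le v i
  real := by
    intro v
    have h1 : ∀ i, log (1 - dbl N α τ v i / ((√(N v : ℝ) : ℝ) : ℂ)) =
        log (1 - zv N (dbl N α τ) v i) := fun i => rfl
    simp only [h1]
    rw [Fin.sum_univ_add, ← Finset.sum_add_distrib]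
    have h2 : ∀ i : Fin d, log (1 - zv N (dbl N α τ) v (Fin.castAdd d i)) +
        log (1 - zv N (dbl N α τ) v (Fin.natAdd d i)) =
        ((2 * (log (1 - zv N α v i * xv N v (τ * I))).re : ℝ) : ℂ) := by
      intro i
      rw [zv_dbl_l, zv_dbl_r]
      have h3 : ‖zv N α v i * xv N v (τ * I)‖ < 1 := by
        rw [norm_mul, norm_xv_im, mul_one]
        exact P.norm_zv_lt v i
      set w := zv N α v i * xv N v (τ * I) with hw
      have h4 : (1 - w) ∈ slitPlane := by
        left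
        rw [Complex.sub_re, Complex.one_re]
        have := (Complex.abs_re_le_norm w).trans_lt h3
        have := (abs_lt.1 this).2
        linarith
      have h5 : log (1 - conj w) = conj (log (1 - w)) := by
        rw [← Complex.log_conj _ (slitPlane_arg_ne_pi h4), map_sub, map_one]
      rw [h5, Complex.add_conj]
    simp only [h2]
    rw [← Complex.ofReal_sum, Complex.ofReal_im]

/-- `L(s + iτ) conj L(conj s + iτ)` -/
noncomputable def _root_.Pool.Agent.V11288.HS.L2 (L : ℂ → ℂ) (τ : ℝ) (s : ℂ) : ℂ :=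
  L (s + τ * I) * conj (L (conj s + τ * I))

theorem mc (τ : ℝ) : Mc N (dbl N α τ) (L2 L τ) (L2 L τ) 0 (κ + κ) η
    (C * (1 + |τ|) ^ κ * (C * (1 + |τ|) ^ κ)) where
  E := P.sys_dbl τ
  hreal := by
    intro v k
    rw [dbl_trace, Complex.ofReal_im]
  hη := P.hη
  hG := by
    intro s hs
    unfold L2
    have h1 : DifferentiableAt ℂ (fun s => L (s + τ * I)) s := by
      refine DifferentiableAt.comp s (P.hG _ (by rw [re_lt]; exact hs)) ?_
      fun_prop
    have h2 : DifferentiableAt ℂ (fun s => L (s + τ * I)) (conj s) := by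
      refine DifferentiableAt.comp _ (P.hG _ (by rw [re_lt, Complex.conj_re]; exact hs)) ?_
      fun_prop
    have h3 := h2.conj_conj
    rw [Complex.conj_conj] at h3
    exact h1.mul h3
  hgrow := by
    intro s hs
    unfold L2
    rw [norm_mul, Complex.norm_conj]
    have key : ∀ z : ℂ, -η < z.re → ‖L (z + τ * I)‖ ≤ C * (1 + |τ|) ^ κ * (1 + ‖z‖) ^ κ := by
      intro z hz
      have h1 := P.hgrow (z + τ * I) (by rw [re_lt]; exact hz)
      have hC : 0 ≤ C := by
        have h2 := (norm_nonneg _).trans h1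
        have h3 : 0 < (1 + ‖z + τ * I‖) ^ κ := by positivity
        exact nonneg_of_mul_nonneg_left h2 h3
      refine h1.trans ?_
      rw [mul_assoc, ← mul_pow]
      have h4 : ‖z + τ * I‖ ≤ ‖z‖ + |τ| := by
        refine (norm_add_le _ _).trans ?_
        rw [norm_mul, Complex.norm_I, mul_one, Complex.norm_real, Real.norm_eq_abs]
      have h5 : 1 + ‖z + τ * I‖ ≤ (1 + |τ|) * (1 + ‖z‖) := by
        have : 0 ≤ |τ| * ‖z‖ := by positivity
        nlinarith
      gcongr
    have h1 := key s hs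
    have h2 := key (conj s) (by rw [Complex.conj_re]; exact hs)
    rw [Complex.norm_conj] at h2
    calc ‖L (s + τ * I)‖ * ‖L (conj s + τ * I)‖ ≤
          (C * (1 + |τ|) ^ κ * (1 + ‖s‖) ^ κ) * (C * (1 + |τ|) ^ κ * (1 + ‖s‖) ^ κ) :=
          mul_le_mul h1 h2 (norm_nonneg _) ((norm_nonneg _).trans h1)
      _ = _ := by rw [pow_add]; ring
  hΨ := by
    intro s _ _
    rw [pow_zero, one_mul]
  hL := by
    intro s hs
    rw [P.LE_dbl τ hs]
    unfold L2
    rw [P.hL _ (by rw [re_lt]; exact hs), P.hL _ (by rw [re_lt, Complex.conj_re]; exact hs)]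

end Pc

end Pool.Agent.V11288.HS
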