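import Pool.Agent.V11288.HS.Crit

/-! **Euler products at the edge of the half plane of absolute convergence**: the mean square deviation of
the partial Euler products at the edge is, without any continuation, the supremum of the mean values of the
logarithm over the lines to the right of the edge. -/

set_option autoImplicit false

open MeasureTheory Filter Topology Set Complex
open scoped ENNReal
open Pool.Agent.TH942.LS (Dat)
open Pool.Agent.TH942.SL
open Pool.Agent.TH942.ES
open Pool.Agent.TH270.MS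

namespace Pool.Agent.V11288.HS

variable {X : Type} {d : ℕ} {N : X → ℕ} {α β : X → Fin d → ℂ} {e : X × ℕ → ℕ}

/-- the coefficients of the shifted system -/
theorem cP_shift (hN : ∀ v, (0 : ℝ) < N v) {δ : ℝ}
    (hβ : ∀ v i, zv N β v i = zv N α v i * ((((N v : ℝ) ^ (-δ) : ℝ)) : ℂ)) (p : X × ℕ) :
    cP N β p = cP N α p * Real.exp (-(δ * lamP N p)) := by
  unfold cP
  simp only [hβ, mul_pow]
  rw [← Finset.sum_mul, ← Complex.ofReal_pow, Complex.re_mul_ofReal]
  have h1 : ((N p.1 : ℝ) ^ (-δ)) ^ (p.2 + 1) = Real.exp (-(δ * lamP N p)) := by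
    rw [Real.rpow_def_of_pos (hN p.1), ← Real.exp_nat_mul]
    congr 1
    unfold lamP
    push_cast
    ring
  rw [h1]
  ring

theorem dd_shift (hN : ∀ v, (0 : ℝ) < N v) (he : Function.Injective e) {δ : ℝ}
    (hβ : ∀ v i, zv N β v i = zv N α v i * ((((N v : ℝ) ^ (-δ) : ℝ)) : ℂ)) (s : ℂ) :
    DD (lamS N e) (cS N β e) s = DD (lamS N e) (cS N α e) (s + δ) := by
  unfold DD
  refine tsum_congr fun n => ?_
  by_cases hn : ∃ p, e p = n
  · obtain ⟨p, rfl⟩ := hn
    rw [cS_apply he, cS_apply he, lamS_apply he, cP_shift hN hβ, Complex.ofReal_mul, Complex.ofReal_exp,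
      mul_assoc, ← Complex.exp_add]
    congr 2
    push_cast
    ring
  · have h1 : cS N β e n = 0 := by
      unfold cS
      rw [Function.extend_apply' _ _ _ hn]
      rfl
    have h2 : cS N α e n = 0 := by
      unfold cS
      rw [Function.extend_apply' _ _ _ hn]
      rfl
    rw [h1, h2]
    simp

theorem ennreal_eq_of {a b : ℝ≥0∞} (h : ∀ C : ℝ, 0 ≤ C → (a ≤ ENNReal.ofReal C ↔ b ≤ ENNReal.ofReal C)) :
    a = b := by
  have key : ∀ a b : ℝ≥0∞, (∀ C : ℝ, 0 ≤ C → (b ≤ ENNReal.ofReal C → a ≤ ENNReal.ofReal C)) → a ≤ b := by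
    intro a b h
    rcases eq_or_ne b ⊤ with rfl | hb
    · exact le_top
    · have h1 := h b.toReal ENNReal.toReal_nonneg (by rw [ENNReal.ofReal_toReal hb])
      rwa [ENNReal.ofReal_toReal hb] at h1
  exact le_antisymm (key a b fun C hC => (h C hC).2) (key b a fun C hC => (h C hC).1)

/-- **The mean square at the edge**, without continuation -/
theorem edge_hardy (E : Sys N α) (F : Sys N β)
    (hα : ∀ v k, (∑ i, zv N α v i ^ k).im = 0)
    (hβ : ∀ v i, zv N β v i = zv N α v i * ((((N v : ℝ) ^ (-(1 / 2 : ℝ)) : ℝ)) : ℂ)) :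
    ∃ ℓ : ℂ → ℂ, (∀ s : ℂ, 0 < s.re → DifferentiableAt ℂ ℓ s) ∧
      (∀ s : ℂ, 0 < s.re → exp (ℓ s) = LE N α (s + 1 / 2)) ∧
      (∀ x : ℝ, 0 < x → (ℓ x).im = 0) ∧
      ∀ r q : ℝ,
        (∫⁻ Y in Ioi (1 : ℝ), ENNReal.ofReal (Dr N β r q Y ^ 2 / Y) = ENNReal.ofReal (2 * Real.pi)⁻¹ *
          ⨆ (x : ℝ) (_ : 0 < x), ∫⁻ t : ℝ, ENNReal.ofReal
            (‖(ℓ (x + t * I) - r * log (x + t * I) - q) / (x + t * I)‖ ^ 2)) ∧
        ∀ C : ℝ, 0 ≤ C → ∫⁻ Y in Ioi (1 : ℝ), ENNReal.ofReal (Dr N β r q Y ^ 2 / Y) ≤ ENNReal.ofReal C →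
          ∀ s : ℂ, 0 < s.re → ‖ℓ s - r * log s - q‖ ^ 2 ≤ C * ‖s‖ ^ 2 / (2 * s.re) := by
  have := E.cnt
  obtain ⟨e, he⟩ := Countable.exists_injective_nat (X × ℕ)
  set lam := lamS N e with hlam
  have hdd : ∀ s : ℂ, DD lam (cS N β e) s = DD lam (cS N α e) (s + 1 / 2) := by
    intro s
    have h := dd_shift E.Npos he hβ s
    rw [h]
    congr 2
    push_cast
    rfl
  have hre : ∀ s : ℂ, (s + 1 / 2 : ℂ).re = s.re + 1 / 2 := fun s => by
    rw [Complex.add_re]
    norm_num
  have hdiff : ∀ s : ℂ, 0 < s.re → DifferentiableAt ℂ (fun s => DD lam (cS N α e) (s + 1 / 2)) s := by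
    intro s hs
    obtain ⟨σ', h1, h2⟩ := exists_between (show (1 / 2 : ℝ) < (s + 1 / 2 : ℂ).re by rw [hre]; linarith)
    have h3 := (dd_deriv (E.datS he h1) h2).differentiableAt
    exact DifferentiableAt.comp (g := DD lam (cS N α e)) (f := fun s : ℂ => s + 1 / 2) s h3 (by fun_prop)
  refine ⟨fun s => DD lam (cS N α e) (s + 1 / 2), hdiff, fun s hs => ?_, fun x hx => ?_, ?_⟩
  · exact E.exp_DD hα he (by rw [hre]; linarith)
  · -- real on the real axis
    have h1 : DD lam (cS N α e) ((x : ℂ) + 1 / 2) =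
        ((∑' n, cS N α e n * Real.exp (-((x + 1 / 2) * lam n)) : ℝ) : ℂ) := by
      unfold DD
      rw [Complex.ofReal_tsum]
      refine tsum_congr fun n => ?_
      push_cast
      rfl
    simp only [h1]
    exact Complex.ofReal_im _
  · intro r q
    have D := F.datS he (σ := 1) (by norm_num)
    -- the continuation agrees with the series
    have hell : ∀ C : ℝ, 0 ≤ C →
        ∫⁻ u in Ioi (0 : ℝ), ENNReal.ofReal (Df lam (cS N β e) r q u ^ 2) ≤ ENNReal.ofReal C →
        ∀ s : ℂ, 0 < s.re → ell lam (cS N β e) r q s = DD lam (cS N α e) (s + 1 / 2) := by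
      intro C hC h s hs
      obtain ⟨h1, -, -⟩ := to_log D r q hC h
      have hU : IsOpen {s : ℂ | 0 < s.re} := isOpen_lt continuous_const Complex.continuous_re
      have hUc : Convex ℝ {s : ℂ | 0 < s.re} := convex_halfSpace_re_gt _
      have a1 : AnalyticOnNhd ℂ (ell lam (cS N β e) r q) {s : ℂ | 0 < s.re} :=
        DifferentiableOn.analyticOnNhd (fun z hz => (h1 z hz).differentiableWithinAt) hU
      have a2 : AnalyticOnNhd ℂ (fun s => DD lam (cS N α e) (s + 1 / 2)) {s : ℂ | 0 < s.re} :=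
        DifferentiableOn.analyticOnNhd (fun z hz => (hdiff z hz).differentiableWithinAt) hU
      have h2 : ((2 : ℝ) : ℂ) ∈ {s : ℂ | 0 < s.re} := by
        show 0 < ((2 : ℝ) : ℂ).re
        rw [Complex.ofReal_re]
        norm_num
      have ho : IsOpen {z : ℂ | 1 < z.re} := isOpen_lt continuous_const Complex.continuous_re
      refine a1.eqOn_of_preconnected_of_eventuallyEq a2 hUc.isPreconnected h2 ?_ hs
      have h3 : ((2 : ℝ) : ℂ) ∈ {z : ℂ | 1 < z.re} := by
        show 1 < ((2 : ℝ) : ℂ).re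
        rw [Complex.ofReal_re]
        norm_num
      filter_upwards [ho.mem_nhds h3] with z hz
      rw [ell_eq D r q hz, hdd]
    rw [dr_sq F he]
    refine ⟨?_, fun C hC h s hs => ?_⟩
    · refine ennreal_eq_of fun C hC => ?_
      have hb : ENNReal.ofReal (2 * Real.pi)⁻¹ *
          (⨆ (x : ℝ) (_ : 0 < x), ∫⁻ t : ℝ, ENNReal.ofReal
            (‖(DD lam (cS N α e) ((x : ℂ) + t * I + 1 / 2) - r * log (x + t * I) - q) /
              (x + t * I)‖ ^ 2)) ≤ ENNReal.ofReal C ↔
          ∀ x : ℝ, 0 < x → ∫⁻ t : ℝ, ENNReal.ofReal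
            (‖(DD lam (cS N α e) ((x : ℂ) + t * I + 1 / 2) - r * log (x + t * I) - q) /
              (x + t * I)‖ ^ 2) ≤ ENNReal.ofReal (2 * Real.pi * C) := by
        have hpi : (0 : ℝ) < 2 * Real.pi := by positivity
        rw [ENNReal.ofReal_inv_of_pos hpi, ENNReal.ofReal_mul hpi.le, mul_comm, ← div_eq_mul_inv,
          ENNReal.div_le_iff_le_mul (Or.inl (by simpa using hpi)) (Or.inl ENNReal.ofReal_ne_top),
          mul_comm (ENNReal.ofReal C)]
        simp only [iSup_le_iff]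
      rw [hb]
      constructor
      · intro h x hx
        obtain ⟨-, h2, -⟩ := to_log D r q hC h
        have h3 := h2 x hx
        refine le_trans (le_of_eq (lintegral_congr fun t => ?_)) h3
        rw [hell C hC h _ (by simpa using hx)]
      · intro h
        refine of_log D r q hC (ℓ := fun s => DD lam (cS N α e) (s + 1 / 2)) hdiff (fun s hs => ?_) h
        rw [hdd]
    · obtain ⟨-, -, h3⟩ := to_log D r q hC h
      have h4 := h3 s hs
      rwa [hell C hC h s hs] at h4

end Pool.Agent.V11288.HS
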