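import Pool.Agent.V11288.HS.Crit
import Pool.Agent.TH270.MS.Real

/-! Finiteness of the mean square deviation over `(1, ∞)` and over `(e, ∞)`. -/

set_option autoImplicit false

open MeasureTheory Filter Topology Set Complex
open scoped ENNReal
open Pool.Agent.TH942.LS (Dat)
open Pool.Agent.TH942.SL
open Pool.Agent.TH942.ES
open Pool.Agent.TH270.RS (cS')
open Pool.Agent.TH270.MS

namespace Pool.Agent.V11288.HS

variable {lam c : ℕ → ℝ} {δ σ : ℝ}

theorem df_near (D : Dat lam c δ σ) (r q : ℝ) :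
    IntegrableOn (fun u : ℝ => Df lam c r q u ^ 2) (Ioc 0 1) := by
  set S₀ : ℝ := ∑' n, |c n| * Real.exp (-(σ * lam n)) with hS₀
  have hS0 : 0 ≤ S₀ := tsum_nonneg fun n => by positivity
  set M : ℝ := Real.exp σ * S₀ + |r| * |Real.eulerMascheroniConstant| + |q| with hM
  have hM0 : 0 ≤ M := by positivity
  have hσ := D.σ0
  have h1 : IntegrableOn (fun u : ℝ => 2 * M ^ 2 + 32 * r ^ 2 * u ^ (-(1 / 2) : ℝ)) (Ioc 0 1) := by
    have h2 : IntegrableOn (fun u : ℝ => u ^ (-(1 / 2) : ℝ)) (Ioc 0 1) := by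
      have := intervalIntegral.intervalIntegrable_rpow' (a := 0) (b := 1) (r := -(1 / 2)) (by norm_num)
      rwa [intervalIntegrable_iff_integrableOn_Ioc_of_le zero_le_one] at this
    exact (integrableOn_const (by simp)).add (h2.const_mul _)
  refine h1.mono' (((df_meas D r q).pow_const 2).aestronglyMeasurable) ?_
  filter_upwards [ae_restrict_mem measurableSet_Ioc] with u hu
  have hu0 : 0 < u := hu.1
  rw [Real.norm_eq_abs, abs_pow]
  have e1 : |Df lam c r q u| ≤ M + |r| * |Real.log u| := by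
    unfold Df gl
    rw [indicator_of_mem (show u ∈ Ioi (0 : ℝ) from hu0)]
    have e2 := sh_le D u
    have e3 : Real.exp (σ * u) ≤ Real.exp σ := Real.exp_le_exp.2 (by nlinarith [hu.2])
    have e4 : |Sh lam c u| ≤ Real.exp σ * S₀ := e2.trans (mul_le_mul_of_nonneg_right e3 hS0)
    calc |Sh lam c u + r * (Real.eulerMascheroniConstant + Real.log u) - q| ≤
          |Sh lam c u + r * (Real.eulerMascheroniConstant + Real.log u)| + |q| := abs_sub _ _
      _ ≤ (|Sh lam c u| + |r * (Real.eulerMascheroniConstant + Real.log u)|) + |q| := by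
          gcongr
          exact abs_add_le _ _
      _ ≤ (Real.exp σ * S₀ + |r| * (|Real.eulerMascheroniConstant| + |Real.log u|)) + |q| := by
          rw [abs_mul]
          gcongr
          exact abs_add_le _ _
      _ = M + |r| * |Real.log u| := by rw [hM]; ring
  have e2 : |Real.log u| ^ 2 ≤ 16 * u ^ (-(1 / 2) : ℝ) := by
    have h2 := Real.abs_log_mul_self_rpow_lt u (1 / 4) hu0 hu.2 (by norm_num)
    have h3 : 0 < u ^ (1 / 4 : ℝ) := Real.rpow_pos_of_pos hu0 _
    rw [abs_mul, abs_of_pos h3] at h2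
    have h4 : |Real.log u| ≤ 4 * u ^ (-(1 / 4) : ℝ) := by
      rw [Real.rpow_neg hu0.le, ← div_eq_mul_inv, le_div_iff₀ h3]
      norm_num at h2
      linarith
    have h5 := pow_le_pow_left₀ (abs_nonneg _) h4 2
    refine h5.trans (le_of_eq ?_)
    rw [mul_pow, ← Real.rpow_natCast (u ^ (-(1 / 4) : ℝ)), ← Real.rpow_mul hu0.le]
    norm_num
  calc |Df lam c r q u| ^ 2 ≤ (M + |r| * |Real.log u|) ^ 2 := pow_le_pow_left₀ (abs_nonneg _) e1 2
    _ ≤ 2 * M ^ 2 + 2 * (r ^ 2 * |Real.log u| ^ 2) := by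
        nlinarith [sq_nonneg (M - |r| * |Real.log u|), sq_abs r]
    _ ≤ 2 * M ^ 2 + 2 * (r ^ 2 * (16 * u ^ (-(1 / 2) : ℝ))) := by gcongr
    _ = _ := by ring

variable {X : Type} {d : ℕ} {N : X → ℕ} {α : X → Fin d → ℂ} {Ψ G₀ : ℂ → ℂ}
  {k κ : ℕ} {η C : ℝ}

theorem fin_iff (E : Sys N α) (r A : ℝ) :
    (∫⁻ Y in Ioi (1 : ℝ), ENNReal.ofReal (Dr N α r (Real.log A) Y ^ 2 / Y) < ⊤) ↔
      IntegrableOn (fun Y : ℝ => DvR N α r A Y ^ 2 / Y) (Ioi (Real.exp 1)) := by
  have := E.cnt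
  obtain ⟨e, he⟩ := Countable.exists_injective_nat (X × ℕ)
  have D := E.datS he (σ := 1) (by norm_num)
  rw [dr_sq E he, dvR_sq E he]
  set f : ℝ → ℝ := Df (lamS N e) (cS N α e) r (Real.log A) with hf
  have hfm : Measurable f := df_meas D r _
  have h1 : (∫⁻ u in Ioi (0 : ℝ), ENNReal.ofReal (f u ^ 2) < ⊤) ↔
      IntegrableOn (fun u => f u ^ 2) (Ioi 0) := by
    have h2 : ∀ u, ‖f u ^ 2‖ₑ = ENNReal.ofReal (f u ^ 2) := fun u =>
      Real.enorm_eq_ofReal (sq_nonneg _)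
    unfold IntegrableOn Integrable HasFiniteIntegral
    simp only [h2]
    constructor
    · intro h
      exact ⟨(hfm.pow_const 2).aestronglyMeasurable, h⟩
    · exact fun h => h.2
  have h2 : IntegrableOn (fun u => f u ^ 2) (Ioi 0) ↔ IntegrableOn (fun u => f u ^ 2) (Ioi 1) := by
    have h3 : Ioi (0 : ℝ) = Ioc 0 1 ∪ Ioi 1 := (Ioc_union_Ioi_eq_Ioi zero_le_one).symm
    rw [h3, integrableOn_union]
    exact ⟨fun h => h.2, fun h => ⟨df_near D r _, h⟩⟩
  rw [h1, h2]
  refine integrableOn_congr_fun (fun T hT => ?_) measurableSet_Ioi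
  have hT0 : (0 : ℝ) < T := by
    have : (1 : ℝ) < T := hT
    linarith
  have e1 : Sh (lamS N e) (cS N α e) T = -Sh (lamS N e) (cS' N α e) T := by
    rw [sh_pl E he, sh_eq E he, neg_neg]
  simp only [hf]
  unfold Df gl
  rw [indicator_of_mem (show T ∈ Ioi (0 : ℝ) from hT0), e1]
  ring

end Pool.Agent.V11288.HS
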