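import Pool.Agent.V11288.HS.Edge
import Pool.Agent.V11288.HS.Fin
import Pool.Agent.V11288.MQ.Sq
import Pool.Agent.V11288.EV.Frob

/-! The Euler products of the cohomology of projective varieties over number fields at the edge
`Re s = i/2 + 1` of the half plane of absolute convergence. -/

set_option autoImplicit false

open Filter Topology Set NumberField IsDedekindDomain MeasureTheory
open Pool.Agent.TH942.ES
open Pool.Agent.TH270.MS
open Pool.Agent.V11288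
open scoped ENNReal

namespace Pool.Agent.V11288.HS

/-- the mean square criterion with the exact order, real exponents and poles at the point -/
theorem lead_real_k {X : Type} {d : ℕ} {N : X → ℕ} {α : X → Fin d → ℂ} {Ψ G₀ : ℂ → ℂ} {k κ : ℕ} {η C : ℝ}
    (H : Mc N α Ψ G₀ k κ η C) (ρ : ℝ) {A : ℝ} (hA : 0 < A) :
    ((∀ s : ℂ, 0 < s.re → Ψ s ≠ 0) ∧ ∃ n : ℤ, ρ = n ∧
      Tendsto (fun s => Ψ s / s ^ n) (𝓝[≠] 0) (𝓝 (A : ℂ))) ↔
    IntegrableOn (fun Y : ℝ => DvR N α ρ A Y ^ 2 / Y) (Ioi (Real.exp 1)) := by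
  obtain ⟨e, g, p, he, Q⟩ := H.cn
  have t := Q.tfae ρ (ρ * Real.eulerMascheroniConstant - Real.log A)
  have key : ∀ n : ℤ, ρ = n → (((∀ s : ℂ, 0 < s.re → Ψ s ≠ 0) ∧
      Tendsto (fun s => Ψ s / s ^ n) (𝓝[≠] 0) (𝓝 (A : ℂ))) ↔
      IntegrableOn (fun Y : ℝ => DvR N α ρ A Y ^ 2 / Y) (Ioi (Real.exp 1))) := by
    intro n hn
    have h1 : ((∀ s : ℂ, 0 < s.re → Ψ s ≠ 0) ∧
        Tendsto (fun s => Ψ s / s ^ n) (𝓝[≠] 0) (𝓝 (A : ℂ))) ↔
        IntegrableOn (fun Y : ℝ => Dv N α n A Y ^ 2 / Y) (Ioi (Real.exp 1)) :=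
      (H.tfae_lead n hA).out 0 1
    rw [h1, hn]
    rfl
  constructor
  · rintro ⟨h1, n, hn, h2⟩
    exact (key n hn).1 ⟨h1, h2⟩
  · intro h
    have h2 := (dvR_sq H.E he ρ A).1 h
    obtain ⟨-, h4, -⟩ := (t.out 0 1).2 h2
    have h5 : ρ = (((p : ℤ) - (k : ℤ) : ℤ) : ℝ) := by
      push_cast
      linarith
    obtain ⟨h6, h7⟩ := (key _ h5).2 h
    exact ⟨h6, _, h5, h7⟩

namespace EX

variable {K : Type} [Field K] [NumberField K] {n N : ℕ}

/-- The norm `q_v`. -/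
noncomputable def nrm (v : HeightOneSpectrum (𝓞 K)) : ℕ := Ideal.absNorm v.asIdeal

variable {S : Set (HeightOneSpectrum (𝓞 K))}

/-- The Euler factor -/
noncomputable def factor (α : S → Fin N → ℂ) (v : S) (s : ℂ) : ℂ :=
  ∏ j, (1 - α v j * (nrm v.1 : ℂ) ^ (-s))⁻¹

/-- The edge `i/2 + 1`. -/
noncomputable def edge (i : ℕ) : ℝ := (i : ℝ) / 2 + 1

/-- pure systems with real traces -/
def Pure (i : ℕ) (α : S → Fin N → ℂ) : Prop :=
  (∀ v j, ‖α v j‖ ≤ (nrm v.1 : ℝ) ^ ((i : ℝ) / 2)) ∧ ∀ v k, (∑ j, α v j ^ k).im = 0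

/-- `log P(Y)` -/
noncomputable def logP (i : ℕ) (α : S → Fin N → ℂ) (Y : ℝ) : ℝ :=
  ∑ᶠ (p : S × ℕ) (_ : (nrm p.1.1 : ℝ) ^ (p.2 + 1) ≤ Y),
    (∑ j, α p.1 j ^ (p.2 + 1)).re / (((p.2 : ℝ) + 1) * ((nrm p.1.1 : ℝ) ^ edge i) ^ (p.2 + 1))

/-- The mean square deviation -/
noncomputable def meanSquare (i : ℕ) (α : S → Fin N → ℂ) (r A : ℝ) : ℝ≥0∞ :=
  ∫⁻ Y in Ioi (1 : ℝ), ENNReal.ofReal
    ((logP i α Y - r * (Real.eulerMascheroniConstant + Real.log (Real.log Y)) - Real.log A) ^ 2 / Y)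

/-- `ℓ` is the logarithm of `L` to the right of the edge, real on the real axis -/
def IsLog (i : ℕ) (α : S → Fin N → ℂ) (ℓ : ℂ → ℂ) : Prop :=
  (∀ s : ℂ, edge i < s.re → DifferentiableAt ℂ ℓ s ∧
    HasProd (fun v : S => factor α v s) (Complex.exp (ℓ s))) ∧
  ∀ x : ℝ, edge i < x → (ℓ x).im = 0

/-- the integral over the line `Re s = i/2 + 1 + x` -/
noncomputable def vertical (i : ℕ) (ℓ : ℂ → ℂ) (r A x : ℝ) : ℝ≥0∞ :=
  ∫⁻ t : ℝ, ENNReal.ofReal (‖(ℓ (edge i + x + t * Complex.I) + r * Complex.log (x + t * Complex.I) -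
    Real.log A) / (x + t * Complex.I)‖ ^ 2)

/-- continuations slightly beyond the edge -/
def Continuation (i : ℕ) (α : S → Fin N → ℂ) (L : ℂ → ℂ) : Prop :=
  (∀ s : ℂ, edge i < s.re → HasProd (fun v : S => factor α v s) (L s)) ∧
  ∃ (η C : ℝ) (k κ : ℕ) (G : ℂ → ℂ), 0 < η ∧ ∀ s : ℂ, edge i - η < s.re →
    DifferentiableAt ℂ G s ∧ ‖G s‖ ≤ C * (1 + ‖s‖) ^ κ ∧ (s ≠ edge i → G s = (s - edge i) ^ k * L s)

/-- the normalised eigenvalues for the weight `w` (a real number) -/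
noncomputable def nal (w : ℝ) (α : S → Fin N → ℂ) (v : S) (j : Fin N) : ℂ :=
  α v j * (((nrm v.1 : ℝ) ^ (-(w / 2)) : ℝ) : ℂ)

theorem nrm_two (v : HeightOneSpectrum (𝓞 K)) : (2 : ℝ) ≤ nrm v := by
  exact_mod_cast Pool.Agent.H921R2.TatePole.two_le_nm v

theorem zv_eq (w : ℝ) (α : S → Fin N → ℂ) (v : S) (j : Fin N) :
    zv (fun v : S => Pool.Agent.H921R2.TatePole.nm v.1) (nal w α) v j =
      α v j * ((((nrm v.1 : ℝ) ^ ((w + 1) / 2))⁻¹ : ℝ) : ℂ) := by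
  have h2 := nrm_two v.1
  have h0 : (0 : ℝ) < nrm v.1 := by linarith
  change α v j * (((nrm v.1 : ℝ) ^ (-(w / 2)) : ℝ) : ℂ) / ((√(nrm v.1 : ℝ) : ℝ) : ℂ) = _
  rw [mul_div_assoc, ← Complex.ofReal_div]
  congr 2
  rw [Real.sqrt_eq_rpow, ← Real.rpow_sub h0, ← Real.rpow_neg h0.le]
  congr 1
  ring

theorem nal_norm {i : ℕ} {α : S → Fin N → ℂ} (h : Pure i α) {w : ℝ} (hw : (i : ℝ) ≤ w) (v : S)
    (j : Fin N) : ‖nal w α v j‖ ≤ 1 := by
  have h2 := nrm_two v.1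
  have h0 : (0 : ℝ) < nrm v.1 := by linarith
  have h1 := h.1 v j
  unfold nal
  rw [norm_mul, Complex.norm_real, Real.norm_eq_abs, abs_of_pos (by positivity)]
  calc ‖α v j‖ * (nrm v.1 : ℝ) ^ (-(w / 2)) ≤
        (nrm v.1 : ℝ) ^ ((i : ℝ) / 2) * (nrm v.1 : ℝ) ^ (-(w / 2)) := by gcongr
    _ = (nrm v.1 : ℝ) ^ ((i : ℝ) / 2 - w / 2) := by rw [← Real.rpow_add h0]; ring_nf
    _ ≤ 1 := Real.rpow_le_one_of_one_le_of_nonpos (by linarith) (by linarith)

theorem pow_real {i : ℕ} {α : S → Fin N → ℂ} (h : Pure i α) (v : S) (c : ℝ) (k : ℕ) :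
    (∑ j, (α v j * (c : ℂ)) ^ k).im = 0 := by
  simp only [mul_pow]
  rw [← Finset.sum_mul, ← Complex.ofReal_pow, Complex.im_mul_ofReal, h.2 v k, zero_mul]

theorem norm_lt {i : ℕ} {α : S → Fin N → ℂ} (h : Pure i α) {w : ℝ} (hw : (i : ℝ) ≤ w) (v : S)
    (j : Fin N) : ‖α v j * ((((nrm v.1 : ℝ) ^ ((w + 1) / 2))⁻¹ : ℝ) : ℂ)‖ < 1 := by
  have h2 := nrm_two v.1
  have h0 : (0 : ℝ) < nrm v.1 := by linarith
  have h1 := h.1 v j
  rw [norm_mul, Complex.norm_real, Real.norm_eq_abs, abs_of_pos (by positivity)]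
  have h3 : (nrm v.1 : ℝ) ^ ((i : ℝ) / 2) * ((nrm v.1 : ℝ) ^ ((w + 1) / 2))⁻¹ < 1 := by
    rw [← Real.rpow_neg h0.le, ← Real.rpow_add h0]
    refine Real.rpow_lt_one_of_one_lt_of_neg (by linarith) ?_
    linarith
  exact (mul_le_mul_of_nonneg_right h1 (by positivity)).trans_lt h3

theorem log_real {i : ℕ} {α : S → Fin N → ℂ} (h : Pure i α) {w : ℝ} (hw : (i : ℝ) ≤ w) (v : S) :
    (∑ j, Complex.log (1 - α v j * ((((nrm v.1 : ℝ) ^ ((w + 1) / 2))⁻¹ : ℝ) : ℂ))).im = 0 := by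
  have h1 : HasSum (fun k : ℕ => ∑ j, (α v j * ((((nrm v.1 : ℝ) ^ ((w + 1) / 2))⁻¹ : ℝ) : ℂ)) ^ k / k)
      (∑ j, -Complex.log (1 - α v j * ((((nrm v.1 : ℝ) ^ ((w + 1) / 2))⁻¹ : ℝ) : ℂ))) :=
    hasSum_sum fun j _ => Complex.hasSum_taylorSeries_neg_log (norm_lt h hw v j)
  have h2 := Complex.hasSum_im h1
  have h3 : ∀ k : ℕ, (∑ j, (α v j * ((((nrm v.1 : ℝ) ^ ((w + 1) / 2))⁻¹ : ℝ) : ℂ)) ^ k / k).im = 0 := by
    intro k
    rw [← Finset.sum_div, ← Complex.ofReal_natCast, Complex.div_ofReal_im, pow_real h v, zero_div]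
  simp only [h3] at h2
  have h4 := h2.unique hasSum_zero
  rw [Finset.sum_neg_distrib, Complex.neg_im, neg_eq_zero] at h4
  exact h4

theorem sys {i : ℕ} {α : S → Fin N → ℂ} (h : Pure i α) {w : ℝ} (hw : (i : ℝ) ≤ w) :
    Sys (fun v : S => Pool.Agent.H921R2.TatePole.nm v.1) (nal w α) :=
  nf_sys (fun v => v ∈ S) (nal w α) (fun v j => nal_norm h hw v j) fun v => by
    have h1 : ∀ j, nal w α v j / ((√(((Pool.Agent.H921R2.TatePole.nm v.1 : ℕ) : ℝ)) : ℝ) : ℂ) =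
        α v j * ((((nrm v.1 : ℝ) ^ ((w + 1) / 2))⁻¹ : ℝ) : ℂ) := fun j => zv_eq w α v j
    simp only [h1]
    exact log_real h hw v

theorem hreal {i : ℕ} {α : S → Fin N → ℂ} (h : Pure i α) (w : ℝ) (v : S) (k : ℕ) :
    (∑ j, zv (fun v : S => Pool.Agent.H921R2.TatePole.nm v.1) (nal w α) v j ^ k).im = 0 := by
  simp only [zv_eq]
  exact pow_real h v _ k

theorem factor_eq (w : ℝ) (α : S → Fin N → ℂ) (s : ℂ) :
    (fun v : S => factor α v s) = fun v : S =>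
      ∏ j, (1 - zv (fun v : S => Pool.Agent.H921R2.TatePole.nm v.1) (nal w α) v j *
        xv (fun v : S => Pool.Agent.H921R2.TatePole.nm v.1) v (s - ((w + 1) / 2 : ℝ)))⁻¹ := by
  funext v
  have h2 := nrm_two v.1
  have h0 : (0 : ℝ) < nrm v.1 := by linarith
  have hc : (nrm v.1 : ℂ) ≠ 0 := by exact_mod_cast h0.ne'
  unfold factor
  refine Finset.prod_congr rfl fun j _ => ?_
  rw [zv_eq]
  congr 2
  rw [mul_assoc]
  congr 1
  have e1 : xv (fun v : S => Pool.Agent.H921R2.TatePole.nm v.1) v (s - ((w + 1) / 2 : ℝ)) =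
      (nrm v.1 : ℂ) ^ (-(s - ((w + 1) / 2 : ℝ))) := by
    rw [Complex.cpow_def_of_ne_zero hc]
    unfold xv
    congr 1
    change -((s - ((w + 1) / 2 : ℝ)) * ((Real.log (nrm v.1 : ℝ) : ℝ) : ℂ)) = _
    rw [Complex.ofReal_log h0.le, Complex.ofReal_natCast]
    ring
  rw [e1, ← Real.rpow_neg h0.le, Complex.ofReal_cpow h0.le, Complex.ofReal_natCast,
    ← Complex.cpow_add _ _ hc]
  congr 1
  push_cast
  ring

theorem hasProd_iff {i : ℕ} {α : S → Fin N → ℂ} (h : Pure i α) {s : ℂ} (hs : edge i < s.re) (y : ℂ) :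
    HasProd (fun v : S => factor α v s) y ↔
      y = LE (fun v : S => Pool.Agent.H921R2.TatePole.nm v.1) (nal i α) (s - (((i : ℝ) + 1) / 2 : ℝ)) := by
  have h1 : 1 / 2 < (s - (((i : ℝ) + 1) / 2 : ℝ)).re := by
    rw [Complex.sub_re, Complex.ofReal_re]
    unfold edge at hs
    linarith
  have h2 := (sys h le_rfl).hasProd h1
  rw [factor_eq i α s]
  constructor
  · intro h
    exact h.tprod_eq.symm
  · rintro rfl
    unfold Pool.Agent.TH942.ES.LE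
    rw [h2.tprod_eq]
    exact h2

theorem logP_eq (i : ℕ) (α : S → Fin N → ℂ) (Y : ℝ) : logP i α Y =
    Pl (fun v : S => Pool.Agent.H921R2.TatePole.nm v.1) (nal ((i : ℝ) + 1) α) Y := by
  unfold logP Pl
  refine finsum_congr fun p => finsum_congr fun _ => ?_
  have h2 := nrm_two p.1.1
  have h0 : (0 : ℝ) < nrm p.1.1 := by linarith
  have h3 : (0 : ℝ) < (nrm p.1.1 : ℝ) ^ edge i := by positivity
  have h4 : ((i : ℝ) + 1 + 1) / 2 = edge i := by
    unfold edge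
    ring
  unfold cP
  simp only [zv_eq, mul_pow, h4]
  rw [← Finset.sum_mul, ← Complex.ofReal_pow, Complex.re_mul_ofReal, inv_pow]
  field_simp

theorem meanSquare_eq (i : ℕ) (α : S → Fin N → ℂ) (r A : ℝ) : meanSquare i α r A =
    ∫⁻ Y in Ioi (1 : ℝ), ENNReal.ofReal
      (HS.Dr (fun v : S => Pool.Agent.H921R2.TatePole.nm v.1) (nal ((i : ℝ) + 1) α) (-r)
        (Real.log A) Y ^ 2 / Y) := by
  unfold meanSquare HS.Dr
  simp only [logP_eq, neg_mul, sub_eq_add_neg]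

/-- **The edge without continuation** -/
theorem main {i : ℕ} {α : S → Fin N → ℂ} (h : Pure i α) :
    ∃ ℓ : ℂ → ℂ, IsLog i α ℓ ∧ ∀ r A : ℝ,
      meanSquare i α r A = ENNReal.ofReal (2 * Real.pi)⁻¹ * ⨆ (x : ℝ) (_ : 0 < x), vertical i ℓ r A x ∧
      ∀ C : ℝ, 0 ≤ C → meanSquare i α r A ≤ ENNReal.ofReal C → ∀ s : ℂ, edge i < s.re →
        ‖ℓ s + r * Complex.log (s - edge i) - Real.log A‖ ^ 2 ≤
          C * ‖s - edge i‖ ^ 2 / (2 * (s.re - edge i)) := by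
  have hw : (i : ℝ) ≤ (i : ℝ) + 1 := by linarith
  have hβ : ∀ v j, zv (fun v : S => Pool.Agent.H921R2.TatePole.nm v.1) (nal ((i : ℝ) + 1) α) v j =
      zv (fun v : S => Pool.Agent.H921R2.TatePole.nm v.1) (nal i α) v j *
        (((((Pool.Agent.H921R2.TatePole.nm v.1 : ℕ) : ℝ) ^ (-(1 / 2 : ℝ)) : ℝ)) : ℂ) := by
    intro v j
    have h2 := nrm_two v.1
    have h0 : (0 : ℝ) < nrm v.1 := by linarith
    rw [zv_eq, zv_eq, mul_assoc]
    congr 1
    have e : (((Pool.Agent.H921R2.TatePole.nm v.1 : ℕ) : ℝ)) = (nrm v.1 : ℝ) := rfl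
    rw [e, ← Complex.ofReal_mul]
    congr 1
    rw [← Real.rpow_neg h0.le, ← Real.rpow_neg h0.le, ← Real.rpow_add h0]
    congr 1
    ring
  obtain ⟨ℓ, h1, h2, h3, h4⟩ := edge_hardy (sys h le_rfl) (sys h hw) (hreal h i) hβ
  have hre : ∀ s : ℂ, (s - (edge i : ℂ)).re = s.re - edge i := fun s => by
    rw [Complex.sub_re, Complex.ofReal_re]
  refine ⟨fun s => ℓ (s - edge i), ⟨fun s hs => ⟨?_, ?_⟩, fun x hx => ?_⟩, fun r A => ⟨?_, ?_⟩⟩
  · have h5 := h1 (s - edge i) (by rw [hre]; linarith)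
    exact DifferentiableAt.comp (g := ℓ) (f := fun s : ℂ => s - edge i) s h5 (by fun_prop)
  · rw [hasProd_iff h hs]
    beta_reduce
    rw [h2 _ (by rw [hre]; linarith)]
    congr 1
    unfold edge
    push_cast
    ring
  · have h5 := h3 (x - edge i) (by linarith)
    push_cast at h5
    exact h5
  · rw [meanSquare_eq, (h4 (-r) (Real.log A)).1]
    congr 1
    refine iSup_congr fun x => iSup_congr fun _ => ?_
    unfold vertical
    refine lintegral_congr fun t => ?_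
    have e : (edge i : ℂ) + x + t * Complex.I - edge i = x + t * Complex.I := by ring
    beta_reduce
    rw [e]
    congr 4
    push_cast
    ring
  · intro C hC hm s hs
    rw [meanSquare_eq] at hm
    have h5 := (h4 (-r) (Real.log A)).2 C hC hm (s - edge i) (by rw [hre]; linarith)
    rw [hre] at h5
    refine le_trans (le_of_eq ?_) h5
    congr 2
    push_cast
    ring

/-- the data of the library -/
theorem data {i : ℕ} {α : S → Fin N → ℂ} (h : Pure i α) {L : ℂ → ℂ} (hL : Continuation i α L) :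
    ∃ (G₀ : ℂ → ℂ) (k κ : ℕ) (η C : ℝ),
      Mc (fun v : S => Pool.Agent.H921R2.TatePole.nm v.1) (nal ((i : ℝ) + 1) α)
        (fun s => L (s + edge i)) G₀ k κ η C := by
  obtain ⟨h1, η, C, k, κ, G, hη, h2⟩ := hL
  set c : ℝ := edge i with hc
  have hw : (i : ℝ) ≤ (i : ℝ) + 1 := by linarith
  have hc0 : 0 ≤ c := by
    rw [hc]
    unfold edge
    positivity
  have hre : ∀ s : ℂ, (s + (c : ℂ)).re = s.re + c := fun s => by
    rw [Complex.add_re, Complex.ofReal_re]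
  refine ⟨fun s => G (s + c), k, κ, η, |C| * (1 + c) ^ κ, ?_⟩
  refine ⟨sys h hw, hreal h _, hη, ?_, ?_, ?_, ?_⟩
  · intro s hs
    have h3 : c - η < (s + (c : ℂ)).re := by rw [hre]; linarith
    exact DifferentiableAt.comp (g := G) (f := fun s : ℂ => s + c) s (h2 _ h3).1 (by fun_prop)
  · intro s hs
    have h3 : c - η < (s + (c : ℂ)).re := by rw [hre]; linarith
    refine (h2 _ h3).2.1.trans ?_
    have h4 : ‖s + (c : ℂ)‖ ≤ ‖s‖ + c := by
      refine (norm_add_le _ _).trans ?_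
      rw [Complex.norm_real, Real.norm_of_nonneg hc0]
    have h5 : 1 + ‖s + (c : ℂ)‖ ≤ (1 + c) * (1 + ‖s‖) := by
      nlinarith [norm_nonneg s]
    calc C * (1 + ‖s + (c : ℂ)‖) ^ κ ≤ |C| * (1 + ‖s + (c : ℂ)‖) ^ κ := by
          gcongr
          exact le_abs_self C
      _ ≤ |C| * ((1 + c) * (1 + ‖s‖)) ^ κ := by gcongr
      _ = |C| * (1 + c) ^ κ * (1 + ‖s‖) ^ κ := by rw [mul_pow]; ring
  · intro s hs hs0
    have h3 : c - η < (s + (c : ℂ)).re := by rw [hre]; linarith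
    have h4 : s + (c : ℂ) ≠ c := by
      intro h5
      exact hs0 (by simpa using h5)
    have h5 := (h2 _ h3).2.2 h4
    rw [add_sub_cancel_right] at h5
    exact h5
  · intro s hs
    have h3 : c < (s + (c : ℂ)).re := by
      rw [hre]
      linarith
    have h4 := (hasProd_iff h h3 _).1 (h1 _ h3)
    rw [h4]
    unfold Pool.Agent.TH942.ES.LE
    have e1 := congrFun (factor_eq (i : ℝ) α (s + c))
    have e2 := congrFun (factor_eq ((i : ℝ) + 1) α (s + c))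
    refine tprod_congr fun v => ?_
    rw [← e1 v, e2 v]
    have e3 : s + (c : ℂ) - ((((i : ℝ) + 1 + 1) / 2 : ℝ) : ℂ) = s := by
      rw [hc]
      unfold edge
      push_cast
      ring
    rw [e3]

theorem lim_shift (i : ℕ) (L : ℂ → ℂ) (r : ℤ) (l : Filter ℂ) :
    Tendsto (fun s : ℂ => (s - edge i) ^ r * L s) (𝓝[≠] (edge i : ℂ)) l ↔
      Tendsto (fun s : ℂ => L (s + edge i) / s ^ (-r)) (𝓝[≠] 0) l := by
  have h1 : map (fun s : ℂ => s + (edge i : ℂ)) (𝓝[≠] 0) = 𝓝[≠] (edge i : ℂ) := by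
    have : map (fun s : ℂ => s + (edge i : ℂ)) (𝓝[≠] 0) = 𝓝[≠] (0 + (edge i : ℂ)) :=
      map_add_right_nhdsNE
    rwa [zero_add] at this
  rw [← h1, tendsto_map'_iff]
  refine tendsto_congr fun s => ?_
  simp only [Function.comp_apply, add_sub_cancel_right, zpow_neg, div_inv_eq_mul]
  ring

/-- **The edge with continuation** -/
theorem main' {i : ℕ} {α : S → Fin N → ℂ} (h : Pure i α) {L : ℂ → ℂ} (hL : Continuation i α L)
    (r : ℝ) {A : ℝ} (hA : 0 < A) :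
    (meanSquare i α r A < ⊤ ↔ ∃ k : ℤ, r = k ∧
      Tendsto (fun s : ℂ => (s - edge i) ^ k * L s) (𝓝[≠] (edge i : ℂ)) (𝓝 (A : ℂ))) ∧
    (meanSquare i α r A < ⊤ → meanSquare i α r A = ENNReal.ofReal Real.pi⁻¹ *
      ∫⁻ t : ℝ, ENNReal.ofReal
        ((Real.log ‖L (edge i + t * Complex.I)‖ + r * Real.log |t| - Real.log A) ^ 2 / t ^ 2)) := by
  obtain ⟨G₀, k, κ, η, C, H⟩ := data h hL
  have hne : ∀ s : ℂ, 0 < s.re → L (s + edge i) ≠ 0 := by
    intro s hs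
    have hre : (s + (edge i : ℂ)).re = s.re + edge i := by rw [Complex.add_re, Complex.ofReal_re]
    have h3 : edge i < (s + (edge i : ℂ)).re := by rw [hre]; linarith
    obtain ⟨ℓ, ⟨h4, -⟩, -⟩ := main h
    have h5 := (hL.1 _ h3).unique (h4 _ h3).2
    rw [h5]
    exact Complex.exp_ne_zero _
  refine ⟨?_, fun hf => ?_⟩
  · rw [meanSquare_eq, fin_iff H.E, ← lead_real_k H (-r) hA]
    constructor
    · rintro ⟨-, m, hm, hlim⟩
      refine ⟨-m, by push_cast; linarith, ?_⟩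
      rw [lim_shift, neg_neg]
      exact hlim
    · rintro ⟨m, hm, hlim⟩
      refine ⟨hne, -m, by push_cast; linarith, ?_⟩
      rwa [lim_shift] at hlim
  · rw [meanSquare_eq] at hf ⊢
    rw [crit_line H (-r) (Real.log A) hf]
    congr 1
    refine lintegral_congr fun t => ?_
    have e : (t : ℂ) * Complex.I + edge i = edge i + t * Complex.I := by ring
    rw [e]
    congr 2
    ring

/-- the eigenvalues of Frobenius on `H^i(X)` -/
theorem pure_of_frobenius {X : Set (MvPolynomial (Fin n) (𝓞 K))} {d i : ℕ} (hi : i ≤ 2 * d)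
    {α : S → Fin N → ℂ} (h : ∀ v, EV.IsFrobenius X d i v.1 (α v)) : Pure i α := by
  refine ⟨fun v j => ?_, fun v k => ?_⟩
  · have h1 : ‖α v j‖ = (nrm v.1 : ℝ) ^ ((i : ℝ) / 2) := EV.norm' (h v) j
    exact h1.le
  · refine EV.real_sum hi (h v) (fun z => z ^ k) fun j => ?_
    rw [map_pow]

end EX

end Pool.Agent.V11288.HS
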