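import Pool.Agent.V11288.HS.EdgeX

/-! The dichotomy at the edge. -/

set_option autoImplicit false

open Filter Topology Set NumberField IsDedekindDomain MeasureTheory
open Pool.Agent.TH942.ES
open Pool.Agent.TH270.MS
open Pool.Agent.V11288
open scoped ENNReal

namespace Pool.Agent.V11288.HS.EX

variable {K : Type} [Field K] [NumberField K] {n N : ℕ} {S : Set (HeightOneSpectrum (𝓞 K))}

theorem order_shift (i : ℕ) (L : ℂ → ℂ) :
    meromorphicOrderAt (fun s => L (s + edge i)) 0 = meromorphicOrderAt L (edge i) := by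
  have hg : AnalyticAt ℂ (fun s : ℂ => s + edge i) 0 := by fun_prop
  have hd : deriv (fun s : ℂ => s + (edge i : ℂ)) 0 ≠ 0 := by simp
  have h := meromorphicOrderAt_comp_of_deriv_ne_zero (f := L) hg hd
  have e1 : (L ∘ fun s : ℂ => s + (edge i : ℂ)) = fun s => L (s + edge i) := rfl
  rw [e1] at h
  rw [h]
  simp

/-- the order at the edge -/
theorem exists_order {i : ℕ} {α : S → Fin N → ℂ} (h : Pure i α) {L : ℂ → ℂ} (hL : Continuation i α L) :
    ∃ (k : ℤ) (A : ℝ), 0 < A ∧ meromorphicOrderAt L (edge i) = (-k : ℤ) ∧ meanSquare i α k A < ⊤ ∧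
      Tendsto (fun s : ℂ => (s - edge i) ^ k * L s) (𝓝[≠] (edge i : ℂ)) (𝓝 (A : ℂ)) ∧
      ∀ ε : ℝ, 0 < ε → ∫⁻ Y in {Y : ℝ | Real.exp 1 < Y ∧ ε < |logP i α Y -
        k * (Real.eulerMascheroniConstant + Real.log (Real.log Y)) - Real.log A|},
          ENNReal.ofReal (1 / Y) < ⊤ := by
  obtain ⟨G₀, k, κ, η, C, H⟩ := data h hL
  have hne : ∀ s : ℂ, 0 < s.re → L (s + edge i) ≠ 0 := by
    intro s hs
    have hre : (s + (edge i : ℂ)).re = s.re + edge i := by rw [Complex.add_re, Complex.ofReal_re]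
    have h3 : edge i < (s + (edge i : ℂ)).re := by rw [hre]; linarith
    obtain ⟨ℓ, ⟨h4, -⟩, -⟩ := main h
    have h5 := (hL.1 _ h3).unique (h4 _ h3).2
    rw [h5]
    exact Complex.exp_ne_zero _
  obtain ⟨e, g, p, he, Q⟩ := H.cn
  have hord := (mero_of Q.hg Q.hg0 (local_form H.hη H.hΨ Q.near)).2
  set m : ℤ := (p : ℤ) - (k : ℤ) with hm
  have hord' : meromorphicOrderAt (fun s => L (s + edge i)) 0 = (m : ℤ) := hord
  have t : ((∀ s : ℂ, 0 < s.re → (fun s => L (s + edge i)) s ≠ 0) ∧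
      meromorphicOrderAt (fun s => L (s + edge i)) 0 = m) ↔
      ∃ A : ℝ, 0 < A ∧ IntegrableOn (fun Y : ℝ =>
        Dv (fun v : S => Pool.Agent.H921R2.TatePole.nm v.1) (nal ((i : ℝ) + 1) α) m A Y ^ 2 / Y)
          (Ioi (Real.exp 1)) := (H.tfae_order m).out 0 1
  obtain ⟨A, hA, h2⟩ := t.1 ⟨hne, hord'⟩
  have hdv : ∀ Y, Dv (fun v : S => Pool.Agent.H921R2.TatePole.nm v.1) (nal ((i : ℝ) + 1) α) m A Y =
      logP i α Y - ((-m : ℤ) : ℝ) * (Real.eulerMascheroniConstant + Real.log (Real.log Y)) -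
        Real.log A := by
    intro Y
    unfold Dv
    rw [← logP_eq]
    push_cast
    ring
  have hfin : meanSquare i α ((-m : ℤ) : ℝ) A < ⊤ := by
    rw [meanSquare_eq, fin_iff H.E]
    have e1 : -(((-m : ℤ)) : ℝ) = (m : ℝ) := by push_cast; ring
    rw [e1]
    exact h2
  refine ⟨-m, A, hA, ?_, hfin, ?_, fun ε hε => ?_⟩
  · rw [neg_neg, ← order_shift]
    exact hord'
  · obtain ⟨k', hk', hlim⟩ := (main' h hL ((-m : ℤ) : ℝ) hA).1.1 hfin
    have : -m = k' := by exact_mod_cast hk'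
    rw [this]
    exact hlim
  · have h3 := fin_log_meas h2 hε (dv_meas H m A ε)
    simp only [hdv] at h3
    exact h3

/-- logarithmic measure -/
noncomputable def logMeasure (U : Set ℝ) : ℝ≥0∞ := ∫⁻ Y in U, ENNReal.ofReal (1 / Y)

theorem logMeasure_mono {U V : Set ℝ} (h : U ⊆ V) : logMeasure U ≤ logMeasure V :=
  lintegral_mono_set h

theorem logMeasure_union (U V : Set ℝ) : logMeasure (U ∪ V) ≤ logMeasure U + logMeasure V :=
  lintegral_union_le _ U V

theorem logMeasure_Ioc {a b : ℝ} (ha : 1 ≤ a) : logMeasure (Ioc a b) < ⊤ := by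
  have h1 : logMeasure (Ioc a b) ≤ ∫⁻ _Y in Ioc a b, 1 := by
    refine setLIntegral_mono' measurableSet_Ioc fun Y hY => ?_
    have h2 : a < Y := hY.1
    have h3 : (1 : ℝ) ≤ Y := by linarith
    rw [← ENNReal.ofReal_one]
    refine ENNReal.ofReal_le_ofReal ?_
    rw [div_le_one (by linarith)]
    exact h3
  refine h1.trans_lt ?_
  rw [setLIntegral_const, one_mul, Real.volume_Ioc]
  exact ENNReal.ofReal_lt_top

theorem logMeasure_Ioi : logMeasure (Ioi (1 : ℝ)) = ⊤ := by
  have h := cov_lin (fun _ => (1 : ℝ))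
  unfold logMeasure
  rw [h]
  simp

/-- **The dichotomy** -/
theorem dichotomy {f : ℝ → ℝ} {k : ℤ} {A : ℝ}
    (h : ∀ ε : ℝ, 0 < ε → ∫⁻ Y in {Y : ℝ | Real.exp 1 < Y ∧ ε < |f Y -
        k * (Real.eulerMascheroniConstant + Real.log (Real.log Y)) - Real.log A|},
          ENNReal.ofReal (1 / Y) < ⊤) :
    List.TFAE [0 ≤ k,
      ∃ ε : ℝ, 0 < ε ∧ logMeasure {Y : ℝ | 1 < Y ∧ Real.exp (f Y) < ε} < ⊤,
      ∃ ε : ℝ, 0 < ε ∧ logMeasure {Y : ℝ | 1 < Y ∧ ε ≤ Real.exp (f Y)} = ⊤] := by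
  set B : Set ℝ := {Y : ℝ | Real.exp 1 < Y ∧ 1 < |f Y -
        k * (Real.eulerMascheroniConstant + Real.log (Real.log Y)) - Real.log A|} with hB
  have hBf : logMeasure B < ⊤ := h 1 one_pos
  have he1 : (1 : ℝ) ≤ Real.exp 1 := by
    have := Real.add_one_le_exp (1 : ℝ)
    linarith
  tfae_have 1 → 2 := by
    intro hk
    refine ⟨Real.exp (Real.log A - 1), Real.exp_pos _, ?_⟩
    refine (logMeasure_mono (V := Ioc 1 (Real.exp 1) ∪ B) fun Y hY => ?_).trans_lt
      ((logMeasure_union _ _).trans_lt (ENNReal.add_lt_top.2 ⟨logMeasure_Ioc le_rfl, hBf⟩))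
    obtain ⟨h1, h2⟩ := hY
    rcases le_or_gt Y (Real.exp 1) with h3 | h3
    · exact Or.inl ⟨h1, h3⟩
    · right
      refine ⟨h3, ?_⟩
      by_contra h4
      have h5 := abs_le.1 (not_lt.1 h4)
      have h6 : 1 ≤ Real.log Y := by
        rw [Real.le_log_iff_exp_le (by linarith)]
        exact h3.le
      have h7 : 0 ≤ Real.log (Real.log Y) := Real.log_nonneg h6
      have h8 : 0 ≤ (k : ℝ) * (Real.eulerMascheroniConstant + Real.log (Real.log Y)) := by
        have h9 : 0 < Real.eulerMascheroniConstant := by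
          have := Real.one_half_lt_eulerMascheroniConstant
          linarith
        have h10 : (0 : ℝ) ≤ k := by exact_mod_cast hk
        positivity
      have h9 := Real.exp_lt_exp.1 h2
      linarith [h5.1]
  tfae_have 2 → 3 := by
    rintro ⟨ε, hε, h1⟩
    refine ⟨ε, hε, ?_⟩
    by_contra h2
    have h3 : logMeasure {Y : ℝ | 1 < Y ∧ ε ≤ Real.exp (f Y)} < ⊤ := lt_top_iff_ne_top.2 h2
    have h4 : logMeasure (Ioi (1 : ℝ)) < ⊤ := by
      refine (logMeasure_mono (V := {Y : ℝ | 1 < Y ∧ Real.exp (f Y) < ε} ∪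
        {Y : ℝ | 1 < Y ∧ ε ≤ Real.exp (f Y)}) fun Y hY => ?_).trans_lt
          ((logMeasure_union _ _).trans_lt (ENNReal.add_lt_top.2 ⟨h1, h3⟩))
      rcases lt_or_ge (Real.exp (f Y)) ε with h5 | h5
      · exact Or.inl ⟨hY, h5⟩
      · exact Or.inr ⟨hY, h5⟩
    rw [logMeasure_Ioi] at h4
    exact lt_irrefl _ h4
  tfae_have 3 → 1 := by
    rintro ⟨ε, hε, h1⟩
    by_contra hk
    push Not at hk
    have hk1 : (k : ℝ) ≤ -1 := by
      have : k ≤ -1 := by omega
      exact_mod_cast this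
    -- beyond `Y₀` the products are small
    set y₀ : ℝ := max 1 (Real.exp (Real.log A + 1 - Real.log ε)) with hy₀
    have h2 : logMeasure {Y : ℝ | 1 < Y ∧ ε ≤ Real.exp (f Y)} < ⊤ := by
      refine (logMeasure_mono (V := Ioc 1 (Real.exp y₀) ∪ B) fun Y hY => ?_).trans_lt
        ((logMeasure_union _ _).trans_lt (ENNReal.add_lt_top.2 ⟨logMeasure_Ioc le_rfl, hBf⟩))
      obtain ⟨h3, h4⟩ := hY
      rcases le_or_gt Y (Real.exp y₀) with h5 | h5
      · exact Or.inl ⟨h3, h5⟩
      · right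
        have h6 : y₀ < Real.log Y := by
          rw [Real.lt_log_iff_exp_lt (by linarith)]
          exact h5
        have h7 : Real.exp 1 < Y := (Real.exp_le_exp.2 (le_max_left _ _)).trans_lt h5
        refine ⟨h7, ?_⟩
        by_contra h8
        have h9 := abs_le.1 (not_lt.1 h8)
        have h10 : Real.log ε ≤ f Y := by
          rw [← Real.log_exp (f Y)]
          exact Real.log_le_log hε h4
        have h11 : Real.log A + 1 - Real.log ε < Real.log (Real.log Y) := by
          rw [Real.lt_log_iff_exp_lt (lt_of_lt_of_le one_pos ((le_max_left _ _).trans h6.le))]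
          exact (le_max_right _ _).trans_lt h6
        have h12 : 0 < Real.eulerMascheroniConstant := by
          have := Real.one_half_lt_eulerMascheroniConstant
          linarith
        have h13 : 0 < Real.log (Real.log Y) := Real.log_pos ((le_max_left _ _).trans_lt h6)
        have h14 : (k : ℝ) * (Real.eulerMascheroniConstant + Real.log (Real.log Y)) ≤
            -(Real.log (Real.log Y)) := by nlinarith
        linarith [h9.2]
    rw [h1] at h2
    exact lt_irrefl _ h2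
  tfae_finish

end Pool.Agent.V11288.HS.EX
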