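import Pool.Agent.V11288.HS.EdgeX2
import Pool.Agent.V11288.HS.CentreX

/-! The order of the pole at the edge. -/

set_option autoImplicit false

open Filter Topology Set NumberField IsDedekindDomain MeasureTheory
open Pool.Agent.TH942.ES
open Pool.Agent.TH270.MS
open Pool.Agent.V11288
open scoped ENNReal

namespace Pool.Agent.V11288.HS.EX

variable {K : Type} [Field K] [NumberField K] {n N : ℕ} {S : Set (HeightOneSpectrum (𝓞 K))}

theorem gam_pos : 0 < Real.eulerMascheroniConstant := by
  have := Real.one_half_lt_eulerMascheroniConstant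
  linarith

/-- **The order of the pole at the edge** -/
theorem order_tfae {i : ℕ} {α : S → Fin N → ℂ} (h : Pure i α) {L : ℂ → ℂ} (hL : Continuation i α L)
    (r : ℤ) :
    List.TFAE [
      meromorphicOrderAt L (edge i) = (-r : ℤ),
      ∃ A : ℝ, 0 < A ∧ meanSquare i α r A < ⊤,
      ∃ A : ℝ, 0 < A ∧ ∀ ε : ℝ, 0 < ε → logMeasure {Y : ℝ | 1 < Y ∧ ε ≤ |logP i α Y -
        r * (Real.eulerMascheroniConstant + Real.log (Real.log Y)) - Real.log A|} < ⊤,
      ∃ B : ℝ, logMeasure {Y : ℝ | 1 < Y ∧ |logP i α Y - r * Real.log (Real.log Y)| ≤ B} = ⊤] := by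
  obtain ⟨k, A, hA, h1, h2, h3, h4⟩ := exists_order h hL
  have hrk : meromorphicOrderAt L (edge i) = (-r : ℤ) ↔ r = k := by
    have h1' : meromorphicOrderAt L (edge i) = (-k : ℤ) := h1
    rw [h1']
    constructor
    · intro h5
      have : -k = -r := by exact_mod_cast h5
      omega
    · rintro rfl
      rfl
  have he1 : (1 : ℝ) ≤ Real.exp 1 := by
    have := Real.add_one_le_exp (1 : ℝ)
    linarith
  rw [hrk]
  tfae_have 1 → 2 := by
    rintro rfl
    exact ⟨A, hA, h2⟩
  tfae_have 2 → 1 := by
    rintro ⟨A', hA', h5⟩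
    obtain ⟨k', hk', hlim⟩ := (main' h hL r hA').1.1 h5
    have e1 : r = k' := by exact_mod_cast hk'
    obtain ⟨-, η, C, k₀, κ, G, hη, hG⟩ := hL
    have hm : MeromorphicAt L (edge i : ℂ) := CX.mero_of_cont (G := G) (k := k₀) hη fun s hs => by
      rw [Complex.ofReal_re] at hs
      exact ⟨(hG s hs).1, (hG s hs).2.2⟩
    have h6 := CX.ord_of_lim (k := -k') hm (A := (A' : ℂ)) (by exact_mod_cast hA'.ne') (by
      refine hlim.congr fun s => ?_
      rw [zpow_neg, div_inv_eq_mul, mul_comm])
    have h1' : meromorphicOrderAt L (edge i) = (-k : ℤ) := h1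
    rw [h1'] at h6
    have : -k = -k' := by exact_mod_cast h6
    omega
  tfae_have 1 → 3 := by
    rintro rfl
    refine ⟨A, hA, fun ε hε => ?_⟩
    refine (logMeasure_mono (V := Ioc 1 (Real.exp 1) ∪ {Y : ℝ | Real.exp 1 < Y ∧ ε / 2 < |logP i α Y -
        r * (Real.eulerMascheroniConstant + Real.log (Real.log Y)) - Real.log A|}) fun Y hY => ?_).trans_lt
      ((logMeasure_union _ _).trans_lt (ENNReal.add_lt_top.2 ⟨logMeasure_Ioc le_rfl,
        h4 (ε / 2) (by linarith)⟩))
    obtain ⟨h5, h6⟩ := hY
    rcases le_or_gt Y (Real.exp 1) with h7 | h7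
    · exact Or.inl ⟨h5, h7⟩
    · exact Or.inr ⟨h7, by linarith⟩
  tfae_have 3 → 4 := by
    rintro ⟨A', hA', h5⟩
    have h6 := h5 1 one_pos
    set B : ℝ := 1 + |r * Real.eulerMascheroniConstant| + |Real.log A'| with hB
    refine ⟨B, ?_⟩
    by_contra h7
    have h8 : logMeasure {Y : ℝ | 1 < Y ∧ |logP i α Y - r * Real.log (Real.log Y)| ≤ B} < ⊤ :=
      lt_top_iff_ne_top.2 h7
    have h9 : logMeasure (Ioi (1 : ℝ)) < ⊤ := by
      refine (logMeasure_mono (V := {Y : ℝ | 1 < Y ∧ 1 ≤ |logP i α Y -
        r * (Real.eulerMascheroniConstant + Real.log (Real.log Y)) - Real.log A'|} ∪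
        {Y : ℝ | 1 < Y ∧ |logP i α Y - r * Real.log (Real.log Y)| ≤ B}) fun Y hY => ?_).trans_lt
          ((logMeasure_union _ _).trans_lt (ENNReal.add_lt_top.2 ⟨h6, h8⟩))
      by_cases h10 : 1 ≤ |logP i α Y -
        r * (Real.eulerMascheroniConstant + Real.log (Real.log Y)) - Real.log A'|
      · exact Or.inl ⟨hY, h10⟩
      · right
        refine ⟨hY, ?_⟩
        push Not at h10
        have e1 : logP i α Y - r * Real.log (Real.log Y) = (logP i α Y -
            r * (Real.eulerMascheroniConstant + Real.log (Real.log Y)) - Real.log A') +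
            r * Real.eulerMascheroniConstant + Real.log A' := by ring
        rw [e1]
        refine (abs_add_three _ _ _).trans ?_
        linarith
    rw [logMeasure_Ioi] at h9
    exact lt_irrefl _ h9
  tfae_have 4 → 1 := by
    rintro ⟨B, h5⟩
    by_contra hne
    have hk1 : (1 : ℝ) ≤ |(r : ℝ) - k| := by
      have h6 : (r : ℤ) - k ≠ 0 := by omega
      have h7 := Int.one_le_abs h6
      have h8 : ((1 : ℤ) : ℝ) ≤ ((|(r : ℤ) - k| : ℤ) : ℝ) := by exact_mod_cast h7
      push_cast at h8
      exact h8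
    set B' : ℝ := B + 1 + |k * Real.eulerMascheroniConstant| + |Real.log A| with hB'
    set y₀ : ℝ := max 1 (Real.exp B') with hy₀
    have h6 : logMeasure {Y : ℝ | 1 < Y ∧ |logP i α Y - r * Real.log (Real.log Y)| ≤ B} < ⊤ := by
      refine (logMeasure_mono (V := Ioc 1 (Real.exp y₀) ∪ {Y : ℝ | Real.exp 1 < Y ∧ 1 < |logP i α Y -
        k * (Real.eulerMascheroniConstant + Real.log (Real.log Y)) - Real.log A|})
          fun Y hY => ?_).trans_lt
        ((logMeasure_union _ _).trans_lt (ENNReal.add_lt_top.2 ⟨logMeasure_Ioc le_rfl, h4 1 one_pos⟩))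
      obtain ⟨h7, h8⟩ := hY
      rcases le_or_gt Y (Real.exp y₀) with h9 | h9
      · exact Or.inl ⟨h7, h9⟩
      · right
        have h10 : y₀ < Real.log Y := by
          rw [Real.lt_log_iff_exp_lt (by linarith)]
          exact h9
        refine ⟨(Real.exp_le_exp.2 (le_max_left _ _)).trans_lt h9, ?_⟩
        by_contra h11
        push Not at h11
        have h12 : B' < Real.log (Real.log Y) := by
          rw [Real.lt_log_iff_exp_lt (lt_of_lt_of_le one_pos ((le_max_left _ _).trans h10.le))]
          exact (le_max_right _ _).trans_lt h10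
        have h13 : 0 ≤ Real.log (Real.log Y) := (Real.log_pos ((le_max_left _ _).trans_lt h10)).le
        have e1 : ((r : ℝ) - k) * Real.log (Real.log Y) = -(logP i α Y - r * Real.log (Real.log Y)) +
            (logP i α Y - k * (Real.eulerMascheroniConstant + Real.log (Real.log Y)) - Real.log A) +
            (k * Real.eulerMascheroniConstant + Real.log A) := by ring
        have e2 : |((r : ℝ) - k) * Real.log (Real.log Y)| ≤ B + 1 +
            (|k * Real.eulerMascheroniConstant| + |Real.log A|) := by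
          rw [e1]
          refine (abs_add_three _ _ _).trans ?_
          rw [abs_neg]
          have := abs_add_le (k * Real.eulerMascheroniConstant) (Real.log A)
          linarith
        rw [abs_mul, abs_of_nonneg h13] at e2
        nlinarith
    rw [h5] at h6
    exact lt_irrefl _ h6
  tfae_finish

end Pool.Agent.V11288.HS.EX
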