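import Pool.Agent.V11288.HS.Abs

/-! Extension of an Euler product identity to the half plane of absolute convergence. -/

set_option autoImplicit false

open MeasureTheory Filter Topology Set Complex
open scoped ENNReal ComplexConjugate
open Pool.Agent.TH942.ES (zv xv)

namespace Pool.Agent.V11288.HS

variable {X : Type} {d : ℕ} {N : X → ℕ} {α : X → Fin d → ℂ}

/-- a system of primes with roots of absolute value at most one -/
structure Pb (N : X → ℕ) (α : X → Fin d → ℂ) : Prop where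
  cnt : Countable X
  two_le : ∀ v, 2 ≤ N v
  sum : ∀ r : ℝ, 1 < r → Summable fun v => (N v : ℝ) ^ (-r)
  log_sum : ∃ C σ₀ : ℝ, 0 < σ₀ ∧ ∀ σ : ℝ, 0 < σ → σ < σ₀ →
    Summable (fun v => Real.log (N v) * (N v : ℝ) ^ (-(1 + σ))) ∧
    σ * ∑' v, Real.log (N v) * (N v : ℝ) ^ (-(1 + σ)) ≤ C
  le : ∀ v i, ‖α v i‖ ≤ 1

namespace Pb

variable (B : Pb N α)
include B

theorem Npos (v : X) : (0 : ℝ) < N v := by
  have := B.two_le v
  exact_mod_cast (by omega : 0 < N v)

theorem Ntwo (v : X) : (2 : ℝ) ≤ N v := by exact_mod_cast B.two_le v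

theorem norm_zv (v : X) (i : Fin d) : ‖zv N α v i‖ ≤ 1 / √(N v : ℝ) := by
  unfold zv
  have hq : 0 < √(N v : ℝ) := Real.sqrt_pos.2 (B.Npos v)
  rw [norm_div, Complex.norm_real, Real.norm_eq_abs, abs_of_pos hq]
  exact div_le_div_of_nonneg_right (B.le v i) hq.le

theorem norm_xv (v : X) (s : ℂ) : ‖xv N v s‖ = (N v : ℝ) ^ (-s.re) := by
  unfold xv
  rw [Complex.norm_exp, Real.rpow_def_of_pos (B.Npos v)]
  congr 1
  rw [Complex.neg_re, Complex.re_mul_ofReal]
  ring

theorem norm_zx (v : X) (i : Fin d) (s : ℂ) :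
    ‖zv N α v i * xv N v s‖ ≤ (N v : ℝ) ^ (-(1 / 2 + s.re)) := by
  rw [norm_mul, B.norm_xv]
  have h1 := B.norm_zv v i
  have h2 : 1 / √(N v : ℝ) = (N v : ℝ) ^ (-(1 / 2) : ℝ) := by
    rw [Real.sqrt_eq_rpow, Real.rpow_neg (B.Npos v).le, one_div]
  rw [h2] at h1
  calc ‖zv N α v i‖ * (N v : ℝ) ^ (-s.re) ≤ (N v : ℝ) ^ (-(1 / 2) : ℝ) * (N v : ℝ) ^ (-s.re) :=
        mul_le_mul_of_nonneg_right h1 (Real.rpow_nonneg (B.Npos v).le _)
    _ = _ := by
        rw [← Real.rpow_add (B.Npos v)]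
        congr 1
        ring

theorem norm_zx_half (v : X) (i : Fin d) {s : ℂ} (hs : 1 / 2 < s.re) :
    ‖zv N α v i * xv N v s‖ ≤ 1 / 2 := by
  refine (B.norm_zx v i s).trans ?_
  calc (N v : ℝ) ^ (-(1 / 2 + s.re)) ≤ (N v : ℝ) ^ (-1 : ℝ) :=
        Real.rpow_le_rpow_of_exponent_le (by have := B.Ntwo v; linarith) (by linarith)
    _ ≤ 1 / 2 := by
        rw [Real.rpow_neg_one, ← one_div]
        exact one_div_le_one_div_of_le (by norm_num) (B.Ntwo v)

/-- the logarithm of a local factor -/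
theorem norm_term (v : X) {s : ℂ} (hs : 1 / 2 < s.re) :
    ‖∑ i, -log (1 - zv N α v i * xv N v s)‖ ≤ (d : ℝ) * (3 / 2 * (N v : ℝ) ^ (-(1 / 2 + s.re))) := by
  refine (norm_sum_le _ _).trans ?_
  calc ∑ i, ‖-log (1 - zv N α v i * xv N v s)‖ ≤
        ∑ _i : Fin d, 3 / 2 * (N v : ℝ) ^ (-(1 / 2 + s.re)) := by
        refine Finset.sum_le_sum fun i _ => ?_
        rw [norm_neg, sub_eq_add_neg]
        refine (norm_log_one_add_half_le_self (z := -(zv N α v i * xv N v s)) (by
          rw [norm_neg]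
          exact B.norm_zx_half v i hs)).trans ?_
        rw [norm_neg]
        have := B.norm_zx v i s
        gcongr
    _ = _ := by
        rw [Finset.sum_const, Finset.card_univ, Fintype.card_fin, nsmul_eq_mul]

theorem hasProd {s : ℂ} (hs : 1 / 2 < s.re) :
    HasProd (fun v => ∏ i, (1 - zv N α v i * xv N v s)⁻¹)
      (exp (∑' v, ∑ i, -log (1 - zv N α v i * xv N v s))) := by
  have h1 : Summable (fun v => ∑ i, -log (1 - zv N α v i * xv N v s)) :=
    Summable.of_norm_bounded (((B.sum _ (by linarith)).mul_left _).mul_left _)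
      fun v => B.norm_term v hs
  have h2 := h1.hasSum.cexp
  have h3 : (exp ∘ fun v => ∑ i, -log (1 - zv N α v i * xv N v s)) =
      fun v => ∏ i, (1 - zv N α v i * xv N v s)⁻¹ := by
    funext v
    simp only [Function.comp_apply]
    rw [Complex.exp_sum]
    refine Finset.prod_congr rfl fun i _ => ?_
    rw [Complex.exp_neg, Complex.exp_log]
    intro h
    have h4 := B.norm_zx_half v i hs
    rw [show zv N α v i * xv N v s = 1 by linear_combination -h] at h4
    norm_num at h4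
  rw [h3] at h2
  exact h2

theorem le_eq {s : ℂ} (hs : 1 / 2 < s.re) : Pool.Agent.TH942.ES.LE N α s =
    exp (∑' v, ∑ i, -log (1 - zv N α v i * xv N v s)) := (B.hasProd hs).tprod_eq

/-- the Euler product is holomorphic in the half plane of absolute convergence -/
theorem le_diff {s : ℂ} (hs : 1 / 2 < s.re) :
    DifferentiableAt ℂ (Pool.Agent.TH942.ES.LE N α) s := by
  obtain ⟨ε, hε, hs'⟩ : ∃ ε : ℝ, 0 < ε ∧ 1 / 2 + ε < s.re := by
    refine ⟨(s.re - 1 / 2) / 2, by linarith, by linarith⟩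
  have ho : IsOpen {z : ℂ | 1 / 2 + ε < z.re} := isOpen_lt continuous_const Complex.continuous_re
  have h1 : DifferentiableOn ℂ (fun z => ∑' v, ∑ i, -log (1 - zv N α v i * xv N v z))
      {z : ℂ | 1 / 2 + ε < z.re} := by
    refine differentiableOn_tsum_of_summable_norm
      (u := fun v => (d : ℝ) * (3 / 2 * (N v : ℝ) ^ (-(1 + ε))))
      (((B.sum _ (by linarith)).mul_left _).mul_left _) (fun v => ?_) ho (fun v z hz => ?_)
    · refine DifferentiableOn.fun_sum fun i _ => ?_
      intro z hz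
      have hz1 : 1 / 2 + ε < z.re := hz
      have h2 := B.norm_zx_half v i (s := z) (by linarith)
      refine DifferentiableAt.differentiableWithinAt ?_
      refine DifferentiableAt.neg (DifferentiableAt.clog ?_ ?_)
      · unfold xv
        fun_prop
      · left
        rw [Complex.sub_re, Complex.one_re]
        have := (Complex.abs_re_le_norm (zv N α v i * xv N v z)).trans h2
        have := (abs_le.1 this).2
        linarith
    · have hz1 : 1 / 2 + ε < z.re := hz
      refine (B.norm_term v (by linarith)).trans ?_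
      have h3 : (N v : ℝ) ^ (-(1 / 2 + z.re)) ≤ (N v : ℝ) ^ (-(1 + ε)) :=
        Real.rpow_le_rpow_of_exponent_le (by have := B.Ntwo v; linarith) (by linarith)
      gcongr
  have h2 : DifferentiableAt ℂ (fun z => exp (∑' v, ∑ i, -log (1 - zv N α v i * xv N v z))) s :=
    (h1.differentiableAt (ho.mem_nhds hs')).cexp
  refine h2.congr_of_eventuallyEq ?_
  filter_upwards [ho.mem_nhds hs'] with z hz
  have hz1 : 1 / 2 + ε < z.re := hz
  exact B.le_eq (by linarith)

/-- an identity of the `L`-function with the Euler product far to the right extends -/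
theorem pc {L : ℂ → ℂ} {κ : ℕ} {η C σ₀ : ℝ} (hη : 0 < η)
    (hG : ∀ s : ℂ, -η < s.re → DifferentiableAt ℂ L s)
    (hgrow : ∀ s : ℂ, -η < s.re → ‖L s‖ ≤ C * (1 + ‖s‖) ^ κ)
    (hL : ∀ s : ℂ, σ₀ < s.re → L s = Pool.Agent.TH942.ES.LE N α s) : Pc N α L κ η C where
  cnt := B.cnt
  two_le := B.two_le
  sum := B.sum
  log_sum := B.log_sum
  le := B.le
  hη := hη
  hG := hG
  hgrow := hgrow
  hL := by
    intro s hs
    have hU : IsOpen {s : ℂ | 1 / 2 < s.re} := isOpen_lt continuous_const Complex.continuous_re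
    have hUc : Convex ℝ {s : ℂ | 1 / 2 < s.re} := convex_halfSpace_re_gt _
    have a1 : AnalyticOnNhd ℂ L {s : ℂ | 1 / 2 < s.re} :=
      DifferentiableOn.analyticOnNhd (fun z hz => (hG z (by
        have : 1 / 2 < z.re := hz
        linarith)).differentiableWithinAt) hU
    have a2 : AnalyticOnNhd ℂ (Pool.Agent.TH942.ES.LE N α) {s : ℂ | 1 / 2 < s.re} :=
      DifferentiableOn.analyticOnNhd (fun z hz => (B.le_diff hz).differentiableWithinAt) hU
    have h1 : (((|σ₀| + 1 : ℝ)) : ℂ) ∈ {s : ℂ | 1 / 2 < s.re} := by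
      show 1 / 2 < ((((|σ₀| + 1 : ℝ)) : ℂ)).re
      rw [Complex.ofReal_re]
      have := abs_nonneg σ₀
      linarith
    have ho : IsOpen {z : ℂ | σ₀ < z.re} := isOpen_lt continuous_const Complex.continuous_re
    have h2 : (((|σ₀| + 1 : ℝ)) : ℂ) ∈ {z : ℂ | σ₀ < z.re} := by
      show σ₀ < ((((|σ₀| + 1 : ℝ)) : ℂ)).re
      rw [Complex.ofReal_re]
      have := le_abs_self σ₀
      linarith
    refine a1.eqOn_of_preconnected_of_eventuallyEq a2 hUc.isPreconnected h1 ?_ hs
    filter_upwards [ho.mem_nhds h2] with z hz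
    exact hL z hz

end Pb

end Pool.Agent.V11288.HS
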