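import Pool.Agent.V11288.HS.Right
import Pool.Agent.TH270.MS.Fwd

/-!
# Square integrable functions and logarithms, in general

`bdd_of_hardy'`, `of_hardy'` are the theorems of `PW` with bounds on a strip only.
-/

set_option autoImplicit false

open MeasureTheory Filter Topology Set Complex
open scoped ENNReal
open Pool.Agent.TH270.MS

namespace Pool.Agent.V11288.HS

/-- a bound for the vertical mean squares gives pointwise bounds -/
theorem bdd_of_hardy' {H : ℂ → ℂ} (hd : ∀ s : ℂ, 0 < s.re → DifferentiableAt ℂ H s) {M X : ℝ}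
    (hM : 0 ≤ M) (hL : ∀ x : ℝ, 0 < x → x < X → ∫⁻ t : ℝ, ‖H (x + t * I)‖ₑ ^ 2 ≤ ENNReal.ofReal M)
    {δ : ℝ} (hδ : 0 < δ) : ∃ B : ℝ, ∀ s : ℂ, δ ≤ s.re → s.re + δ ≤ X → ‖H s‖ ≤ B := by
  refine ⟨√(2 * M / (Real.pi * δ)), fun s hs hsX => ?_⟩
  have hpi := Real.pi_pos
  have hball : Metric.ball s δ ⊆ {z : ℂ | 0 < z.re} := by
    intro z hz
    rw [Metric.mem_ball, dist_eq_norm] at hz
    have h1 := (abs_lt.1 ((Complex.abs_re_le_norm (z - s)).trans_lt hz)).1
    rw [Complex.sub_re] at h1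
    show 0 < z.re
    linarith
  have h1 := Pool.Agent.H402R2.SubMean.rpow_mul_le_lintegral (g := H) (w := s) (ρ := δ) (p := 2) hδ
    (by norm_num) (fun z hz => (hd z (hball hz)).differentiableWithinAt)
  have hU : IsOpen {z : ℂ | 0 < z.re} := isOpen_lt continuous_const Complex.continuous_re
  set F : ℂ → ℝ≥0∞ := {z : ℂ | 0 < z.re}.indicator (fun z => ‖H z‖ₑ ^ 2) with hF
  have hFm : Measurable F := by
    have hc : ContinuousOn (fun z => ‖H z‖ₑ ^ 2) {z : ℂ | 0 < z.re} := by
      have h2 : ContinuousOn H {z : ℂ | 0 < z.re} := fun z hz =>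
        (hd z hz).continuousAt.continuousWithinAt
      exact (ENNReal.continuous_pow 2).comp_continuousOn (continuous_enorm.comp_continuousOn h2)
    have h3 : F = fun z => @ite _ (z ∈ {z : ℂ | 0 < z.re}) (Classical.propDecidable _)
        (‖H z‖ₑ ^ 2) 0 := by
      funext z
      rw [hF, indicator]
    have h4 := ContinuousOn.measurable_piecewise (s := {z : ℂ | 0 < z.re}) (f := fun z => ‖H z‖ₑ ^ 2)
      (g := fun _ => (0 : ℝ≥0∞)) hc continuousOn_const hU.measurableSet
    rw [h3]
    exact h4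
  have h2 : ∫⁻ z in Metric.ball s δ, ‖H z‖ₑ ^ (2 : ℝ) ≤
      ∫⁻ z in {z : ℂ | z.re ∈ Ioo (s.re - δ) (s.re + δ)}, F z := by
    have e1 : ∫⁻ z in Metric.ball s δ, ‖H z‖ₑ ^ (2 : ℝ) = ∫⁻ z in Metric.ball s δ, F z := by
      refine setLIntegral_congr_fun Metric.isOpen_ball.measurableSet fun z hz => ?_
      rw [hF, indicator_of_mem (hball hz), show (2 : ℝ) = ((2 : ℕ) : ℝ) by norm_num,
        ENNReal.rpow_natCast]
    rw [e1]
    refine lintegral_mono_set fun z hz => ?_
    rw [Metric.mem_ball, dist_eq_norm] at hz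
    have h3 := abs_lt.1 ((Complex.abs_re_le_norm (z - s)).trans_lt hz)
    rw [Complex.sub_re] at h3
    exact ⟨by linarith [h3.1], by linarith [h3.2]⟩
  have h3 : ∫⁻ z in {z : ℂ | z.re ∈ Ioo (s.re - δ) (s.re + δ)}, F z ≤
      ENNReal.ofReal (2 * δ * M) := by
    have hms : MeasurableSet {z : ℂ | z.re ∈ Ioo (s.re - δ) (s.re + δ)} :=
      Complex.measurable_re measurableSet_Ioo
    rw [← lintegral_indicator hms,
      ← (Complex.volume_preserving_equiv_real_prod.symm).lintegral_comp (hFm.indicator hms),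
      Measure.volume_eq_prod, lintegral_prod (fun a : ℝ × ℝ =>
        {z : ℂ | z.re ∈ Ioo (s.re - δ) (s.re + δ)}.indicator F
          (Complex.measurableEquivRealProd.symm a))
        ((hFm.indicator hms).comp Complex.measurableEquivRealProd.symm.measurable).aemeasurable]
    have e1 : ∀ x : ℝ, ∫⁻ y : ℝ, {z : ℂ | z.re ∈ Ioo (s.re - δ) (s.re + δ)}.indicator F
        (Complex.measurableEquivRealProd.symm (x, y)) ≤
        (Ioo (s.re - δ) (s.re + δ)).indicator (fun _ => ENNReal.ofReal M) x := by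
      intro x
      by_cases hx : x ∈ Ioo (s.re - δ) (s.re + δ)
      · rw [indicator_of_mem hx]
        have hx0 : 0 < x := by linarith [hx.1]
        refine le_trans (le_of_eq (lintegral_congr fun y => ?_)) (hL x hx0 (hx.2.trans_le hsX))
        have e2 : Complex.measurableEquivRealProd.symm (x, y) = (x : ℂ) + y * I := by
          apply Complex.ext <;> simp [Complex.measurableEquivRealProd]
        rw [e2, indicator_of_mem, hF, indicator_of_mem]
        · show 0 < ((x : ℂ) + y * I).re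
          simpa using hx0
        · show ((x : ℂ) + y * I).re ∈ Ioo (s.re - δ) (s.re + δ)
          simpa using hx
      · rw [indicator_of_notMem hx]
        have e2 : ∀ y : ℝ, {z : ℂ | z.re ∈ Ioo (s.re - δ) (s.re + δ)}.indicator F
            (Complex.measurableEquivRealProd.symm (x, y)) = 0 := by
          intro y
          refine indicator_of_notMem ?_ _
          intro hy
          apply hx
          simpa [Complex.measurableEquivRealProd] using hy
        simp only [e2, lintegral_zero, le_refl]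
    refine (lintegral_mono e1).trans ?_
    rw [lintegral_indicator measurableSet_Ioo, setLIntegral_const, Real.volume_Ioo, ← ENNReal.ofReal_mul hM]
    apply ENNReal.ofReal_le_ofReal
    nlinarith
  have h4 := (h1.trans h2).trans h3
  rw [ENNReal.ofReal_le_ofReal_iff (by positivity), show (2 : ℝ) = ((2 : ℕ) : ℝ) by norm_num,
    Real.rpow_natCast] at h4
  push_cast at h4
  apply Real.le_sqrt_of_sq_le
  rw [le_div_iff₀ (by positivity)]
  have h5 : ‖H s‖ ^ 2 * (Real.pi * δ) * δ ≤ 2 * M * δ := by nlinarith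
  exact le_of_mul_le_mul_right h5 hδ

/-- from the half plane to the line -/
theorem of_hardy' {k : ℝ → ℂ} {H : ℂ → ℂ} {a M : ℝ} (ha : 0 ≤ a) (hM : 0 ≤ M)
    (hk1 : ∀ x : ℝ, a < x → Integrable fun u : ℝ => k u * exp (-(x * u)))
    (hH : ∀ s : ℂ, a < s.re → H s = ∫ u : ℝ, k u * exp (-(s * u)))
    (hd : ∀ s : ℂ, 0 < s.re → DifferentiableAt ℂ H s)
    (hL : ∀ x : ℝ, 0 < x → x < a + 2 → ∫⁻ t : ℝ, ‖H (x + t * I)‖ₑ ^ 2 ≤ ENNReal.ofReal M) :
    ∫⁻ u : ℝ, ‖k u‖ₑ ^ 2 ≤ ENNReal.ofReal ((2 * Real.pi)⁻¹ * M) := by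
  have hk := hk1 (a + 1) (by linarith)
  set e : ℕ → ℝ := fun n => 1 / (n + 2) with he
  have he0 : ∀ n, 0 < e n := fun n => by simp only [he]; positivity
  have hlt : ∀ n, e n < 1 := fun n => by
    simp only [he]
    rw [div_lt_iff₀ (by positivity)]
    have : (0 : ℝ) ≤ n := n.cast_nonneg
    linarith
  have het : Tendsto e atTop (𝓝 0) := by
    simp only [he]
    have h1 : Tendsto (fun n : ℕ => ((n : ℝ) + 2)) atTop atTop :=
      tendsto_atTop_add_const_right _ _ tendsto_natCast_atTop_atTop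
    exact h1.const_div_atTop _
  have hstep : ∀ n, ∫⁻ u : ℝ, ‖k u * exp (-((e n : ℂ) * u))‖ₑ ^ 2 ≤
      ENNReal.ofReal ((2 * Real.pi)⁻¹ * M) := by
    intro n
    have h1 := hL (e n) (he0 n) (by linarith [hlt n])
    obtain ⟨B, hB⟩ := bdd_of_hardy' hd hM hL (he0 n)
    rw [strip_eq (he0 n) (by linarith [hlt n]) hk hH hd (fun s hs hs' => hB s hs (by
        linarith [hlt n]))
      (h1.trans_lt ENNReal.ofReal_lt_top), ENNReal.ofReal_mul (by positivity)]
    gcongr
  have hkm : AEStronglyMeasurable k volume := by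
    have h1 : k = fun u : ℝ => (k u * exp (-(((a + 1 : ℝ) : ℂ) * u))) *
        exp (((a + 1 : ℝ) : ℂ) * u) := by
      ext u
      rw [mul_assoc, ← exp_add]
      simp
    rw [h1]
    exact hk.aestronglyMeasurable.mul (Continuous.aestronglyMeasurable (by fun_prop))
  have hlim : ∀ u : ℝ, Tendsto (fun n => ‖k u * exp (-((e n : ℂ) * u))‖ₑ ^ 2) atTop
      (𝓝 (‖k u‖ₑ ^ 2)) := by
    intro u
    have h1 : Tendsto (fun n => k u * exp (-((e n : ℂ) * u))) atTop (𝓝 (k u)) := by
      have h2 : Tendsto (fun n => (e n : ℂ)) atTop (𝓝 ((0 : ℝ) : ℂ)) :=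
        (Complex.continuous_ofReal.tendsto 0).comp het
      have h3 : Continuous (fun z : ℂ => k u * exp (-(z * u))) := by fun_prop
      have h4 := (h3.tendsto ((0 : ℝ) : ℂ)).comp h2
      simpa [Function.comp_def] using h4
    exact ((ENNReal.continuous_pow 2).tendsto _).comp ((continuous_enorm.tendsto _).comp h1)
  calc ∫⁻ u : ℝ, ‖k u‖ₑ ^ 2
      = ∫⁻ u : ℝ, liminf (fun n => ‖k u * exp (-((e n : ℂ) * u))‖ₑ ^ 2) atTop :=
        lintegral_congr fun u => (hlim u).liminf_eq.symm
    _ ≤ liminf (fun n => ∫⁻ u : ℝ, ‖k u * exp (-((e n : ℂ) * u))‖ₑ ^ 2) atTop := by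
        refine lintegral_liminf_le' fun n => ?_
        exact ((hkm.mul (Continuous.aestronglyMeasurable (by fun_prop))).enorm).pow_const 2
    _ ≤ ENNReal.ofReal ((2 * Real.pi)⁻¹ * M) := by
        refine Filter.liminf_le_of_frequently_le' ?_
        exact Frequently.of_forall hstep

/-- mean squares of logarithms on all vertical lines of a strip -/
theorem glob_n {F L : ℂ → ℂ} {η a C B : ℝ} {κ : ℕ} (hη : 0 < η) (ha : 1 ≤ a) (hB : 0 ≤ B)
    (hF : ∀ s : ℂ, -η < s.re → DifferentiableAt ℂ F s)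
    (hgrow : ∀ s : ℂ, -η < s.re → ‖F s‖ ≤ C * (1 + ‖s‖) ^ κ)
    (hL : ∀ s : ℂ, 0 < s.re → DifferentiableAt ℂ L s)
    (hexp : ∀ s : ℂ, 0 < s.re → exp (L s) = F s)
    (hfar : ∀ s : ℂ, a ≤ s.re → ‖L s‖ ≤ B * (1 + Real.log (1 + ‖s‖))) (n : ℕ) :
    ∃ K : ℝ≥0∞, K < ⊤ ∧ ∀ x : ℝ, 0 < x → x ≤ n → ∫⁻ t : ℝ, ‖L (x + t * I)‖ₑ ^ 2 * wq t ≤ K := by
  induction n with
  | zero => exact ⟨0, by simp, fun x hx hx1 => absurd hx (not_lt.2 (by simpa using hx1))⟩
  | succ n ih =>
    obtain ⟨K, hK, hb⟩ := ih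
    have hn : (0 : ℝ) ≤ n := n.cast_nonneg
    have hre : ∀ s : ℂ, (s + n).re = s.re + n := fun s => by simp
    have hlog0 : 0 ≤ Real.log (1 + a + n) := Real.log_nonneg (by linarith)
    obtain ⟨K', hK', hb'⟩ := glob_L2 (F := fun s => F (s + n)) (L := fun s => L (s + n)) (η := η)
      (a := a) (C := |C| * (1 + n) ^ κ) (B := B * (1 + Real.log (1 + a + n))) (κ := κ) hη ha
      (by positivity)
      (fun s hs => DifferentiableAt.comp (f := fun s : ℂ => s + n) s (hF _ (by rw [hre]; linarith))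
        (by fun_prop))
      (fun s hs => by
        refine (hgrow _ (by rw [hre]; linarith)).trans ?_
        have h1 : 1 + ‖s + (n : ℂ)‖ ≤ (1 + n) * (1 + ‖s‖) := by
          have h2 := norm_add_le s (n : ℂ)
          rw [Complex.norm_natCast] at h2
          have : 0 ≤ (n : ℝ) * ‖s‖ := by positivity
          nlinarith
        calc C * (1 + ‖s + (n : ℂ)‖) ^ κ ≤ |C| * ((1 + n) * (1 + ‖s‖)) ^ κ :=
              mul_le_mul (le_abs_self _) (pow_le_pow_left₀ (by positivity) h1 κ) (by positivity)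
                (abs_nonneg _)
          _ = _ := by rw [mul_pow]; ring)
      (fun s hs => DifferentiableAt.comp (f := fun s : ℂ => s + n) s (hL _ (by rw [hre]; linarith))
        (by fun_prop))
      (fun s hs => hexp _ (by rw [hre]; linarith))
      (fun T => by
        have h1 := hfar ((a : ℂ) + T * I + n) (by simp)
        refine h1.trans ?_
        have h2 : 1 + ‖(a : ℂ) + T * I + n‖ ≤ (1 + a + n) * (1 + |T|) := by
          have h3 : ‖(a : ℂ) + T * I + n‖ ≤ a + |T| + n := by
            refine (norm_add_le _ _).trans ?_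
            rw [Complex.norm_natCast]
            gcongr
            refine (norm_add_le _ _).trans ?_
            rw [norm_mul, Complex.norm_I, mul_one, Complex.norm_real, Complex.norm_real,
              Real.norm_eq_abs, Real.norm_eq_abs, abs_of_nonneg (by linarith : 0 ≤ a)]
          have h4 : 0 ≤ (a + n) * |T| := by positivity
          nlinarith
        have h3 : Real.log (1 + ‖(a : ℂ) + T * I + n‖) ≤ Real.log (1 + a + n) + Real.log (1 + |T|) := by
          rw [← Real.log_mul (by positivity) (by positivity)]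
          exact Real.log_le_log (by positivity) h2
        have h5 : 0 ≤ Real.log (1 + |T|) := Real.log_nonneg (by linarith [abs_nonneg T])
        rw [mul_assoc]
        apply mul_le_mul_of_nonneg_left _ hB
        nlinarith [mul_nonneg hlog0 h5])
    refine ⟨K + K', ENNReal.add_lt_top.2 ⟨hK, hK'⟩, fun x hx hx1 => ?_⟩
    rcases le_or_gt x n with h | h
    · exact (hb x hx h).trans le_self_add
    · have h1 := hb' (x - n) (by linarith) (by push_cast at hx1; linarith)
      refine le_trans (le_of_eq (lintegral_congr fun t => ?_)) (h1.trans le_add_self)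
      congr 4
      push_cast
      ring

theorem log_far {s : ℂ} (hs : 1 ≤ s.re) : ‖log s‖ ≤ 4 * (1 + Real.log (1 + ‖s‖)) := by
  have h7 : 1 ≤ ‖s‖ := hs.trans (Complex.re_le_norm s)
  have h5 : ‖log s‖ ≤ |Real.log ‖s‖| + |arg s| := by
    have := norm_le_abs_re_add_abs_im (log s)
    rwa [Complex.log_re, Complex.log_im] at this
  have h6 := Complex.abs_arg_le_pi s
  have h11 := Real.pi_le_four
  have h9 : |Real.log ‖s‖| ≤ Real.log (1 + ‖s‖) := by
    rw [abs_of_nonneg (Real.log_nonneg h7)]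
    exact Real.log_le_log (by linarith) (by linarith)
  have h0 : 0 ≤ Real.log (1 + ‖s‖) := Real.log_nonneg (by linarith)
  linarith

end Pool.Agent.V11288.HS
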