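import Pool.Agent.TH270.MS.GrowthLeft

/-! **Growth of the `L`-function of a cusp form of weight `k` to the left of the critical line**
(general weight version of `Pool.Agent.TH270.MS.growth_left`). -/

set_option autoImplicit false

open MeasureTheory Filter Topology Set Complex
open CongruenceSubgroup
open scoped MatrixGroups
open Pool.Agent.TH270.MS.GrowL (mellin_strip inv_Gamma_strip Gamma_shift_le conj_arith)

namespace Pool.Agent.V11288.HS

/-- Phragmen-Lindelof in the strip `-1 ≤ Re z ≤ m - 1`. -/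
lemma stripK {m : ℕ} (hm : 2 ≤ m) {L : ℂ → ℂ} (hd : Differentiable ℂ L) {C₂ C₁ : ℝ}
    (hb : ∀ z : ℂ, -1 ≤ z.re → z.re ≤ m - 1 → ‖L z‖ ≤ C₂) (hC₁ : 0 ≤ C₁)
    (hright : ∀ z : ℂ, z.re = m - 1 → ‖L z * (Complex.Gamma z)⁻¹‖ ≤ C₁)
    (hleft : ∀ z : ℂ, z.re = -1 → ‖L z * (Complex.Gamma z)⁻¹‖ ≤ C₁ * ∏ j ∈ Finset.range m, ‖z + j‖) :
    ∀ z : ℂ, -1 ≤ z.re → z.re ≤ m - 1 →
      ‖L z * (Complex.Gamma z)⁻¹‖ ≤ C₁ * ‖z + ((m + 1 : ℕ) : ℂ)‖ ^ m := by
  have hm2 : (2 : ℝ) ≤ m := by exact_mod_cast hm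
  set h : ℂ → ℂ := fun z => (L z * (Complex.Gamma z)⁻¹) / (z + ((m + 1 : ℕ) : ℂ)) ^ m with hh
  have hC₂0 : 0 ≤ C₂ := (norm_nonneg _).trans (hb 0 (by simp) (by simp; linarith))
  have hre1 : ∀ z : ℂ, -1 ≤ z.re → 1 ≤ (z + ((m + 1 : ℕ) : ℂ)).re := by
    intro z hz
    rw [Complex.add_re, Complex.natCast_re]
    push_cast
    linarith
  have hn1 : ∀ z : ℂ, -1 ≤ z.re → 1 ≤ ‖z + ((m + 1 : ℕ) : ℂ)‖ := fun z hz =>
    (hre1 z hz).trans ((le_abs_self _).trans (Complex.abs_re_le_norm _))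
  have hne : ∀ z : ℂ, -1 ≤ z.re → (z + ((m + 1 : ℕ) : ℂ)) ^ m ≠ 0 := fun z hz =>
    pow_ne_zero _ (norm_pos_iff.1 (lt_of_lt_of_le one_pos (hn1 z hz)))
  have hle : ∀ z : ℂ, -1 ≤ z.re → ‖h z‖ ≤ ‖L z * (Complex.Gamma z)⁻¹‖ := by
    intro z hz
    rw [hh]
    simp only [norm_div, norm_pow]
    apply div_le_self (norm_nonneg _)
    exact one_le_pow₀ (hn1 z hz)
  have key : ∀ z : ℂ, -1 ≤ z.re → z.re ≤ m - 1 → ‖h z‖ ≤ C₁ := by
    intro z hza hzb
    apply PhragmenLindelof.vertical_strip (a := -1) (b := (m : ℝ) - 1) (f := h) (C := C₁) ?_ ?_ ?_ ?_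
      hza hzb
    · apply DifferentiableOn.diffContOnCl
      intro w hw
      have hw' : w ∈ Complex.re ⁻¹' (Icc (-1) ((m : ℝ) - 1)) := by
        have : closure (Complex.re ⁻¹' (Ioo (-1) ((m : ℝ) - 1))) ⊆
            Complex.re ⁻¹' (Icc (-1) ((m : ℝ) - 1)) :=
          closure_minimal (preimage_mono Ioo_subset_Icc_self) (isClosed_Icc.preimage Complex.continuous_re)
        exact this hw
      apply DifferentiableAt.differentiableWithinAt
      apply DifferentiableAt.div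
      · exact (hd.mul Complex.differentiable_one_div_Gamma) w
      · fun_prop
      · exact hne w hw'.1
    · refine ⟨Real.pi / (2 * m), ?_, 2 * m, ?_⟩
      · rw [show ((m : ℝ) - 1 - -1) = m by ring]
        apply div_lt_div_of_pos_left Real.pi_pos (by linarith)
        linarith
      · obtain ⟨C₃, hC₃0, hC₃⟩ := inv_Gamma_strip (-1) ((m : ℝ) - 1)
        apply Asymptotics.IsBigO.of_bound (C₂ * C₃)
        rw [Filter.eventually_inf_principal]
        have hev : ∀ᶠ z : ℂ in comap (_root_.abs ∘ Complex.im) atTop, 1 ≤ (_root_.abs ∘ Complex.im) z :=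
          tendsto_comap.eventually (eventually_ge_atTop 1)
        filter_upwards [hev] with z hz1 hz
        have hz1 : 1 ≤ |z.im| := hz1
        have ha : -1 ≤ z.re := (mem_preimage.1 hz).1.le
        have hb' : z.re ≤ m - 1 := (mem_preimage.1 hz).2.le
        refine (hle z ha).trans ?_
        rw [norm_mul, Real.norm_of_nonneg (Real.exp_pos _).le]
        have h1 := hb z ha hb'
        have h2 := hC₃ z ha hb' hz1
        have h3 : Real.exp (Real.pi * |z.im|) ≤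
            Real.exp (2 * m * Real.exp (Real.pi / (2 * m) * |z.im|)) := by
          apply Real.exp_le_exp.2
          have h4 : Real.pi / (2 * m) * |z.im| ≤ Real.exp (Real.pi / (2 * m) * |z.im|) :=
            (by linarith [Real.add_one_le_exp (Real.pi / (2 * m) * |z.im|)])
          calc Real.pi * |z.im| = 2 * m * (Real.pi / (2 * m) * |z.im|) := by field_simp
            _ ≤ _ := by gcongr
        calc ‖L z‖ * ‖(Complex.Gamma z)⁻¹‖ ≤ C₂ * (C₃ * Real.exp (Real.pi * |z.im|)) :=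
              mul_le_mul h1 h2 (norm_nonneg _) hC₂0
          _ ≤ C₂ * (C₃ * Real.exp (2 * m * Real.exp (Real.pi / (2 * m) * |z.im|))) := by gcongr
          _ = _ := by ring
    · intro w hw
      have hwα : -1 ≤ w.re := hw.ge
      rw [hh]
      simp only [norm_div, norm_pow]
      have hpos : 0 < ‖w + ((m + 1 : ℕ) : ℂ)‖ ^ m := pow_pos (lt_of_lt_of_le one_pos (hn1 w hwα)) _
      rw [div_le_iff₀ hpos]
      refine (hleft w hw).trans ?_
      apply mul_le_mul_of_nonneg_left _ hC₁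
      calc ∏ j ∈ Finset.range m, ‖w + j‖ ≤ ∏ _j ∈ Finset.range m, ‖w + ((m + 1 : ℕ) : ℂ)‖ := by
            apply Finset.prod_le_prod (fun _ _ => norm_nonneg _)
            intro j hj
            have hj : (j:ℝ) + 1 ≤ m := by exact_mod_cast Finset.mem_range.1 hj
            have hj0 : (0:ℝ) ≤ j := Nat.cast_nonneg j
            rw [← Real.sqrt_sq (norm_nonneg (w + ((m + 1 : ℕ) : ℂ))),
              ← Real.sqrt_sq (norm_nonneg (w + j))]
            apply Real.sqrt_le_sqrt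
            rw [← Complex.normSq_eq_norm_sq, ← Complex.normSq_eq_norm_sq, Complex.normSq_apply,
              Complex.normSq_apply]
            simp only [Complex.add_re, Complex.add_im, Complex.natCast_re, Complex.natCast_im,
              add_zero]
            have : w.re = -1 := hw
            rw [this]
            push_cast
            nlinarith
        _ = ‖w + ((m + 1 : ℕ) : ℂ)‖ ^ m := by simp
    · intro w hw
      have hwα : -1 ≤ w.re := by
        have : w.re = m - 1 := hw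
        rw [this]
        linarith
      exact (hle w hwα).trans (hright w hw)
  intro z h0 h1
  have h2 := key z h0 h1
  have hpos : 0 < ‖z + ((m + 1 : ℕ) : ℂ)‖ ^ m := pow_pos (lt_of_lt_of_le one_pos (hn1 z h0)) _
  rw [hh] at h2
  simp only [norm_div, norm_pow] at h2
  rwa [div_le_iff₀ hpos] at h2

open UpperHalfPlane hiding I in
/-- The bound on the line `Re z = k + 1`. -/
lemma rightK {Γ : Subgroup (GL (Fin 2) ℝ)} [Γ.IsArithmetic] {k : ℕ} (hk : 1 ≤ k)
    (f : CuspForm Γ (k : ℤ)) :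
    ∃ C : ℝ, 0 ≤ C ∧ ∀ z : ℂ, z.re = k + 1 →
      ‖mellin (fun t : ℝ => f (UpperHalfPlane.ofComplex (I * t))) z‖ ≤ C * ‖Complex.Gamma z‖ := by
  have hk' : (0 : ℤ) < (k : ℤ) := by exact_mod_cast hk
  have hk0 : (1 : ℝ) ≤ k := by exact_mod_cast hk
  have hh := Γ.strictWidthInfty_pos
  refine ⟨∑' n : ℕ, Real.pi ^ (-((k : ℝ) + 1)) * ‖(qExpansion Γ.strictWidthInfty f).coeff n‖ /
    (2 * n / Γ.strictWidthInfty) ^ ((k : ℝ) + 1), tsum_nonneg fun n => by positivity, fun z hz => ?_⟩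
  have hs := CuspForm.hasSum_Λ f hk' (s := z) (by
    rw [hz]
    push_cast
    linarith)
  rw [CuspForm.Λ_eq_mellin] at hs
  rw [← hs.tsum_eq, ← tsum_mul_right]
  refine (norm_tsum_le_tsum_norm hs.summable.norm).trans_eq (tsum_congr fun n => ?_)
  rw [norm_div, norm_mul, norm_mul]
  have h1 : ‖(Real.pi : ℂ) ^ (-z)‖ = Real.pi ^ (-((k : ℝ) + 1)) := by
    rw [Complex.norm_cpow_eq_rpow_re_of_pos Real.pi_pos, Complex.neg_re, hz]
  have h2 : ‖((2 * n / Γ.strictWidthInfty : ℝ) : ℂ) ^ z‖ =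
      (2 * n / Γ.strictWidthInfty : ℝ) ^ ((k : ℝ) + 1) := by
    rcases Nat.eq_zero_or_pos n with h0 | h0
    · subst h0
      have hz0 : z ≠ 0 := by
        intro h
        rw [h, Complex.zero_re] at hz
        linarith
      have h3 : (k : ℝ) + 1 ≠ 0 := by linarith
      simp [Complex.zero_cpow hz0, Real.zero_rpow h3]
    · have : (0 : ℝ) < 2 * n / Γ.strictWidthInfty := by positivity
      rw [Complex.norm_cpow_eq_rpow_re_of_pos this, hz]
  rw [h1, h2]
  ring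

open UpperHalfPlane hiding I in
/-- The bound on the line `Re z = -1`. -/
lemma leftK {Γ : Subgroup (GL (Fin 2) ℝ)} [Γ.IsArithmetic] {k : ℕ} (hk : 1 ≤ k)
    (hk' : (0 : ℤ) < (k : ℤ)) (f : CuspForm Γ (k : ℤ)) :
    ∃ C : ℝ, 0 ≤ C ∧ ∀ z : ℂ, z.re = -1 →
      ‖ModularForm.Λ (k := (k : ℤ)) hk' f z‖ ≤ C * ‖Complex.Gamma (k - z)‖ := by
  have := conj_arith Γ
  obtain ⟨C, hC0, hC⟩ := rightK hk (CuspForm.translate f (ModularGroup.S : GL (Fin 2) ℝ))
  refine ⟨C, hC0, fun z hz => ?_⟩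
  have h1 := (ModularForm.weakFEPair (k := (k : ℤ)) hk' f).functional_equation ((k : ℂ) - z)
  rw [(CuspForm.isStrongFEPair hk' f).symm_Λ_eq] at h1
  have h2 : ((ModularForm.weakFEPair (k := (k : ℤ)) hk' f).k : ℂ) - ((k : ℂ) - z) = z := by
    simp
  rw [h2] at h1
  have h3 : ModularForm.Λ (k := (k : ℤ)) hk' f z =
    (ModularForm.weakFEPair (k := (k : ℤ)) hk' f).Λ z := rfl
  rw [h3, h1, norm_smul]
  have h4 : ‖(ModularForm.weakFEPair (k := (k : ℤ)) hk' f).ε‖ = 1 := by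
    simp
  rw [h4, one_mul]
  have h5 := hC ((k : ℂ) - z) (by
    rw [Complex.sub_re, Complex.natCast_re, hz]
    ring)
  exact h5

theorem growth_k {N : ℕ} [NeZero N] {k : ℕ} (hk : 1 ≤ k) (hk' : (0 : ℤ) < (k : ℤ))
    (f : CuspForm (Gamma1 N : Subgroup (GL (Fin 2) ℝ)) (k : ℤ)) :
    (∀ s : ℂ, (k : ℝ) / 2 + 1 < s.re →
      HasSum (fun n : ℕ => (UpperHalfPlane.qExpansion 1 f).coeff n / (n : ℂ) ^ s)
        (ModularForm.L (k := (k : ℤ)) hk' f s)) ∧
      ∃ (C : ℝ) (κ : ℕ), ∀ s : ℂ, -1 < s.re →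
        ‖ModularForm.L (k := (k : ℤ)) hk' f s‖ ≤ C * (1 + ‖s‖) ^ κ := by
  have hk0 : (1 : ℝ) ≤ k := by exact_mod_cast hk
  have hw : Subgroup.strictWidthInfty (Gamma1 N : Subgroup (GL (Fin 2) ℝ)) = 1 :=
    CongruenceSubgroup.strictWidthInfty_Gamma1 N
  have hsum : ∀ s : ℂ, (k : ℝ) / 2 + 1 < s.re →
      HasSum (fun n : ℕ => (UpperHalfPlane.qExpansion 1 f).coeff n / (n : ℂ) ^ s)
        (ModularForm.L (k := (k : ℤ)) hk' f s) := by
    intro s hs
    have h := CuspForm.hasSum_L hk' f (s := s) (by push_cast; exact hs)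
    rw [hw] at h
    simpa using h
  refine ⟨hsum, ?_⟩
  set m : ℕ := k + 2 with hm
  have hmr : ((m : ℕ) : ℝ) - 1 = k + 1 := by
    rw [hm]
    push_cast
    ring
  obtain ⟨C₂, -, hC₂⟩ := mellin_strip
    (fun t : ℝ => f (UpperHalfPlane.ofComplex (I * t)))
    (fun s => ((CuspForm.isStrongFEPair hk' f).hasMellin s).1) (-1) ((m : ℝ) - 1)
  obtain ⟨Cr, hCr0, hCr⟩ := rightK hk f
  obtain ⟨Cl, hCl0, hCl⟩ := leftK hk hk' f
  have hL : ModularForm.Λ (k := (k : ℤ)) hk' f = mellin (fun t : ℝ => f (UpperHalfPlane.ofComplex (I * t))) :=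
    CuspForm.Λ_eq_mellin hk' f
  have hd : Differentiable ℂ (ModularForm.Λ (k := (k : ℤ)) hk' f) := CuspForm.differentiable_Λ hk' f
  have hstrip := stripK (m := m) (by omega) (L := ModularForm.Λ (k := (k : ℤ)) hk' f) hd (C₂ := C₂)
    (C₁ := Cr + Cl)
    (fun z h0 h1 => by rw [hL]; exact hC₂ z h0 h1) (by positivity)
    (fun z hz => by
      have hz' : z.re = k + 1 := by rw [hz, hmr]
      have h1 := hCr z hz'
      rw [← hL] at h1
      have hne : Complex.Gamma z ≠ 0 := Complex.Gamma_ne_zero_of_re_pos (by rw [hz']; linarith)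
      rw [norm_mul, norm_inv, ← div_eq_mul_inv, div_le_iff₀ (norm_pos_iff.2 hne)]
      refine h1.trans ?_
      gcongr
      linarith)
    (fun z hz => by
      have h1 := hCl z hz
      have h2 := Gamma_shift_le z m
      have e : z + ((m : ℕ) : ℂ) = (starRingEnd ℂ) ((k : ℂ) - z) := by
        apply Complex.ext
        · rw [Complex.conj_re, Complex.sub_re, Complex.natCast_re, Complex.add_re,
            Complex.natCast_re, hz, hm]
          push_cast
          ring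
        · simp
      rw [e, Complex.Gamma_conj, Complex.norm_conj] at h2
      rw [norm_mul]
      have hP : 0 ≤ ∏ j ∈ Finset.range m, ‖z + j‖ := Finset.prod_nonneg fun _ _ => norm_nonneg _
      calc ‖ModularForm.Λ (k := (k : ℤ)) hk' f z‖ * ‖(Complex.Gamma z)⁻¹‖
          ≤ Cl * ‖Complex.Gamma (k - z)‖ * ‖(Complex.Gamma z)⁻¹‖ := by gcongr
        _ = Cl * (‖Complex.Gamma (k - z)‖ * ‖(Complex.Gamma z)⁻¹‖) := by ring
        _ ≤ Cl * ∏ j ∈ Finset.range m, ‖z + j‖ := by gcongr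
        _ ≤ _ := by gcongr; linarith)
  -- the half plane `Re s ≥ k + 1`
  set C₃ : ℝ := ∑' n : ℕ, ‖(UpperHalfPlane.qExpansion 1 f).coeff n /
    (n : ℂ) ^ (((k : ℝ) + 1 : ℝ) : ℂ)‖ with hC₃
  have hC₃0 : 0 ≤ C₃ := tsum_nonneg fun n => norm_nonneg _
  have h3s : Summable fun n : ℕ => ‖(UpperHalfPlane.qExpansion 1 f).coeff n /
      (n : ℂ) ^ (((k : ℝ) + 1 : ℝ) : ℂ)‖ :=
    (hsum (((k : ℝ) + 1 : ℝ) : ℂ) (by rw [Complex.ofReal_re]; linarith)).summable.norm
  have hfar : ∀ s : ℂ, (k : ℝ) + 1 ≤ s.re → ‖ModularForm.L (k := (k : ℤ)) hk' f s‖ ≤ C₃ := by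
    intro s hs
    rw [← (hsum s (by linarith)).tsum_eq]
    apply tsum_of_norm_bounded h3s.hasSum
    intro n
    rcases Nat.eq_zero_or_pos n with h0 | h0
    · subst h0
      have hs0 : s ≠ 0 := by
        intro h
        rw [h, Complex.zero_re] at hs
        linarith
      simp only [Nat.cast_zero, Complex.zero_cpow hs0, div_zero, norm_zero]
      exact norm_nonneg _
    · have hn : (1 : ℝ) ≤ n := by exact_mod_cast h0
      rw [norm_div, norm_div, Complex.norm_natCast_cpow_of_pos h0,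
        Complex.norm_natCast_cpow_of_pos h0]
      have : (n : ℝ) ^ ((((k : ℝ) + 1 : ℝ) : ℂ)).re ≤ (n : ℝ) ^ s.re :=
        Real.rpow_le_rpow_of_exponent_le hn (by rw [Complex.ofReal_re]; exact hs)
      gcongr
  -- the factor
  have hLE : ∀ s : ℂ, ModularForm.L (k := (k : ℤ)) hk' f s =
      (2 * Real.pi : ℂ) ^ s * (ModularForm.Λ (k := (k : ℤ)) hk' f s * (Complex.Gamma s)⁻¹) := by
    intro s
    show ModularForm.Λ hk' f s * (2 / Gammaℂ s) = _
    rw [Gammaℂ, ← div_div, ← div_div, div_self two_ne_zero, one_div, cpow_neg, inv_inv]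
    show _ = (2 * Real.pi : ℂ) ^ s * (ModularForm.Λ hk' f s * (Complex.Gamma s)⁻¹)
    ring
  have h2pi : (0 : ℝ) < 2 * Real.pi := by positivity
  have h2pi1 : (1 : ℝ) ≤ 2 * Real.pi := by linarith [Real.pi_gt_three]
  have hm1 : (1 : ℝ) ≤ ((m + 1 : ℕ) : ℝ) := by
    push_cast
    linarith [Nat.cast_nonneg (α := ℝ) m]
  refine ⟨C₃ + (2 * Real.pi) ^ ((k : ℝ) + 1) * (Cr + Cl) * ((m + 1 : ℕ) : ℝ) ^ m, m, fun s hs => ?_⟩
  have hone : (1 : ℝ) ≤ (1 + ‖s‖) ^ m := one_le_pow₀ (by linarith [norm_nonneg s])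
  rcases le_or_gt ((k : ℝ) + 1) s.re with h3 | h3
  · calc ‖ModularForm.L (k := (k : ℤ)) hk' f s‖ ≤ C₃ := hfar s h3
      _ ≤ C₃ + (2 * Real.pi) ^ ((k : ℝ) + 1) * (Cr + Cl) * ((m + 1 : ℕ) : ℝ) ^ m :=
          le_add_of_nonneg_right (by positivity)
      _ ≤ _ := le_mul_of_one_le_right (by positivity) hone
  · rw [hLE, norm_mul]
    have h1 : ‖(2 * Real.pi : ℂ) ^ s‖ ≤ (2 * Real.pi) ^ ((k : ℝ) + 1) := by
      have e : (2 * Real.pi : ℂ) = ((2 * Real.pi : ℝ) : ℂ) := by push_cast; rfl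
      rw [e, Complex.norm_cpow_eq_rpow_re_of_pos h2pi]
      exact Real.rpow_le_rpow_of_exponent_le h2pi1 h3.le
    have h2 := hstrip s (by linarith) (by rw [hmr]; exact h3.le)
    have h5 : ‖s + ((m + 1 : ℕ) : ℂ)‖ ^ m ≤ ((m + 1 : ℕ) : ℝ) ^ m * (1 + ‖s‖) ^ m := by
      rw [← mul_pow]
      apply pow_le_pow_left₀ (norm_nonneg _)
      refine (norm_add_le _ _).trans ?_
      rw [Complex.norm_natCast]
      nlinarith [norm_nonneg s]
    calc ‖(2 * Real.pi : ℂ) ^ s‖ * ‖ModularForm.Λ (k := (k : ℤ)) hk' f s * (Complex.Gamma s)⁻¹‖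
        ≤ (2 * Real.pi) ^ ((k : ℝ) + 1) * ((Cr + Cl) * (((m + 1 : ℕ) : ℝ) ^ m * (1 + ‖s‖) ^ m)) := by
          gcongr
          exact h2.trans (by gcongr)
      _ = (2 * Real.pi) ^ ((k : ℝ) + 1) * (Cr + Cl) * ((m + 1 : ℕ) : ℝ) ^ m * (1 + ‖s‖) ^ m := by ring
      _ ≤ _ := by
          gcongr
          linarith

end Pool.Agent.V11288.HS
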