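import Pool.Agent.V11288.HS.Main

/-! Boundary values: the identity of the mean square with an integral over the central line. -/

set_option autoImplicit false

open MeasureTheory Filter Topology Set Complex FourierTransform
open scoped ENNReal
open Pool.Agent.TH942.LS (Dat)
open Pool.Agent.TH942.SL
open Pool.Agent.TH942.ES
open Pool.Agent.TH270.RS (cS')
open Pool.Agent.TH270.MS
open Pool.Agent.TH270.MS.PW (fourier_eq)

namespace Pool.Agent.V11288.HS

/-- the Laplace transform -/
noncomputable def LT (k : ℝ → ℝ) (s : ℂ) : ℂ := ∫ u : ℝ, (k u : ℂ) * exp (-(s * u))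

/-- **the imaginary part on vertical lines**: for a real function on `(0, ∞)` it has half of the mean square -/
theorem im_plancherel {g : ℝ → ℝ} (hg1 : Integrable g) (hg2 : MemLp g 2) (h0 : ∀ u : ℝ, u ≤ 0 → g u = 0) :
    ∫⁻ t : ℝ, ENNReal.ofReal ((LT g (t * I)).im ^ 2) =
      ENNReal.ofReal Real.pi * ∫⁻ u : ℝ, ENNReal.ofReal (g u ^ 2) := by
  -- the odd part
  set go : ℝ → ℂ := fun u => ((g u - g (-u)) / 2 : ℝ) with hgo
  have hn1 : Integrable fun u : ℝ => g (-u) := hg1.comp_neg
  have hn2 : MemLp (fun u : ℝ => g (-u)) 2 :=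
    hg2.comp_measurePreserving (Measure.measurePreserving_neg volume)
  have ho1 : Integrable go := ((hg1.sub hn1).div_const 2).ofReal
  have ho2 : MemLp go 2 := by
    have h1 : MemLp (fun u : ℝ => (g u - g (-u)) / 2) 2 := by
      have := (hg2.sub hn2).const_mul (1 / 2 : ℝ)
      refine this.ae_eq (Eventually.of_forall fun u => ?_)
      simp only [Pi.sub_apply]
      ring
    exact h1.ofReal
  have hpl := Pool.Agent.Helper76.NormalHP.plancherel_lintegral go ho1 ho2
  -- the transform of the odd part
  have hF : ∀ ξ : ℝ, 𝓕 go ξ = ((LT g ((2 * Real.pi * ξ : ℝ) * I)).im : ℂ) * I := by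
    intro ξ
    set s : ℂ := ((2 * Real.pi * ξ : ℝ) : ℂ) * I with hs
    have hre : s.re = 0 := by rw [hs]; simp
    have e1 : Integrable fun u : ℝ => (g u : ℂ) * exp (-(s * u)) := by
      refine hg1.norm.mono' ((Complex.measurable_ofReal.comp_aemeasurable
        hg1.aestronglyMeasurable.aemeasurable).aestronglyMeasurable.mul
          (Continuous.aestronglyMeasurable (by fun_prop))) (Eventually.of_forall fun u => ?_)
      rw [norm_mul, Complex.norm_exp, Complex.norm_real]
      have : (-(s * (u : ℂ))).re = 0 := by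
        rw [Complex.neg_re, Complex.re_mul_ofReal, hre]
        simp
      rw [this, Real.exp_zero, mul_one]
    have e2 : Integrable fun u : ℝ => (g (-u) : ℂ) * exp (-(s * u)) := by
      have := e1.comp_neg
      have hn := hn1
      refine hn.norm.mono' ((Complex.measurable_ofReal.comp_aemeasurable
        hn.aestronglyMeasurable.aemeasurable).aestronglyMeasurable.mul
          (Continuous.aestronglyMeasurable (by fun_prop))) (Eventually.of_forall fun u => ?_)
      rw [norm_mul, Complex.norm_exp, Complex.norm_real]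
      have : (-(s * (u : ℂ))).re = 0 := by
        rw [Complex.neg_re, Complex.re_mul_ofReal, hre]
        simp
      rw [this, Real.exp_zero, mul_one]
    have e3 : ∫ u : ℝ, (g (-u) : ℂ) * exp (-(s * u)) = (starRingEnd ℂ) (LT g s) := by
      have h1 : ∫ u : ℝ, (g (-u) : ℂ) * exp (-(s * u)) = ∫ u : ℝ, (g u : ℂ) * exp (s * u) := by
        rw [← integral_neg_eq_self]
        refine integral_congr_ae (Eventually.of_forall fun u => ?_)
        simp only [neg_neg]
        congr 2
        push_cast
        ring
      rw [h1, LT, ← integral_conj]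
      refine integral_congr_ae (Eventually.of_forall fun u => ?_)
      simp only
      rw [map_mul, Complex.conj_ofReal, ← Complex.exp_conj]
      congr 2
      rw [map_neg, map_mul, Complex.conj_ofReal]
      have : (starRingEnd ℂ) s = -s := by
        apply Complex.ext
        · rw [Complex.conj_re, Complex.neg_re, hre]
          simp
        · rw [Complex.conj_im, Complex.neg_im]
      rw [this]
      ring
    have e4 : 𝓕 go ξ = ∫ u : ℝ, go u * exp (-(s * u)) := by
      have h1 := fourier_eq go 0 ξ
      have h2 : (fun u : ℝ => go u * exp (-(((0 : ℝ) : ℂ) * u))) = go := by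
        funext u
        simp
      rw [h2] at h1
      rw [h1]
      refine integral_congr_ae (Eventually.of_forall fun u => ?_)
      simp only
      congr 2
      rw [hs]
      push_cast
      ring
    have e5 : ∫ u : ℝ, go u * exp (-(s * u)) = (1 / 2) * (LT g s - (starRingEnd ℂ) (LT g s)) := by
      rw [← e3, LT, ← integral_sub e1 e2, ← integral_const_mul]
      refine integral_congr_ae (Eventually.of_forall fun u => ?_)
      simp only [hgo]
      push_cast
      ring
    rw [e4, e5]
    apply Complex.ext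
    · simp
    · simp
      ring
  -- change of variables
  have hcont : Continuous fun t : ℝ => (LT g (t * I)).im := by
    have h3 : Continuous (𝓕 go) := VectorFourier.fourierIntegral_continuous Real.continuous_fourierChar
      (innerSL ℝ).continuous₂ ho1
    have h4 : (fun t : ℝ => (LT g (t * I)).im) = fun t => (𝓕 go ((2 * Real.pi)⁻¹ * t)).im := by
      funext t
      rw [hF]
      have : (2 * Real.pi * ((2 * Real.pi)⁻¹ * t) : ℝ) = t := by field_simp
      rw [this]
      simp
    rw [h4]
    exact Complex.continuous_im.comp (h3.comp (by fun_prop))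
  have h2 : ∫⁻ ξ, ‖𝓕 go ξ‖ₑ ^ 2 =
      ENNReal.ofReal (2 * Real.pi)⁻¹ * ∫⁻ t : ℝ, ENNReal.ofReal ((LT g (t * I)).im ^ 2) := by
    have h3 : ∫⁻ ξ, ‖𝓕 go ξ‖ₑ ^ 2 = ∫⁻ t : ℝ, ENNReal.ofReal ((LT g (t * I)).im ^ 2)
        ∂(Measure.map (fun ξ : ℝ => 2 * Real.pi * ξ) volume) := by
      rw [lintegral_map (hcont.measurable.pow_const 2).ennreal_ofReal (by fun_prop)]
      refine lintegral_congr fun ξ => ?_
      rw [hF ξ, ← ofReal_norm, ← ENNReal.ofReal_pow (norm_nonneg _), norm_mul, Complex.norm_I, mul_one,
        Complex.norm_real, Real.norm_eq_abs, sq_abs]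
    rw [h3, Real.map_volume_mul_left (by positivity), lintegral_smul_measure, smul_eq_mul,
      abs_of_pos (by positivity)]
  -- the mean square of the odd part
  have h5 : ∫⁻ u, ‖go u‖ₑ ^ 2 = ENNReal.ofReal (1 / 2) * ∫⁻ u, ENNReal.ofReal (g u ^ 2) := by
    have hgm : AEMeasurable (fun u => ENNReal.ofReal (g u ^ 2)) volume :=
      (hg1.aestronglyMeasurable.aemeasurable.pow_const 2).ennreal_ofReal
    have e1 : ∀ u : ℝ, ‖go u‖ₑ ^ 2 = ENNReal.ofReal (1 / 4) * ENNReal.ofReal (g u ^ 2) +
        ENNReal.ofReal (1 / 4) * ENNReal.ofReal (g (-u) ^ 2) := by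
      intro u
      rw [← ENNReal.ofReal_mul (by norm_num), ← ENNReal.ofReal_mul (by norm_num),
        ← ENNReal.ofReal_add (by positivity) (by positivity), ← ofReal_norm,
        ← ENNReal.ofReal_pow (norm_nonneg _), hgo]
      simp only
      rw [Complex.norm_real, Real.norm_eq_abs, sq_abs]
      congr 1
      rcases le_total u 0 with hu | hu
      · rw [h0 u hu]
        ring
      · rw [h0 (-u) (by linarith)]
        ring
    have e2 : ∫⁻ u : ℝ, ENNReal.ofReal (g (-u) ^ 2) = ∫⁻ u : ℝ, ENNReal.ofReal (g u ^ 2) :=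
      lintegral_neg_eq_self (μ := volume) (fun u : ℝ => ENNReal.ofReal (g u ^ 2))
    simp only [e1]
    rw [lintegral_add_left' (hgm.const_mul _), lintegral_const_mul' _ _ ENNReal.ofReal_ne_top,
      lintegral_const_mul' _ _ ENNReal.ofReal_ne_top, e2, ← add_mul, ← ENNReal.ofReal_add
        (by norm_num) (by norm_num)]
    norm_num
  rw [h2, h5] at hpl
  have h6 : ENNReal.ofReal (2 * Real.pi) * (ENNReal.ofReal (2 * Real.pi)⁻¹ *
      ∫⁻ t : ℝ, ENNReal.ofReal ((LT g (t * I)).im ^ 2)) = ∫⁻ t : ℝ, ENNReal.ofReal ((LT g (t * I)).im ^ 2) := by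
    rw [← mul_assoc, ← ENNReal.ofReal_mul (by positivity), mul_inv_cancel₀ (by positivity),
      ENNReal.ofReal_one, one_mul]
  rw [← h6, hpl, ← mul_assoc, ← ENNReal.ofReal_mul (by positivity)]
  congr 2
  ring

theorem en_real (f : ℝ → ℝ) : eLpNorm f 2 volume = (∫⁻ u, ENNReal.ofReal (f u ^ 2)) ^ (1 / 2 : ℝ) := by
  rw [eLpNorm_eq_lintegral_rpow_enorm_toReal (by norm_num) (by norm_num)]
  simp only [ENNReal.toReal_ofNat, ENNReal.rpow_ofNat]
  congr 1
  refine lintegral_congr fun u => ?_
  rw [← ofReal_norm, ← ENNReal.ofReal_pow (norm_nonneg _), Real.norm_eq_abs, sq_abs]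

theorem en_im {g : ℝ → ℝ} (hg1 : Integrable g) (hg2 : MemLp g 2) (h0 : ∀ u : ℝ, u ≤ 0 → g u = 0) :
    eLpNorm (fun t : ℝ => (LT g (t * I)).im) 2 volume =
      ENNReal.ofReal Real.pi ^ (1 / 2 : ℝ) * eLpNorm g 2 volume := by
  rw [en_real, en_real, im_plancherel hg1 hg2 h0, ENNReal.mul_rpow_of_nonneg _ _ (by norm_num)]

theorem lt_cont {g : ℝ → ℝ} (hg1 : Integrable g) : Continuous fun t : ℝ => (LT g (t * I)).im := by
  have h3 : Continuous (𝓕 fun u => (g u : ℂ)) := VectorFourier.fourierIntegral_continuous
    Real.continuous_fourierChar (innerSL ℝ).continuous₂ hg1.ofReal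
  have h4 : (fun t : ℝ => (LT g (t * I)).im) =
      fun t => (𝓕 (fun u => (g u : ℂ)) ((2 * Real.pi)⁻¹ * t)).im := by
    funext t
    have h1 := fourier_eq (fun u => (g u : ℂ)) 0 ((2 * Real.pi)⁻¹ * t)
    have h2 : (fun u : ℝ => (g u : ℂ) * exp (-(((0 : ℝ) : ℂ) * u))) = fun u => (g u : ℂ) := by
      funext u
      simp
    rw [h2] at h1
    rw [h1, LT]
    congr 3
    funext u
    congr 3
    have e : 2 * (Real.pi : ℂ) * (((2 * Real.pi)⁻¹ * t : ℝ) : ℂ) = t := by
      have : (2 * Real.pi * ((2 * Real.pi)⁻¹ * t) : ℝ) = t := by field_simp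
      exact_mod_cast this
    rw [e]
    simp
  rw [h4]
  exact Complex.continuous_im.comp (h3.comp (by fun_prop))

/-- **the boundary values** -/
theorem im_line {k : ℝ → ℝ} (h0 : ∀ u : ℝ, u ≤ 0 → k u = 0) (hk : MemLp k 2) {h : ℝ → ℝ}
    (hlim : ∀ᵐ t : ℝ, Tendsto (fun x : ℝ => (LT k (x + t * I)).im) (𝓝[>] 0) (𝓝 (h t))) :
    ∫⁻ t : ℝ, ENNReal.ofReal (h t ^ 2) =
      ENNReal.ofReal Real.pi * ∫⁻ u : ℝ, ENNReal.ofReal (k u ^ 2) := by
  set c : ℝ≥0∞ := ENNReal.ofReal Real.pi ^ (1 / 2 : ℝ) with hc
  have hct : c ≠ ⊤ := ENNReal.rpow_ne_top_of_nonneg (by norm_num) ENNReal.ofReal_ne_top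
  have hkm := hk.aestronglyMeasurable
  -- finiteness of the integral
  obtain ⟨C, hC, hCk⟩ : ∃ C : ℝ, 0 ≤ C ∧ ∫⁻ u : ℝ, ‖(k u : ℂ)‖ₑ ^ 2 ≤ ENNReal.ofReal C := by
    have h1 : ∫⁻ u : ℝ, ENNReal.ofReal (k u ^ 2) < ⊤ := by
      have h2 := hk.eLpNorm_lt_top
      rw [en_real] at h2
      by_contra h3
      rw [not_lt, top_le_iff] at h3
      rw [h3, ENNReal.top_rpow_of_pos (by norm_num)] at h2
      exact lt_irrefl _ h2
    refine ⟨(∫⁻ u : ℝ, ENNReal.ofReal (k u ^ 2)).toReal, ENNReal.toReal_nonneg, ?_⟩
    rw [ENNReal.ofReal_toReal h1.ne]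
    refine le_of_eq (lintegral_congr fun u => ?_)
    rw [← ofReal_norm, ← ENNReal.ofReal_pow (norm_nonneg _), Complex.norm_real, Real.norm_eq_abs, sq_abs]
  obtain ⟨hI, -, -⟩ := to_hardy (k := fun u => (k u : ℂ))
    (Complex.measurable_ofReal.comp_aemeasurable hkm.aemeasurable).aestronglyMeasurable
    (fun u hu => by rw [h0 u hu.le]; simp) hC hCk
  set x : ℕ → ℝ := fun n => 1 / ((n : ℝ) + 1) with hx
  have hx0 : ∀ n, 0 < x n := fun n => by simp only [hx]; positivity
  have hxt : Tendsto x atTop (𝓝 0) := tendsto_one_div_add_atTop_nhds_zero_nat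
  have hxt' : Tendsto x atTop (𝓝[>] 0) :=
    tendsto_nhdsWithin_of_tendsto_nhds_of_eventually_within _ hxt (Eventually.of_forall hx0)
  set kn : ℕ → ℝ → ℝ := fun n u => k u * Real.exp (-(x n * u)) with hkn
  have hkn0 : ∀ n u, u ≤ 0 → kn n u = 0 := fun n u hu => by
    simp only [hkn]
    rw [h0 u hu, zero_mul]
  have hknle : ∀ n u, |kn n u| ≤ |k u| := by
    intro n u
    rcases le_total u 0 with hu | hu
    · rw [hkn0 n u hu, abs_zero]
      exact abs_nonneg _
    · simp only [hkn]
      rw [abs_mul, abs_of_pos (Real.exp_pos _)]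
      refine mul_le_of_le_one_right (abs_nonneg _) (Real.exp_le_one_iff.2 ?_)
      have := mul_nonneg (hx0 n).le hu
      linarith
  have hkni : ∀ n, Integrable (kn n) := by
    intro n
    have h1 := (hI (x n) (hx0 n)).re
    refine h1.congr (Eventually.of_forall fun u => ?_)
    have e : ((k u : ℝ) : ℂ) * exp (-((x n : ℂ) * u)) = ((k u * Real.exp (-(x n * u)) : ℝ) : ℂ) := by
      push_cast
      rfl
    simp only [hkn]
    rw [e]
    exact Complex.ofReal_re _
  have hkn2 : ∀ n, MemLp (kn n) 2 := fun n =>
    hk.mono (hkni n).aestronglyMeasurable (Eventually.of_forall fun u => by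
      rw [Real.norm_eq_abs, Real.norm_eq_abs]
      exact hknle n u)
  -- the transforms
  have hLT : ∀ n (t : ℝ), LT (kn n) (t * I) = LT k (x n + t * I) := by
    intro n t
    unfold LT
    refine integral_congr_ae (Eventually.of_forall fun u => ?_)
    simp only [hkn]
    push_cast
    rw [mul_assoc, ← Complex.exp_add]
    congr 2
    ring
  have hLTi : ∀ n (t : ℝ), Integrable fun u : ℝ => (kn n u : ℂ) * exp (-(t * I * u)) := by
    intro n t
    refine (hkni n).norm.mono' ((Complex.measurable_ofReal.comp_aemeasurable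
      (hkni n).aestronglyMeasurable.aemeasurable).aestronglyMeasurable.mul
        (Continuous.aestronglyMeasurable (by fun_prop))) (Eventually.of_forall fun u => ?_)
    rw [norm_mul, Complex.norm_exp, Complex.norm_real]
    have : (-((t : ℂ) * I * (u : ℂ))).re = 0 := by simp
    rw [this, Real.exp_zero, mul_one]
  have hLTs : ∀ n m (t : ℝ), (LT (kn n) (t * I)).im - (LT (kn m) (t * I)).im =
      (LT (fun u => kn n u - kn m u) (t * I)).im := by
    intro n m t
    rw [← Complex.sub_im]
    congr 1
    unfold LT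
    rw [← integral_sub (hLTi n t) (hLTi m t)]
    refine integral_congr_ae (Eventually.of_forall fun u => ?_)
    simp only
    push_cast
    ring
  set J : ℕ → ℝ → ℝ := fun n t => (LT (kn n) (t * I)).im with hJ
  have hJc : ∀ n, Continuous (J n) := fun n => lt_cont (hkni n)
  have hJlim : ∀ᵐ t : ℝ, Tendsto (fun n => J n t) atTop (𝓝 (h t)) := by
    filter_upwards [hlim] with t ht
    refine (ht.comp hxt').congr fun n => ?_
    simp only [Function.comp_apply, hJ]
    rw [hLT]
  have hhm : AEStronglyMeasurable h volume :=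
    aestronglyMeasurable_of_tendsto_ae atTop (fun n => (hJc n).aestronglyMeasurable) hJlim
  -- the norms
  have hJn : ∀ n, eLpNorm (J n) 2 volume = c * eLpNorm (kn n) 2 volume := fun n =>
    en_im (hkni n) (hkn2 n) (hkn0 n)
  have hJnm : ∀ n m, eLpNorm (fun t => J n t - J m t) 2 volume =
      c * eLpNorm (fun u => kn n u - kn m u) 2 volume := by
    intro n m
    have h1 := en_im (g := fun u => kn n u - kn m u) ((hkni n).sub (hkni m)) ((hkn2 n).sub (hkn2 m))
      (fun u hu => by rw [hkn0 n u hu, hkn0 m u hu, sub_zero])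
    rw [← h1]
    congr 1
    funext t
    exact hLTs n m t
  -- the convergence of the functions
  have hA : Tendsto (fun n => eLpNorm (fun u => kn n u - k u) 2 volume) atTop (𝓝 0) := by
    have h1 : Tendsto (fun n => ∫⁻ u, ENNReal.ofReal ((kn n u - k u) ^ 2)) atTop
        (𝓝 (∫⁻ _ : ℝ, (0 : ℝ≥0∞))) := by
      refine tendsto_lintegral_of_dominated_convergence' (fun u => ENNReal.ofReal (k u ^ 2))
        (fun n => (((hkni n).aestronglyMeasurable.aemeasurable.sub hkm.aemeasurable).pow_const
          2).ennreal_ofReal) (fun n => Eventually.of_forall fun u => ?_) ?_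
        (Eventually.of_forall fun u => ?_)
      · apply ENNReal.ofReal_le_ofReal
        rw [← sq_abs (k u), ← sq_abs (kn n u - k u)]
        refine pow_le_pow_left₀ (abs_nonneg _) ?_ 2
        rcases le_total u 0 with hu | hu
        · rw [hkn0 n u hu, h0 u hu]
          simp
        · simp only [hkn]
          have e1 : Real.exp (-(x n * u)) ≤ 1 := Real.exp_le_one_iff.2 (by
            have := mul_nonneg (hx0 n).le hu
            linarith)
          have e2 := Real.exp_pos (-(x n * u))
          have e3 : k u * Real.exp (-(x n * u)) - k u = -(k u * (1 - Real.exp (-(x n * u)))) := by ring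
          rw [e3, abs_neg, abs_mul, abs_of_nonneg (by linarith : 0 ≤ 1 - Real.exp (-(x n * u)))]
          exact mul_le_of_le_one_right (abs_nonneg _) (by linarith)
      · have h2 := hk.eLpNorm_lt_top
        rw [en_real] at h2
        intro h3
        rw [h3, ENNReal.top_rpow_of_pos (by norm_num)] at h2
        exact lt_irrefl _ h2
      · have h2 : Tendsto (fun n => kn n u - k u) atTop (𝓝 (k u * Real.exp (-(0 * u)) - k u)) := by
          refine Tendsto.sub_const (Tendsto.const_mul _ ?_) _
          exact (Real.continuous_exp.tendsto _).comp ((hxt.mul_const u).neg)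
        have h3 := ENNReal.tendsto_ofReal (h2.pow 2)
        simpa using h3
    rw [lintegral_zero] at h1
    have h2 := (ENNReal.continuous_rpow_const (y := 1 / 2)).continuousAt.tendsto.comp h1
    have e0 : (0 : ℝ≥0∞) ^ (1 / 2 : ℝ) = 0 := ENNReal.zero_rpow_of_pos (by norm_num)
    rw [e0] at h2
    refine h2.congr fun n => ?_
    rw [en_real]
    rfl
  have hsym : ∀ f g : ℝ → ℝ, eLpNorm (fun u => f u - g u) 2 volume = eLpNorm (fun u => g u - f u) 2 volume := by
    intro f g
    have : (fun u => f u - g u) = -(fun u => g u - f u) := by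
      funext u
      simp
    rw [this, eLpNorm_neg]
  have htri : ∀ {f g : ℝ → ℝ}, AEStronglyMeasurable f volume → AEStronglyMeasurable g volume →
      eLpNorm f 2 volume ≤ eLpNorm g 2 volume + eLpNorm (fun u => f u - g u) 2 volume := by
    intro f g hf hg
    have h1 := eLpNorm_add_le hg (hf.sub hg) (p := 2) (by norm_num)
    have h2 : g + (f - g) = f := by
      funext u
      simp
    rw [h2] at h1
    exact h1
  -- the distance of the limit
  have hB : ∀ m, eLpNorm (fun t => h t - J m t) 2 volume ≤
      c * eLpNorm (fun u => kn m u - k u) 2 volume := by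
    intro m
    have h1 := MeasureTheory.Lp.eLpNorm_lim_le_liminf_eLpNorm (p := 2) (μ := volume)
      (f := fun n t => J n t - J m t) (fun n => ((hJc n).sub (hJc m)).aestronglyMeasurable)
      (fun t => h t - J m t) (by
        filter_upwards [hJlim] with t ht
        exact ht.sub_const _)
    refine h1.trans ?_
    have h2 : ∀ n, eLpNorm (fun t => J n t - J m t) 2 volume ≤
        c * (eLpNorm (fun u => kn n u - k u) 2 volume + eLpNorm (fun u => kn m u - k u) 2 volume) := by
      intro n
      rw [hJnm]
      gcongr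
      have h3 := eLpNorm_add_le (μ := volume) (p := 2) (f := fun u => kn n u - k u)
        (g := fun u => k u - kn m u) ((hkni n).aestronglyMeasurable.sub hkm)
        (hkm.sub (hkni m).aestronglyMeasurable) (by norm_num)
      have h4 : ((fun u => kn n u - k u) + fun u => k u - kn m u) = fun u => kn n u - kn m u := by
        funext u
        simp
      rw [h4, hsym k (kn m)] at h3
      exact h3
    refine (liminf_le_liminf (Eventually.of_forall h2)).trans ?_
    have h3 : Tendsto (fun n => c * (eLpNorm (fun u => kn n u - k u) 2 volume +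
        eLpNorm (fun u => kn m u - k u) 2 volume)) atTop
        (𝓝 (c * (0 + eLpNorm (fun u => kn m u - k u) 2 volume))) :=
      ENNReal.Tendsto.const_mul (hA.add_const _) (Or.inr hct)
    rw [h3.liminf_eq, zero_add]
  have hlim2 : Tendsto (fun n => 2 * (c * eLpNorm (fun u => kn n u - k u) 2 volume)) atTop (𝓝 0) := by
    have h1 := ENNReal.Tendsto.const_mul (a := c) hA (Or.inr hct)
    rw [mul_zero] at h1
    have h2 := ENNReal.Tendsto.const_mul (a := 2) h1 (Or.inr (by norm_num))
    rwa [mul_zero] at h2
  have hfin : eLpNorm h 2 volume = c * eLpNorm k 2 volume := by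
    apply le_antisymm
    · have h1 : ∀ n, eLpNorm h 2 volume ≤ c * eLpNorm k 2 volume +
          2 * (c * eLpNorm (fun u => kn n u - k u) 2 volume) := by
        intro n
        have e1 := htri hhm (hJc n).aestronglyMeasurable
        have e2 := htri (hkni n).aestronglyMeasurable hkm
        calc eLpNorm h 2 volume ≤ eLpNorm (J n) 2 volume + eLpNorm (fun t => h t - J n t) 2 volume := e1
          _ ≤ c * (eLpNorm k 2 volume + eLpNorm (fun u => kn n u - k u) 2 volume) +
              c * eLpNorm (fun u => kn n u - k u) 2 volume := by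
            rw [hJn]
            gcongr
            exact hB n
          _ = _ := by ring
      have h2 := hlim2.const_add (c * eLpNorm k 2 volume)
      rw [add_zero] at h2
      exact ge_of_tendsto' h2 h1
    · have h1 : ∀ n, c * eLpNorm k 2 volume ≤ eLpNorm h 2 volume +
          2 * (c * eLpNorm (fun u => kn n u - k u) 2 volume) := by
        intro n
        have e1 := htri hkm (hkni n).aestronglyMeasurable
        have e2 := htri (hJc n).aestronglyMeasurable hhm
        rw [hsym k (kn n)] at e1
        rw [hsym (J n) h] at e2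
        calc c * eLpNorm k 2 volume ≤ c * (eLpNorm (kn n) 2 volume +
              eLpNorm (fun u => kn n u - k u) 2 volume) := by gcongr
          _ = eLpNorm (J n) 2 volume + c * eLpNorm (fun u => kn n u - k u) 2 volume := by
            rw [mul_add, hJn]
          _ ≤ (eLpNorm h 2 volume + c * eLpNorm (fun u => kn n u - k u) 2 volume) +
              c * eLpNorm (fun u => kn n u - k u) 2 volume := by
            gcongr
            exact e2.trans (by gcongr; exact hB n)
          _ = _ := by ring
      have h2 := hlim2.const_add (eLpNorm h 2 volume)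
      rw [add_zero] at h2
      exact ge_of_tendsto' h2 h1
  rw [en_real, en_real, hc, ← ENNReal.mul_rpow_of_nonneg _ _ (by norm_num)] at hfin
  exact ENNReal.rpow_left_injective (by norm_num) hfin

end Pool.Agent.V11288.HS
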