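import Pool.Agent.V11288.HS.PW
import Pool.Agent.TH270.MS.Conv
import Pool.Agent.W263.BSD.Lead1

/-! The Laplace transform of `γ + log u`, and of the deviations. -/

set_option autoImplicit false

open MeasureTheory Filter Topology Set Complex
open scoped ENNReal
open Pool.Agent.W263.BSD (LInt lap lapC lapC_ofReal lapC_differentiableAt integral_log_exp
  integrable_log_exp)
open Pool.Agent.TH942.LS (Dat)
open Pool.Agent.TH942.SL
open Pool.Agent.TH270.MS

namespace Pool.Agent.V11288.HS

/-- `γ + log u` -/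
noncomputable def gl (u : ℝ) : ℝ := Real.eulerMascheroniConstant + Real.log u

lemma gl_meas : Measurable gl := by
  unfold gl
  exact Real.measurable_log.const_add _

lemma gl_scaled {x : ℝ} (hx : 0 < x) :
    IntegrableOn (fun u : ℝ => Real.log u * Real.exp (-(x * u))) (Ioi 0) ∧
      ∫ u in Ioi (0 : ℝ), Real.log u * Real.exp (-(x * u)) =
        (-Real.eulerMascheroniConstant - Real.log x) / x := by
  have h1 : IntegrableOn (fun u : ℝ => Real.log (x * u) * Real.exp (-(x * u))) (Ioi 0) := by
    have := (integrableOn_Ioi_comp_mul_left_iff (fun t : ℝ => Real.log t * Real.exp (-t)) 0 hx).2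
      (by rw [mul_zero]; exact integrable_log_exp)
    exact this
  have h1' : ∫ u in Ioi (0 : ℝ), Real.log (x * u) * Real.exp (-(x * u)) =
      x⁻¹ * (-Real.eulerMascheroniConstant) := by
    have := integral_comp_mul_left_Ioi (fun t : ℝ => Real.log t * Real.exp (-t)) 0 hx
    rw [mul_zero, integral_log_exp, smul_eq_mul] at this
    exact this
  have h2 : IntegrableOn (fun u : ℝ => Real.log x * Real.exp (-(x * u))) (Ioi 0) := by
    have := (integrableOn_exp_mul_Ioi (a := -x) (by linarith) 0).const_mul (Real.log x)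
    refine IntegrableOn.congr_fun this (fun u _ => ?_) measurableSet_Ioi
    rw [neg_mul]
  have h2' : ∫ u in Ioi (0 : ℝ), Real.log x * Real.exp (-(x * u)) = Real.log x / x := by
    rw [integral_const_mul]
    have := integral_exp_mul_Ioi (a := -x) (by linarith) 0
    simp only [neg_mul, mul_zero, Real.exp_zero] at this
    rw [this]
    field_simp
  have e : EqOn (fun u : ℝ => Real.log u * Real.exp (-(x * u)))
      (fun u => Real.log (x * u) * Real.exp (-(x * u)) - Real.log x * Real.exp (-(x * u))) (Ioi 0) := by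
    intro u hu
    have hu0 : (u : ℝ) ≠ 0 := (mem_Ioi.1 hu).ne'
    simp only
    rw [Real.log_mul hx.ne' hu0]
    ring
  refine ⟨(h1.sub h2).congr_fun (fun u hu => (e hu).symm) measurableSet_Ioi, ?_⟩
  rw [setIntegral_congr_fun measurableSet_Ioi e, integral_sub h1 h2, h1', h2']
  field_simp

lemma gl_LInt {x : ℝ} (hx : 0 < x) : LInt gl x := by
  have h1 := (gl_scaled hx).1
  have h2 := (integrableOn_exp_mul_Ioi (a := -x) (by linarith) 0).const_mul
    Real.eulerMascheroniConstant
  unfold LInt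
  refine IntegrableOn.congr_fun (Integrable.add h2 h1) (fun u _ => ?_) measurableSet_Ioi
  simp only [Pi.add_apply, gl, neg_mul]
  ring

lemma gl_lap {x : ℝ} (hx : 0 < x) : lap gl x = -Real.log x / x := by
  have h1 := gl_scaled hx
  have h2 : IntegrableOn (fun u : ℝ => Real.eulerMascheroniConstant * Real.exp (-(x * u))) (Ioi 0) := by
    have := (integrableOn_exp_mul_Ioi (a := -x) (by linarith) 0).const_mul
      Real.eulerMascheroniConstant
    refine IntegrableOn.congr_fun this (fun u _ => ?_) measurableSet_Ioi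
    rw [neg_mul]
  have h2' : ∫ u in Ioi (0 : ℝ), Real.eulerMascheroniConstant * Real.exp (-(x * u)) =
      Real.eulerMascheroniConstant / x := by
    rw [integral_const_mul]
    have := integral_exp_mul_Ioi (a := -x) (by linarith) 0
    simp only [neg_mul, mul_zero, Real.exp_zero] at this
    rw [this]
    field_simp
  unfold lap gl
  have e : EqOn (fun u : ℝ => (Real.eulerMascheroniConstant + Real.log u) * Real.exp (-(x * u)))
      (fun u => Real.eulerMascheroniConstant * Real.exp (-(x * u)) +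
        Real.log u * Real.exp (-(x * u))) (Ioi 0) := by
    intro u _
    simp only
    ring
  rw [setIntegral_congr_fun measurableSet_Ioi e, integral_add h2 h1.1, h2', h1.2]
  field_simp
  ring

/-- the Laplace transform of `γ + log u` is `- log s / s` -/
theorem gl_lapC {s : ℂ} (hs : 0 < s.re) : lapC gl s = -log s / s := by
  have hU : IsOpen {z : ℂ | 0 < z.re} := isOpen_lt continuous_const Complex.continuous_re
  have hc : IsPreconnected {z : ℂ | 0 < z.re} := (convex_halfSpace_re_gt 0).isPreconnected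
  have a1 : AnalyticOnNhd ℂ (lapC gl) {z : ℂ | 0 < z.re} :=
    DifferentiableOn.analyticOnNhd (fun z hz => (lapC_differentiableAt gl_meas
      (fun w hw => gl_LInt hw) hz).differentiableWithinAt) hU
  have a2 : AnalyticOnNhd ℂ (fun z => -log z / z) {z : ℂ | 0 < z.re} := by
    intro z hz
    have hz0 : z ≠ 0 := by rintro rfl; exact lt_irrefl _ (show (0 : ℝ) < (0 : ℂ).re from hz)
    exact ((analyticAt_clog (Or.inl hz)).neg).div analyticAt_id hz0
  refine a1.eqOn_of_preconnected_of_frequently_eq a2 hc (show (1 : ℂ) ∈ {z : ℂ | 0 < z.re} by simp)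
    ?_ hs
  -- the real points
  have h1 : Tendsto (fun n : ℕ => (((1 : ℝ) + 1 / ((n : ℝ) + 1) : ℝ) : ℂ)) atTop (𝓝[≠] 1) := by
    refine tendsto_nhdsWithin_of_tendsto_nhds_of_eventually_within _ ?_ ?_
    · have h2 : Tendsto (fun n : ℕ => (1 : ℝ) + 1 / ((n : ℝ) + 1)) atTop (𝓝 (1 + 0)) :=
        tendsto_const_nhds.add tendsto_one_div_add_atTop_nhds_zero_nat
      rw [add_zero] at h2
      exact_mod_cast (Complex.continuous_ofReal.tendsto 1).comp h2
    · refine Eventually.of_forall fun n => ?_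
      have h3 : (0 : ℝ) < 1 / ((n : ℝ) + 1) := by positivity
      show (((1 : ℝ) + 1 / ((n : ℝ) + 1) : ℝ) : ℂ) ≠ 1
      intro h4
      have h5 : (1 : ℝ) + 1 / ((n : ℝ) + 1) = 1 := by exact_mod_cast h4
      linarith
  refine h1.frequently (Frequently.of_forall fun n => ?_)
  have hx : (0 : ℝ) < (1 : ℝ) + 1 / ((n : ℝ) + 1) := by positivity
  rw [lapC_ofReal, gl_lap hx, ← Complex.ofReal_log hx.le]
  push_cast
  rfl

variable {lam c : ℕ → ℝ} {δ σ : ℝ}

/-- the deviation of the partial sums `∑_{lam n ≤ u} c_n` -/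
noncomputable def Df (lam c : ℕ → ℝ) (r q : ℝ) (u : ℝ) : ℝ :=
  (Ioi (0 : ℝ)).indicator (fun u => Sh lam c u + r * gl u - q) u

lemma df_meas (D : Dat lam c δ σ) (r q : ℝ) : Measurable (Df lam c r q) :=
  (((sh_meas D).add (gl_meas.const_mul r)).sub_const q).indicator measurableSet_Ioi

lemma df_zero (r q : ℝ) {u : ℝ} (hu : u ≤ 0) : Df lam c r q u = 0 :=
  indicator_of_notMem (by simpa using hu) _

lemma gl_int {s : ℂ} (hs : 0 < s.re) :
    Integrable ((Ioi (0 : ℝ)).indicator fun u : ℝ => (gl u : ℂ) * exp (-(s * u))) := by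
  rw [integrable_indicator_iff measurableSet_Ioi]
  exact Pool.Agent.W263.BSD.LInt.complex gl_meas (gl_LInt hs)

lemma df_int_eq (D : Dat lam c δ σ) (r q : ℝ) (s : ℂ) (u : ℝ) (hu : u ≠ 0) :
    (Df lam c r q u : ℂ) * exp (-(s * u)) = (Sh lam c u : ℂ) * exp (-(s * u)) +
      r * (Ioi (0 : ℝ)).indicator (fun u : ℝ => (gl u : ℂ) * exp (-(s * u))) u -
      q * (Ici (0 : ℝ)).indicator (fun T : ℝ => exp (-(s * T))) u := by
  unfold Df
  by_cases h : 0 < u
  · rw [indicator_of_mem (show u ∈ Ioi (0 : ℝ) from h),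
      indicator_of_mem (show u ∈ Ioi (0 : ℝ) from h),
      indicator_of_mem (show u ∈ Ici (0 : ℝ) from h.le)]
    push_cast
    ring
  · have h' : u < 0 := lt_of_le_of_ne (not_lt.1 h) hu
    rw [indicator_of_notMem (show u ∉ Ioi (0 : ℝ) from h),
      indicator_of_notMem (show u ∉ Ioi (0 : ℝ) from h),
      indicator_of_notMem (show u ∉ Ici (0 : ℝ) from not_le.2 h'), sh_zero D (by linarith [D.δ0])]
    simp

lemma df_int (D : Dat lam c δ σ) (r q : ℝ) {s : ℂ} (hs : σ < s.re) :
    Integrable fun u : ℝ => (Df lam c r q u : ℂ) * exp (-(s * u)) := by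
  have hs0 : 0 < s.re := D.σ0.trans hs
  have i1 := sh_int D hs
  have i2 := (gl_int hs0).const_mul (r : ℂ)
  have i3 := (integrable_step hs0 0).const_mul (q : ℂ)
  refine ((i1.add i2).sub i3).congr ?_
  have h0 : ∀ᵐ u : ℝ, u ≠ 0 := by
    rw [ae_iff]
    simp
  filter_upwards [h0] with u hu
  rw [df_int_eq D r q s u hu]
  rfl

/-- the Laplace transform of the deviation -/
theorem df_lap (D : Dat lam c δ σ) (r q : ℝ) {s : ℂ} (hs : σ < s.re) :
    ∫ u : ℝ, (Df lam c r q u : ℂ) * exp (-(s * u)) = (DD lam c s - r * log s - q) / s := by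
  have hs0 : 0 < s.re := D.σ0.trans hs
  have i1 := sh_int D hs
  have i2 := (gl_int hs0).const_mul (r : ℂ)
  have i3 := (integrable_step hs0 0).const_mul (q : ℂ)
  have h0 : ∀ᵐ u : ℝ, u ≠ 0 := by
    rw [ae_iff]
    simp
  have e0 : ∀ᵐ u : ℝ, (Df lam c r q u : ℂ) * exp (-(s * u)) = (Sh lam c u : ℂ) * exp (-(s * u)) +
      r * (Ioi (0 : ℝ)).indicator (fun u : ℝ => (gl u : ℂ) * exp (-(s * u))) u -
      q * (Ici (0 : ℝ)).indicator (fun T : ℝ => exp (-(s * T))) u := by
    filter_upwards [h0] with u hu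
    exact df_int_eq D r q s u hu
  have i12 : Integrable fun u : ℝ => (Sh lam c u : ℂ) * exp (-(s * u)) +
      r * (Ioi (0 : ℝ)).indicator (fun u : ℝ => (gl u : ℂ) * exp (-(s * u))) u := i1.add i2
  rw [integral_congr_ae e0, integral_sub i12 i3, integral_add i1 i2, integral_const_mul,
    integral_const_mul, sh_lap D hs, integral_step hs0, integral_indicator measurableSet_Ioi]
  have h1 := gl_lapC hs0
  unfold lapC at h1
  rw [h1]
  simp only [Complex.ofReal_zero, mul_zero, neg_zero, Complex.exp_zero]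
  ring

end Pool.Agent.V11288.HS
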