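import Pool.Agent.V11288.HS.Ext
import Pool.Agent.V11288.HS.GrowK
import Pool.Agent.TH270.MS.QSys

/-! The `L`-function of a newform of weight `k` as an Euler product system. -/

set_option autoImplicit false

open MeasureTheory Filter Topology Set Complex
open scoped ENNReal ComplexConjugate
open Pool.Agent.TH942.ES (zv xv)
open Pool.Agent.TH270.MS (q_sys)

namespace Pool.Agent.V11288.HS

/-- Hecke relations and the Ramanujan-Petersson bounds -/
structure NfData (k : ℕ) (a : ℕ → ℂ) : Prop where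
  one : a 1 = 1
  mul : ∀ m n : ℕ, Nat.Coprime m n → a (m * n) = a m * a n
  pow : ∀ p : ℕ, p.Prime → ∃ u v : ℂ, ‖u‖ ≤ 1 ∧ ‖v‖ ≤ 1 ∧
    a p = (u + v) * (((p : ℝ) ^ (((k : ℝ) - 1) / 2) : ℝ) : ℂ) ∧
    ∀ j : ℕ, a (p ^ (j + 2)) = a p * a (p ^ (j + 1)) - u * v * (p : ℂ) ^ (k - 1) * a (p ^ j)

/-- the trivial system of all prime numbers -/
theorem primes_sys : Pool.Agent.TH942.ES.Sys (fun v : Nat.Primes => (v : ℕ))
    (fun _ => (Fin.elim0 : Fin 0 → ℂ)) :=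
  q_sys Nat.Prime (fun _ h => h) (d := 0) (fun _ => Fin.elim0) (fun _ i => Fin.elim0 i)
    (fun _ => by simp)

theorem pb_primes {d : ℕ} {α : Nat.Primes → Fin d → ℂ} (h : ∀ v i, ‖α v i‖ ≤ 1) :
    Pb (fun v : Nat.Primes => (v : ℕ)) α where
  cnt := primes_sys.cnt
  two_le := primes_sys.two_le
  sum := primes_sys.sum
  log_sum := primes_sys.log_sum
  le := h

theorem cast_pow_cpow (p e : ℕ) (s : ℂ) : ((p ^ e : ℕ) : ℂ) ^ s = ((p : ℂ) ^ s) ^ e := by
  induction e with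
  | zero => simp
  | succ e ih =>
    rw [pow_succ, Nat.cast_mul, Complex.natCast_mul_natCast_cpow, ih, pow_succ]

/-- the generating function of a linear recurrence -/
theorem gen_rec {b : ℕ → ℂ} {t e x : ℂ} (h0 : b 0 = 1) (h1 : b 1 = t)
    (hr : ∀ j, b (j + 2) = t * b (j + 1) - e * b j) (hs : Summable fun j => b j * x ^ j) :
    (∑' j, b j * x ^ j) * (1 - t * x + e * x ^ 2) = 1 := by
  set S := ∑' j, b j * x ^ j with hS
  have s1 : Summable fun j => b (j + 1) * x ^ (j + 1) := (summable_nat_add_iff 1).2 hs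
  have e1 : S = b 0 * x ^ 0 + ∑' j, b (j + 1) * x ^ (j + 1) := hs.tsum_eq_zero_add
  have e2 : ∑' j, b (j + 1) * x ^ (j + 1) =
      b (0 + 1) * x ^ (0 + 1) + ∑' j, b (j + 1 + 1) * x ^ (j + 1 + 1) := s1.tsum_eq_zero_add
  have e3 : ∑' j, b (j + 1 + 1) * x ^ (j + 1 + 1) =
      t * x * (∑' j, b (j + 1) * x ^ (j + 1)) - e * x ^ 2 * S := by
    rw [hS, ← tsum_mul_left, ← tsum_mul_left, ← (s1.mul_left _).tsum_sub (hs.mul_left _)]
    refine tsum_congr fun j => ?_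
    rw [show j + 1 + 1 = j + 2 by ring, hr]
    ring
  rw [h0, pow_zero, mul_one] at e1
  rw [zero_add, h1, pow_one, e3] at e2
  have e4 : ∑' j, b (j + 1) * x ^ (j + 1) = S - 1 := by rw [e1]; ring
  rw [e4] at e2
  linear_combination e2

namespace NfData

variable {k : ℕ} {a : ℕ → ℂ} (h : NfData k a)
include h

/-- the normalised roots -/
noncomputable def root (v : Nat.Primes) : Fin 2 → ℂ :=
  ![(h.pow v v.2).choose, (h.pow v v.2).choose_spec.choose]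

theorem root_spec (v : Nat.Primes) : ‖h.root v 0‖ ≤ 1 ∧ ‖h.root v 1‖ ≤ 1 ∧
    a v = (h.root v 0 + h.root v 1) * ((((v : ℕ) : ℝ) ^ (((k : ℝ) - 1) / 2) : ℝ) : ℂ) ∧
    ∀ j : ℕ, a ((v : ℕ) ^ (j + 2)) = a v * a ((v : ℕ) ^ (j + 1)) -
      h.root v 0 * h.root v 1 * ((v : ℕ) : ℂ) ^ (k - 1) * a ((v : ℕ) ^ j) :=
  (h.pow v v.2).choose_spec.choose_spec

theorem pb : Pb (fun v : Nat.Primes => (v : ℕ)) h.root := by
  refine pb_primes fun v i => ?_
  obtain ⟨h0, h1, -, -⟩ := h.root_spec v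
  fin_cases i
  · exact h0
  · exact h1

omit h in
/-- `p^((k-1)/2) p^(-(k/2+s)) = p^(-1/2) p^(-s)` -/
theorem scale (v : Nat.Primes) (s : ℂ) :
    ((((v : ℕ) : ℝ) ^ (((k : ℝ) - 1) / 2) : ℝ) : ℂ) * (((v : ℕ) : ℂ) ^ ((k : ℂ) / 2 + s))⁻¹ =
      (((√((v : ℕ) : ℝ) : ℝ)) : ℂ)⁻¹ * xv (fun v : Nat.Primes => (v : ℕ)) v s := by
  have hp : (0 : ℝ) < ((v : ℕ) : ℝ) := by exact_mod_cast v.2.pos
  have hpc : ((v : ℕ) : ℂ) ≠ 0 := by exact_mod_cast hp.ne'
  unfold xv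
  rw [← Complex.cpow_neg, Complex.cpow_def_of_ne_zero hpc, Real.sqrt_eq_rpow, ← Complex.ofReal_inv,
    ← Real.rpow_neg hp.le, Real.rpow_def_of_pos hp, Real.rpow_def_of_pos hp, Complex.ofReal_exp,
    Complex.ofReal_exp, ← Complex.exp_add, ← Complex.exp_add]
  congr 1
  have : Complex.log ((v : ℕ) : ℂ) = (Real.log ((v : ℕ) : ℝ) : ℂ) := by
    rw [Complex.ofReal_log hp.le]
    push_cast
    rfl
  rw [this]
  push_cast
  ring

omit h in
theorem sq_scale (hk : 1 ≤ k) (v : Nat.Primes) :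
    ((v : ℕ) : ℂ) ^ (k - 1) = ((((v : ℕ) : ℝ) ^ (((k : ℝ) - 1) / 2) : ℝ) : ℂ) ^ 2 := by
  have hp : (0 : ℝ) < ((v : ℕ) : ℝ) := by exact_mod_cast v.2.pos
  rw [← Complex.ofReal_pow, ← Real.rpow_natCast _ 2, ← Real.rpow_mul hp.le,
    show (((k : ℝ) - 1) / 2 * ((2 : ℕ) : ℝ)) = ((k - 1 : ℕ) : ℝ) by
      rw [Nat.cast_sub hk]
      push_cast
      ring, Real.rpow_natCast]
  push_cast
  rfl

theorem zv_eq (v : Nat.Primes) (i : Fin 2) : zv (fun v : Nat.Primes => (v : ℕ)) h.root v i =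
    h.root v i * (((√((v : ℕ) : ℝ) : ℝ)) : ℂ)⁻¹ := by
  unfold zv
  rw [div_eq_mul_inv]

/-- **The Euler product** -/
theorem euler (hk : 1 ≤ k) {s L : ℂ}
    (hs : HasSum (fun n : ℕ => a n / (n : ℂ) ^ ((k : ℂ) / 2 + s)) L)
    (hs0 : (k : ℂ) / 2 + s ≠ 0) :
    Pool.Agent.TH942.ES.LE (fun v : Nat.Primes => (v : ℕ)) h.root s = L := by
  set f : ℕ → ℂ := fun n => a n / (n : ℂ) ^ ((k : ℂ) / 2 + s) with hf
  have hf0 : f 0 = 0 := by
    simp only [hf]
    rw [Nat.cast_zero, Complex.zero_cpow hs0, div_zero]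
  have hf1 : f 1 = 1 := by
    simp only [hf]
    rw [h.one, Nat.cast_one, Complex.one_cpow, div_one]
  have hfm : ∀ {m n : ℕ}, Nat.Coprime m n → f (m * n) = f m * f n := by
    intro m n hmn
    simp only [hf]
    rw [h.mul m n hmn, Nat.cast_mul, Complex.natCast_mul_natCast_cpow, mul_div_mul_comm]
  have hE := EulerProduct.eulerProduct_hasProd hf1 hfm hs.summable.norm hf0
  rw [hs.tsum_eq] at hE
  have hloc : ∀ v : Nat.Primes, ∑' e, f ((v : ℕ) ^ e) =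
      ∏ i, (1 - zv (fun v : Nat.Primes => (v : ℕ)) h.root v i *
        xv (fun v : Nat.Primes => (v : ℕ)) v s)⁻¹ := by
    intro v
    obtain ⟨-, -, hr1, hr2⟩ := h.root_spec v
    set x : ℂ := (((v : ℕ) : ℂ) ^ ((k : ℂ) / 2 + s))⁻¹ with hx
    have e1 : ∀ e, f ((v : ℕ) ^ e) = a ((v : ℕ) ^ e) * x ^ e := by
      intro e
      simp only [hf]
      rw [cast_pow_cpow, hx, inv_pow, div_eq_mul_inv]
    have hinj : Function.Injective fun e : ℕ => (v : ℕ) ^ e := Nat.pow_right_injective v.2.two_le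
    have hsum : Summable fun e => a ((v : ℕ) ^ e) * x ^ e := by
      have h1 := hs.summable.comp_injective hinj
      refine h1.congr fun e => ?_
      rw [Function.comp_apply, ← e1]
    have g := gen_rec (b := fun e => a ((v : ℕ) ^ e)) (t := a v)
      (e := h.root v 0 * h.root v 1 * ((v : ℕ) : ℂ) ^ (k - 1)) (x := x)
      (by simp only [pow_zero]; exact h.one) (by simp only [pow_one]) (fun j => hr2 j) hsum
    rw [tsum_congr e1]
    have e2 : (1 - a v * x + h.root v 0 * h.root v 1 * ((v : ℕ) : ℂ) ^ (k - 1) * x ^ 2) =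
        (1 - zv (fun v : Nat.Primes => (v : ℕ)) h.root v 0 *
          xv (fun v : Nat.Primes => (v : ℕ)) v s) *
        (1 - zv (fun v : Nat.Primes => (v : ℕ)) h.root v 1 *
          xv (fun v : Nat.Primes => (v : ℕ)) v s) := by
      have e3 := scale (k := k) v s
      rw [← hx] at e3
      rw [h.zv_eq, h.zv_eq, sq_scale hk v, hr1]
      have e4 : ∀ c : ℂ, c * (((√((v : ℕ) : ℝ) : ℝ)) : ℂ)⁻¹ *
          xv (fun v : Nat.Primes => (v : ℕ)) v s =
          c * (((((v : ℕ) : ℝ) ^ (((k : ℝ) - 1) / 2) : ℝ) : ℂ) * x) := by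
        intro c
        rw [mul_assoc, ← e3]
      rw [e4, e4]
      ring
    rw [e2] at g
    rw [Fin.prod_univ_two, ← mul_inv]
    exact eq_inv_of_mul_eq_one_left g
  have hE' : HasProd (fun v : Nat.Primes => ∏ i, (1 - zv (fun v : Nat.Primes => (v : ℕ)) h.root v i *
      xv (fun v : Nat.Primes => (v : ℕ)) v s)⁻¹) L := by
    refine hE.congr_fun ?_ 
    intro v
    exact (hloc v).symm
  exact hE'.tprod_eq

/-- the traces -/
theorem trace_pow {T : ℕ → ℂ} (hk : 1 ≤ k) (v : Nat.Primes) (h0 : T 0 = 2) (h1 : T 1 = a v)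
    (hr : ∀ j, T (j + 2) = a v * T (j + 1) - (a v ^ 2 - a ((v : ℕ) ^ 2)) * T j) (j : ℕ) :
    T j = (∑ i, h.root v i ^ j) * ((((v : ℕ) : ℝ) ^ (((k : ℝ) - 1) / 2) : ℝ) : ℂ) ^ j := by
  obtain ⟨-, -, hr1, hr2⟩ := h.root_spec v
  have e2 := hr2 0
  rw [zero_add, zero_add, pow_one, pow_zero, h.one, mul_one, sq_scale hk v] at e2
  set w : ℂ := ((((v : ℕ) : ℝ) ^ (((k : ℝ) - 1) / 2) : ℝ) : ℂ) with hw
  have e3 : a v ^ 2 - a ((v : ℕ) ^ 2) = h.root v 0 * h.root v 1 * w ^ 2 := by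
    rw [e2]
    ring
  have key : ∀ j, T j = (∑ i, h.root v i ^ j) * w ^ j ∧
      T (j + 1) = (∑ i, h.root v i ^ (j + 1)) * w ^ (j + 1) := by
    intro j
    induction j with
    | zero =>
      refine ⟨?_, ?_⟩
      · rw [h0, Fin.sum_univ_two]
        norm_num
      · rw [zero_add, h1, Fin.sum_univ_two, pow_one, pow_one, pow_one, hr1]
    | succ j ih =>
      refine ⟨ih.2, ?_⟩
      rw [show j + 1 + 1 = j + 2 by ring, hr, e3, ih.1, ih.2, hr1]
      simp only [Fin.sum_univ_two]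
      ring
  exact (key j).1

/-- the term of the prime power `p^j` at the point `k/2 + iτ` -/
theorem term_eq {T : ℕ → ℂ} (hk : 1 ≤ k) (v : Nat.Primes) (h0 : T 0 = 2) (h1 : T 1 = a v)
    (hr : ∀ j, T (j + 2) = a v * T (j + 1) - (a v ^ 2 - a ((v : ℕ) ^ 2)) * T j) (j : ℕ) (τ : ℝ) :
    (∑ i, zv (fun v : Nat.Primes => (v : ℕ)) h.root v i ^ j) *
      xv (fun v : Nat.Primes => (v : ℕ)) v ((j : ℂ) * (τ * I)) =
    T j / ((v : ℕ) : ℂ) ^ ((j : ℂ) * ((k : ℂ) / 2 + τ * I)) := by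
  rw [h.trace_pow hk v h0 h1 hr j, Complex.cpow_nat_mul]
  have e3 := scale (k := k) v (τ * I)
  have e4 := congrArg (fun z => z ^ j) e3
  simp only [mul_pow, inv_pow] at e4
  rw [div_eq_mul_inv, mul_assoc, e4, ← xv_pow]
  simp only [h.zv_eq, mul_pow]
  rw [← Finset.sum_mul, inv_pow, mul_assoc]

end NfData

/-- **A newform of weight `k` gives an Euler product of polynomial growth across the critical line.** -/
theorem nf_pc {N : ℕ} [NeZero N] {k : ℕ} (hk : 1 ≤ k) (hk' : (0 : ℤ) < (k : ℤ))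
    (f : CuspForm (CongruenceSubgroup.Gamma1 N : Subgroup (GL (Fin 2) ℝ)) (k : ℤ))
    (h : NfData k fun n => (UpperHalfPlane.qExpansion 1 f).coeff n) :
    ∃ (κ : ℕ) (C : ℝ), Pc (fun v : Nat.Primes => (v : ℕ)) h.root
      (fun s => ModularForm.L (k := (k : ℤ)) hk' f ((k : ℂ) / 2 + s)) κ (1 / 2) C := by
  have hk0 : (1 : ℝ) ≤ k := by exact_mod_cast hk
  obtain ⟨hsum, C, κ, hg⟩ := growth_k hk hk' f
  have hre : ∀ s : ℂ, ((k : ℂ) / 2 + s).re = k / 2 + s.re := by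
    intro s
    rw [Complex.add_re, show (k : ℂ) / 2 = (((k : ℝ) / 2 : ℝ) : ℂ) by push_cast; rfl,
      Complex.ofReal_re]
  refine ⟨κ, |C| * (1 + (k : ℝ) / 2) ^ κ, ?_⟩
  refine h.pb.pc (σ₀ := 1) (by norm_num) (fun s _ => ?_) (fun s hs => ?_) (fun s hs => ?_)
  · have h1 : Differentiable ℂ (ModularForm.L (k := (k : ℤ)) hk' f) := CuspForm.differentiable_L hk' f
    have h2 : Differentiable ℂ fun s => ModularForm.L (k := (k : ℤ)) hk' f ((k : ℂ) / 2 + s) :=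
      h1.comp (by fun_prop)
    exact h2 s
  · refine (hg _ (by rw [hre]; linarith)).trans ?_
    have h1 : 1 + ‖(k : ℂ) / 2 + s‖ ≤ (1 + (k : ℝ) / 2) * (1 + ‖s‖) := by
      have h2 := norm_add_le ((k : ℂ) / 2) s
      have h3 : ‖(k : ℂ) / 2‖ = (k : ℝ) / 2 := by
        rw [norm_div, Complex.norm_natCast, Complex.norm_ofNat]
      rw [h3] at h2
      have : 0 ≤ (k : ℝ) / 2 * ‖s‖ := by positivity
      nlinarith
    calc C * (1 + ‖(k : ℂ) / 2 + s‖) ^ κ ≤ |C| * ((1 + (k : ℝ) / 2) * (1 + ‖s‖)) ^ κ :=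
          mul_le_mul (le_abs_self _) (pow_le_pow_left₀ (by positivity) h1 κ) (by positivity)
            (abs_nonneg _)
      _ = _ := by rw [mul_pow]; ring
  · symm
    refine h.euler hk (hsum _ (by rw [hre]; linarith)) ?_
    intro h0
    have h1 := hre s
    rw [h0, Complex.zero_re] at h1
    linarith

end Pool.Agent.V11288.HS
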