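import Pool.Agent.TH270.MS.PW
import Pool.Agent.H402R2.SubMean
import Pool.Agent.Helper76.HPlanch

/-!
# The theorem of Paley and Wiener for the Laplace transforms of locally integrable functions

`strip_eq` is a modified copy of `Pool.Agent.TH270.MS.PW.strip` (with the exact constant).
-/

set_option autoImplicit false

open MeasureTheory Filter Topology Set Complex FourierTransform
open scoped ENNReal SchwartzMap ContDiff
open Pool.Agent.TH270.MS Pool.Agent.TH270.MS.PW

namespace Pool.Agent.V11288.HS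

theorem strip_eq {k : ℝ → ℂ} {H : ℂ → ℂ} {a δ : ℝ} (hδ : 0 < δ) (hδa : δ ≤ a + 1)
    (hk : Integrable fun u : ℝ => k u * exp (-(((a + 1 : ℝ) : ℂ) * u)))
    (hH : ∀ s : ℂ, a < s.re → H s = ∫ u : ℝ, k u * exp (-(s * u)))
    (hd : ∀ s : ℂ, 0 < s.re → DifferentiableAt ℂ H s)
    {B : ℝ} (hB : ∀ s : ℂ, δ ≤ s.re → s.re ≤ a + 1 → ‖H s‖ ≤ B)
    (hL : ∫⁻ t : ℝ, ‖H (δ + t * I)‖ₑ ^ 2 < ⊤) :
    ∫⁻ u : ℝ, ‖k u * exp (-(δ * u))‖ₑ ^ 2 =
      ENNReal.ofReal (2 * Real.pi)⁻¹ * ∫⁻ t : ℝ, ‖H (δ + t * I)‖ₑ ^ 2 := by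
  set b : ℝ := a + 1 with hb
  have hcont : Continuous (fun t : ℝ => H (δ + t * I)) := by
    rw [continuous_iff_continuousAt]
    intro y
    have h1 : ContinuousAt H ((δ : ℂ) + y * I) := (hd _ (by simpa using hδ)).continuousAt
    exact ContinuousAt.comp (f := fun y : ℝ => (δ : ℂ) + y * I) h1 (by fun_prop)
  set h : ℝ → ℂ := fun ξ => H (δ + 2 * Real.pi * ξ * I) with hh
  have hh' : ∀ ξ, h ξ = (fun t : ℝ => H (δ + t * I)) (2 * Real.pi * ξ) := by
    intro ξ; simp only [hh]; push_cast; rfl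
  have hhc : Continuous h := by
    have : h = (fun t : ℝ => H (δ + t * I)) ∘ (fun ξ => 2 * Real.pi * ξ) := by
      ext ξ; exact hh' ξ
    rw [this]
    exact hcont.comp (by fun_prop)
  have hlin : ∫⁻ ξ, ‖h ξ‖ₑ ^ 2 =
      ENNReal.ofReal (2 * Real.pi)⁻¹ * ∫⁻ t : ℝ, ‖H (δ + t * I)‖ₑ ^ 2 := by
    have h1 : ∫⁻ ξ, ‖h ξ‖ₑ ^ 2 = ∫⁻ t, ‖H (δ + t * I)‖ₑ ^ 2
        ∂(Measure.map (fun ξ : ℝ => 2 * Real.pi * ξ) volume) := by
      rw [lintegral_map (hcont.enorm.measurable.pow_const 2) (by fun_prop)]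
      refine lintegral_congr fun ξ => ?_
      rw [hh' ξ]
    rw [h1, Real.map_volume_mul_left (by positivity), lintegral_smul_measure, smul_eq_mul,
      abs_of_pos (by positivity)]
  have hmem : MemLp h 2 := by
    refine ⟨hhc.aestronglyMeasurable, ?_⟩
    rw [enorm_sq]
    rw [hlin]
    exact ENNReal.rpow_lt_top_of_nonneg (by norm_num)
      (ENNReal.mul_lt_top ENNReal.ofReal_lt_top hL).ne
  have hloc : LocallyIntegrable (fun u : ℝ => k u * exp (-(δ * u))) := by
    have h1 : (fun u : ℝ => k u * exp (-(δ * u))) =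
        fun u : ℝ => (k u * exp (-((b : ℂ) * u))) * exp (((b - δ : ℝ) : ℂ) * u) := by
      ext u
      rw [mul_assoc, ← exp_add]
      congr 2
      push_cast
      ring
    rw [h1, ← locallyIntegrableOn_univ]
    refine MeasureTheory.LocallyIntegrableOn.mul_continuousOn
      (locallyIntegrableOn_univ.2 hk.locallyIntegrable) ?_ isOpen_univ.isLocallyClosed
    exact Continuous.continuousOn (by fun_prop)
  have hq : (𝓕⁻ (hmem.toLp h : Lp (α := ℝ) ℂ 2) : Lp (α := ℝ) ℂ 2) =ᵐ[volume]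
      fun u : ℝ => k u * exp (-(δ * u)) := by
    apply ae_eq_of_integral_contDiff_smul_eq
    · exact (Lp.memLp _).locallyIntegrable (by norm_num)
    · exact hloc
    · intro g g_smooth g_cpt
      have hg₁ : HasCompactSupport (Complex.ofRealCLM ∘ g) := g_cpt.comp_left rfl
      have hg₂ : ContDiff ℝ ∞ (Complex.ofRealCLM ∘ g) := by fun_prop
      set φ : ℝ → ℂ := Complex.ofRealCLM ∘ g with hφ
      have hφu : ∀ u, φ u = (g u : ℂ) := fun u => rfl
      have hb₁ : HasCompactSupport (fun u : ℝ => φ u * exp (((b - δ : ℝ) : ℂ) * u)) :=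
        hg₁.mul_right
      have hb₂ : ContDiff ℝ ∞ (fun u : ℝ => φ u * exp (((b - δ : ℝ) : ℂ) * u)) := by
        refine hg₂.mul ?_
        exact (contDiff_const.mul Complex.ofRealCLM.contDiff).cexp
      set G : 𝓢(ℝ, ℂ) := hg₁.toSchwartzMap hg₂ with hG
      set Gb : 𝓢(ℝ, ℂ) := hb₁.toSchwartzMap hb₂ with hGb
      have hGu : ∀ u, G u = φ u := fun u => by rw [hG]; rfl
      have hGbu : ∀ u, Gb u = φ u * exp (((b - δ : ℝ) : ℂ) * u) := fun u => by rw [hGb]; rfl
      -- left side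
      have L1 : ∫ x, g x • (𝓕⁻ (hmem.toLp h : Lp (α := ℝ) ℂ 2) : Lp (α := ℝ) ℂ 2) x =
          ∫ ξ : ℝ, Psi φ (2 * Real.pi * ξ * I) * H (δ + 2 * Real.pi * ξ * I) := by
        have e1 : ∫ x, g x • (𝓕⁻ (hmem.toLp h : Lp (α := ℝ) ℂ 2) : Lp (α := ℝ) ℂ 2) x =
            ∫ x, G x • (𝓕⁻ (hmem.toLp h : Lp (α := ℝ) ℂ 2) : Lp (α := ℝ) ℂ 2) x := by
          refine integral_congr_ae (Eventually.of_forall fun u => ?_)
          simp only
          rw [hGu, hφu, Complex.real_smul, smul_eq_mul]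
        rw [e1, pair_q]
        refine integral_congr_ae (Eventually.of_forall fun ξ => ?_)
        simp only
        rw [inv_eq_Psi φ 0 G (fun u => by rw [hGu]; simp) ξ, smul_eq_mul]
        simp only [hh, Complex.ofReal_zero, zero_add]
      have L2 : ∫ x : ℝ, g x • (k x * exp (-(δ * x))) =
          ∫ ξ : ℝ, Psi φ (((b - δ : ℝ) : ℂ) + 2 * Real.pi * ξ * I) *
            H (b + 2 * Real.pi * ξ * I) := by
        have e1 : ∫ x : ℝ, g x • (k x * exp (-(δ * x))) =
            ∫ x : ℝ, Gb x • (k x * exp (-((b : ℂ) * x))) := by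
          refine integral_congr_ae (Eventually.of_forall fun u => ?_)
          simp only
          rw [hGbu, hφu, Complex.real_smul, smul_eq_mul]
          have : exp (-((δ : ℂ) * u)) = exp (((b - δ : ℝ) : ℂ) * u) * exp (-((b : ℂ) * u)) := by
            rw [← exp_add]; congr 1; push_cast; ring
          rw [this]; ring
        rw [e1, pair_k _ hk]
        refine integral_congr_ae (Eventually.of_forall fun ξ => ?_)
        simp only
        rw [inv_eq_Psi φ (b - δ) Gb hGbu ξ, smul_eq_mul, fourier_eq k b ξ]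
        congr 1
        rw [hH]
        simp [hb]
      rw [L1, L2]
      obtain ⟨C, hC, hCb⟩ := Psi_decay hg₂ hg₁ (b - δ)
      have hB0 : 0 ≤ B := (norm_nonneg _).trans (hB δ (by simp) (by simpa using hδa))
      have hcs := contour_shift (H := fun s => Psi φ (s - δ) * H s) (a := δ) (b := b)
        (B := C * B) hδa ?_ ?_
      · have s1 := scale_integral (fun s => Psi φ (s - δ) * H s) δ
        have s2 := scale_integral (fun s => Psi φ (s - δ) * H s) b
        rw [hcs, ← s2] at s1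
        refine Eq.trans (integral_congr_ae (Eventually.of_forall fun ξ => ?_)) (s1.trans
          (integral_congr_ae (Eventually.of_forall fun ξ => ?_)))
        · simp only
          congr 2; ring
        · simp only
          congr 2; push_cast; ring
      · intro s hs1 hs2
        have h1 : DifferentiableAt ℂ (fun s => Psi φ (s - δ)) s := by
          have h2 : DifferentiableAt ℂ (Psi φ) (s - δ) := Psi_diff hg₂.continuous hg₁ _
          exact DifferentiableAt.comp (f := fun s : ℂ => s - δ) s h2 (by fun_prop)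
        exact h1.mul (hd s (by linarith))
      · intro s hs1 hs2
        have h1 := hCb (s - δ) (by
          rw [Complex.sub_re, Complex.ofReal_re, abs_of_nonneg (by linarith)]; linarith)
        have h2 := hB s hs1 hs2
        have h3 : (s - (δ : ℂ)).im = s.im := by simp
        rw [h3] at h1
        rw [norm_mul]
        calc ‖Psi φ (s - δ)‖ * ‖H s‖ ≤ (C * (1 + |s.im|) ^ (-(3 / 2 : ℝ))) * B :=
              mul_le_mul h1 h2 (norm_nonneg _) (by positivity)
          _ = _ := by ring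
  have hnorm : ‖(𝓕⁻ (hmem.toLp h : Lp (α := ℝ) ℂ 2) : Lp (α := ℝ) ℂ 2)‖ₑ =
      ‖(hmem.toLp h : Lp (α := ℝ) ℂ 2)‖ₑ := by
    have h1 : ‖(𝓕⁻ (hmem.toLp h : Lp (α := ℝ) ℂ 2) : Lp (α := ℝ) ℂ 2)‖ =
        ‖(hmem.toLp h : Lp (α := ℝ) ℂ 2)‖ := by
      rw [← Lp.norm_fourier_eq, FourierInvPair.fourier_fourierInv_eq]
    rw [← ofReal_norm, ← ofReal_norm, h1]
  rw [Lp.enorm_def, Lp.enorm_def, eLpNorm_congr_ae hq, eLpNorm_congr_ae hmem.coeFn_toLp,
    enorm_sq, enorm_sq] at hnorm
  have hfin := ENNReal.rpow_left_injective (by norm_num) hnorm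
  rw [hfin]
  exact hlin


/-- a bound for the vertical mean squares gives pointwise bounds -/
theorem bdd_of_hardy {H : ℂ → ℂ} (hd : ∀ s : ℂ, 0 < s.re → DifferentiableAt ℂ H s) {M : ℝ}
    (hM : 0 ≤ M) (hL : ∀ x : ℝ, 0 < x → ∫⁻ t : ℝ, ‖H (x + t * I)‖ₑ ^ 2 ≤ ENNReal.ofReal M)
    {δ : ℝ} (hδ : 0 < δ) : ∃ B : ℝ, ∀ s : ℂ, δ ≤ s.re → ‖H s‖ ≤ B := by
  refine ⟨√(2 * M / (Real.pi * δ)), fun s hs => ?_⟩
  have hpi := Real.pi_pos
  have hball : Metric.ball s δ ⊆ {z : ℂ | 0 < z.re} := by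
    intro z hz
    rw [Metric.mem_ball, dist_eq_norm] at hz
    have h1 := (abs_lt.1 ((Complex.abs_re_le_norm (z - s)).trans_lt hz)).1
    rw [Complex.sub_re] at h1
    show 0 < z.re
    linarith
  have h1 := Pool.Agent.H402R2.SubMean.rpow_mul_le_lintegral (g := H) (w := s) (ρ := δ) (p := 2) hδ
    (by norm_num) (fun z hz => (hd z (hball hz)).differentiableWithinAt)
  -- the comparison with the strip
  have hU : IsOpen {z : ℂ | 0 < z.re} := isOpen_lt continuous_const Complex.continuous_re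
  set F : ℂ → ℝ≥0∞ := {z : ℂ | 0 < z.re}.indicator (fun z => ‖H z‖ₑ ^ 2) with hF
  have hFm : Measurable F := by
    have hc : ContinuousOn (fun z => ‖H z‖ₑ ^ 2) {z : ℂ | 0 < z.re} := by
      have h2 : ContinuousOn H {z : ℂ | 0 < z.re} := fun z hz =>
        (hd z hz).continuousAt.continuousWithinAt
      exact (ENNReal.continuous_pow 2).comp_continuousOn (continuous_enorm.comp_continuousOn h2)
    have h3 : F = fun z => @ite _ (z ∈ {z : ℂ | 0 < z.re}) (Classical.propDecidable _)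
        (‖H z‖ₑ ^ 2) 0 := by
      funext z
      rw [hF, indicator]
    have h4 := ContinuousOn.measurable_piecewise (s := {z : ℂ | 0 < z.re}) (f := fun z => ‖H z‖ₑ ^ 2)
      (g := fun _ => (0 : ℝ≥0∞)) hc continuousOn_const hU.measurableSet
    rw [h3]
    exact h4
  have h2 : ∫⁻ z in Metric.ball s δ, ‖H z‖ₑ ^ (2 : ℝ) ≤
      ∫⁻ z in {z : ℂ | z.re ∈ Ioo (s.re - δ) (s.re + δ)}, F z := by
    have e1 : ∫⁻ z in Metric.ball s δ, ‖H z‖ₑ ^ (2 : ℝ) = ∫⁻ z in Metric.ball s δ, F z := by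
      refine setLIntegral_congr_fun Metric.isOpen_ball.measurableSet fun z hz => ?_
      rw [hF, indicator_of_mem (hball hz), show (2 : ℝ) = ((2 : ℕ) : ℝ) by norm_num,
        ENNReal.rpow_natCast]
    rw [e1]
    refine lintegral_mono_set fun z hz => ?_
    rw [Metric.mem_ball, dist_eq_norm] at hz
    have h3 := abs_lt.1 ((Complex.abs_re_le_norm (z - s)).trans_lt hz)
    rw [Complex.sub_re] at h3
    exact ⟨by linarith [h3.1], by linarith [h3.2]⟩
  have h3 : ∫⁻ z in {z : ℂ | z.re ∈ Ioo (s.re - δ) (s.re + δ)}, F z ≤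
      ENNReal.ofReal (2 * δ * M) := by
    have hms : MeasurableSet {z : ℂ | z.re ∈ Ioo (s.re - δ) (s.re + δ)} :=
      Complex.measurable_re measurableSet_Ioo
    rw [← lintegral_indicator hms,
      ← (Complex.volume_preserving_equiv_real_prod.symm).lintegral_comp (hFm.indicator hms),
      Measure.volume_eq_prod, lintegral_prod (fun a : ℝ × ℝ =>
        {z : ℂ | z.re ∈ Ioo (s.re - δ) (s.re + δ)}.indicator F
          (Complex.measurableEquivRealProd.symm a))
        ((hFm.indicator hms).comp Complex.measurableEquivRealProd.symm.measurable).aemeasurable]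
    have e1 : ∀ x : ℝ, ∫⁻ y : ℝ, {z : ℂ | z.re ∈ Ioo (s.re - δ) (s.re + δ)}.indicator F
        (Complex.measurableEquivRealProd.symm (x, y)) ≤
        (Ioo (s.re - δ) (s.re + δ)).indicator (fun _ => ENNReal.ofReal M) x := by
      intro x
      by_cases hx : x ∈ Ioo (s.re - δ) (s.re + δ)
      · rw [indicator_of_mem hx]
        have hx0 : 0 < x := by linarith [hx.1]
        refine le_trans (le_of_eq (lintegral_congr fun y => ?_)) (hL x hx0)
        have e2 : Complex.measurableEquivRealProd.symm (x, y) = (x : ℂ) + y * I := by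
          apply Complex.ext <;> simp [Complex.measurableEquivRealProd]
        rw [e2, indicator_of_mem, hF, indicator_of_mem]
        · show 0 < ((x : ℂ) + y * I).re
          simpa using hx0
        · show ((x : ℂ) + y * I).re ∈ Ioo (s.re - δ) (s.re + δ)
          simpa using hx
      · rw [indicator_of_notMem hx]
        have e2 : ∀ y : ℝ, {z : ℂ | z.re ∈ Ioo (s.re - δ) (s.re + δ)}.indicator F
            (Complex.measurableEquivRealProd.symm (x, y)) = 0 := by
          intro y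
          refine indicator_of_notMem ?_ _
          intro hy
          apply hx
          simpa [Complex.measurableEquivRealProd] using hy
        simp only [e2, lintegral_zero, le_refl]
    refine (lintegral_mono e1).trans ?_
    rw [lintegral_indicator measurableSet_Ioo, setLIntegral_const, Real.volume_Ioo, ← ENNReal.ofReal_mul hM]
    apply ENNReal.ofReal_le_ofReal
    nlinarith
  have h4 := (h1.trans h2).trans h3
  rw [ENNReal.ofReal_le_ofReal_iff (by positivity), show (2 : ℝ) = ((2 : ℕ) : ℝ) by norm_num,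
    Real.rpow_natCast] at h4
  push_cast at h4
  apply Real.le_sqrt_of_sq_le
  rw [le_div_iff₀ (by positivity)]
  have h5 : ‖H s‖ ^ 2 * (Real.pi * δ) * δ ≤ 2 * M * δ := by nlinarith
  exact le_of_mul_le_mul_right h5 hδ

/-- from the half plane to the line -/
theorem of_hardy {k : ℝ → ℂ} {H : ℂ → ℂ} {a M : ℝ} (ha : 0 ≤ a) (hM : 0 ≤ M)
    (hk1 : ∀ x : ℝ, a < x → Integrable fun u : ℝ => k u * exp (-(x * u)))
    (hH : ∀ s : ℂ, a < s.re → H s = ∫ u : ℝ, k u * exp (-(s * u)))
    (hd : ∀ s : ℂ, 0 < s.re → DifferentiableAt ℂ H s)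
    (hL : ∀ x : ℝ, 0 < x → ∫⁻ t : ℝ, ‖H (x + t * I)‖ₑ ^ 2 ≤ ENNReal.ofReal M) :
    ∫⁻ u : ℝ, ‖k u‖ₑ ^ 2 ≤ ENNReal.ofReal ((2 * Real.pi)⁻¹ * M) := by
  have hk := hk1 (a + 1) (by linarith)
  set e : ℕ → ℝ := fun n => 1 / (n + 2) with he
  have he0 : ∀ n, 0 < e n := fun n => by simp only [he]; positivity
  have hlt : ∀ n, e n < 1 := fun n => by
    simp only [he]
    rw [div_lt_iff₀ (by positivity)]
    have : (0 : ℝ) ≤ n := n.cast_nonneg
    linarith
  have het : Tendsto e atTop (𝓝 0) := by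
    simp only [he]
    have h1 : Tendsto (fun n : ℕ => ((n : ℝ) + 2)) atTop atTop :=
      tendsto_atTop_add_const_right _ _ tendsto_natCast_atTop_atTop
    exact h1.const_div_atTop _
  have hstep : ∀ n, ∫⁻ u : ℝ, ‖k u * exp (-((e n : ℂ) * u))‖ₑ ^ 2 ≤
      ENNReal.ofReal ((2 * Real.pi)⁻¹ * M) := by
    intro n
    have h1 := hL (e n) (he0 n)
    obtain ⟨B, hB⟩ := bdd_of_hardy hd hM hL (he0 n)
    rw [strip_eq (he0 n) (by linarith [hlt n]) hk hH hd (fun s hs _ => hB s hs)
      (h1.trans_lt ENNReal.ofReal_lt_top), ENNReal.ofReal_mul (by positivity)]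
    gcongr
  have hkm : AEStronglyMeasurable k volume := by
    have h1 : k = fun u : ℝ => (k u * exp (-(((a + 1 : ℝ) : ℂ) * u))) *
        exp (((a + 1 : ℝ) : ℂ) * u) := by
      ext u
      rw [mul_assoc, ← exp_add]
      simp
    rw [h1]
    exact hk.aestronglyMeasurable.mul (Continuous.aestronglyMeasurable (by fun_prop))
  have hlim : ∀ u : ℝ, Tendsto (fun n => ‖k u * exp (-((e n : ℂ) * u))‖ₑ ^ 2) atTop
      (𝓝 (‖k u‖ₑ ^ 2)) := by
    intro u
    have h1 : Tendsto (fun n => k u * exp (-((e n : ℂ) * u))) atTop (𝓝 (k u)) := by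
      have h2 : Tendsto (fun n => (e n : ℂ)) atTop (𝓝 ((0 : ℝ) : ℂ)) :=
        (Complex.continuous_ofReal.tendsto 0).comp het
      have h3 : Continuous (fun z : ℂ => k u * exp (-(z * u))) := by fun_prop
      have h4 := (h3.tendsto ((0 : ℝ) : ℂ)).comp h2
      simpa [Function.comp_def] using h4
    exact ((ENNReal.continuous_pow 2).tendsto _).comp ((continuous_enorm.tendsto _).comp h1)
  calc ∫⁻ u : ℝ, ‖k u‖ₑ ^ 2
      = ∫⁻ u : ℝ, liminf (fun n => ‖k u * exp (-((e n : ℂ) * u))‖ₑ ^ 2) atTop :=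
        lintegral_congr fun u => (hlim u).liminf_eq.symm
    _ ≤ liminf (fun n => ∫⁻ u : ℝ, ‖k u * exp (-((e n : ℂ) * u))‖ₑ ^ 2) atTop := by
        refine lintegral_liminf_le' fun n => ?_
        exact ((hkm.mul (Continuous.aestronglyMeasurable (by fun_prop))).enorm).pow_const 2
    _ ≤ ENNReal.ofReal ((2 * Real.pi)⁻¹ * M) := by
        refine Filter.liminf_le_of_frequently_le' ?_
        exact Frequently.of_forall hstep

/-- from the line to the half plane -/
theorem to_hardy {k : ℝ → ℂ} (hkm : AEStronglyMeasurable k volume) (h0 : ∀ u : ℝ, u < 0 → k u = 0)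
    {C : ℝ} (hC : 0 ≤ C) (h : ∫⁻ u : ℝ, ‖k u‖ₑ ^ 2 ≤ ENNReal.ofReal C) :
    (∀ x : ℝ, 0 < x → Integrable fun u : ℝ => k u * exp (-(x * u))) ∧
    (∀ x : ℝ, 0 < x → ∫⁻ t : ℝ, ‖∫ u : ℝ, k u * exp (-(((x : ℂ) + t * I) * u))‖ₑ ^ 2 ≤
      ENNReal.ofReal (2 * Real.pi * C)) ∧
    ∀ s : ℂ, 0 < s.re → ‖∫ u : ℝ, k u * exp (-(s * u))‖ ^ 2 ≤ C / (2 * s.re) := by
  have hk2 : MemLp k 2 := by
    refine ⟨hkm, ?_⟩
    rw [enorm_sq]
    exact ENNReal.rpow_lt_top_of_nonneg (by norm_num) (h.trans_lt ENNReal.ofReal_lt_top).ne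
  -- the exponential
  have hE : ∀ x : ℝ, 0 < x → ∫⁻ u : ℝ, ‖(Ici (0 : ℝ)).indicator (fun u : ℝ => Real.exp (-(x * u))) u‖ₑ ^ 2 =
      ENNReal.ofReal (1 / (2 * x)) := by
    intro x hx
    have e1 : ∀ u : ℝ, ‖(Ici (0 : ℝ)).indicator (fun u : ℝ => Real.exp (-(x * u))) u‖ₑ ^ 2 =
        (Ici (0 : ℝ)).indicator (fun u : ℝ => ENNReal.ofReal (Real.exp (-(2 * x) * u))) u := by
      intro u
      by_cases hu : u ∈ Ici (0 : ℝ)
      · rw [indicator_of_mem hu, indicator_of_mem hu, Real.enorm_eq_ofReal (Real.exp_pos _).le,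
          ← ENNReal.ofReal_pow (Real.exp_pos _).le, ← Real.exp_nat_mul]
        congr 2
        push_cast
        ring
      · rw [indicator_of_notMem hu, indicator_of_notMem hu]
        simp
    simp only [e1]
    rw [lintegral_indicator measurableSet_Ici, ← ofReal_integral_eq_lintegral_ofReal]
    · congr 1
      rw [integral_Ici_eq_integral_Ioi, integral_exp_mul_Ioi (by linarith) 0]
      simp
    · rw [← IntegrableOn, integrableOn_Ici_iff_integrableOn_Ioi]
      exact integrableOn_exp_mul_Ioi (by linarith) 0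
    · exact Eventually.of_forall fun u => (Real.exp_pos _).le
  have hEm : ∀ x : ℝ, 0 < x →
      MemLp ((Ici (0 : ℝ)).indicator (fun u : ℝ => (Real.exp (-(x * u)) : ℝ))) 2 := by
    intro x hx
    refine ⟨((Measurable.indicator (by fun_prop) measurableSet_Ici)).aestronglyMeasurable, ?_⟩
    rw [eLpNorm_eq_lintegral_rpow_enorm_toReal (by norm_num) (by norm_num)]
    have e2 := hE x hx
    simp only [ENNReal.toReal_ofNat, ENNReal.rpow_ofNat]
    rw [e2]
    exact ENNReal.rpow_lt_top_of_nonneg (by norm_num) ENNReal.ofReal_ne_top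
  have hnorm : ∀ (s : ℂ) (u : ℝ), ‖k u * exp (-(s * u))‖ =
      ‖k u‖ * (Ici (0 : ℝ)).indicator (fun u : ℝ => Real.exp (-(s.re * u))) u := by
    intro s u
    rcases lt_or_ge u 0 with hu | hu
    · rw [h0 u hu]
      simp
    · rw [indicator_of_mem (show u ∈ Ici (0 : ℝ) from hu), norm_mul, Complex.norm_exp]
      congr 2
      simp
  have hint : ∀ s : ℂ, 0 < s.re → Integrable fun u : ℝ => k u * exp (-(s * u)) := by
    intro s hs
    have h1 : Integrable fun u : ℝ =>
        ‖k u‖ * (Ici (0 : ℝ)).indicator (fun u : ℝ => Real.exp (-(s.re * u))) u :=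
      MemLp.integrable_mul hk2.norm (hEm s.re hs)
    refine h1.mono' (hkm.mul (Continuous.aestronglyMeasurable (by fun_prop))) ?_
    exact Eventually.of_forall fun u => (hnorm s u).le
  refine ⟨fun x hx => hint x (by simpa using hx), fun x hx => ?_, fun s hs => ?_⟩
  · set g : ℝ → ℂ := fun u => k u * exp (-((x : ℂ) * u)) with hg
    have hg1 : Integrable g := hint x (by simpa using hx)
    have hgle : ∀ u : ℝ, ‖g u‖ ≤ ‖k u‖ := by
      intro u
      rw [hg]
      simp only
      rw [hnorm]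
      rcases lt_or_ge u 0 with hu | hu
      · rw [h0 u hu]
        simp
      · rw [indicator_of_mem (show u ∈ Ici (0 : ℝ) from hu)]
        refine mul_le_of_le_one_right (norm_nonneg _) (Real.exp_le_one_iff.2 ?_)
        rw [Complex.ofReal_re]
        nlinarith
    have hg2 : MemLp g 2 := hk2.mono hg1.aestronglyMeasurable (Eventually.of_forall hgle)
    have h1 := Pool.Agent.Helper76.NormalHP.plancherel_lintegral g hg1 hg2
    set F : ℝ → ℂ := fun t => ∫ u : ℝ, k u * exp (-(((x : ℂ) + t * I) * u)) with hF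
    have hFξ : ∀ ξ : ℝ, 𝓕 g ξ = F (2 * Real.pi * ξ) := by
      intro ξ
      rw [hg, fourier_eq, hF]
      simp only
      congr 1
      funext u
      push_cast
      rfl
    have hFc : Continuous F := by
      have h3 : Continuous (𝓕 g) := VectorFourier.fourierIntegral_continuous Real.continuous_fourierChar
        (innerSL ℝ).continuous₂ hg1
      have h4 : F = fun t => 𝓕 g ((2 * Real.pi)⁻¹ * t) := by
        funext t
        rw [hFξ]
        congr 1
        field_simp
      rw [h4]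
      exact h3.comp (by fun_prop)
    have h2 : ∫⁻ ξ, ‖𝓕 g ξ‖ₑ ^ 2 = ENNReal.ofReal (2 * Real.pi)⁻¹ * ∫⁻ t, ‖F t‖ₑ ^ 2 := by
      have h3 : ∫⁻ ξ, ‖𝓕 g ξ‖ₑ ^ 2 = ∫⁻ t, ‖F t‖ₑ ^ 2
          ∂(Measure.map (fun ξ : ℝ => 2 * Real.pi * ξ) volume) := by
        rw [lintegral_map (hFc.enorm.measurable.pow_const 2) (by fun_prop)]
        refine lintegral_congr fun ξ => ?_
        rw [hFξ ξ]
      rw [h3, Real.map_volume_mul_left (by positivity), lintegral_smul_measure, smul_eq_mul,
        abs_of_pos (by positivity)]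
    have h3 : ENNReal.ofReal (2 * Real.pi) * (ENNReal.ofReal (2 * Real.pi)⁻¹ * ∫⁻ t, ‖F t‖ₑ ^ 2) =
        ∫⁻ t, ‖F t‖ₑ ^ 2 := by
      rw [← mul_assoc, ← ENNReal.ofReal_mul (by positivity), mul_inv_cancel₀ (by positivity),
        ENNReal.ofReal_one, one_mul]
    rw [← h3, ← h2, h1, ENNReal.ofReal_mul (p := 2 * Real.pi) (by positivity)]
    refine mul_le_mul_right (le_trans (lintegral_mono fun u => ?_) h) _
    have h5 : ‖g u‖ₑ ≤ ‖k u‖ₑ := by
      rw [← ofReal_norm, ← ofReal_norm]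
      exact ENNReal.ofReal_le_ofReal (hgle u)
    exact pow_le_pow_left' h5 2
  · have h1 : ‖∫ u : ℝ, k u * exp (-(s * u))‖ₑ ≤ ENNReal.ofReal C ^ (1 / 2 : ℝ) *
        ENNReal.ofReal (1 / (2 * s.re)) ^ (1 / 2 : ℝ) := by
      refine (enorm_integral_le_lintegral_enorm _).trans ?_
      have e1 : ∀ u : ℝ, ‖k u * exp (-(s * u))‖ₑ = ‖k u‖ₑ *
          ‖(Ici (0 : ℝ)).indicator (fun u : ℝ => Real.exp (-(s.re * u))) u‖ₑ := by
        intro u
        rw [← ofReal_norm, hnorm, ENNReal.ofReal_mul (norm_nonneg _), ofReal_norm,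
          Real.enorm_eq_ofReal (indicator_nonneg (fun u _ => (Real.exp_pos _).le) u)]
      simp only [e1]
      have h2 := ENNReal.lintegral_mul_le_Lp_mul_Lq volume (Real.HolderConjugate.two_two)
        (f := fun u => ‖k u‖ₑ)
        (g := fun u => ‖(Ici (0 : ℝ)).indicator (fun u : ℝ => Real.exp (-(s.re * u))) u‖ₑ)
        hkm.enorm (hEm s.re hs).1.enorm
      refine (h2.trans ?_)
      simp only [ENNReal.rpow_ofNat]
      rw [hE s.re hs]
      gcongr
    rw [← ENNReal.mul_rpow_of_nonneg _ _ (by norm_num), ← ENNReal.ofReal_mul hC,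
      ENNReal.ofReal_rpow_of_nonneg (by positivity) (by norm_num), ← ofReal_norm,
      ENNReal.ofReal_le_ofReal_iff (by positivity)] at h1
    rw [← Real.sqrt_eq_rpow] at h1
    have h2 := pow_le_pow_left₀ (norm_nonneg _) h1 2
    rw [Real.sq_sqrt (by positivity)] at h2
    refine h2.trans (le_of_eq ?_)
    field_simp

end Pool.Agent.V11288.HS
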