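import Pool.Agent.V11288.HS.Pole

/-!
# Euler products with a pole: the criterion and the formula
-/

set_option autoImplicit false

open MeasureTheory Filter Topology Set Complex
open scoped ENNReal ComplexConjugate
open Pool.Agent.TH942.LS (Dat)
open Pool.Agent.TH942.SL
open Pool.Agent.TH942.ES
open Pool.Agent.TH270.MS

namespace Pool.Agent.V11288.HS

section gen

variable {lam c : ℕ → ℝ} {δ σ : ℝ}

/-- the deviation with the term of the pole -/
noncomputable def fP (lam c : ℕ → ℝ) (m : ℕ) (w : ℂ) (r q : ℝ) (u : ℝ) : ℝ :=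
  Df lam c r q u - (Ioi (0 : ℝ)).indicator (fun u => m * eM w u) u

lemma fP_zero (m : ℕ) (w : ℂ) (r q : ℝ) {u : ℝ} (hu : u ≤ 0) : fP lam c m w r q u = 0 := by
  unfold fP
  rw [df_zero r q hu, indicator_of_notMem (by simpa using hu), sub_zero]

lemma fP_meas (D : Dat lam c δ σ) (m : ℕ) (w : ℂ) (r q : ℝ) : Measurable (fP lam c m w r q) :=
  (df_meas D r q).sub (((eM_cont w).measurable.const_mul _).indicator measurableSet_Ioi)

lemma eM_int {w s : ℂ} (hs : ‖w‖ < s.re) (m : ℕ) :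
    Integrable fun u : ℝ => (((Ioi (0 : ℝ)).indicator (fun u => m * eM w u) u : ℝ) : ℂ) *
      exp (-(s * u)) := by
  have h1 := (Pool.Agent.W263.BSD.LInt.complex (eM_cont w).measurable (eM_LInt hs)).const_mul (m : ℂ)
  have h2 := (integrable_indicator_iff measurableSet_Ioi).2 h1
  refine h2.congr (Eventually.of_forall fun u => ?_)
  by_cases hu : u ∈ Ioi (0 : ℝ)
  · simp only
    rw [indicator_of_mem hu, indicator_of_mem hu]
    push_cast
    ring
  · simp only
    rw [indicator_of_notMem hu, indicator_of_notMem hu]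
    simp

lemma fP_int (D : Dat lam c δ σ) (m : ℕ) {w : ℂ} (r q : ℝ) {s : ℂ} (hs : σ < s.re)
    (hw : ‖w‖ < s.re) : Integrable fun u : ℝ => (fP lam c m w r q u : ℂ) * exp (-(s * u)) := by
  refine ((df_int D r q hs).sub (eM_int hw m)).congr (Eventually.of_forall fun u => ?_)
  simp only [Pi.sub_apply]
  unfold fP
  push_cast
  ring

lemma fP_lap (D : Dat lam c δ σ) (m : ℕ) {w : ℂ} (r q : ℝ) {s : ℂ} (hs : σ < s.re)
    (hw : ‖w‖ < s.re) : LT (fP lam c m w r q) s =
      (DD lam c s + m * (log (1 - w / s) + log (1 - conj w / s)) - r * log s - q) / s := by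
  have h1 : LT (fP lam c m w r q) s = (∫ u : ℝ, (Df lam c r q u : ℂ) * exp (-(s * u))) -
      ∫ u : ℝ, (((Ioi (0 : ℝ)).indicator (fun u => m * eM w u) u : ℝ) : ℂ) * exp (-(s * u)) := by
    rw [← integral_sub (df_int D r q hs) (eM_int hw m)]
    unfold LT
    refine integral_congr_ae (Eventually.of_forall fun u => ?_)
    simp only
    unfold fP
    push_cast
    ring
  have h2 : ∫ u : ℝ, (((Ioi (0 : ℝ)).indicator (fun u => m * eM w u) u : ℝ) : ℂ) * exp (-(s * u)) =
      m * Pool.Agent.W263.BSD.lapC (eM w) s := by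
    unfold Pool.Agent.W263.BSD.lapC
    rw [← integral_const_mul, ← integral_indicator measurableSet_Ioi]
    refine integral_congr_ae (Eventually.of_forall fun u => ?_)
    simp only
    by_cases hu : u ∈ Ioi (0 : ℝ)
    · rw [indicator_of_mem hu, indicator_of_mem hu]
      push_cast
      ring
    · rw [indicator_of_notMem hu, indicator_of_notMem hu]
      simp
  rw [h1, h2, df_lap D r q hs, eM_lapC hw]
  ring

lemma el_fP (D : Dat lam c δ σ) (m : ℕ) {w : ℂ} (r q : ℝ) {s : ℂ} (hs : σ < s.re)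
    (hw : ‖w‖ < s.re) : el (fP lam c m w r q) r q s =
      DD lam c s + m * (log (1 - w / s) + log (1 - conj w / s)) := by
  have h0 : s ≠ 0 := Gn.ne s (D.σ0.trans hs)
  unfold el
  rw [fP_lap D m r q hs hw]
  field_simp
  ring

lemma DD_le (D : Dat lam c δ σ) {s : ℂ} (hs : σ ≤ s.re) :
    ‖DD lam c s‖ ≤ ∑' n, |c n| * Real.exp (-(σ * lam n)) := by
  unfold DD
  refine tsum_of_norm_bounded D.sum.hasSum fun n => ?_
  rw [norm_mul, Complex.norm_real, Real.norm_eq_abs, norm_exp_neg]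
  apply mul_le_mul_of_nonneg_left _ (abs_nonneg _)
  apply Real.exp_le_exp.2
  have h1 : 0 < lam n := D.δ0.trans_le (D.lam_ge n)
  have := mul_le_mul_of_nonneg_right hs h1.le
  linarith

lemma log_one_sub_le {v s : ℂ} (hv : 2 * ‖v‖ ≤ s.re) (hs : 0 < s.re) : ‖log (1 - v / s)‖ ≤ 1 := by
  have hn : 0 < ‖s‖ := hs.trans_le (Complex.re_le_norm s)
  have h1 : ‖v / s‖ ≤ 1 / 2 := by
    rw [norm_div, div_le_iff₀ hn]
    have := Complex.re_le_norm s
    linarith
  have h2 := Complex.norm_log_one_add_half_le_self (z := -(v / s)) (by rwa [norm_neg])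
  rw [norm_neg] at h2
  rw [sub_eq_add_neg]
  linarith

end gen

variable {X : Type} {d : ℕ} {N : X → ℕ} {α : X → Fin d → ℂ}

/-- an Euler product continued across the central line, up to a pole of order `m` at `b`,
with polynomial growth: `L₁(s) = (s - b)^m L(s)` -/
structure Pp (N : X → ℕ) (α : X → Fin d → ℂ) (b : ℂ) (m : ℕ) (L₁ : ℂ → ℂ) (κ : ℕ) (η C : ℝ) :
    Prop extends Pe N α where
  hη : 0 < η
  hG : ∀ s : ℂ, -η < s.re → DifferentiableAt ℂ L₁ s
  hgrow : ∀ s : ℂ, -η < s.re → ‖L₁ s‖ ≤ C * (1 + ‖s‖) ^ κ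
  hL : ∀ s : ℂ, 1 / 2 < s.re → L₁ s = (s - b) ^ m * LE N α s

/-- `∫_1^∞ (log |P_τ(Y)| - m Re Ein((b - iτ) log Y) + (ρ - m) (γ + log log Y) - q)² dY/Y` -/
noncomputable def Mp (N : X → ℕ) (α : X → Fin d → ℂ) (m : ℕ) (b : ℂ) (τ ρ q : ℝ) : ℝ≥0∞ :=
  ∫⁻ Y in Ioi (1 : ℝ), ENNReal.ofReal ((Pa N α τ Y - m * (Ein ((b - τ * I) * Real.log Y)).re +
    (ρ - m) * (Real.eulerMascheroniConstant + Real.log (Real.log Y)) - q) ^ 2 / Y)

namespace Pp

variable {b : ℂ} {m : ℕ} {L₁ : ℂ → ℂ} {κ : ℕ} {η C : ℝ} (P : Pp N α b m L₁ κ η C)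
include P

theorem far_ne : ∃ z : ℂ, 0 < z.re ∧ L₁ z ≠ 0 := by
  refine ⟨((‖b‖ + 2 : ℝ) : ℂ), by rw [Complex.ofReal_re]; positivity, ?_⟩
  have h1 : 1 / 2 < (((‖b‖ + 2 : ℝ) : ℂ)).re := by
    rw [Complex.ofReal_re]
    linarith [norm_nonneg b]
  rw [P.hL _ h1, show Pool.Agent.TH942.ES.LE N α _ = _ from (P.toPe.hasProd h1).tprod_eq]
  refine mul_ne_zero (pow_ne_zero _ ?_) (Complex.exp_ne_zero _)
  intro h
  have h2 : ((‖b‖ + 2 : ℝ) : ℂ) = b := by linear_combination h
  have h3 := congrArg norm h2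
  rw [Complex.norm_real, Real.norm_of_nonneg (by positivity)] at h3
  linarith

/-- the local form on the central line -/
theorem local_form (τ : ℝ) : ∃ (p : ℕ) (g : ℂ → ℂ), AnalyticAt ℂ g 0 ∧ g 0 ≠ 0 ∧
    ∀ᶠ s in 𝓝 (0 : ℂ), L₁ (s + τ * I) = s ^ p * g s := by
  have hη := P.hη
  have hU : IsOpen {s : ℂ | -η < s.re} := isOpen_lt continuous_const Complex.continuous_re
  have hUc : Convex ℝ {s : ℂ | -η < s.re} := convex_halfSpace_re_gt _
  have a1 : AnalyticOnNhd ℂ L₁ {s : ℂ | -η < s.re} :=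
    DifferentiableOn.analyticOnNhd (fun z hz => (P.hG z hz).differentiableWithinAt) hU
  have hm : (τ : ℂ) * I ∈ {s : ℂ | -η < s.re} := by
    show -η < ((τ : ℂ) * I).re
    simpa using hη
  obtain ⟨z, hz, hLz⟩ := P.far_ne
  have h1m : z ∈ {s : ℂ | -η < s.re} := by
    show -η < z.re
    linarith
  have h1 : analyticOrderAt L₁ z ≠ ⊤ := by
    rw [(a1 _ h1m).analyticOrderAt_eq_zero.2 hLz]
    exact ENat.zero_ne_top
  have h2 := a1.analyticOrderAt_ne_top_of_isPreconnected hUc.isPreconnected h1m hm h1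
  obtain ⟨g, hg, hg0, hloc⟩ := (a1 _ hm).analyticOrderAt_ne_top.1 h2
  refine ⟨analyticOrderNatAt L₁ (τ * I), fun s => g (s + τ * I), ?_, ?_, ?_⟩
  · have h3 : AnalyticAt ℂ g (0 + τ * I) := by
      rw [zero_add]
      exact hg
    exact AnalyticAt.comp (f := fun s : ℂ => s + τ * I) h3 (analyticAt_id.add analyticAt_const)
  · simpa using hg0
  · have h3 : Tendsto (fun s : ℂ => s + τ * I) (𝓝 0) (𝓝 (τ * I)) := by
      have : Continuous fun s : ℂ => s + τ * I := by fun_prop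
      have h4 := this.tendsto 0
      rwa [zero_add] at h4
    filter_upwards [h3.eventually hloc] with s hs
    rw [hs, smul_eq_mul, add_sub_cancel_right]

theorem gn (τ r q : ℝ) {e : X × ℕ → ℕ} (he : Function.Injective e) : ∃ a B : ℝ,
    Gn (fP (lamS N e) (cS N (dbl N α τ) e) m (b - τ * I) r q) (L2 L₁ τ) r q (2 * m) (κ + κ) a η
      (C * (1 + |τ|) ^ κ * (C * (1 + |τ|) ^ κ)) B := by
  set w : ℂ := b - τ * I with hw
  have E := P.toPe.sys_dbl τ
  have D := E.datS he (σ := 1) (by norm_num)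
  have hreal : ∀ v k, (∑ i, zv N (dbl N α τ) v i ^ k).im = 0 := by
    intro v k
    rw [dbl_trace, Complex.ofReal_im]
  set S₀ : ℝ := ∑' n, |cS N (dbl N α τ) e n| * Real.exp (-(1 * lamS N e n)) with hS₀
  have hS0 : 0 ≤ S₀ := tsum_nonneg fun n => by positivity
  have hw0 := norm_nonneg w
  have hfar : ∀ s : ℂ, 2 * (1 + ‖w‖) < s.re → 1 < s.re ∧ ‖w‖ < s.re := fun s hs =>
    ⟨by linarith, by linarith⟩
  refine ⟨2 * (1 + ‖w‖), S₀ + 2 * m, ⟨fP_meas D m w r q, fun u hu => fP_zero m w r q hu, by linarith,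
    fun x hx => ?_, P.hη, by positivity, fun s hs => ?_, fun s hs => ?_, fun s hs => ?_,
    fun s hs => ?_⟩⟩
  · exact fP_int D m r q (by rw [Complex.ofReal_re]; linarith) (by rw [Complex.ofReal_re]; linarith)
  · unfold L2
    have h1 : DifferentiableAt ℂ (fun s => L₁ (s + τ * I)) s := by
      refine DifferentiableAt.comp s (P.hG _ (by rw [Pc.re_lt]; exact hs)) ?_
      fun_prop
    have h2 : DifferentiableAt ℂ (fun s => L₁ (s + τ * I)) (conj s) := by
      refine DifferentiableAt.comp _ (P.hG _ (by rw [Pc.re_lt, Complex.conj_re]; exact hs)) ?_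
      fun_prop
    have h3 := h2.conj_conj
    rw [Complex.conj_conj] at h3
    exact h1.mul h3
  · unfold L2
    rw [norm_mul, Complex.norm_conj]
    have key : ∀ z : ℂ, -η < z.re → ‖L₁ (z + τ * I)‖ ≤ C * (1 + |τ|) ^ κ * (1 + ‖z‖) ^ κ := by
      intro z hz
      have h1 := P.hgrow (z + τ * I) (by rw [Pc.re_lt]; exact hz)
      have hC : 0 ≤ C := by
        have h2 := (norm_nonneg _).trans h1
        have h3 : 0 < (1 + ‖z + τ * I‖) ^ κ := by positivity
        exact nonneg_of_mul_nonneg_left h2 h3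
      refine h1.trans ?_
      rw [mul_assoc, ← mul_pow]
      have h4 : ‖z + τ * I‖ ≤ ‖z‖ + |τ| := by
        refine (norm_add_le _ _).trans ?_
        rw [norm_mul, Complex.norm_I, mul_one, Complex.norm_real, Real.norm_eq_abs]
      have h5 : 1 + ‖z + τ * I‖ ≤ (1 + |τ|) * (1 + ‖z‖) := by
        have : 0 ≤ |τ| * ‖z‖ := by positivity
        nlinarith
      gcongr
    have h1 := key s hs
    have h2 := key (conj s) (by rw [Complex.conj_re]; exact hs)
    rw [Complex.norm_conj] at h2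
    calc ‖L₁ (s + τ * I)‖ * ‖L₁ (conj s + τ * I)‖ ≤
          (C * (1 + |τ|) ^ κ * (1 + ‖s‖) ^ κ) * (C * (1 + |τ|) ^ κ * (1 + ‖s‖) ^ κ) :=
          mul_le_mul h1 h2 (norm_nonneg _) ((norm_nonneg _).trans h1)
      _ = _ := by rw [pow_add]; ring
  · obtain ⟨h1, h2⟩ := hfar s hs
    have hs0 : s ≠ 0 := Gn.ne s (by linarith)
    have hhalf : 1 / 2 < s.re := by linarith
    rw [el_fP D m r q h1 h2, Complex.exp_add, E.exp_DD hreal he hhalf, P.toPe.LE_dbl τ hhalf]
    have hne : ∀ v : ℂ, ‖v‖ = ‖w‖ → 1 - v / s ≠ 0 := by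
      intro v hv h
      have h3 : v = s := by
        have h4 : v / s = 1 := by linear_combination -h
        rwa [div_eq_one_iff_eq hs0] at h4
      have h5 := Complex.re_le_norm s
      rw [← h3, hv, h3] at h5
      linarith
    have e1 : exp ((m : ℂ) * (log (1 - w / s) + log (1 - conj w / s))) =
        (1 - w / s) ^ m * (1 - conj w / s) ^ m := by
      rw [mul_add, Complex.exp_add, Complex.exp_nat_mul, Complex.exp_nat_mul,
        Complex.exp_log (hne w rfl), Complex.exp_log (hne _ (Complex.norm_conj w))]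
    rw [e1]
    unfold L2
    rw [P.hL _ (by rw [Pc.re_lt]; exact hhalf), P.hL _ (by rw [Pc.re_lt, Complex.conj_re]; exact hhalf),
      map_mul, map_pow]
    have e2 : conj (conj s + τ * I - b) = s - conj w := by
      rw [hw]
      simp only [map_sub, map_add, Complex.conj_conj, map_mul, Complex.conj_ofReal, Complex.conj_I]
      ring
    have e3 : s + τ * I - b = s - w := by rw [hw]; ring
    rw [e2, e3]
    have e4 : s - w = s * (1 - w / s) := by field_simp
    have e5 : s - conj w = s * (1 - conj w / s) := by field_simp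
    rw [e4, e5, mul_pow, mul_pow]
    ring
  · obtain ⟨h1, h2⟩ := hfar s hs
    rw [el_fP D m r q h1 h2]
    have hs0 : 0 < s.re := by linarith
    have l0 : 0 ≤ Real.log (1 + ‖s‖) := Real.log_nonneg (by linarith [norm_nonneg s])
    have h3 := log_one_sub_le (v := w) (by linarith : 2 * ‖w‖ ≤ s.re) hs0
    have h4 := log_one_sub_le (v := conj w) (by rw [Complex.norm_conj]; linarith :
      2 * ‖conj w‖ ≤ s.re) hs0
    have h5 := DD_le D h1.le
    have h6 : ‖DD (lamS N e) (cS N (dbl N α τ) e) s + m * (log (1 - w / s) + log (1 - conj w / s))‖ ≤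
        S₀ + m * (1 + 1) := by
      refine (norm_add_le _ _).trans ?_
      rw [norm_mul, Complex.norm_natCast]
      gcongr
      exact (norm_add_le _ _).trans (add_le_add h3 h4)
    refine h6.trans ?_
    have h7 : 0 ≤ (S₀ + 2 * m) * Real.log (1 + ‖s‖) := by positivity
    linarith

/-- the mean square over `Y` -/
theorem ms_eq (τ ρ q : ℝ) {e : X × ℕ → ℕ} (he : Function.Injective e) :
    ∫⁻ u : ℝ, ENNReal.ofReal (fP (lamS N e) (cS N (dbl N α τ) e) m (b - τ * I) (2 * (ρ - m))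
      (2 * q) u ^ 2) = 4 * Mp N α m b τ ρ q := by
  have E := P.toPe.sys_dbl τ
  set f := fP (lamS N e) (cS N (dbl N α τ) e) m (b - τ * I) (2 * (ρ - m)) (2 * q) with hf
  have hfull : ∫⁻ u : ℝ, ENNReal.ofReal (f u ^ 2) = ∫⁻ u in Ioi (0 : ℝ), ENNReal.ofReal (f u ^ 2) := by
    rw [← lintegral_indicator measurableSet_Ioi]
    refine lintegral_congr fun u => ?_
    rcases lt_or_ge 0 u with hu | hu
    · rw [indicator_of_mem (show u ∈ Ioi (0 : ℝ) from hu)]
    · rw [indicator_of_notMem (show u ∉ Ioi (0 : ℝ) from not_lt.2 hu), hf, fP_zero _ _ _ _ hu]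
      simp
  rw [hfull, ← cov_lin (fun u => f u ^ 2)]
  unfold Mp
  rw [← lintegral_const_mul' _ _ (by norm_num)]
  refine setLIntegral_congr_fun measurableSet_Ioi fun Y hY => ?_
  have hY1 : (1 : ℝ) < Y := hY
  have h0 : 0 < Y := by linarith
  have hm : Real.log Y ∈ Ioi (0 : ℝ) := Real.log_pos hY1
  have e1 : f (Real.log Y) = 2 * (Pa N α τ Y - m * (Ein ((b - τ * I) * Real.log Y)).re +
      (ρ - m) * (Real.eulerMascheroniConstant + Real.log (Real.log Y)) - q) := by
    rw [hf]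
    unfold fP Df gl eM
    rw [indicator_of_mem hm, indicator_of_mem hm, sh_pl E he, Real.exp_log h0, pl_dbl]
    ring
  rw [e1, show (4 : ℝ≥0∞) = ENNReal.ofReal 4 by norm_num, ← ENNReal.ofReal_mul (by norm_num)]
  congr 1
  ring

/-- **The mean square criterion** -/
theorem abs_iff (τ ρ : ℝ) {A : ℝ} (hA : 0 < A) :
    Lead L₁ τ ρ A ↔ Mp N α m b τ ρ (Real.log A) < ⊤ := by
  have := P.cnt
  obtain ⟨e, he⟩ := Countable.exists_injective_nat (X × ℕ)
  obtain ⟨a, B, E⟩ := P.gn τ (2 * (ρ - m)) (2 * Real.log A) he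
  have hms := P.ms_eq τ ρ (Real.log A) he
  rw [← mul_four_lt, ← hms]
  obtain ⟨p, g, hg, hg0, hloc⟩ := P.local_form τ
  have hB : 0 < ‖g 0‖ := norm_pos_iff.2 hg0
  -- the local form of the doubled function
  have hcj0 : Tendsto (fun s : ℂ => conj s) (𝓝 0) (𝓝 0) := by
    have := Complex.continuous_conj.tendsto 0
    rwa [map_zero] at this
  have hgc : AnalyticAt ℂ (fun s => conj (g (conj s))) 0 := by
    rw [Complex.analyticAt_iff_eventually_differentiableAt]
    have h1 : ∀ᶠ s in 𝓝 (0 : ℂ), DifferentiableAt ℂ g s :=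
      Complex.analyticAt_iff_eventually_differentiableAt.1 hg
    filter_upwards [hcj0.eventually h1] with s hs
    have h3 := hs.conj_conj
    rw [Complex.conj_conj] at h3
    exact h3
  have hG2 : AnalyticAt ℂ (fun s => g s * conj (g (conj s))) 0 := hg.mul hgc
  have hG20 : (fun s => g s * conj (g (conj s))) 0 = ((‖g 0‖ ^ 2 : ℝ) : ℂ) := by
    simp only
    rw [map_zero, Complex.mul_conj, Complex.normSq_eq_norm_sq]
  have hG20' : g 0 * conj (g (conj 0)) = ((‖g 0‖ ^ 2 : ℝ) : ℂ) := hG20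
  have hnear : ∀ᶠ s in 𝓝 (0 : ℂ), L2 L₁ τ s = s ^ (2 * p) * (g s * conj (g (conj s))) := by
    filter_upwards [hloc, hcj0.eventually hloc] with s hs hs'
    unfold L2
    rw [hs, hs', map_mul, map_pow, Complex.conj_conj]
    ring
  have hn : Tendsto (fun s : ℂ => g s) (𝓝[≠] 0) (𝓝 (g 0)) :=
    hg.continuousAt.tendsto.mono_left nhdsWithin_le_nhds
  have l1 : Tendsto (fun s : ℂ => ‖L₁ (s + τ * I)‖ / ‖s‖ ^ p) (𝓝[≠] 0) (𝓝 ‖g 0‖) := by
    refine hn.norm.congr' ?_
    filter_upwards [hloc.filter_mono nhdsWithin_le_nhds, self_mem_nhdsWithin] with s hs hs0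
    have : 0 < ‖s‖ := norm_pos_iff.2 hs0
    rw [hs, norm_mul, norm_pow]
    field_simp
  constructor
  · rintro ⟨hne, n, hn, h⟩
    obtain ⟨e1, e2⟩ := lead_unique hA hB l1 h
    have hexp : (((‖g 0‖ ^ 2 : ℝ)) : ℂ) = exp ((2 * Real.log A : ℝ) : ℂ) := by
      rw [← Complex.ofReal_exp, e2, show (2 : ℝ) * Real.log ‖g 0‖ = Real.log (‖g 0‖ ^ 2) by
        rw [Real.log_pow]; norm_num, Real.exp_log (by positivity)]
    refine E.fwd ((Pc.zero_iff τ).2 hne) (p := 2 * p) hG2 (hG20.trans hexp) hnear ?_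
    rw [hn, e1]
    push_cast
    ring
  · intro hfin
    obtain ⟨h1, h2⟩ := E.conv hfin
    obtain ⟨h3, h4⟩ := h2 (2 * p) (fun s => g s * conj (g (conj s))) hG2.continuousAt
      (by
        show g 0 * conj (g (conj 0)) ≠ 0
        rw [hG20']
        exact_mod_cast (by positivity : (‖g 0‖ ^ 2 : ℝ) ≠ 0)) hnear
    have h5 : ρ = p := by
      push_cast at h3
      linarith
    have h6 : A = ‖g 0‖ := by
      replace h4 : ‖g 0 * conj (g (conj 0))‖ = Real.exp (2 * Real.log A) := h4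
      rw [hG20', Complex.norm_real, Real.norm_of_nonneg (by positivity),
        show (2 : ℝ) * Real.log A = Real.log (A ^ 2) by rw [Real.log_pow]; norm_num,
        Real.exp_log (by positivity)] at h4
      exact ((sq_eq_sq₀ hB.le hA.le).1 h4).symm
    refine ⟨(Pc.zero_iff τ).1 h1, p, h5, ?_⟩
    rw [h6]
    exact l1

/-- **The formula on the line** -/
theorem abs_line (τ ρ q : ℝ) (h : Mp N α m b τ ρ q < ⊤) :
    Mp N α m b τ ρ q = ENNReal.ofReal (4 * Real.pi)⁻¹ * ∫⁻ t : ℝ, ENNReal.ofReal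
      ((Real.log ‖L₁ (((τ + t : ℝ) : ℂ) * I)‖ + Real.log ‖L₁ (((τ - t : ℝ) : ℂ) * I)‖ -
        2 * ρ * Real.log |t| - 2 * q) ^ 2 / t ^ 2) := by
  have := P.cnt
  obtain ⟨e, he⟩ := Countable.exists_injective_nat (X × ℕ)
  obtain ⟨a, B, E⟩ := P.gn τ (2 * (ρ - m)) (2 * q) he
  have hms := P.ms_eq τ ρ q he
  have hfin : ∫⁻ u : ℝ, ENNReal.ofReal (fP (lamS N e) (cS N (dbl N α τ) e) m (b - τ * I)
      (2 * (ρ - m)) (2 * q) u ^ 2) < ⊤ := by
    rw [hms, mul_four_lt]
    exact h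
  have h2 := E.line hfin
  rw [hms] at h2
  have h3 : Mp N α m b τ ρ q = ENNReal.ofReal (4⁻¹) * (4 * Mp N α m b τ ρ q) := by
    rw [← mul_assoc, show (4 : ℝ≥0∞) = ENNReal.ofReal 4 by norm_num,
      ← ENNReal.ofReal_mul (by norm_num)]
    norm_num
  rw [h3, h2, ← mul_assoc, ← ENNReal.ofReal_mul (by norm_num), ← mul_inv]
  congr 1
  obtain ⟨z, hz, hLz⟩ := P.far_ne
  have hne : ∀ᵐ t : ℝ, L₁ (((τ + t : ℝ) : ℂ) * I) ≠ 0 := by
    have h4 := ae_ne P.hη P.hG (z := z) (by linarith [P.hη]) hLz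
    exact (measurePreserving_add_left volume τ).quasiMeasurePreserving.ae h4
  have hne' : ∀ᵐ t : ℝ, L₁ (((τ - t : ℝ) : ℂ) * I) ≠ 0 := by
    have h4 := ae_ne P.hη P.hG (z := z) (by linarith [P.hη]) hLz
    exact (Measure.measurePreserving_sub_left volume τ).quasiMeasurePreserving.ae h4
  refine lintegral_congr_ae ?_
  filter_upwards [hne, hne'] with t ht ht'
  have e1 : (t : ℂ) * I + τ * I = ((τ + t : ℝ) : ℂ) * I := by
    push_cast
    ring
  have e2 : conj ((t : ℂ) * I) + τ * I = ((τ - t : ℝ) : ℂ) * I := by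
    rw [map_mul, Complex.conj_ofReal, Complex.conj_I]
    push_cast
    ring
  have e3 : Real.log ‖HS.L2 L₁ τ (t * I)‖ = Real.log ‖L₁ (((τ + t : ℝ) : ℂ) * I)‖ +
      Real.log ‖L₁ (((τ - t : ℝ) : ℂ) * I)‖ := by
    unfold HS.L2
    rw [e1, e2, norm_mul, Complex.norm_conj, Real.log_mul (norm_ne_zero_iff.2 ht)
      (norm_ne_zero_iff.2 ht')]
  rw [e3]
  congr 3
  push_cast
  ring

end Pp

end Pool.Agent.V11288.HS
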