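import Pool.Agent.V11288.HS.Pole2
import Pool.Agent.V11288.HS.Art
import Pool.Agent.Helper240.ZU.A1

/-!
# Euler products with a pole: products, shifts, and the zeta function

`zeta_bd` and `zeta_entire` are copies of statements of `Pool.Agent.H448R2.GC.X2`.
-/

set_option autoImplicit false

open MeasureTheory Filter Topology Set Complex
open scoped ENNReal ComplexConjugate
open Pool.Agent.TH942.ES (zv xv)

namespace Pool.Agent.V11288.HS

variable {X : Type} {d : ℕ} {N : X → ℕ} {α : X → Fin d → ℂ}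

theorem Pe.right (P : Pe N α) {δ : ℝ} (hδ : 0 ≤ δ) : Pe N (shr N α δ) := by
  refine ⟨P.cnt, P.two_le, P.sum, P.log_sum, fun v i => ?_⟩
  unfold shr
  have hN := P.Ntwo v
  rw [norm_mul, Complex.norm_real, Real.norm_of_nonneg (Real.rpow_nonneg (P.Npos v).le _)]
  have h1 : (N v : ℝ) ^ (-δ) ≤ 1 :=
    Real.rpow_le_one_of_one_le_of_nonpos (by linarith) (by linarith)
  exact mul_le_one₀ (P.le v i) (Real.rpow_nonneg (P.Npos v).le _) h1

theorem Pp.right {b : ℂ} {m : ℕ} {L₁ : ℂ → ℂ} {κ : ℕ} {η C : ℝ} (P : Pp N α b m L₁ κ η C) {δ : ℝ}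
    (hδ : 0 ≤ δ) :
    Pp N (shr N α δ) (b - δ) m (fun s => L₁ (s + δ)) κ η (|C| * (1 + δ) ^ κ) := by
  have hre : ∀ s : ℂ, (s + (δ : ℂ)).re = s.re + δ := fun s => by simp
  refine ⟨P.toPe.right hδ, P.hη, fun s hs => ?_, fun s hs => ?_, fun s hs => ?_⟩
  · exact DifferentiableAt.comp (f := fun s : ℂ => s + δ) s (P.hG _ (by rw [hre]; linarith)) (by fun_prop)
  · refine (P.hgrow _ (by rw [hre]; linarith)).trans ?_
    have h1 : 1 + ‖s + (δ : ℂ)‖ ≤ (1 + δ) * (1 + ‖s‖) := by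
      have h2 := norm_add_le s (δ : ℂ)
      rw [Complex.norm_real, Real.norm_of_nonneg hδ] at h2
      have : 0 ≤ δ * ‖s‖ := by positivity
      nlinarith
    calc C * (1 + ‖s + (δ : ℂ)‖) ^ κ ≤ |C| * ((1 + δ) * (1 + ‖s‖)) ^ κ :=
          mul_le_mul (le_abs_self _) (pow_le_pow_left₀ (by positivity) h1 κ) (by positivity)
            (abs_nonneg _)
      _ = _ := by rw [mul_pow]; ring
  · rw [P.hL _ (by rw [hre]; linarith), show s + (δ : ℂ) - b = s - (b - δ) by ring]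
    congr 1
    unfold Pool.Agent.TH942.ES.LE
    refine tprod_congr fun v => Finset.prod_congr rfl fun i _ => ?_
    rw [zv_shr (P.toPe.Npos v), xv_add]
    ring_nf

theorem Pe.le_eq (P : Pe N α) {s : ℂ} (hs : 1 / 2 < s.re) :
    Pool.Agent.TH942.ES.LE N α s = exp (∑' v, ∑ i, -log (1 - zv N α v i * xv N v s)) :=
  (P.hasProd hs).tprod_eq

theorem Pp.mul {d' : ℕ} {β : X → Fin d' → ℂ} {b : ℂ} {m m' : ℕ} {L M : ℂ → ℂ} {κ κ' : ℕ} {η C C' : ℝ}
    (P : Pp N α b m L κ η C) (Q : Pp N β b m' M κ' η C') :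
    Pp N (dsum α β) b (m + m') (fun s => L s * M s) (κ + κ') η (C * C') where
  cnt := P.cnt
  two_le := P.two_le
  sum := P.sum
  log_sum := P.log_sum
  le := by
    intro v i
    unfold dsum
    refine Fin.addCases (fun i => ?_) (fun i => ?_) i
    · rw [Fin.append_left]
      exact P.le v i
    · rw [Fin.append_right]
      exact Q.le v i
  hη := P.hη
  hG := fun s hs => (P.hG s hs).mul (Q.hG s hs)
  hgrow := by
    intro s hs
    have h1 := P.hgrow s hs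
    have h2 := Q.hgrow s hs
    rw [norm_mul]
    calc ‖L s‖ * ‖M s‖ ≤ (C * (1 + ‖s‖) ^ κ) * (C' * (1 + ‖s‖) ^ κ') :=
          mul_le_mul h1 h2 (norm_nonneg _) ((norm_nonneg _).trans h1)
      _ = _ := by rw [pow_add]; ring
  hL := by
    intro s hs
    have h1 := P.toPe.hasProd hs
    have h2 := Q.toPe.hasProd hs
    have h3 := h1.mul h2
    have h4 : (fun v => (∏ i, (1 - zv N α v i * xv N v s)⁻¹) *
        (∏ i, (1 - zv N β v i * xv N v s)⁻¹)) =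
        fun v => ∏ i, (1 - zv N (dsum α β) v i * xv N v s)⁻¹ := by
      funext v
      rw [Fin.prod_univ_add]
      simp only [zv_l, zv_r]
    rw [h4] at h3
    rw [P.hL s hs, Q.hL s hs, P.toPe.le_eq hs, Q.toPe.le_eq hs,
      show Pool.Agent.TH942.ES.LE N (dsum α β) s = _ from h3.tprod_eq, pow_add]
    ring

theorem Pc.pp {L : ℂ → ℂ} {κ : ℕ} {η C : ℝ} (P : Pc N α L κ η C) (b : ℂ) : Pp N α b 0 L κ η C :=
  ⟨⟨P.cnt, P.two_le, P.sum, P.log_sum, P.le⟩, P.hη, P.hG, P.hgrow, fun s hs => by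
    rw [P.hL s hs, pow_zero, one_mul]⟩

/-- **The criterion, the formula and the existence of the leading term on the line `Re s = c + δ`** -/
theorem Pp.crit {b : ℂ} {m : ℕ} {L : ℂ → ℂ} {κ : ℕ} {η C : ℝ} (P : Pp N α b m L κ η C)
    {T : X → ℕ → ℂ} {c : ℝ}
    (hT : ∀ v (j : ℕ) (s : ℂ), (∑ i, zv N α v i ^ j) * xv N v ((j : ℂ) * s) =
      T v j / ((N v : ℕ) : ℂ) ^ ((j : ℂ) * (c + s))) {δ : ℝ} (hδ : 0 ≤ δ) :
    ∃ (M : ℝ → ℝ → ℝ → ℝ≥0∞),
      (∀ τ ρ q : ℝ, M τ ρ q = ∫⁻ Y in Ioi (1 : ℝ), ENNReal.ofReal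
        (((∑ᶠ (v : X × ℕ) (_ : (N v.1 : ℝ) ^ (v.2 + 1) ≤ Y),
          (T v.1 (v.2 + 1) / ((N v.1 : ℕ) : ℂ) ^ (((v.2 + 1 : ℕ) : ℂ) *
            (c + (δ + τ * I)))).re / ((v.2 : ℝ) + 1)) -
          m * (Ein ((b - (δ + τ * I)) * Real.log Y)).re +
          (ρ - m) * (Real.eulerMascheroniConstant + Real.log (Real.log Y)) - q) ^ 2 / Y)) ∧
      (∀ (τ ρ : ℝ) {A : ℝ}, 0 < A →
        (((∀ s : ℂ, 0 < s.re → L (s + δ) ≠ 0) ∧ ∃ m : ℕ, ρ = m ∧
          Tendsto (fun s : ℂ => ‖L (s + τ * I + δ)‖ / ‖s‖ ^ m) (𝓝[≠] 0) (𝓝 A)) ↔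
          M τ ρ (Real.log A) < ⊤)) ∧
      (∀ τ ρ q : ℝ, M τ ρ q < ⊤ → M τ ρ q = ENNReal.ofReal (4 * Real.pi)⁻¹ * ∫⁻ t : ℝ, ENNReal.ofReal
        ((Real.log ‖L (((τ + t : ℝ) : ℂ) * I + δ)‖ + Real.log ‖L (((τ - t : ℝ) : ℂ) * I + δ)‖ -
          2 * ρ * Real.log |t| - 2 * q) ^ 2 / t ^ 2)) ∧
      (∀ τ : ℝ, ∃ (m : ℕ) (A : ℝ), 0 < A ∧
        Tendsto (fun s : ℂ => ‖L (s + τ * I + δ)‖ / ‖s‖ ^ m) (𝓝[≠] 0) (𝓝 A)) := by
  have Q := P.right hδ
  refine ⟨fun τ ρ q => Mp N (shr N α δ) m (b - δ) τ ρ q, fun τ ρ q => ?_, fun τ ρ A hA => ?_,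
    fun τ ρ q hfin => ?_, fun τ => ?_⟩
  · have hPa : ∀ Y, Pa N (shr N α δ) τ Y = ∑ᶠ (v : X × ℕ) (_ : (N v.1 : ℝ) ^ (v.2 + 1) ≤ Y),
          (T v.1 (v.2 + 1) / ((N v.1 : ℕ) : ℂ) ^ (((v.2 + 1 : ℕ) : ℂ) *
            (c + (δ + τ * I)))).re / ((v.2 : ℝ) + 1) := by
      intro Y
      unfold Pa
      refine finsum_congr fun p => finsum_congr fun _ => ?_
      rw [shr_term (P.toPe.Npos p.1), hT]
    unfold Mp
    simp only [hPa, sub_sub]
  · exact Q.abs_iff τ ρ hA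
  · exact Q.abs_line τ ρ q hfin
  · obtain ⟨m, g, hg, hg0, hloc⟩ := Q.local_form τ
    refine ⟨m, ‖g 0‖, norm_pos_iff.2 hg0, ?_⟩
    have hn : Tendsto (fun s : ℂ => g s) (𝓝[≠] 0) (𝓝 (g 0)) :=
      hg.continuousAt.tendsto.mono_left nhdsWithin_le_nhds
    refine hn.norm.congr' ?_
    filter_upwards [hloc.filter_mono nhdsWithin_le_nhds, self_mem_nhdsWithin] with s hs hs0
    have h1 : 0 < ‖s‖ := norm_pos_iff.2 hs0
    rw [hs, norm_mul, norm_pow]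
    field_simp

/-! ### over the prime numbers -/

/-- `L₁(1/2 + s)`, divided by `(s - 1/2)^m`, is an Euler product over the prime numbers with the
traces `T(p, j)`, and `L₁` has polynomial growth in `Re s > 1/4` -/
def HalfP (L : ℂ → ℂ) (T : Nat.Primes → ℕ → ℂ) (m : ℕ) : Prop :=
  ∃ (d : ℕ) (α : Nat.Primes → Fin d → ℂ) (κ : ℕ) (C : ℝ),
    Pp np α (1 / 2) m (fun s => L (1 / 2 + s)) κ (1 / 4) C ∧
    ∀ (v : Nat.Primes) (j : ℕ), ∑ i, α v i ^ j = T v j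

theorem HalfP.mul {L M : ℂ → ℂ} {T U : Nat.Primes → ℕ → ℂ} {m m' : ℕ} (h : HalfP L T m)
    (g : HalfP M U m') : HalfP (fun s => L s * M s) (fun v j => T v j + U v j) (m + m') := by
  obtain ⟨d, α, κ, C, P, hP⟩ := h
  obtain ⟨d', β, κ', C', Q, hQ⟩ := g
  refine ⟨d + d', dsum α β, κ + κ', C * C', P.mul Q, fun v j => ?_⟩
  unfold dsum
  rw [Fin.sum_univ_add]
  simp only [Fin.append_left, Fin.append_right, hP, hQ]

theorem Half.toP {L : ℂ → ℂ} {T : Nat.Primes → ℕ → ℂ} (h : Half L T) : HalfP L T 0 := by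
  obtain ⟨d, α, κ, C, P, hP⟩ := h
  exact ⟨d, α, κ, C, P.pp _, hP⟩

theorem zeta_bd (s : ℂ) (hs0 : 0 < s.re) (hs1 : s ≠ 1) :
    ‖riemannZeta s‖ ≤ 1 + 1 / ‖s - 1‖ + ‖s‖ / s.re := by
  rw [ZU.J_a1.zf_one s hs0 hs1]
  have hint : ‖∫ u in Set.Ioi (1 : ℝ), ((Int.fract u : ℝ) : ℂ) * (u : ℂ) ^ (-s - 1)‖ ≤ 1 / s.re := by
    have hI : IntegrableOn (fun u : ℝ => u ^ (-s.re - 1)) (Set.Ioi (1 : ℝ)) :=
      integrableOn_Ioi_rpow_of_lt (by linarith) one_pos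
    have hval : ∫ u in Set.Ioi (1 : ℝ), u ^ (-s.re - 1) = 1 / s.re := by
      rw [integral_Ioi_rpow_of_lt (by linarith) one_pos]
      simp only [Real.one_rpow]
      have e : -s.re - 1 + 1 = -s.re := by ring
      rw [e, neg_div_neg_eq]
    calc ‖∫ u in Set.Ioi (1 : ℝ), ((Int.fract u : ℝ) : ℂ) * (u : ℂ) ^ (-s - 1)‖
        ≤ ∫ u in Set.Ioi (1 : ℝ), u ^ (-s.re - 1) := by
          refine norm_integral_le_of_norm_le hI ?_
          refine (ae_restrict_iff' measurableSet_Ioi).2 (Filter.Eventually.of_forall ?_)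
          intro u hu
          have hu0 : (0 : ℝ) < u := lt_trans one_pos hu
          rw [norm_mul, Complex.norm_cpow_eq_rpow_re_of_pos hu0, Complex.norm_real,
            Real.norm_eq_abs, Int.abs_fract]
          have h4 : Int.fract u ≤ 1 := (Int.fract_lt_one u).le
          have h5 : (-s - 1).re = -s.re - 1 := by simp
          rw [h5]
          exact mul_le_of_le_one_left (Real.rpow_nonneg hu0.le _) h4
      _ = 1 / s.re := hval
  calc ‖1 + 1 / (s - 1) - s * ∫ u in Set.Ioi (1 : ℝ), ((Int.fract u : ℝ) : ℂ) * (u : ℂ) ^ (-s - 1)‖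
      ≤ ‖(1 : ℂ)‖ + ‖1 / (s - 1)‖ +
        ‖s * ∫ u in Set.Ioi (1 : ℝ), ((Int.fract u : ℝ) : ℂ) * (u : ℂ) ^ (-s - 1)‖ :=
        (norm_sub_le _ _).trans (by gcongr; exact norm_add_le _ _)
    _ ≤ 1 + 1 / ‖s - 1‖ + ‖s‖ * (1 / s.re) := by
        rw [norm_one, norm_mul, norm_div, norm_one]
        gcongr
    _ = 1 + 1 / ‖s - 1‖ + ‖s‖ / s.re := by ring

/-- `(s - 1) ζ(s)`, with the value `1` at `s = 1` -/
noncomputable def zeta1 : ℂ → ℂ := Function.update (fun s : ℂ => (s - 1) * riemannZeta s) 1 1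

theorem zeta_entire : Differentiable ℂ zeta1 := by
  unfold zeta1
  rw [← differentiableOn_univ,
    ← differentiableOn_compl_singleton_and_continuousAt_iff (c := 1) Filter.univ_mem]
  refine ⟨?_, ?_⟩
  · intro w hw
    have hw1 : w ≠ 1 := by
      simpa using hw
    have h : DifferentiableAt ℂ (fun w : ℂ => (w - 1) * riemannZeta w) w :=
      (differentiableAt_id.sub_const 1).mul (differentiableAt_riemannZeta hw1)
    refine (h.congr_of_eventuallyEq ?_).differentiableWithinAt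
    filter_upwards [isOpen_compl_singleton.mem_nhds (show w ∈ ({1} : Set ℂ)ᶜ by simpa using hw1)]
      with z hz
    exact Function.update_of_ne (by simpa using hz) _ _
  · rw [continuousAt_update_same]
    exact riemannZeta_residue_one

theorem zeta1_growth {s : ℂ} (hs : 1 / 4 < s.re) : ‖zeta1 s‖ ≤ 8 * (1 + ‖s‖) ^ 2 := by
  by_cases h1 : s = 1
  · rw [h1]
    unfold zeta1
    rw [Function.update_self, norm_one]
    norm_num
  · unfold zeta1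
    rw [Function.update_of_ne h1, norm_mul]
    have h2 := zeta_bd s (by linarith) h1
    have h3 : 0 < ‖s - 1‖ := norm_pos_iff.2 (sub_ne_zero.2 h1)
    have h4 : ‖s - 1‖ ≤ 1 + ‖s‖ := by
      have := norm_sub_le s 1
      rw [norm_one] at this
      linarith
    have h5 : ‖s‖ / s.re ≤ 4 * ‖s‖ := by
      rw [div_le_iff₀ (by linarith)]
      nlinarith [norm_nonneg s]
    have h6 : ‖s - 1‖ * (1 / ‖s - 1‖) = 1 := by field_simp
    calc ‖s - 1‖ * ‖riemannZeta s‖ ≤ ‖s - 1‖ * (1 + 1 / ‖s - 1‖ + 4 * ‖s‖) := by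
          apply mul_le_mul_of_nonneg_left _ h3.le
          linarith
      _ = ‖s - 1‖ * (1 + 4 * ‖s‖) + 1 := by
          rw [mul_add, mul_add, h6]
          ring
      _ ≤ (1 + ‖s‖) * (1 + 4 * ‖s‖) + 1 := by
          have : 0 ≤ 1 + 4 * ‖s‖ := by positivity
          nlinarith
      _ ≤ _ := by nlinarith [norm_nonneg s]

theorem half_zeta : HalfP zeta1 (fun _ _ => 1) 1 := by
  have hre : ∀ s : ℂ, (1 / 2 + s).re = 1 / 2 + s.re := by
    intro s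
    rw [Complex.add_re]
    norm_num
  have B : Pb np (fun (_ : Nat.Primes) (_ : Fin 1) => (1 : ℂ)) := pb_primes fun v i => by simp
  refine ⟨1, fun _ _ => 1, 2, 8 * 4, ⟨⟨B.cnt, B.two_le, B.sum, B.log_sum, B.le⟩, by norm_num,
    fun s hs => ?_, fun s hs => ?_, fun s hs => ?_⟩, fun v j => by simp⟩
  · exact DifferentiableAt.comp (f := fun s : ℂ => 1 / 2 + s) s (zeta_entire _) (by fun_prop)
  · refine (zeta1_growth (by rw [hre]; linarith)).trans ?_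
    have h1 : 1 + ‖(1 / 2 : ℂ) + s‖ ≤ 2 * (1 + ‖s‖) := by
      have h2 := norm_add_le (1 / 2 : ℂ) s
      have h3 : ‖(1 / 2 : ℂ)‖ = 1 / 2 := by norm_num
      rw [h3] at h2
      linarith [norm_nonneg s]
    calc 8 * (1 + ‖(1 / 2 : ℂ) + s‖) ^ 2 ≤ 8 * (2 * (1 + ‖s‖)) ^ 2 := by gcongr
      _ = _ := by ring
  · have hs1 : 1 < (1 / 2 + s).re := by rw [hre]; linarith
    have hne : (1 / 2 + s) ≠ 1 := by
      rintro h
      rw [h, Complex.one_re] at hs1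
      exact lt_irrefl _ hs1
    unfold zeta1
    rw [Function.update_of_ne hne]
    congr 1
    · ring
    · rw [← (riemannZeta_eulerProduct_hasProd hs1).tprod_eq]
      unfold Pool.Agent.TH942.ES.LE
      refine tprod_congr fun v => ?_
      rw [Fin.prod_univ_one]
      congr 2
      have hp : (0 : ℝ) < ((v : ℕ) : ℝ) := by exact_mod_cast v.2.pos
      have hpc : ((v : ℕ) : ℂ) ≠ 0 := by exact_mod_cast hp.ne'
      have hlog : Complex.log ((v : ℕ) : ℂ) = (Real.log ((v : ℕ) : ℝ) : ℂ) := by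
        rw [Complex.ofReal_log hp.le]
        push_cast
        rfl
      have e1 : zv np (fun (_ : Nat.Primes) (_ : Fin 1) => (1 : ℂ)) v 0 =
          exp (-((Real.log ((v : ℕ) : ℝ) : ℂ) * (1 / 2))) := by
        have e2 : zv np (fun (_ : Nat.Primes) (_ : Fin 1) => (1 : ℂ)) v 0 =
            1 / ((√((v : ℕ) : ℝ) : ℝ) : ℂ) := rfl
        rw [e2, Real.sqrt_eq_rpow, Real.rpow_def_of_pos hp, Complex.ofReal_exp, one_div,
          ← Complex.exp_neg]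
        push_cast
        rfl
      rw [e1, Complex.cpow_def_of_ne_zero hpc, hlog]
      unfold xv np
      rw [← Complex.exp_add]
      congr 1
      ring

theorem HalfP.crit {L : ℂ → ℂ} {T : Nat.Primes → ℕ → ℂ} {m : ℕ} (h : HalfP L T m) {δ : ℝ}
    (hδ : 0 ≤ δ) :
    ∃ (M : ℝ → ℝ → ℝ → ℝ≥0∞),
      (∀ τ ρ q : ℝ, M τ ρ q = ∫⁻ Y in Ioi (1 : ℝ), ENNReal.ofReal
        (((∑ᶠ (v : Nat.Primes × ℕ) (_ : ((v.1 : ℕ) : ℝ) ^ (v.2 + 1) ≤ Y),
          (T v.1 (v.2 + 1) / ((v.1 : ℕ) : ℂ) ^ (((v.2 + 1 : ℕ) : ℂ) *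
            (1 / 2 + (δ + τ * I)))).re / ((v.2 : ℝ) + 1)) -
          m * (Ein ((1 / 2 - (δ + τ * I)) * Real.log Y)).re +
          (ρ - m) * (Real.eulerMascheroniConstant + Real.log (Real.log Y)) - q) ^ 2 / Y)) ∧
      (∀ (τ ρ : ℝ) {A : ℝ}, 0 < A →
        (((∀ s : ℂ, 0 < s.re → L (1 / 2 + (s + δ)) ≠ 0) ∧ ∃ m : ℕ, ρ = m ∧
          Tendsto (fun s : ℂ => ‖L (1 / 2 + (s + τ * I + δ))‖ / ‖s‖ ^ m) (𝓝[≠] 0) (𝓝 A)) ↔
          M τ ρ (Real.log A) < ⊤)) ∧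
      (∀ τ ρ q : ℝ, M τ ρ q < ⊤ → M τ ρ q = ENNReal.ofReal (4 * Real.pi)⁻¹ * ∫⁻ t : ℝ, ENNReal.ofReal
        ((Real.log ‖L (1 / 2 + (((τ + t : ℝ) : ℂ) * I + δ))‖ +
          Real.log ‖L (1 / 2 + (((τ - t : ℝ) : ℂ) * I + δ))‖ -
          2 * ρ * Real.log |t| - 2 * q) ^ 2 / t ^ 2)) ∧
      (∀ τ : ℝ, ∃ (m : ℕ) (A : ℝ), 0 < A ∧
        Tendsto (fun s : ℂ => ‖L (1 / 2 + (s + τ * I + δ))‖ / ‖s‖ ^ m) (𝓝[≠] 0) (𝓝 A)) := by
  obtain ⟨d, α, κ, C, P, hP⟩ := h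
  have h1 := P.crit (T := T) (c := 1 / 2) (fun v j s => by
    have hp : (0 : ℝ) < ((np v : ℕ) : ℝ) := by
      unfold np
      exact_mod_cast v.2.pos
    rw [trace_of hp (1 / 2) j s, sub_self, ← hP]
    simp) hδ
  have e : (((1 / 2 : ℝ)) : ℂ) = 1 / 2 := by norm_num
  unfold np at h1
  simp only [e] at h1
  exact h1

end Pool.Agent.V11288.HS
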