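import Pool.Agent.V11288.HS.Pole3

/-! The criterion and the formula in the original variable. -/

set_option autoImplicit false

open MeasureTheory Filter Topology Set Complex
open scoped ENNReal ComplexConjugate
open Pool.Agent.TH942.ES (zv xv)

namespace Pool.Agent.V11288.HS

variable {X : Type} {d : ℕ} {N : X → ℕ} {α : X → Fin d → ℂ}

/-- the conclusions: `M σ τ ρ q` is the mean square at the point `s₀ = σ + iτ` -/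
structure Concl (N : X → ℕ) (T : X → ℕ → ℂ) (b : ℂ) (m : ℕ) (L : ℂ → ℂ) (σ : ℝ)
    (M : ℝ → ℝ → ℝ → ℝ≥0∞) : Prop where
  eq : ∀ τ ρ q : ℝ, M τ ρ q = ∫⁻ Y in Ioi (1 : ℝ), ENNReal.ofReal
    (((∑ᶠ (v : X × ℕ) (_ : (N v.1 : ℝ) ^ (v.2 + 1) ≤ Y),
      (T v.1 (v.2 + 1) / ((N v.1 : ℕ) : ℂ) ^ (((v.2 + 1 : ℕ) : ℂ) * (σ + τ * I))).re /
        ((v.2 : ℝ) + 1)) -
      m * (Ein ((b - (σ + τ * I)) * Real.log Y)).re +
      (ρ - m) * (Real.eulerMascheroniConstant + Real.log (Real.log Y)) - q) ^ 2 / Y)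
  crit : ∀ (τ ρ : ℝ) {A : ℝ}, 0 < A →
    (((∀ s : ℂ, σ < s.re → L s ≠ 0) ∧ ∃ n : ℕ, ρ = n ∧
      Tendsto (fun s : ℂ => ‖L s‖ / ‖s - (σ + τ * I)‖ ^ n) (𝓝[≠] (σ + τ * I)) (𝓝 A)) ↔
      M τ ρ (Real.log A) < ⊤)
  line : ∀ τ ρ q : ℝ, M τ ρ q < ⊤ → M τ ρ q = ENNReal.ofReal (4 * Real.pi)⁻¹ *
    ∫⁻ t : ℝ, ENNReal.ofReal
      ((Real.log ‖L (σ + ((τ + t : ℝ) : ℂ) * I)‖ + Real.log ‖L (σ + ((τ - t : ℝ) : ℂ) * I)‖ -
        2 * ρ * Real.log |t| - 2 * q) ^ 2 / t ^ 2)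
  lead : ∀ τ : ℝ, ∃ (n : ℕ) (A : ℝ), 0 < A ∧
    Tendsto (fun s : ℂ => ‖L s‖ / ‖s - (σ + τ * I)‖ ^ n) (𝓝[≠] (σ + τ * I)) (𝓝 A)

theorem Pp.crit' {L : ℂ → ℂ} {b : ℂ} {c : ℝ} {m κ : ℕ} {η C : ℝ}
    (P : Pp N α (b - c) m (fun s => L (c + s)) κ η C) {T : X → ℕ → ℂ}
    (hT : ∀ v (j : ℕ) (s : ℂ), (∑ i, zv N α v i ^ j) * xv N v ((j : ℂ) * s) =
      T v j / ((N v : ℕ) : ℂ) ^ ((j : ℂ) * (c + s))) {σ : ℝ} (hσ : c ≤ σ) :
    ∃ M : ℝ → ℝ → ℝ → ℝ≥0∞, Concl N T b m L σ M := by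
  obtain ⟨M, h1, h2, h3, h4⟩ := P.crit hT (δ := σ - c) (by linarith)
  have e1 : ∀ τ : ℝ, (c : ℂ) + (((σ - c : ℝ) : ℂ) + τ * I) = σ + τ * I := fun τ => by
    push_cast
    ring
  have e2 : ∀ τ : ℝ, b - c - (((σ - c : ℝ) : ℂ) + τ * I) = b - (σ + τ * I) := fun τ => by
    push_cast
    ring
  have hlead : ∀ (τ : ℝ) (n : ℕ) (A : ℝ),
      Tendsto (fun s : ℂ => ‖L (c + (s + τ * I + ((σ - c : ℝ) : ℂ)))‖ / ‖s‖ ^ n) (𝓝[≠] 0) (𝓝 A) ↔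
      Tendsto (fun s : ℂ => ‖L s‖ / ‖s - (σ + τ * I)‖ ^ n) (𝓝[≠] (σ + τ * I)) (𝓝 A) := by
    intro τ n A
    have h5 : map (fun s : ℂ => s + (σ + τ * I)) (𝓝[≠] 0) = 𝓝[≠] (σ + τ * I) := by
      have : map (fun s : ℂ => s + (σ + τ * I)) (𝓝[≠] 0) = 𝓝[≠] (0 + (σ + τ * I)) :=
        map_add_right_nhdsNE
      rwa [zero_add] at this
    rw [← h5, tendsto_map'_iff]
    refine tendsto_congr fun s => ?_
    simp only [Function.comp_apply, add_sub_cancel_right]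
    congr 3
    push_cast
    ring
  refine ⟨M, fun τ ρ q => ?_, fun τ ρ A hA => ?_, fun τ ρ q h => ?_, fun τ => ?_⟩
  · rw [h1]
    simp only [e1, e2]
  · rw [← h2 τ ρ hA]
    refine and_congr ?_ (exists_congr fun n => and_congr_right fun _ => (hlead τ n A).symm)
    constructor
    · intro h s hs
      refine h _ ?_
      rw [Complex.add_re, Complex.add_re, Complex.ofReal_re, Complex.ofReal_re]
      linarith
    · intro h s hs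
      have h5 := h (s - σ) (by rw [Complex.sub_re, Complex.ofReal_re]; linarith)
      have e : (c : ℂ) + (s - σ + ((σ - c : ℝ) : ℂ)) = s := by
        push_cast
        ring
      rwa [e] at h5
  · rw [h3 τ ρ q h]
    congr 1
    refine lintegral_congr fun t => ?_
    have e : ∀ x : ℝ, (c : ℂ) + (((x : ℝ) : ℂ) * I + ((σ - c : ℝ) : ℂ)) = σ + ((x : ℝ) : ℂ) * I := by
      intro x
      push_cast
      ring
    simp only [e]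
  · obtain ⟨n, A, hA, h5⟩ := h4 τ
    exact ⟨n, A, hA, (hlead τ n A).1 h5⟩

theorem HalfP.crit' {L : ℂ → ℂ} {T : Nat.Primes → ℕ → ℂ} {m : ℕ} (h : HalfP L T m) {σ : ℝ}
    (hσ : 1 / 2 ≤ σ) :
    ∃ M : ℝ → ℝ → ℝ → ℝ≥0∞, Concl (fun v : Nat.Primes => (v : ℕ)) T 1 m L σ M := by
  obtain ⟨d, α, κ, C, P, hP⟩ := h
  have e : (((1 / 2 : ℝ)) : ℂ) = 1 / 2 := by norm_num
  have e2 : (1 : ℂ) - ((1 / 2 : ℝ) : ℂ) = 1 / 2 := by norm_num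
  have P' : Pp np α (1 - ((1 / 2 : ℝ) : ℂ)) m (fun s => L (((1 / 2 : ℝ) : ℂ) + s)) κ (1 / 4) C := by
    rw [e2]
    simp only [e]
    exact P
  exact P'.crit' (T := T) (fun v j s => by
    have hp : (0 : ℝ) < ((np v : ℕ) : ℝ) := by
      unfold np
      exact_mod_cast v.2.pos
    rw [trace_of hp (1 / 2) j s, sub_self, ← hP]
    simp) hσ

end Pool.Agent.V11288.HS
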